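import Pool.Agent.Lib.MP_9dcf40_lc.Defs

/-!
# One more definition for the final theorems
-/

namespace Pool.Agent.Lib.MP_9dcf40_lc

/-- Languages `L` over `A` for which there are a language `B` of the class `C` and advice words `h n`
of length at most `2 ^ ((log n) ^ c + c)` such that for infinitely many `n` there are more than
`(1 / 2 + 2 ^ (- (log n) ^ c)) |A| ^ n` words `x` of length `n` for which it is true that `x ∈ L` if and
only if the pair of `x` and `h n` is in `B`. -/
def IoHeurQ (C : LangClass) (c : ℕ) : LangClass := fun A L =>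
  ∃ (B : Set (List (A ⊕ Bool))) (h : ℕ → List Bool), C (A ⊕ Bool) B ∧
    (∀ n : ℕ, (h n).length ≤ 2 ^ (Nat.log 2 n ^ c + c)) ∧
    ∃ᶠ n : ℕ in Filter.atTop,
      ((1 / 2 : ℝ) + (1 / 2) ^ (Nat.log 2 n ^ c)) * (Nat.card A : ℝ) ^ n <
      ({x : List A | x.length = n ∧
        (x ∈ L ↔ x.map Sum.inl ++ (h x.length).map Sum.inr ∈ B)}.ncard : ℝ)

end Pool.Agent.Lib.MP_9dcf40_lc
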