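import Pool.Agent.Lib.MP_9dcf40_lc.Kn.SpecM

/-!
# Languages: level 2
-/

namespace Pool.Agent.Lib.MP_9dcf40_lc

open Filter

namespace K2D

theorem numK_congr {p q : ℕ → Prop} {N : ℕ} (h : ∀ v < N, (p v ↔ q v)) : numK p N = numK q N := by
  unfold numK
  induction N with
  | zero => simp
  | succ N ih =>
    rw [Nat.count_succ, Nat.count_succ, ih fun v hv => h v (by omega)]
    by_cases hp : p N
    · rw [if_pos hp, if_pos ((h N (by omega)).1 hp)]
    · rw [if_neg hp, if_neg fun hq => hp ((h N (by omega)).2 hq)]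

end K2D

open K2D in
theorem kn_2d (hNP : StKNP) (hW : StKW2) (hC : StKClk) (hU : StKUnpad) (hG : StKGz)
    (hL : StKLen) (hK : StKN) : StK2D := by
  intro hyp
  obtain ⟨V, hdet, ⟨k, hsp⟩, hV⟩ := hyp (Option DA) KN hK
  have : Finite V.Q := V.finQ
  have : Finite V.G := V.finG
  obtain ⟨d₂, -, hclk⟩ := hC (Option DA) V k hdet hsp
  obtain ⟨J, hJ⟩ := hW
  obtain ⟨L₂, hL₂, hL₂'⟩ := hNP VB (PG (Option DA) V.G) PN (w2R V) J
  obtain ⟨D₂, hD₂, hD₂'⟩ := hU hyp L₂ d₂ hL₂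
  refine ⟨d₂, D₂, hD₂, ?_⟩
  obtain ⟨hl2, -, -, -, hsz, hform, -, hpl, hnum⟩ := hL
  obtain ⟨n₀, hn₀⟩ := eventually_atTop.1 hD₂'
  filter_upwards [hclk, hnum d₂ 0, eventually_ge_atTop n₀] with m hclk hnum hm T hT
  have hlen : 2 ^ (4 * m) ≤ (word2 m (m ^ d₂) T).length := by
    rw [hl2, hT, Nat.add_assoc, Nat.add_assoc]
    exact Nat.le_add_right _ _
  have hmlt : m ≤ (word2 m (m ^ d₂) T).length := by
    have h1 : 4 * m < 2 ^ (4 * m) := Nat.lt_two_pow_self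
    omega
  have h1 := hn₀ (word2 m (m ^ d₂) T).length (by omega) _ rfl _ _ (m ^ d₂) []
    (hform m (m ^ d₂) T) (Nat.pow_le_pow_left (hsz m _ hlen) d₂)
  rw [h1, not_iff_not, hL₂' _ _ fun c => hJ V m (m ^ d₂) T c hT]
  have hacc : ∀ z : List DA, z.length = 2 ^ m → ∀ v,
      (accV V (2 ^ m ^ d₂) m z v ↔ accKN m z v) := by
    intro z hz v
    have h2 := hclk (padL (z ++ (lst (4 * m) v).map bitL) (2 * 2 ^ m)) (by
      rw [hpl, hz]
      exact hnum.2)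
    rw [← hV] at h2
    exact h2.symm
  have hkey : ∀ z : List DA, z.length = 2 ^ m →
      (2 ^ (3 * m) + numK (fun v => ¬ (accV V (2 ^ m ^ d₂) m z v ↔ T[v]? = some true))
        (2 ^ (4 * m)) <
        numK (fun v => accV V (2 ^ m ^ d₂) m z v ↔ T[v]? = some true) (2 ^ (4 * m)) ↔
      2 ^ (3 * m) + numK (fun v => ¬ (accKN m z v ↔ T[v]? = some true)) (2 ^ (4 * m)) <
        numK (fun v => accKN m z v ↔ T[v]? = some true) (2 ^ (4 * m))) := by
    intro z hz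
    rw [numK_congr (p := fun v => ¬ (accV V (2 ^ m ^ d₂) m z v ↔ T[v]? = some true))
      (q := fun v => ¬ (accKN m z v ↔ T[v]? = some true)) fun v _ => by rw [hacc z hz v],
      numK_congr (p := fun v => (accV V (2 ^ m ^ d₂) m z v ↔ T[v]? = some true))
      (q := fun v => (accKN m z v ↔ T[v]? = some true)) fun v _ => by rw [hacc z hz v]]
  constructor
  · rintro ⟨c, hc⟩
    exact ⟨gword (2 ^ m) c [], hG.1 _ _, (hkey _ (hG.1 _ _)).1 hc⟩
  · rintro ⟨z, hz, h⟩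
    obtain ⟨c, hc⟩ := hG.2.1 z
    rw [hz] at hc
    refine ⟨c, ?_⟩
    rw [hc]
    exact (hkey z hz).2 h

end Pool.Agent.Lib.MP_9dcf40_lc
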