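import Pool.Agent.Lib.MP_9dcf40_lc.Kn.SpecM

/-!
# Languages: level 3
-/

namespace Pool.Agent.Lib.MP_9dcf40_lc

open Filter

theorem kn_3d (h2 : StK2D) (hNP : StKNP) (hW : StKW3) (hC : StKClk) (hU : StKUnpad)
    (hL : StKLen) : StK3D := by
  intro hyp
  obtain ⟨d₂, D₂, hD₂, hD₂'⟩ := h2 hyp
  obtain ⟨U, hdet, ⟨k, hsp⟩, hU'⟩ := hD₂
  have : Finite U.Q := U.finQ
  have : Finite U.G := U.finG
  obtain ⟨d₃, -, hclk⟩ := hC DA U k hdet hsp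
  obtain ⟨J, hJ⟩ := hW
  obtain ⟨L₃, hL₃, hL₃'⟩ := hNP VB (PG DA U.G) PN (w3R U) J
  obtain ⟨D₃, hD₃, hD₃'⟩ := hU hyp L₃ d₃ hL₃
  refine ⟨d₂, d₃, D₃, hD₃, ?_⟩
  obtain ⟨hl2, hl3, -, -, hsz, -, hform, -, hnum⟩ := hL
  obtain ⟨n₀, hn₀⟩ := eventually_atTop.1 hD₃'
  filter_upwards [hclk, hnum d₂ 0, hD₂', eventually_ge_atTop n₀] with m hclk hnum hD2 hm u hu
  have hlen : 2 ^ (4 * m) ≤ (word3 m (m ^ d₂) (m ^ d₃) u).length := by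
    rw [hl3 _ _ _ _ hu, Nat.add_assoc, Nat.add_assoc, Nat.add_assoc]
    exact Nat.le_add_right _ _
  have hmlt : m ≤ (word3 m (m ^ d₂) (m ^ d₃) u).length := by
    have h1 : 4 * m < 2 ^ (4 * m) := Nat.lt_two_pow_self
    omega
  have h1 := hn₀ (word3 m (m ^ d₂) (m ^ d₃) u).length (by omega) _ rfl _ _ (m ^ d₃) _
    (hform m (m ^ d₂) (m ^ d₃) u) (Nat.pow_le_pow_left (hsz m _ hlen) d₃)
  obtain ⟨f, hf₁, hf₂, hf₃⟩ := hJ U m (m ^ d₂) (m ^ d₃) u hu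
  rw [h1, not_iff_not, hL₃' _ _ hf₃]
  have hkey : ∀ T : List Bool, T.length = 2 ^ (4 * m) →
      ((∃ t ≤ 2 ^ m ^ d₃, U.out (U.run (word2 m (m ^ d₂) T) (fun _ => false) t).q = some true) ↔
        ¬ BadK m T) := by
    intro T hT
    rw [← hD2 T hT, hU']
    refine (hclk _ ?_).symm
    have h3 := hl2 m (m ^ d₂) T
    rw [hT] at h3
    calc (word2 m (m ^ d₂) T).length = 2 ^ (4 * m) + (4 * m + 2 ^ m + 2 ^ (3 * m)) + m ^ d₂ + 4 :=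
          h3
      _ ≤ 2 ^ (4 * m) + (4 * m + 2 ^ m + 2 ^ (3 * m)) + m ^ d₂ + m ^ 0 + 4 := by
          exact Nat.add_le_add_right (Nat.le_add_right _ _) 4
      _ ≤ 2 ^ (6 * m) := hnum.1
  constructor
  · rintro ⟨c, hc⟩
    exact ⟨f c, (hf₁ c).1, (hf₁ c).2, (hkey _ (hf₁ c).1).1 hc⟩
  · rintro ⟨T, hT, hu', hB⟩
    obtain ⟨c, rfl⟩ := hf₂ T hT hu'
    exact ⟨c, (hkey _ hT).2 hB⟩

end Pool.Agent.Lib.MP_9dcf40_lc
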