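import Pool.Agent.Lib.MP_9dcf40_lc.Kn.SpecM

/-!
# Languages: level 4
-/

namespace Pool.Agent.Lib.MP_9dcf40_lc

open Filter

theorem kn_4l (h3 : StK3D) (hNP : StKNP) (hW : StKW4) (hC : StKClk) (hCh : StKCher)
    (hF : StKFirst) (hL : StKLen) : StK4L := by
  intro hyp
  obtain ⟨d₂, d₃, D₃, hD₃, hD₃'⟩ := h3 hyp
  obtain ⟨U, hdet, ⟨k, hsp⟩, hU'⟩ := hD₃
  have : Finite U.Q := U.finQ
  have : Finite U.G := U.finG
  obtain ⟨d₄, hd₄, hclk⟩ := hC DA U k hdet hsp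
  obtain ⟨J, hJ⟩ := hW
  obtain ⟨L₄, hL₄, hL₄'⟩ := hNP VB (PG DA U.G) PN (w4R U) J
  refine ⟨d₂, d₃, d₄, L₄, hd₄, hL₄, ?_⟩
  obtain ⟨-, hl3, -, -, -, -, -, -, hnum⟩ := hL
  filter_upwards [hclk, hnum d₂ d₃, hD₃', eventually_ge_atTop 4] with m hclk hnum hD3 hm
  -- the clock is longer than `4 m`
  have hm4 : 4 * m ≤ m ^ d₄ := by
    calc 4 * m ≤ m * m := Nat.mul_le_mul_right m hm
      _ = m ^ 2 := by ring
      _ ≤ m ^ d₄ := Nat.pow_le_pow_right (by omega) hd₄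
  set q : List Bool → Prop := fun u => ∃ t ≤ 2 ^ m ^ d₄,
      U.out (U.run (word3 m (m ^ d₂) (m ^ d₃) (u ++ [false])) (fun _ => false) t).q = some true
    with hq
  have hkey : ∀ u : List Bool, u.length < 2 ^ (4 * m) →
      (q u ↔ ¬ ∃ T : List Bool, T.length = 2 ^ (4 * m) ∧ (u ++ [false]) <+: T ∧ ¬ BadK m T) := by
    intro u hu
    have hu' : (u ++ [false]).length ≤ 2 ^ (4 * m) := by
      rw [List.length_append]
      exact hu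
    have h1 := hD3 (u ++ [false]) hu'
    have h2 := hclk (word3 m (m ^ d₂) (m ^ d₃) (u ++ [false])) (by
      rw [hl3 _ _ _ _ hu']
      exact hnum.1)
    rw [← hU', h1] at h2
    exact h2.symm
  obtain ⟨T₀, hT₀, hB₀⟩ := hCh (accKN m) m (by omega)
  obtain ⟨hT, hG⟩ := hF (fun T => ¬ BadK m T) q (2 ^ (4 * m)) ⟨T₀, hT₀, hB₀⟩ hkey
  refine ⟨tabOf q (2 ^ (4 * m)), hT, hG, fun x hx => ?_⟩
  rw [hL₄' _ _ fun c => hJ U m (m ^ d₂) (m ^ d₃) (m ^ d₄) x c hm4 hx]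
  exact ⟨fun ⟨_, h⟩ => h, fun h => ⟨fun _ => false, h⟩⟩

end Pool.Agent.Lib.MP_9dcf40_lc
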