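import Pool.Agent.Lib.MP_9dcf40_lc.Kn.SpecM

/-!
# There is a table which is not bad
-/

namespace Pool.Agent.Lib.MP_9dcf40_lc

namespace KCher

open Classical Finset

/-- agreements minus disagreements -/
noncomputable def XX (acc : List DA → ℕ → Prop) (z : List DA) {N : ℕ} (f : Fin N → Bool) : ℝ :=
  ∑ v : Fin N, if (acc z v ↔ f v = true) then (1 : ℝ) else -1

theorem numK_sub (p : ℕ → Prop) (N : ℕ) :
    (numK p N : ℝ) - numK (fun v => ¬ p v) N = ∑ v ∈ range N, if p v then (1 : ℝ) else -1 := by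
  unfold numK
  rw [Nat.count_eq_card_filter_range, Nat.count_eq_card_filter_range, card_filter, card_filter]
  push_cast
  rw [← sum_sub_distrib]
  refine sum_congr rfl fun v _ => ?_
  by_cases h : p v <;> simp [h]

theorem bad_iff (acc : List DA → ℕ → Prop) (m : ℕ) (f : Fin (2 ^ (4 * m)) → Bool)
    (h : BadOf acc m (List.ofFn f)) :
    ∃ z : Fin (2 ^ m) → DA, (2 : ℝ) ^ (3 * m) < XX acc (List.ofFn z) f := by
  obtain ⟨z, hz, h⟩ := h
  obtain ⟨z', rfl⟩ : ∃ z' : Fin (2 ^ m) → DA, List.ofFn z' = z := by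
    refine ⟨fun i => z[i.1]'(by rw [hz]; exact i.2), ?_⟩
    apply List.ext_getElem
    · simp [hz]
    · intro i h1 h2
      simp
  refine ⟨z', ?_⟩
  have h1 := numK_sub (fun v => acc (List.ofFn z') v ↔ (List.ofFn f)[v]? = some true)
    (2 ^ (4 * m))
  rw [Finset.sum_range] at h1
  have h2 : XX acc (List.ofFn z') f =
      (numK (fun v => acc (List.ofFn z') v ↔ (List.ofFn f)[v]? = some true) (2 ^ (4 * m)) : ℝ) -
      numK (fun v => ¬ (acc (List.ofFn z') v ↔ (List.ofFn f)[v]? = some true)) (2 ^ (4 * m)) := by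
    rw [h1]
    unfold XX
    refine sum_congr rfl fun v _ => ?_
    have h3 : (List.ofFn f)[(v : ℕ)]? = some (f v) := by
      rw [List.getElem?_ofFn]
      simp
    have h4 : (acc (List.ofFn z') v ↔ (List.ofFn f)[(v : ℕ)]? = some true) ↔
        (acc (List.ofFn z') v ↔ f v = true) := by
      rw [h3, Option.some.injEq]
    by_cases h5 : (acc (List.ofFn z') v ↔ f v = true)
    · rw [if_pos h5, if_pos (h4.2 h5)]
    · rw [if_neg h5, if_neg (mt h4.1 h5)]
  rw [h2]
  have h6 : ((2 ^ (3 * m) + numK (fun v => ¬ (acc (List.ofFn z') v ↔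
      (List.ofFn f)[v]? = some true)) (2 ^ (4 * m)) : ℕ) : ℝ) <
      (numK (fun v => acc (List.ofFn z') v ↔ (List.ofFn f)[v]? = some true) (2 ^ (4 * m)) : ℝ) :=
    Nat.cast_lt.2 h
  push_cast at h6
  linarith

theorem sum_exp (acc : List DA → ℕ → Prop) (z : List DA) (N : ℕ) (t : ℝ) :
    ∑ f : Fin N → Bool, Real.exp (t * XX acc z f) = (2 * Real.cosh t) ^ N := by
  have h1 : ∀ f : Fin N → Bool, Real.exp (t * XX acc z f) =
      ∏ v : Fin N, Real.exp (t * if (acc z v ↔ f v = true) then (1 : ℝ) else -1) := by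
    intro f
    rw [XX, mul_sum, Real.exp_sum]
  rw [sum_congr rfl fun f _ => h1 f]
  have h2 := Finset.prod_univ_sum (fun _ : Fin N => (univ : Finset Bool))
    (fun v b => Real.exp (t * if (acc z v ↔ b = true) then (1 : ℝ) else -1))
  rw [Fintype.piFinset_univ] at h2
  rw [← h2]
  have h3 : ∀ v : Fin N, ∑ b : Bool, Real.exp (t * if (acc z v ↔ b = true) then (1 : ℝ) else -1) =
      2 * Real.cosh t := by
    intro v
    rw [Fintype.sum_bool, Real.cosh_eq]
    by_cases h : acc z v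
    · simp [h]
      ring
    · simp [h]
      ring
  rw [prod_congr rfl fun v _ => h3 v, prod_const, card_univ, Fintype.card_fin]

theorem card_DA : Fintype.card DA = 8 := rfl

theorem num (m : ℕ) (hm : 3 ≤ m) (h : Real.exp (2 ^ (2 * m)) ≤
    (8 : ℝ) ^ (2 ^ m) * Real.exp (2 ^ (2 * m) / 2)) : False := by
  have h1 : (8 : ℝ) ^ (2 ^ m) = Real.exp (2 ^ m * Real.log 8) := by
    rw [mul_comm, Real.exp_mul, Real.exp_log (by norm_num)]
    norm_cast
  rw [h1, ← Real.exp_add, Real.exp_le_exp] at h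
  have h2 : Real.log 8 < 4 := by
    have : (8 : ℝ) = 2 ^ 3 := by norm_num
    rw [this, Real.log_pow]
    have := Real.log_two_lt_d9
    push_cast
    linarith
  have h3 : (8 : ℝ) ≤ 2 ^ m := by
    calc (8 : ℝ) = 2 ^ 3 := by norm_num
      _ ≤ 2 ^ m := pow_le_pow_right₀ (by norm_num) hm
  have h4 : (2 : ℝ) ^ (2 * m) = 2 ^ m * 2 ^ m := by rw [two_mul, pow_add]
  rw [h4] at h
  nlinarith [mul_pos (show (0 : ℝ) < 2 ^ m by positivity) (show (0 : ℝ) < 4 - Real.log 8 by linarith)]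

end KCher

open KCher in
theorem kn_cher : StKCher := by
  classical
  intro acc m hm
  by_contra hno
  push Not at hno
  set N := 2 ^ (4 * m) with hN
  have hbad : ∀ f : Fin N → Bool, ∃ z : Fin (2 ^ m) → DA,
      (2 : ℝ) ^ (3 * m) < XX acc (List.ofFn z) f :=
    fun f => bad_iff acc m f (hno _ (List.length_ofFn))
  set t : ℝ := (1 / 2) ^ m with ht
  have htpos : 0 < t := by positivity
  -- lower bound
  have h1 : (2 : ℝ) ^ N * Real.exp (2 ^ (2 * m)) ≤
      ∑ f : Fin N → Bool, ∑ z : Fin (2 ^ m) → DA, Real.exp (t * XX acc (List.ofFn z) f) := by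
    have h2 : ∀ f ∈ (Finset.univ : Finset (Fin N → Bool)), Real.exp (2 ^ (2 * m)) ≤
        ∑ z : Fin (2 ^ m) → DA, Real.exp (t * XX acc (List.ofFn z) f) := by
      intro f _
      obtain ⟨z, hz⟩ := hbad f
      refine le_trans ?_ (Finset.single_le_sum (f := fun z : Fin (2 ^ m) → DA =>
        Real.exp (t * XX acc (List.ofFn z) f)) (fun z _ => (Real.exp_pos _).le)
        (Finset.mem_univ z))
      apply Real.exp_le_exp.2
      have e : (2 : ℝ) ^ (2 * m) = t * 2 ^ (3 * m) := by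
        have : (2 : ℝ) ^ (3 * m) = 2 ^ m * 2 ^ (2 * m) := by rw [← pow_add]; congr 1; ring
        rw [this, ht, ← mul_assoc, ← mul_pow]
        norm_num
      rw [e]
      exact mul_le_mul_of_nonneg_left hz.le htpos.le
    have h3 := Finset.card_nsmul_le_sum _ _ _ h2
    rw [Finset.card_univ, Fintype.card_fun, Fintype.card_fin, Fintype.card_bool,
      nsmul_eq_mul] at h3
    push_cast at h3
    exact h3
  rw [Finset.sum_comm] at h1
  simp only [sum_exp] at h1
  rw [Finset.sum_const, Finset.card_univ, Fintype.card_fun, Fintype.card_fin, card_DA,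
    nsmul_eq_mul, mul_pow] at h1
  push_cast at h1
  -- upper bound
  have h4 : Real.cosh t ^ N ≤ Real.exp (2 ^ (2 * m) / 2) := by
    calc Real.cosh t ^ N ≤ (Real.exp (t ^ 2 / 2)) ^ N :=
          pow_le_pow_left₀ (Real.cosh_pos t).le (Real.cosh_le_exp_half_sq t) N
      _ = Real.exp (2 ^ (2 * m) / 2) := by
          rw [← Real.exp_nat_mul]
          congr 1
          rw [ht, hN]
          push_cast
          have e1 : (2 : ℝ) ^ (4 * m) = 2 ^ (2 * m) * 2 ^ (2 * m) := by
            rw [← pow_add]; congr 1; ring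
          have e2 : (((1 : ℝ) / 2) ^ m) ^ 2 = (1 / 2) ^ (2 * m) := by rw [← pow_mul, mul_comm]
          rw [e1, e2]
          have e3 : (2 : ℝ) ^ (2 * m) * (1 / 2) ^ (2 * m) = 1 := by
            rw [← mul_pow]
            norm_num
          linear_combination (2 : ℝ) ^ (2 * m) / 2 * e3
  have hpos : (0 : ℝ) < 2 ^ N := by positivity
  refine num m hm ?_
  have h5 : (2 : ℝ) ^ N * Real.exp (2 ^ (2 * m)) ≤
      2 ^ N * ((8 : ℝ) ^ (2 ^ m) * Real.exp (2 ^ (2 * m) / 2)) := by
    calc (2 : ℝ) ^ N * Real.exp (2 ^ (2 * m)) ≤ 8 ^ 2 ^ m * (2 ^ N * Real.cosh t ^ N) := h1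
      _ = 2 ^ N * (8 ^ 2 ^ m * Real.cosh t ^ N) := by ring
      _ ≤ _ := by gcongr
  exact le_of_mul_le_mul_left h5 hpos

end Pool.Agent.Lib.MP_9dcf40_lc
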