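import Pool.Agent.Lib.MP_9dcf40_lc.Kn.SpecM

/-!
# Acceptance within the clock
-/

namespace Pool.Agent.Lib.MP_9dcf40_lc

open Filter

theorem kn_clk (hC : StClock) (hN : StKNum1) : StKClk := by
  intro B V k hdet hsp
  obtain ⟨d, hd, hn⟩ := hN (Nat.card V.Q) (Nat.card V.G) k
  refine ⟨d, hd, ?_⟩
  filter_upwards [hn] with m hm z hz
  constructor
  · intro ha
    obtain ⟨t, ht, ho⟩ := hC B V z _ hdet (hsp z) ha
    exact ⟨t, ht.le.trans (hm z.length hz), ho⟩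
  · rintro ⟨t, -, ho⟩
    exact ⟨_, t, ho⟩

end Pool.Agent.Lib.MP_9dcf40_lc
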