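import Pool.Agent.Lib.MP_9dcf40_lc.Kn.SpecM

/-!
# Binary counters (`StKCnt`)
-/

namespace Pool.Agent.Lib.MP_9dcf40_lc

open Rout

namespace KCnt

theorem data_ext {Γ ι : Type} {D D' : Data Γ ι} (h : D.pos = D'.pos)
    (h' : ∀ k, D.st k = D'.st k) : D = D' := by
  cases D
  cases D'
  simp only at h h'
  subst h
  exact congrArg _ (funext h')

theorem cstep_len (b : Bool) (l : List Bool) : (cstep b l).1.length = l.length := by
  induction l with
  | nil => rfl
  | cons a l ih =>
    unfold cstep
    split_ifs
    · simp only [List.length_cons, ih]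
    · simp only [List.length_cons]

variable {B G : Type} [Finite B] [Finite G] {y : List VB} {s : ℕ} {D : Data (PG B G) PN} {c : Str}

theorem loop_ok (b : Bool) (i : PN) (l : List Bool) (hi : i ≠ .H) (hH : D.st .H = [])
    (hl : D.st i = l.map .bit) (hD : D.le s) :
    EndsT 4 y (iter (τ := Unit) (fun _ => (pop i).bind fun (o : Option (PG B G)) =>
      match o with
      | none => pureR (.inr true)
      | some (.bit a) => if a = b then (push .H (.bit (!b))).bind fun _ => pureR (.inl ())
          else (push i (.bit b)).bind fun _ => pureR (.inr false)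
      | some g => (push i g).bind fun _ => pureR (.inr false)) ()) s D c
      fun f D' c' => c' = c ∧ f = (cstep b l).2 ∧ D'.pos = D.pos ∧
        (∀ k, k ≠ i → k ≠ .H → D'.st k = D.st k) ∧ ∃ u v, (cstep b l).1 = u ++ v ∧
        D'.st i = v.map .bit ∧ D'.st .H = (u.map .bit).reverse := by
  refine endsT_iter (J := 2) (fun _ D' c' => D'.le s ∧ c' = c ∧ D'.pos = D.pos ∧
    (∀ k, k ≠ i → k ≠ .H → D'.st k = D.st k) ∧ ∃ u v, cstep b l = (u ++ (cstep b v).1,
      (cstep b v).2) ∧ D'.st i = v.map .bit ∧ D'.st .H = (u.map .bit).reverse)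
    (fun _ D' => (D'.st i).length) ?_
    ⟨hD, rfl, rfl, fun _ _ _ => rfl, [], l, rfl, hl, hH⟩ ((hD i).trans (by omega))
  rintro ⟨⟩ D' c' ⟨hD', rfl, hpos, hk, u, v, huv, hv, hu⟩
  refine endsT_seq (J₁ := 0) (J₂ := 1) (by omega) (by omega) (P := fun o D'' c'' => c'' = c' ∧
    o = (D'.st i).head? ∧ D'' = ⟨D'.pos, Function.update D'.st i (D'.st i).tail⟩)
    (endsT_pop i hD' ⟨rfl, rfl, rfl⟩) ?_
  rintro o D'' c'' hD'' ⟨rfl, rfl, rfl⟩
  have hlen : l.length = u.length + v.length := by
    have h1 := congrArg (fun p => p.1.length) huv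
    simp only [List.length_append, cstep_len] at h1
    exact h1
  have hls : l.length ≤ s := by
    have := hD i
    rwa [hl, List.length_map] at this
  cases v with
  | nil =>
    simp only [List.map_nil] at hv
    rw [hv] at hD'' ⊢
    refine endsT_pure _ hD'' ⟨fun t' ht => absurd ht (by simp), fun f hf => ⟨rfl, ?_, hpos,
      fun k hki hkH => ?_, u, [], ?_, ?_, ?_⟩⟩
    · simp only [Sum.inr.injEq] at hf
      rw [← hf, huv]
      rfl
    · dsimp only
      rw [Function.update_of_ne hki]
      exact hk k hki hkH
    · rw [huv]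
      rfl
    · simp
    · dsimp only
      rw [Function.update_of_ne hi.symm, hu]
  | cons a v =>
    rw [List.map_cons] at hv
    have hH1 : Function.update D'.st i (v.map .bit) .H = (u.map .bit).reverse := by
      rw [Function.update_of_ne hi.symm, hu]
    rw [hv] at hD'' ⊢
    simp only [List.head?_cons, List.tail_cons] at hD'' ⊢
    by_cases hab : a = b
    · subst hab
      rw [if_pos rfl]
      refine endsT_seq (J₁ := 0) (J₂ := 0) (by omega) (by omega) (P := fun _ D₃ c₃ => c₃ = c'' ∧
        D₃ = ⟨D'.pos, Function.update (Function.update D'.st i (v.map .bit)) .H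
          (.bit (!a) :: (u.map .bit).reverse)⟩) (endsT_push .H (.bit (!a)) hD'' ?_ ⟨rfl, by dsimp only; rw [hH1]⟩) ?_
      · dsimp only
        rw [hH1]
        simp only [List.length_reverse, List.length_map, List.length_cons] at hlen ⊢
        omega
      rintro _ D₃ c₃ hD₃ ⟨rfl, rfl⟩
      refine endsT_pure _ hD₃ ⟨fun t' ht => ⟨⟨hD₃, rfl, hpos, fun k hki hkH => ?_, u ++ [!a], v,
        ?_, ?_, ?_⟩, ?_⟩, fun b hb => absurd hb (by simp)⟩
      · dsimp only
        rw [Function.update_of_ne hkH, Function.update_of_ne hki]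
        exact hk k hki hkH
      · rw [huv, cstep, if_pos rfl]
        simp
      · dsimp only
        rw [Function.update_of_ne hi, Function.update_self]
      · dsimp only
        rw [Function.update_self]
        simp
      · dsimp only
        rw [Function.update_of_ne hi, Function.update_self]
        simp
    · rw [if_neg hab]
      refine endsT_seq (J₁ := 0) (J₂ := 0) (by omega) (by omega) (P := fun _ D₃ c₃ => c₃ = c'' ∧
        D₃ = ⟨D'.pos, Function.update (Function.update D'.st i (v.map .bit)) i
          (.bit b :: v.map .bit)⟩) (endsT_push i (.bit b) hD'' ?_ ⟨rfl, by dsimp only; rw [Function.update_self]⟩) ?_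
      · dsimp only
        rw [Function.update_self]
        simp only [List.length_map, List.length_cons] at hlen ⊢
        omega
      rintro _ D₃ c₃ hD₃ ⟨rfl, rfl⟩
      have e : cstep b (a :: v) = (b :: v, false) := by
        rw [cstep, if_neg hab]
      rw [e] at huv
      refine endsT_pure _ hD₃ ⟨fun t' ht => absurd ht (by simp), fun f hf => ⟨rfl, ?_, hpos,
        fun k hki hkH => ?_, u, b :: v, ?_, ?_, ?_⟩⟩
      · simp only [Sum.inr.injEq] at hf
        rw [← hf, huv]
      · dsimp only
        rw [Function.update_of_ne hki, Function.update_of_ne hki]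
        exact hk k hki hkH
      · rw [huv]
      · dsimp only
        rw [Function.update_self]
        rfl
      · dsimp only
        rw [Function.update_of_ne hi.symm, Function.update_of_ne hi.symm, hu]

end KCnt

open KCnt in
theorem kn_cnt (hM : StKMv) : StKCnt := by
  obtain ⟨J, hM⟩ := hM
  refine ⟨J + 20, ?_⟩
  intro B G _ _ y s D c b i l hD hi hH hl
  refine endsT_seq (J₁ := 4) (J₂ := J + 10) (by omega) (by omega)
    (loop_ok b i l hi hH hl hD) ?_
  rintro f D' c' hD' ⟨rfl, rfl, hpos, hk, u, v, huv, hv, hu⟩
  have hls : l.length ≤ s := by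
    have := hD i
    rwa [hl, List.length_map] at this
  have hlen : u.length + v.length = l.length := by
    rw [← cstep_len b l, huv, List.length_append]
  have h1 := (hM B G y s D' c' hD').2.1 id .H i hi.symm (by
    rw [hu, hv]
    simp only [List.length_reverse, List.length_map]
    omega)
  refine endsT_seq (J₁ := J) (J₂ := 0) (by omega) (by omega) h1 ?_
  rintro _ D₂ c₂ hD₂ ⟨rfl, rfl⟩
  refine endsT_pure _ hD₂ ⟨rfl, rfl, data_ext hpos fun k => ?_⟩
  dsimp only
  by_cases hki : k = i
  · subst hki
    rw [Function.update_self, Function.update_self, hu, hv, huv]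
    simp
  · rw [Function.update_of_ne hki, Function.update_of_ne hki]
    by_cases hkH : k = .H
    · subst hkH
      rw [Function.update_self, hH]
    · rw [Function.update_of_ne hkH]
      exact hk k hki hkH

end Pool.Agent.Lib.MP_9dcf40_lc
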