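import Pool.Agent.Lib.MP_9dcf40_lc.Kn.SpecM

/-!
# Doubling and powers (`StKExp`)
-/

namespace Pool.Agent.Lib.MP_9dcf40_lc

open Rout

namespace KExp

theorem data_ext {Γ ι : Type} {D D' : Data Γ ι} (h : D.pos = D'.pos)
    (h' : ∀ k, D.st k = D'.st k) : D = D' := by
  cases D
  cases D'
  simp only at h h'
  subst h
  exact congrArg _ (funext h')

variable {B G : Type} [Finite B] [Finite G] {y : List VB} {s : ℕ} {D : Data (PG B G) PN} {c : Str}

/-- The loop of `dblK`. -/
theorem mvHH_ok (j : PN) (n : ℕ) (hj : j ≠ .H) (hH : D.st .H = [])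
    (hn : D.st j = List.replicate n .mark) (hD : D.le s) (hs : 2 * n ≤ s) :
    EndsT 5 y (mv2K id j .H .H) s D c fun _ D' c' => c' = c ∧
      D' = ⟨D.pos, Function.update (Function.update D.st j []) .H
        (List.replicate (2 * n) .mark)⟩ := by
  refine endsT_iter (J := 3) (fun _ D' c' => D'.le s ∧ c' = c ∧ D'.pos = D.pos ∧
    (∀ k, k ≠ j → k ≠ .H → D'.st k = D.st k) ∧ ∃ a b, a + b = n ∧
      D'.st j = List.replicate a .mark ∧ D'.st .H = List.replicate (2 * b) .mark)
    (fun _ D' => (D'.st j).length) ?_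
    ⟨hD, rfl, rfl, fun _ _ _ => rfl, n, 0, rfl, hn, hH⟩ ((hD j).trans (by omega))
  rintro ⟨⟩ D' c' ⟨hD', rfl, hpos, hk, a, b, hab, ha, hb⟩
  refine endsT_seq (J₁ := 0) (J₂ := 2) (by omega) (by omega) (P := fun o D'' c'' => c'' = c' ∧
    o = (D'.st j).head? ∧ D'' = ⟨D'.pos, Function.update D'.st j (D'.st j).tail⟩)
    (endsT_pop j hD' ⟨rfl, rfl, rfl⟩) ?_
  rintro o D'' c'' hD'' ⟨rfl, rfl, rfl⟩
  rw [ha] at hD'' ⊢
  cases a with
  | zero =>
    have hbn : b = n := by omega
    subst hbn
    refine endsT_pure _ hD'' ⟨fun t' ht => absurd ht (by simp), fun b hb' => ⟨rfl, ?_⟩⟩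
    refine data_ext hpos fun k => ?_
    dsimp only
    by_cases hkH : k = .H
    · subst hkH
      rw [Function.update_of_ne hj.symm, Function.update_self, hb]
    · rw [Function.update_of_ne hkH]
      by_cases hkj : k = j
      · subst hkj
        rw [Function.update_self, Function.update_self]
        rfl
      · rw [Function.update_of_ne hkj, Function.update_of_ne hkj]
        exact hk k hkj hkH
  | succ a =>
    simp only [List.replicate_succ, List.head?_cons, List.tail_cons] at hD'' ⊢
    have hH1 : Function.update D'.st j (List.replicate a .mark) .H =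
        List.replicate (2 * b) .mark := by
      rw [Function.update_of_ne hj.symm, hb]
    refine endsT_seq (J₁ := 0) (J₂ := 1) (by omega) (by omega) (P := fun _ D₃ c₃ => c₃ = c'' ∧
      D₃ = ⟨D'.pos, Function.update (Function.update D'.st j (List.replicate a .mark)) .H
        (List.replicate (2 * b + 1) .mark)⟩)
      (endsT_push .H .mark hD'' ?_ ⟨rfl, by dsimp only; rw [hH1]; rfl⟩) ?_
    · dsimp only
      rw [hH1, List.length_replicate]
      omega
    rintro _ D₃ c₃ hD₃ ⟨rfl, rfl⟩
    refine endsT_seq (J₁ := 0) (J₂ := 0) (by omega) (by omega) (P := fun _ D₄ c₄ => c₄ = c₃ ∧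
      D₄ = ⟨D'.pos, Function.update (Function.update D'.st j (List.replicate a .mark)) .H
        (List.replicate (2 * (b + 1)) .mark)⟩)
      (endsT_push .H .mark hD₃ ?_
        ⟨rfl, by dsimp only; rw [Function.update_self, Function.update_idem]; rfl⟩) ?_
    · dsimp only
      rw [Function.update_self, List.length_replicate]
      omega
    rintro _ D₄ c₄ hD₄ ⟨rfl, rfl⟩
    refine endsT_pure _ hD₄ ⟨fun t' ht => ⟨⟨hD₄, rfl, hpos, fun k hkj hkH => ?_, a, b + 1, by omega,
      ?_, ?_⟩, ?_⟩, fun b hb => absurd hb (by simp)⟩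
    · dsimp only
      rw [Function.update_of_ne hkH, Function.update_of_ne hkj]
      exact hk k hkj hkH
    · dsimp only
      rw [Function.update_of_ne hj, Function.update_self]
    · dsimp only
      rw [Function.update_self]
    · dsimp only
      rw [Function.update_of_ne hj, Function.update_self]
      simp

theorem dbl_ok {J : ℕ}
    (hM : ∀ (D : Data (PG B G) PN) (c : Str), D.le s → ∀ (φ : PG B G → PG B G) (i j : PN), i ≠ j →
      (D.st i).length + (D.st j).length ≤ s →
      EndsT J y (mvK φ i j) s D c fun _ D' c' => c' = c ∧ D' = ⟨D.pos, Function.update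
      (Function.update D.st i []) j (((D.st i).map φ).reverse ++ D.st j)⟩)
    (j : PN) (n : ℕ) (hj : j ≠ .H) (hH : D.st .H = [])
    (hn : D.st j = List.replicate n .mark) (hD : D.le s) (hs : 2 * n ≤ s) :
    EndsT (J + 6) y (dblK j) s D c fun _ D' c' => c' = c ∧
      D' = ⟨D.pos, Function.update D.st j (List.replicate (2 * n) .mark)⟩ := by
  refine endsT_seq (J₁ := 5) (J₂ := J) (by omega) (by omega) (mvHH_ok j n hj hH hn hD hs) ?_
  rintro _ D' c' hD' ⟨rfl, rfl⟩
  have e1 : Function.update (Function.update D.st j []) .H (List.replicate (2 * n) .mark) j =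
      [] := by
    rw [Function.update_of_ne hj, Function.update_self]
  have e2 : Function.update (Function.update D.st j []) .H (List.replicate (2 * n) .mark) .H =
      List.replicate (2 * n) .mark := Function.update_self _ _ _
  refine (hM _ c' hD' id .H j hj.symm ?_).imp ?_
  · dsimp only
    rw [e1, e2]
    simpa using hs
  rintro _ D₂ c₂ - ⟨rfl, rfl⟩
  refine ⟨rfl, data_ext rfl fun k => ?_⟩
  dsimp only
  rw [e1, e2]
  by_cases hkj : k = j
  · subst hkj
    rw [Function.update_self, Function.update_self]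
    simp
  · rw [Function.update_of_ne hkj, Function.update_of_ne hkj]
    by_cases hkH : k = .H
    · subst hkH
      rw [Function.update_self, hH]
    · rw [Function.update_of_ne hkH, Function.update_of_ne hkH, Function.update_of_ne hkj]

theorem exp_ok {J : ℕ}
    (hM : ∀ (D : Data (PG B G) PN) (c : Str), D.le s → ∀ (φ : PG B G → PG B G) (i j : PN), i ≠ j →
      (D.st i).length + (D.st j).length ≤ s →
      EndsT J y (mvK φ i j) s D c fun _ D' c' => c' = c ∧ D' = ⟨D.pos, Function.update
      (Function.update D.st i []) j (((D.st i).map φ).reverse ++ D.st j)⟩)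
    (i j : PN) (k : ℕ) (hi : i ≠ .H) (hj : j ≠ .H) (hij : i ≠ j) (hH : D.st .H = [])
    (hj0 : D.st j = []) (hk : (D.st i).length = k) (hD : D.le s) (hs : 2 ^ k ≤ s) :
    EndsT (J + 12) y (expK i j) s D c fun _ D' c' => c' = c ∧
      D' = ⟨D.pos, Function.update (Function.update D.st i []) j
        (List.replicate (2 ^ k) .mark)⟩ := by
  have h1s : 1 ≤ s := Nat.one_le_two_pow.trans hs
  refine endsT_seq (J₁ := 0) (J₂ := J + 10) (by omega) (by omega) (P := fun _ D' c' => c' = c ∧
    D' = ⟨D.pos, Function.update D.st j (List.replicate 1 .mark)⟩)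
    (endsT_push j .mark hD (by rw [hj0]; exact h1s) ⟨rfl, by rw [hj0]; rfl⟩) ?_
  rintro _ D₁ c₁ hD₁ ⟨rfl, rfl⟩
  refine endsT_iter (J := J + 8) (fun _ D' c' => D'.le s ∧ c' = c₁ ∧ D'.pos = D.pos ∧
    (∀ k, k ≠ i → k ≠ j → D'.st k = D.st k) ∧ (D'.st i).length ≤ k ∧
      D'.st j = List.replicate (2 ^ (k - (D'.st i).length)) .mark)
    (fun _ D' => (D'.st i).length) ?_ ⟨hD₁, rfl, rfl, fun k hki hkj => ?_, ?_, ?_⟩ ?_
  · rintro ⟨⟩ D' c' ⟨hD', rfl, hpos, hk', hle, hj'⟩
    refine endsT_seq (J₁ := 0) (J₂ := J + 7) (by omega) (by omega) (P := fun o D'' c'' =>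
      c'' = c' ∧ o = (D'.st i).head? ∧ D'' = ⟨D'.pos, Function.update D'.st i (D'.st i).tail⟩)
      (endsT_pop i hD' ⟨rfl, rfl, rfl⟩) ?_
    rintro o D'' c'' hD'' ⟨rfl, rfl, rfl⟩
    cases hl : D'.st i with
    | nil =>
      rw [hl] at hD'' hj'
      refine endsT_pure _ hD'' ⟨fun t' ht => absurd ht (by simp), fun b hb' => ⟨rfl, ?_⟩⟩
      refine data_ext hpos fun k' => ?_
      dsimp only
      by_cases hkj : k' = j
      · subst hkj
        rw [Function.update_self, Function.update_of_ne hij.symm, hj']
        rfl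
      · rw [Function.update_of_ne hkj]
        by_cases hki : k' = i
        · subst hki
          rw [Function.update_self, Function.update_self]
          rfl
        · rw [Function.update_of_ne hki, Function.update_of_ne hki]
          exact hk' k' hki hkj
    | cons a l =>
      rw [hl] at hD'' hj' hle
      simp only [List.head?_cons, List.tail_cons, List.length_cons] at hD'' hj' hle ⊢
      have hH2 : Function.update D'.st i l .H = [] := by
        rw [Function.update_of_ne hi.symm, hk' .H hi.symm hj.symm, hH]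
      have hj2 : Function.update D'.st i l j = List.replicate (2 ^ (k - (l.length + 1))) .mark := by
        rw [Function.update_of_ne hij.symm, hj']
      have hpow : 2 * 2 ^ (k - (l.length + 1)) = 2 ^ (k - l.length) := by
        have e : k - l.length = k - (l.length + 1) + 1 := by omega
        rw [e, pow_succ]
        ring
      refine endsT_seq (J₁ := J + 6) (J₂ := 0) (by omega) (by omega)
        (dbl_ok (D := ⟨D'.pos, Function.update D'.st i l⟩) hM j _ hj hH2 hj2 hD'' ?_) ?_
      · rw [hpow]
        exact (Nat.pow_le_pow_right (by norm_num) (by omega)).trans hs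
      rintro _ D₃ c₃ hD₃ ⟨rfl, rfl⟩
      rw [hpow] at hD₃ ⊢
      have hi3 : Function.update (Function.update D'.st i l) j
          (List.replicate (2 ^ (k - l.length)) .mark) i = l := by
        rw [Function.update_of_ne hij, Function.update_self]
      refine endsT_pure _ hD₃ ⟨fun t' ht => ⟨⟨hD₃, rfl, hpos, fun k' hki hkj => ?_, ?_, ?_⟩, ?_⟩,
        fun b hb => absurd hb (by simp)⟩
      · dsimp only
        rw [Function.update_of_ne hkj, Function.update_of_ne hki]
        exact hk' k' hki hkj
      · dsimp only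
        rw [hi3]
        omega
      · dsimp only
        rw [hi3, Function.update_self]
      · dsimp only
        rw [hi3]
        omega
  · dsimp only
    rw [Function.update_of_ne hkj]
  · dsimp only
    rw [Function.update_of_ne hij, hk]
  · dsimp only
    rw [Function.update_of_ne hij, Function.update_self, hk, Nat.sub_self]
    rfl
  · dsimp only
    rw [Function.update_of_ne hij, hk]
    have := Nat.lt_two_pow_self (n := k)
    omega

end KExp

open KExp in
theorem kn_exp (hM : StKMv) : StKExp := by
  obtain ⟨J, hM⟩ := hM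
  refine ⟨J + 20, ?_⟩
  intro B G _ _ y s D c hD hH
  have hM' : ∀ (D : Data (PG B G) PN) (c : Str), D.le s → ∀ (φ : PG B G → PG B G) (i j : PN),
      i ≠ j → (D.st i).length + (D.st j).length ≤ s →
      EndsT J y (mvK φ i j) s D c fun _ D' c' => c' = c ∧ D' = ⟨D.pos, Function.update
      (Function.update D.st i []) j (((D.st i).map φ).reverse ++ D.st j)⟩ :=
    fun D c hD => (hM B G y s D c hD).2.1
  exact ⟨fun j n hj hn hs => (dbl_ok hM' j n hj hH hn hD hs).bump (by omega),
    fun i j k hi hj hij hj0 hk hs => (exp_ok hM' i j k hi hj hij hH hj0 hk hD hs).bump (by omega)⟩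

end Pool.Agent.Lib.MP_9dcf40_lc
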