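import Pool.Agent.Lib.MP_9dcf40_lc.Kn.SpecM

/-!
# The first table
-/

namespace Pool.Agent.Lib.MP_9dcf40_lc

namespace KFirst

theorem tab_length (q : List Bool → Prop) (n : ℕ) : (tabOf q n).length = n := by
  induction n with
  | zero => rfl
  | succ n ih => simp [tabOf, ih]

open Classical in
theorem main (G : List Bool → Prop) (q : List Bool → Prop) (N : ℕ)
    (hT : ∃ T : List Bool, T.length = N ∧ G T)
    (hq : ∀ u : List Bool, u.length < N →
      (q u ↔ ¬ ∃ T : List Bool, T.length = N ∧ (u ++ [false]) <+: T ∧ G T)) :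
    ∀ n ≤ N, ∃ T : List Bool, T.length = N ∧ tabOf q n <+: T ∧ G T := by
  intro n
  induction n with
  | zero =>
    intro _
    obtain ⟨T, h1, h2⟩ := hT
    exact ⟨T, h1, List.nil_prefix, h2⟩
  | succ n ih =>
    intro hn
    obtain ⟨T, h1, h2, h3⟩ := ih (by omega)
    have hu : (tabOf q n).length < N := by rw [tab_length]; omega
    by_cases hqu : q (tabOf q n)
    · have h4 := (hq _ hu).1 hqu
      refine ⟨T, h1, ?_, h3⟩
      obtain ⟨t, rfl⟩ := h2
      cases t with
      | nil =>
        simp only [List.append_nil] at h1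
        rw [tab_length] at h1
        omega
      | cons a t =>
        cases a with
        | false =>
          exact absurd ⟨_, h1, ⟨t, by simp⟩, h3⟩ h4
        | true =>
          refine ⟨t, ?_⟩
          show (tabOf q n ++ [decide (q (tabOf q n))]) ++ t = _
          simp [hqu]
    · have h4 := mt (hq _ hu).2 hqu
      push Not at h4
      obtain ⟨T', h5, h6, h7⟩ := h4
      refine ⟨T', h5, ?_, h7⟩
      have : tabOf q (n + 1) = tabOf q n ++ [false] := by
        show tabOf q n ++ [decide (q (tabOf q n))] = _
        simp [hqu]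
      rw [this]
      exact h6

end KFirst

theorem kn_first : StKFirst := by
  intro G q N hT hq
  refine ⟨KFirst.tab_length q N, ?_⟩
  obtain ⟨T, h1, h2, h3⟩ := KFirst.main G q N hT hq N le_rfl
  have : tabOf q N = T := h2.eq_of_length (by rw [KFirst.tab_length, h1])
  rw [this]
  exact h3

end Pool.Agent.Lib.MP_9dcf40_lc
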