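import Pool.Agent.Lib.MP_9dcf40_lc.Kn.Tools

/-!
# The generator of fuel (`StKFuel`)
-/

namespace Pool.Agent.Lib.MP_9dcf40_lc

open Rout KTools

namespace KFuel

theorem poly_bound (J K : ℕ) : ∃ k : ℕ, ∀ n : ℕ, ((n + 2) ^ J + n + 20) ^ K ≤ n ^ k + k := by
  refine ⟨(2 * J + 8) * K + (3 ^ J + 21) ^ K, fun n => ?_⟩
  rcases Nat.lt_or_ge n 2 with hn | hn
  · have h1 : (n + 2) ^ J ≤ 3 ^ J := Nat.pow_le_pow_left (by omega) J
    have h2 : ((n + 2) ^ J + n + 20) ^ K ≤ (3 ^ J + 21) ^ K := Nat.pow_le_pow_left (by omega) K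
    omega
  · have h0 : 1 ≤ n := by omega
    have h1 : (n + 2) ^ J ≤ n ^ (2 * J + 6) := by
      calc (n + 2) ^ J ≤ (n ^ 2) ^ J := Nat.pow_le_pow_left (by nlinarith) J
        _ = n ^ (2 * J) := (pow_mul _ _ _).symm
        _ ≤ n ^ (2 * J + 6) := Nat.pow_le_pow_right h0 (by omega)
    have h2 : n ≤ n ^ (2 * J + 6) := Nat.le_self_pow (by omega) n
    have h3 : 20 ≤ n ^ (2 * J + 6) := by
      calc 20 ≤ 2 ^ 5 := by norm_num
        _ ≤ n ^ 5 := Nat.pow_le_pow_left hn 5
        _ ≤ n ^ (2 * J + 6) := Nat.pow_le_pow_right h0 (by omega)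
    have h4 : (n + 2) ^ J + n + 20 ≤ n ^ (2 * J + 8) := by
      have h5 : n ^ (2 * J + 8) = (n * n) * n ^ (2 * J + 6) := by ring
      have h6 : 4 ≤ n * n := by nlinarith
      rw [h5]
      nlinarith
    calc ((n + 2) ^ J + n + 20) ^ K ≤ (n ^ (2 * J + 8)) ^ K := Nat.pow_le_pow_left h4 K
      _ = n ^ ((2 * J + 8) * K) := (pow_mul _ _ _).symm
      _ ≤ n ^ ((2 * J + 8) * K + (3 ^ J + 21) ^ K) := Nat.pow_le_pow_right h0 (by omega)
      _ ≤ _ := Nat.le_add_right _ _

variable {A Γ ι : Type} [Finite A] [Finite Γ] [DecidableEq ι] {y : List A} {s : ℕ} {c : Str}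

/-- The stacks. -/
def stF {Γ ι : Type} (a b : ℕ) : ι ⊕ Bool → List (Option Γ)
  | .inl _ => []
  | .inr true => List.replicate a none
  | .inr false => List.replicate b none

omit [Finite A] [Finite Γ] in
theorem updT (a b n : ℕ) : Function.update (stF (Γ := Γ) (ι := ι) a b) (.inr true)
    (List.replicate n none) = stF n b := by
  funext i
  rcases i with i | _ | _
  · rfl
  · rfl
  · rfl

omit [Finite A] [Finite Γ] in
theorem updF (a b n : ℕ) : Function.update (stF (Γ := Γ) (ι := ι) a b) (.inr false)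
    (List.replicate n none) = stF a n := by
  funext i
  rcases i with i | _ | _
  · rfl
  · rfl
  · rfl

omit [Finite A] [Finite Γ] [DecidableEq ι] in
theorem le_stF {p a b : ℕ} (ha : a ≤ s) (hb : b ≤ s) :
    (⟨p, stF (Γ := Γ) (ι := ι) a b⟩ : Data (Option Γ) (ι ⊕ Bool)).le s := by
  intro i
  rcases i with i | _ | _
  · exact Nat.zero_le _
  · show (List.replicate b none).length ≤ s
    rwa [List.length_replicate]
  · show (List.replicate a none).length ≤ s
    rwa [List.length_replicate]

omit [Finite Γ] in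
theorem scan_ok (a b : ℕ) (ha : a + y.length + 1 ≤ s) (hb : b ≤ s) :
    EndsT 10 y (fscanK (A := A) (Γ := Γ) (ι := ι)) s ⟨0, stF a b⟩ c fun _ D' c' => c' = c ∧
      D' = ⟨y.length + 1, stF (a + y.length + 1) b⟩ := by
  refine (endsT_iter (J := 4) (fun _ D' c' => c' = c ∧ ∃ j ≤ y.length, D' = ⟨j, stF (a + j) b⟩)
    (fun _ D' => y.length + 1 - D'.pos) ?_ ⟨rfl, 0, Nat.zero_le _, rfl⟩
    (by dsimp only; omega)).bump (by omega)
  rintro ⟨⟩ D' c' ⟨rfl, j, hj, rfl⟩
  refine move_seq .right (J₂ := 3) (by omega) (le_stF (by omega) hb) ?_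
  have hmp : movePos y.length .right j = j + 1 := by
    show min (j + 1) (y.length + 1) = _
    omega
  dsimp only
  rw [hmp]
  refine push_seq (Sum.inr true) none (J₂ := 2) (by omega) (le_stF (by omega) hb) ?_ fun hD => ?_
  · show (List.replicate (a + j) none).length + 1 ≤ s
    rw [List.length_replicate]
    omega
  dsimp only
  have e1 : (none : Option Γ) :: (stF (ι := ι) (a + j) b (.inr true)) =
      List.replicate (a + (j + 1)) none := rfl
  rw [e1, updT]
  refine read_seq (J₂ := 1) (by omega) (le_stF (by omega) hb) ?_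
  dsimp only
  rcases Nat.lt_or_ge j y.length with hj' | hj'
  · have e2 : inSym y (j + 1) = .letter y[j] := by
      show (match y[j]? with
        | some a => InSym.letter a
        | none => .right) = _
      rw [List.getElem?_eq_getElem hj']
    rw [e2]
    exact pure_inl () (le_stF (by omega) hb) ⟨rfl, j + 1, by omega, rfl⟩ (by dsimp only; omega)
  · have hj2 : j = y.length := by omega
    subst hj2
    have e2 : inSym y (y.length + 1) = .right := by
      show (match y[y.length]? with
        | some a => InSym.letter a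
        | none => .right) = _
      rw [List.getElem?_eq_none le_rfl]
    rw [e2]
    exact pure_inr () (le_stF (by omega) hb) ⟨rfl, rfl⟩

omit [Finite Γ] in
theorem left_ok (a b p : ℕ) (hp : p ≤ s) (hp1 : 1 ≤ p) (ha : a ≤ s) (hb : b ≤ s) :
    EndsT 10 y (fleftK (A := A) (Γ := Γ) (ι := ι)) s ⟨p, stF a b⟩ c fun _ D' c' => c' = c ∧
      D' = ⟨0, stF a b⟩ := by
  refine (endsT_iter (J := 4) (fun _ D' c' => c' = c ∧ ∃ j, 1 ≤ j ∧ D' = ⟨j, stF a b⟩)
    (fun _ D' => D'.pos) ?_ ⟨rfl, p, hp1, rfl⟩
    (by dsimp only; omega)).bump (by omega)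
  rintro ⟨⟩ D' c' ⟨rfl, j, hj, rfl⟩
  refine move_seq .left (J₂ := 3) (by omega) (le_stF ha hb) ?_
  have hmp : movePos y.length .left j = j - 1 := rfl
  dsimp only
  rw [hmp]
  refine read_seq (J₂ := 1) (by omega) (le_stF ha hb) ?_
  dsimp only
  rcases Nat.lt_or_ge 1 j with hj' | hj'
  · obtain ⟨i, rfl⟩ : ∃ i, j = i + 2 := ⟨j - 2, by omega⟩
    have e2 : inSym y (i + 2 - 1) ≠ .left := by
      show (match y[i]? with
        | some a => InSym.letter a
        | none => .right) ≠ _
      cases y[i]? <;> simp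
    have e3 : (⟨i + 2 - 1, stF (Γ := Γ) (ι := ι) a b⟩ : Data (Option Γ) (ι ⊕ Bool)) =
      ⟨i + 1, stF a b⟩ := rfl
    rw [e3]
    cases h : inSym y (i + 2 - 1) with
    | left => exact absurd h e2
    | letter a' => exact pure_inl () (le_stF ha hb) ⟨rfl, i + 1, by omega, rfl⟩ (by dsimp only; omega)
    | right => exact pure_inl () (le_stF ha hb) ⟨rfl, i + 1, by omega, rfl⟩ (by dsimp only; omega)
  · have hj2 : j = 1 := by omega
    subst hj2
    exact pure_inr () (le_stF ha hb) ⟨rfl, rfl⟩

theorem mul_ok (hX : StXfer) (f : ℕ) (hf : f * (y.length + 2) ≤ s) (hs : y.length + 2 ≤ s) :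
    EndsT 20 y (fmulK (A := A) (Γ := Γ) (ι := ι)) s ⟨0, stF 0 f⟩ c fun _ D' c' => c' = c ∧
      D' = ⟨0, stF 0 (f * (y.length + 2))⟩ := by
  have hfs : f ≤ s := by nlinarith
  have h1 : EndsT 18 y (iter (τ := Unit) (fun _ => (pop (Sum.inr false : ι ⊕ Bool)).bind
      fun (o : Option (Option Γ)) =>
      match o with
      | none => pureR (.inr ())
      | some _ => (push (.inr true) none).bind fun _ => fscanK.bind fun _ => fleftK.bind fun _ =>
          pureR (.inl ())) ()) s ⟨0, stF 0 f⟩ c
      fun _ D' c' => c' = c ∧ D' = ⟨0, stF (f * (y.length + 2)) 0⟩ := by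
    refine (endsT_iter (J := 16) (fun _ D' c' => c' = c ∧ ∃ a b, a + b = f ∧
      D' = ⟨0, stF (a * (y.length + 2)) b⟩)
      (fun _ D' => (D'.st (.inr false)).length) ?_ ⟨rfl, 0, f, Nat.zero_add _, by
        rw [Nat.zero_mul]⟩ ?_)
    · rintro ⟨⟩ D' c' ⟨rfl, a, b, hab, rfl⟩
      have has : a * (y.length + 2) ≤ s :=
        (Nat.mul_le_mul_right _ (by omega : a ≤ f)).trans hf
      refine pop_seq (Sum.inr false) (J₂ := 15) (by omega) (le_stF has (by omega)) fun _ => ?_
      cases b with
      | zero =>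
        have haf : a = f := by omega
        subst haf
        have e1 : Function.update (stF (Γ := Γ) (ι := ι) (a * (y.length + 2)) 0) (.inr false)
            (stF (Γ := Γ) (ι := ι) (a * (y.length + 2)) 0 (.inr false)).tail =
            stF (a * (y.length + 2)) 0 := updF _ _ 0
        dsimp only
        rw [e1]
        exact pure_inr () (le_stF has (by omega)) ⟨rfl, rfl⟩
      | succ b =>
        have has1 : (a + 1) * (y.length + 2) ≤ s :=
          (Nat.mul_le_mul_right _ (by omega : a + 1 ≤ f)).trans hf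
        have hexp : (a + 1) * (y.length + 2) = a * (y.length + 2) + y.length + 2 := by ring
        have e1 : Function.update (stF (Γ := Γ) (ι := ι) (a * (y.length + 2)) (b + 1)) (.inr false)
            (stF (Γ := Γ) (ι := ι) (a * (y.length + 2)) (b + 1) (.inr false)).tail =
            stF (a * (y.length + 2)) b := updF _ _ b
        dsimp only
        rw [e1]
        have e0 : (stF (Γ := Γ) (ι := ι) (a * (y.length + 2)) (b + 1) (.inr false)).head? =
          some none := rfl
        rw [e0]
        refine push_seq (Sum.inr true) none (J₂ := 14) (by omega) (le_stF has (by omega)) ?_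
          fun _ => ?_
        · show (List.replicate (a * (y.length + 2)) none).length + 1 ≤ s
          rw [List.length_replicate]
          omega
        have e2 : (none : Option Γ) :: (stF (ι := ι) (a * (y.length + 2)) b (.inr true)) =
            List.replicate (a * (y.length + 2) + 1) none := rfl
        dsimp only
        rw [e2, updT]
        refine unit_seq (J₁ := 10) (J₂ := 13) (by omega) (by omega)
          (scan_ok (a * (y.length + 2) + 1) b (by omega) (by omega)) fun _ => ?_
        refine unit_seq (J₁ := 10) (J₂ := 12) (by omega) (by omega)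
          (left_ok (a * (y.length + 2) + 1 + y.length + 1) b (y.length + 1) (by omega) (by omega)
            (by omega) (by omega)) fun _ => ?_
        have e3 : a * (y.length + 2) + 1 + y.length + 1 = (a + 1) * (y.length + 2) := by
          rw [hexp]
          omega
        rw [e3]
        refine pure_inl () (le_stF has1 (by omega)) ⟨rfl, a + 1, b, by omega, rfl⟩ ?_
        show (List.replicate b none).length < (List.replicate (b + 1) none).length
        simp
    · show (List.replicate f none).length ≤ s + 5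
      rw [List.length_replicate]
      omega
  refine unit_seq (J₁ := 18) (J₂ := 18) (by omega) (by omega) h1 fun hD => ?_
  refine endsT_xfer hX (Sum.inr true) (Sum.inr false) (by simp) hD ?_ ?_ (by omega)
  · show (List.replicate (f * (y.length + 2)) none).length + 0 ≤ s
    rw [List.length_replicate]
    exact hf
  · refine ⟨rfl, data_ext rfl fun i => ?_⟩
    rcases i with i | _ | _
    · rfl
    · show (List.replicate (f * (y.length + 2)) none).reverse ++ [] =
        List.replicate (f * (y.length + 2)) none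
      rw [List.append_nil, List.reverse_replicate]
    · rfl

theorem rep_ok (hX : StXfer) (J : ℕ) : ∀ f : ℕ, f * (y.length + 2) ^ J ≤ s → y.length + 2 ≤ s →
    f ≤ s → EndsT (21 + J) y (repeatR (fmulK (A := A) (Γ := Γ) (ι := ι)) J) s ⟨0, stF 0 f⟩ c
      fun _ D' c' => c' = c ∧ D' = ⟨0, stF 0 (f * (y.length + 2) ^ J)⟩ := by
  induction J with
  | zero =>
    intro f _ _ hf
    refine endsT_pure _ (le_stF (by omega) hf) ⟨rfl, ?_⟩
    rw [pow_zero, Nat.mul_one]
  | succ J ih =>
    intro f hf hs hfs
    have e1 : f * (y.length + 2) ^ (J + 1) = f * (y.length + 2) * (y.length + 2) ^ J := by ring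
    rw [e1] at hf ⊢
    have h1 : f * (y.length + 2) ≤ s :=
      (Nat.le_mul_of_pos_right _ (by positivity)).trans hf
    refine unit_seq (J₁ := 20) (J₂ := 21 + J) (by omega) (by omega) (mul_ok hX f h1 hs)
      fun _ => ?_
    exact ih (f * (y.length + 2)) hf hs h1

end KFuel

open KFuel in
theorem kn_fuel (hX : StXfer) : StKFuel := by
  intro A Γ ι _ _ _ J
  obtain ⟨k, hk⟩ := poly_bound J (22 + J)
  refine ⟨k, fun y c => ?_⟩
  set s := (y.length + 2) ^ J + y.length + 10 with hs
  have h1 : 1 ≤ (y.length + 2) ^ J := Nat.one_le_pow _ _ (by omega)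
  have h2 : EndsT (22 + J) y (fuelK (A := A) (Γ := Γ) (ι := ι) J) s .init c fun _ D' c' =>
      c' = c ∧ D' = ⟨0, stF 0 ((y.length + 2) ^ J)⟩ := by
    have hi : (Data.init : Data (Option Γ) (ι ⊕ Bool)) = ⟨0, stF 0 0⟩ := by
      refine data_ext rfl fun i => ?_
      rcases i with i | _ | _ <;> rfl
    rw [hi]
    refine push_seq (Sum.inr false) none (J₂ := 21 + J) (by omega) (le_stF (by omega) (by omega))
      ?_ fun _ => ?_
    · show 0 + 1 ≤ s
      omega
    · have e2 : (none : Option Γ) :: (stF (ι := ι) 0 0 (.inr false)) =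
          List.replicate 1 none := rfl
      dsimp only
      rw [e2, updF]
      have h3 := rep_ok (A := A) (Γ := Γ) (ι := ι) (y := y) (s := s) (c := c) hX J 1
        (by omega) (by omega) (by omega)
      rwa [Nat.one_mul] at h3
  obtain ⟨T, b, D', c', hT, hr, rfl, rfl⟩ := h2
  have h4 : s + 10 = (y.length + 2) ^ J + y.length + 20 := by omega
  rw [h4] at hT
  have h5 : s ≤ y.length ^ k + k := by
    refine le_trans ?_ (hk y.length)
    calc s ≤ ((y.length + 2) ^ J + y.length + 20) ^ 1 := by rw [pow_one]; omega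
      _ ≤ _ := Nat.pow_le_pow_right (by omega) (by omega)
  refine ⟨_, hr.mono h5 (hT.trans (hk y.length)), rfl, fun i => rfl, rfl, ?_⟩
  show (List.replicate ((y.length + 2) ^ J) none).length = _
  rw [List.length_replicate]

end Pool.Agent.Lib.MP_9dcf40_lc
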