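import Pool.Agent.Lib.MP_9dcf40_lc.Kn.SpecM

/-!
# Programs with fuel
-/

namespace Pool.Agent.Lib.MP_9dcf40_lc

open Rout

namespace KGuard

variable {A Γ ι X : Type} [DecidableEq ι]

/-- The relation between the data of the two programs. -/
def Rel (D : Data (Option Γ) (ι ⊕ Bool)) (D₀ : Data Γ ι) : Prop :=
  D.pos = D₀.pos ∧ ∀ i, D.st (.inl i) = (D₀.st i).map some

theorem step (y : List A) (i : Ins A Γ ι X) (D : Data (Option Γ) (ι ⊕ Bool)) (D₀ : Data Γ ι)
    (c : Str) (h : Rel D D₀) : ∃ D' : Data (Option Γ) (ι ⊕ Bool),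
      stepIns y (liftIns i) D c = ((stepIns y i D₀ c).1, D', (stepIns y i D₀ c).2.2) ∧
      Rel D' (stepIns y i D₀ c).2.1 ∧ D'.st (.inr false) = D.st (.inr false) ∧
      ∀ s, D.le s → D'.le (s + 1) := by
  obtain ⟨hp, hs⟩ := h
  cases i with
  | push i a t =>
    refine ⟨_, rfl, ⟨hp, fun j => ?_⟩, ?_, fun s hle j => ?_⟩
    · show Function.update D.st (.inl i) (some a :: D.st (.inl i)) (.inl j) =
        (Function.update D₀.st i (a :: D₀.st i) j).map some
      by_cases hj : j = i
      · subst hj
        rw [Function.update_self, Function.update_self, hs, List.map_cons]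
      · rw [Function.update_of_ne hj, Function.update_of_ne (by simpa using hj), hs]
    · show Function.update D.st (.inl i) (some a :: D.st (.inl i)) (.inr false) = _
      rw [Function.update_of_ne (by simp)]
    · show (Function.update D.st (.inl i) (some a :: D.st (.inl i)) j).length ≤ s + 1
      by_cases hj : j = .inl i
      · subst hj
        rw [Function.update_self, List.length_cons]
        exact Nat.succ_le_succ (hle _)
      · rw [Function.update_of_ne hj]
        exact (hle j).trans (Nat.le_succ s)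
  | pop i f =>
    refine ⟨⟨D.pos, Function.update D.st (.inl i) (D.st (.inl i)).tail⟩, ?_, ⟨hp, fun j => ?_⟩,
      ?_, fun s hle j => ?_⟩
    · show (f ((D.st (.inl i)).head?.bind id), _, _) = (f (D₀.st i).head?, _, _)
      rw [hs]
      cases D₀.st i <;> rfl
    · show Function.update D.st (.inl i) (D.st (.inl i)).tail (.inl j) =
        (Function.update D₀.st i (D₀.st i).tail j).map some
      by_cases hj : j = i
      · subst hj
        rw [Function.update_self, Function.update_self, hs, List.map_tail]
      · rw [Function.update_of_ne hj, Function.update_of_ne (by simpa using hj), hs]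
    · show Function.update D.st (.inl i) (D.st (.inl i)).tail (.inr false) = _
      rw [Function.update_of_ne (by simp)]
    · show (Function.update D.st (.inl i) (D.st (.inl i)).tail j).length ≤ s + 1
      by_cases hj : j = .inl i
      · subst hj
        rw [Function.update_self, List.length_tail]
        have := hle (.inl i)
        omega
      · rw [Function.update_of_ne hj]
        exact (hle j).trans (Nat.le_succ s)
  | read f =>
    refine ⟨D, ?_, ⟨hp, hs⟩, rfl, fun s hle j => (hle j).trans (Nat.le_succ s)⟩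
    show (f (inSym y D.pos), D, c) = (f (inSym y D₀.pos), D, c)
    rw [hp]
  | move dir t =>
    refine ⟨⟨movePos y.length dir D.pos, D.st⟩, rfl, ⟨?_, hs⟩, rfl,
      fun s hle j => (hle j).trans (Nat.le_succ s)⟩
    show movePos y.length dir D.pos = movePos y.length dir D₀.pos
    rw [hp]
  | choose f => exact ⟨D, rfl, ⟨hp, hs⟩, rfl, fun s hle j => (hle j).trans (Nat.le_succ s)⟩
  | nop t => exact ⟨D, rfl, ⟨hp, hs⟩, rfl, fun s hle j => (hle j).trans (Nat.le_succ s)⟩

theorem loop [Finite Γ] (R : Rout A Γ ι Bool) [Finite R.S] (y : List A) (f : ℕ) :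
    ∀ (σ : R.S) (s : ℕ) (D : Data (Option Γ) (ι ⊕ Bool)) (D₀ : Data Γ ι) (c : Str), D.le s →
      Rel D D₀ → (D.st (.inr false)).length = f →
      ∃ (b : Bool) (D' : Data (Option Γ) (ι ⊕ Bool)) (c' : Str),
        Runs y (iter (τ := R.S) (fun σ => (pop (.inr false)).bind fun o =>
          match o with
          | none => pureR (.inr false)
          | some _ => prim (liftIns (R.prog σ))) σ) (s + f) (3 * f + 3) D c b D' c' ∧
        ∀ (s₀ n : ℕ) (b₀ : Bool) (D₁ : Data Γ ι) (c₁ : Str), n ≤ f →
          Exec y R.prog s₀ (.inl σ) D₀ c n b₀ D₁ c₁ → b = b₀ := by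
  induction f with
  | zero =>
    intro σ s D D₀ c hle hrel hlen
    have hnil : D.st (.inr false) = [] := List.length_eq_zero_iff.1 hlen
    have h1 := runs_pop (x := y) (c := c) (.inr false) hle
    rw [hnil] at h1
    have hb := runs_bind (f := fun o => (match o with
        | none => pureR (.inr false)
        | some _ => prim (liftIns (R.prog σ)) : Rout A (Option Γ) (ι ⊕ Bool) (R.S ⊕ Bool)))
      h1 (runs_pure (Sum.inr false) h1.le_end)
    refine ⟨false, _, c, (runs_iter_done hb).mono (by omega) (by omega), ?_⟩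
    · intro s₀ n b₀ D₁ c₁ hn h
      cases h with
      | step => omega
  | succ f ih =>
    intro σ s D D₀ c hle hrel hlen
    obtain ⟨a, l, hl⟩ : ∃ a l, D.st (.inr false) = a :: l := by
      cases h : D.st (.inr false) with
      | nil => rw [h] at hlen; simp at hlen
      | cons a l => exact ⟨a, l, rfl⟩
    have h1 := runs_pop (x := y) (c := c) (.inr false) hle
    rw [hl] at h1
    set D₂ : Data (Option Γ) (ι ⊕ Bool) := ⟨D.pos, Function.update D.st (.inr false) l⟩ with hD₂
    have hrel₂ : Rel D₂ D₀ := ⟨hrel.1, fun i => by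
      show Function.update D.st (.inr false) l (.inl i) = _
      rw [Function.update_of_ne (by simp)]
      exact hrel.2 i⟩
    have hle₂ : D₂.le s := h1.le_end
    obtain ⟨D₃, hstep, hrel₃, hfuel, hle₃⟩ := step y (R.prog σ) D₂ D₀ c hrel₂
    have h2 : Runs y (prim (liftIns (R.prog σ))) (s + 1) 1 D₂ c
        (stepIns y (R.prog σ) D₀ c).1 D₃ (stepIns y (R.prog σ) D₀ c).2.2 := by
      have h3 := runs_prim (x := y) (s := s + 1) (c := c) (d := D₂) (liftIns (R.prog σ))
        (fun j => (hle₂ j).trans (Nat.le_succ s)) (by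
          rw [hstep]
          exact hle₃ s hle₂)
      rw [hstep] at h3
      exact h3
    have hfl : (D₃.st (.inr false)).length = f := by
      rw [hfuel]
      show (Function.update D.st (.inr false) l (.inr false)).length = f
      rw [Function.update_self]
      rw [hl, List.length_cons] at hlen
      omega
    have hb := runs_bind (f := fun o => (match o with
        | none => pureR (.inr false)
        | some _ => prim (liftIns (R.prog σ)) : Rout A (Option Γ) (ι ⊕ Bool) (R.S ⊕ Bool)))
      (h1.mono (Nat.le_succ s) le_rfl) h2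
    rcases hu : (stepIns y (R.prog σ) D₀ c).1 with σ' | b
    · obtain ⟨b, D', c', hr, hb'⟩ := ih σ' (s + 1) D₃ (stepIns y (R.prog σ) D₀ c).2.1
        (stepIns y (R.prog σ) D₀ c).2.2 (hle₃ s hle₂) hrel₃ hfl
      rw [hu] at hb
      refine ⟨b, D', c', (runs_iter_step (hb.mono (by omega) le_rfl)
        (hr.mono (by omega) le_rfl)).mono (s := s + 1 + f) (by omega) (by omega), ?_⟩
      intro s₀ n b₀ D₁ c₁ hn h
      cases h with
      | step _ _ _ u d₂ c₂ m _ _ _ _ he hx =>
        have e1 : u = .inl σ' := by rw [← hu, he]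
        have e2 : d₂ = (stepIns y (R.prog σ) D₀ c).2.1 := by rw [he]
        have e3 : c₂ = (stepIns y (R.prog σ) D₀ c).2.2 := by rw [he]
        subst e1 e2 e3
        exact hb' s₀ m b₀ D₁ c₁ (by omega) hx
    · rw [hu] at hb
      refine ⟨b, D₃, _, (runs_iter_done hb).mono (by omega) (by omega), ?_⟩
      intro s₀ n b₀ D₁ c₁ hn h
      cases h with
      | step _ _ _ u d₂ c₂ m _ _ _ _ he hx =>
        have e1 : u = .inr b := by rw [← hu, he]
        subst e1
        cases hx
        rfl

end KGuard

open KGuard in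
theorem kn_guard : StKGuard := by
  intro A Γ ι _ _ R y s f D D₀ c hle hp hs hlen
  have := R.fin
  obtain ⟨S, fin, start, prog⟩ := R
  cases start with
  | inr b =>
    refine ⟨b, D, c, ?_, ?_⟩
    · exact (runs_pure b (fun j => (hle j).trans (Nat.le_add_right s f))).mono le_rfl
        (Nat.zero_le _)
    · rintro s₀ b₀ D₁ c₁ ⟨n, -, h⟩
      cases h
      rfl
  | inl σ₀ =>
    obtain ⟨b, D', c', hr, hb⟩ := loop (⟨S, fin, .inl σ₀, prog⟩ : Rout A Γ ι Bool) y f σ₀ s D D₀ c
      hle ⟨hp, hs⟩ hlen
    refine ⟨b, D', c', hr.mono le_rfl (by omega), ?_⟩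
    rintro s₀ b₀ D₁ c₁ ⟨n, hn, h⟩
    exact hb s₀ n b₀ D₁ c₁ hn h

end Pool.Agent.Lib.MP_9dcf40_lc
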