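import Pool.Agent.Lib.MP_9dcf40_lc.Kn.SpecM

/-!
# Guessing a word (`StKGz`)
-/

namespace Pool.Agent.Lib.MP_9dcf40_lc

open Rout

namespace KGz

theorem gword_app (n : ℕ) : ∀ (c : Str) (l : List DA), gword n c l = gword n c [] ++ l := by
  induction n with
  | zero => intro c l; rfl
  | succ n ih =>
    intro c l
    show gword n _ (_ :: l) = gword n _ [_] ++ l
    rw [ih _ (_ :: l), ih _ [_], List.append_assoc]
    rfl

theorem gword_len (n : ℕ) : ∀ (c : Str) (l : List DA), (gword n c l).length = n + l.length := by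
  induction n with
  | zero => intro c l; exact (Nat.zero_add _).symm
  | succ n ih =>
    intro c l
    show (gword n _ (_ :: l)).length = _
    rw [ih, List.length_cons]
    omega

theorem d3_surj (a : DA) : ∃ b₁ b₂ b₃, d3 b₁ b₂ b₃ = a := by
  cases a
  · exact ⟨false, false, false, rfl⟩
  · exact ⟨true, false, false, rfl⟩
  · exact ⟨false, true, false, rfl⟩
  · exact ⟨true, true, false, rfl⟩
  · exact ⟨false, false, true, rfl⟩
  · exact ⟨true, false, true, rfl⟩
  · exact ⟨false, true, true, rfl⟩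
  · exact ⟨true, true, true, rfl⟩

theorem gword_surj (z : List DA) : ∃ c, gword z.length c [] = z := by
  induction z using List.reverseRecOn with
  | nil => exact ⟨fun _ => false, rfl⟩
  | append_singleton z a ih =>
    obtain ⟨c, hc⟩ := ih
    obtain ⟨b₁, b₂, b₃, hb⟩ := d3_surj a
    refine ⟨fun i => match i with
      | 0 => b₁
      | 1 => b₂
      | 2 => b₃
      | i + 3 => c i, ?_⟩
    rw [List.length_append, List.length_singleton]
    show gword z.length c [d3 b₁ b₂ b₃] = z ++ [a]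
    rw [gword_app, hc, hb]

/-- The data during the loop. -/
def mk {Γ : Type} (D : Data Γ PN) (p f z : List Γ) : Data Γ PN :=
  ⟨D.pos, Function.update (Function.update (Function.update D.st .P p) .F f) .Z z⟩

variable {Γ : Type} (D : Data Γ PN) (p f z l : List Γ)

theorem mk_P : (mk D p f z).st .P = p := rfl

theorem mk_F : (mk D p f z).st .F = f := rfl

theorem mk_Z : (mk D p f z).st .Z = z := rfl

theorem upd_P : (⟨(mk D p f z).pos, Function.update (mk D p f z).st .P l⟩ : Data Γ PN) =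
    mk D l f z := by
  unfold mk
  congr 1
  funext j
  cases j <;> rfl

theorem upd_F : (⟨(mk D p f z).pos, Function.update (mk D p f z).st .F l⟩ : Data Γ PN) =
    mk D p l z := by
  unfold mk
  congr 1
  funext j
  cases j <;> rfl

theorem upd_Z : (⟨(mk D p f z).pos, Function.update (mk D p f z).st .Z l⟩ : Data Γ PN) =
    mk D p f l := by
  unfold mk
  congr 1
  funext j
  cases j <;> rfl

theorem mk_self (h1 : D.st .P = p) (h2 : D.st .F = f) (h3 : D.st .Z = z) : D = mk D p f z := by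
  subst h1 h2 h3
  unfold mk
  rw [Function.update_eq_self, Function.update_eq_self, Function.update_eq_self]

end KGz

open KGz in
/-- Guessing a word. -/
theorem kn_gz : StKGz := by
  refine ⟨fun n c => by rw [gword_len]; rfl, gword_surj, 12, ?_⟩
  intro B G _ _ y s D c n hD hP hZ hF
  have hn : n ≤ s := by
    have := hD .P
    rwa [hP, List.length_replicate] at this
  let I : Unit → Data (PG B G) PN → Str → Prop := fun _ D' c' => ∃ k l, k ≤ n ∧
    List.length l = n - k ∧ gword k c' l = gword n c [] ∧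
    D' = mk D (List.replicate k .mark) (List.replicate (n - k) .mark) (l.map .ltr) ∧ D'.le s
  let μ : Unit → Data (PG B G) PN → ℕ := fun _ D' => (D'.st .P).length
  unfold guessZ
  refine endsT_iter (J := 10) I μ ?_ (t₀ := ()) ⟨n, [], le_rfl, ?_, rfl, ?_, hD⟩ ?_
  rotate_left
  · simp
  · rw [Nat.sub_self]
    exact mk_self D _ _ _ hP hF hZ
  · show (D.st .P).length ≤ s + 5
    exact (hD .P).trans (by omega)
  rintro ⟨⟩ D' c' ⟨k, l, hk, hl, hg, rfl, hle⟩
  refine endsT_seq (J₁ := 0) (J₂ := 9) (by omega) (by omega)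
    (endsT_pop (Q := fun o D'' c'' => o = (List.replicate k (PG.mark : PG B G)).head? ∧
      D'' = mk D (List.replicate k .mark).tail (List.replicate (n - k) .mark) (l.map .ltr) ∧
      c'' = c') .P hle ⟨rfl, upd_P _ _ _ _ _, rfl⟩) ?_
  rintro o D₁ c₁ hle₁ ⟨rfl, rfl, rfl⟩
  rcases k with _ | k
  · refine endsT_pure _ hle₁ ⟨fun t' ht' => ?_, fun b _ => ?_⟩
    · exact absurd ht' (by simp)
    · have h1 : l = gword n c [] := hg
      rw [← h1]
      rfl
  · refine endsT_seq (J₁ := 0) (J₂ := 8) (by omega) (by omega)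
      (endsT_push (Q := fun _ D'' c'' =>
        D'' = mk D (List.replicate k .mark) (List.replicate (n - k) .mark) (l.map .ltr) ∧
        c'' = c₁) .F _ hle₁ ?_ ⟨?_, rfl⟩) ?_
    · show (List.replicate (n - (k + 1)) (PG.mark : PG B G)).length + 1 ≤ s
      rw [List.length_replicate]
      omega
    · refine (upd_F _ _ _ _ _).trans ?_
      have h1 : n - k = (n - (k + 1)) + 1 := by omega
      rw [h1, List.replicate_succ]
      rfl
    rintro ⟨⟩ D₂ c₂ hle₂ ⟨rfl, rfl⟩
    refine endsT_seq (J₁ := 0) (J₂ := 7) (by omega) (by omega)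
      (endsT_choose (Q := fun b D'' c'' => b = c₂ 0 ∧ D'' = _ ∧ c'' = fun i => c₂ (i + 1)) hle₂
        ⟨rfl, rfl, rfl⟩) ?_
    rintro b₁ D₃ c₃ hle₃ ⟨rfl, rfl, rfl⟩
    refine endsT_seq (J₁ := 0) (J₂ := 6) (by omega) (by omega)
      (endsT_choose (Q := fun b D'' c'' => b = c₂ 1 ∧ D'' = _ ∧ c'' = fun i => c₂ (i + 2)) hle₃
        ⟨rfl, rfl, rfl⟩) ?_
    rintro b₂ D₄ c₄ hle₄ ⟨rfl, rfl, rfl⟩
    refine endsT_seq (J₁ := 0) (J₂ := 5) (by omega) (by omega)
      (endsT_choose (Q := fun b D'' c'' => b = c₂ 2 ∧ D'' = _ ∧ c'' = fun i => c₂ (i + 3)) hle₄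
        ⟨rfl, rfl, rfl⟩) ?_
    rintro b₃ D₅ c₅ hle₅ ⟨rfl, rfl, rfl⟩
    refine endsT_seq (J₁ := 0) (J₂ := 4) (by omega) (by omega)
      (endsT_push (Q := fun _ D'' c'' => D'' = mk D (List.replicate k .mark)
        (List.replicate (n - k) .mark) ((d3 (c₂ 0) (c₂ 1) (c₂ 2) :: l).map .ltr) ∧
        c'' = fun i => c₂ (i + 3)) .Z _ hle₅ ?_ ⟨upd_Z _ _ _ _ _, rfl⟩) ?_
    · show (List.map (PG.ltr : DA → PG B G) l).length + 1 ≤ s
      rw [List.length_map]
      omega
    rintro ⟨⟩ D₆ c₆ hle₆ ⟨rfl, rfl⟩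
    refine endsT_pure _ hle₆ ⟨fun t' _ => ⟨⟨k, d3 (c₂ 0) (c₂ 1) (c₂ 2) :: l, by omega, ?_, hg, rfl,
      hle₆⟩, ?_⟩, fun b hb => absurd hb (by simp)⟩
    · rw [List.length_cons]
      omega
    · show (List.replicate k (PG.mark : PG B G)).length <
        (List.replicate (k + 1) (PG.mark : PG B G)).length
      rw [List.length_replicate, List.length_replicate]
      omega

end Pool.Agent.Lib.MP_9dcf40_lc
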