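import Pool.Agent.Lib.MP_9dcf40_lc.Kn.SpecM
import Pool.Agent.Lib.MP_9dcf40_lc.Av.EContr

/-!
# The number of agreements
-/

namespace Pool.Agent.Lib.MP_9dcf40_lc

open Filter

namespace KHard

open EContr

/-- counting over blocks, where the block is at the end -/
theorem count' (n a c : ℕ) (han : a ≤ n) (P : List Bool → Prop)
    (h : ∀ r : List Bool, r.length + a = n →
      {s : List Bool | s.length = a ∧ P (r ++ s)}.ncard ≤ c) :
    {x : List Bool | x.length = n ∧ P x}.ncard ≤ 2 ^ (n - a) * c := by
  classical
  have hset : {x : List Bool | x.length = n ∧ P x} =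
      ((bl n).filter P : Finset (List Bool)) := by
    ext s
    rw [Finset.mem_coe, Finset.mem_filter, mem_bl]
    rfl
  rw [hset, Set.ncard_coe_finset]
  have hmap : ∀ x ∈ (bl n).filter P, x.take (n - a) ∈ bl (n - a) := by
    intro x hx
    rw [Finset.mem_filter, mem_bl] at hx
    rw [mem_bl, List.length_take, hx.1]
    omega
  rw [Finset.card_eq_sum_card_fiberwise hmap]
  have hf : ∀ r ∈ bl (n - a), (((bl n).filter P).filter fun x => x.take (n - a) = r).card ≤ c := by
    intro r hr
    rw [mem_bl] at hr
    refine le_trans ?_ (h r (by omega))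
    rw [← Set.ncard_coe_finset]
    have hfin : {s : List Bool | s.length = a ∧ P (r ++ s)}.Finite :=
      (bl a).finite_toSet.subset fun s hs => (mem_bl a s).2 hs.1
    refine Set.ncard_le_ncard_of_injOn (fun x => x.drop (n - a)) ?_ ?_ hfin
    · intro x hx
      rw [Finset.mem_coe, Finset.mem_filter, Finset.mem_filter, mem_bl] at hx
      obtain ⟨⟨h1, h2⟩, h3⟩ := hx
      refine ⟨?_, ?_⟩
      · rw [List.length_drop, h1]
        omega
      · show P (r ++ x.drop (n - a))
        rw [← h3, List.take_append_drop]
        exact h2
    · intro x hx y hy hxy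
      rw [Finset.mem_coe, Finset.mem_filter] at hx hy
      rw [← List.take_append_drop (n - a) x, ← List.take_append_drop (n - a) y, hx.2, hy.2]
      exact congrArg (r ++ ·) hxy
  refine (Finset.sum_le_sum hf).trans (le_of_eq ?_)
  rw [Finset.sum_const, card_bl, smul_eq_mul]

theorem numK_add (p : ℕ → Prop) (N : ℕ) : numK p N + numK (fun v => ¬ p v) N = N := by
  unfold numK
  induction N with
  | zero => simp
  | succ N ih =>
    rw [Nat.count_succ, Nat.count_succ]
    by_cases hp : p N
    · rw [if_pos hp, if_neg (fun h => h hp)]
      omega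
    · rw [if_neg hp, if_pos hp]
      omega

theorem numK_congr {p q : ℕ → Prop} {N : ℕ} (h : ∀ v < N, (p v ↔ q v)) : numK p N = numK q N := by
  unfold numK
  induction N with
  | zero => simp
  | succ N ih =>
    rw [Nat.count_succ, Nat.count_succ, ih fun v hv => h v (by omega)]
    by_cases hp : p N
    · rw [if_pos hp, if_pos ((h N (by omega)).1 hp)]
    · rw [if_neg hp, if_neg fun hq => hp ((h N (by omega)).2 hq)]

end KHard

open KHard EContr in
theorem kn_hard (hS : StESk) (hN : StNorm) (hU : StUCorr) (hO : StEOdo) : StKHard := by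
  classical
  intro M
  obtain ⟨S, hSp⟩ := hS M
  obtain ⟨F, hF⟩ := hN DB S
  refine ⟨(code F).length + 3, ?_⟩
  intro m n t T w L hm hmn hT hB hlen ht hhalt hLT
  have hcount := count' n (4 * m) (2 ^ (4 * m - 1) + 2 ^ (3 * m - 1)) hmn
    (fun x => x ∈ L ↔ M.Accepts (pairL x w)) (fun r hr => by
      set j : ℕ := 2 ^ m - ((code F).length + 3 + w.length + r.length) with hj
      set f₃ : List DA := List.replicate j .eState with hf3
      set z : List DA := code F ++ .hash :: (w.map bitL ++ .hash :: (f₃ ++ .hash :: r.map bitL))
        with hz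
      have hzl : z.length = 2 ^ m := by
        rw [hz, hf3]
        simp only [List.length_append, List.length_cons, List.length_map, List.length_replicate]
        omega
      have hh3 : DA.hash ∉ f₃ := by
        rw [hf3]
        intro h
        exact absurd (List.eq_of_mem_replicate h) (by decide)
      have hzx : ∀ s : List Bool,
          z ++ s.map bitL = instX F w (f₃ ++ .hash :: (r ++ s).map bitL) := by
        intro s
        rw [hz, instX]
        simp only [List.append_assoc, List.cons_append, List.map_append]
      have hkey : ∀ s : List Bool, s.length = 4 * m →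
          (padL (z ++ s.map bitL) (2 * 2 ^ m) ∈ KN ↔ M.Accepts (pairL (r ++ s) w)) := by
        intro s hs
        obtain ⟨k1, k2⟩ := hSp (code F) (w.map bitL) f₃ (r ++ s) w (FContr.hash_code F)
          (FContr.hash_bitL w) hh3
        have h1 := key hU true M (fun h => absurd h (by simp)) S F hF (r ++ s) w f₃ t (m + 1) k1 k2
          (hhalt (r ++ s) (by rw [List.length_append]; omega)) (by
            have h2 : 2 ^ (m + 1) = 2 * 2 ^ m := by ring
            have h3 : (code F).length + (w.map bitL).length + f₃.length + 3 + r.length = 2 ^ m := by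
              rw [← hzl, hz]
              simp only [List.length_append, List.length_cons, List.length_map]
              omega
            omega)
        rw [show 2 * 2 ^ m = 2 ^ (m + 1) by ring, hzx]
        exact h1
      -- the counts
      have hnb : ¬ (2 ^ (3 * m) + numK (fun v => ¬ (accKN m z v ↔ T[v]? = some true))
          (2 ^ (4 * m)) < numK (fun v => accKN m z v ↔ T[v]? = some true) (2 ^ (4 * m))) :=
        fun h => hB ⟨z, hzl, h⟩
      have hadd := numK_add (fun v => accKN m z v ↔ T[v]? = some true) (2 ^ (4 * m))
      obtain ⟨-, -, hO3, hO4, -, -, -, -, hO9, -⟩ := hO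
      have h9 : numK (fun v => (r ++ lst (4 * m) v ∈ L ↔
          M.Accepts (pairL (r ++ lst (4 * m) v) w))) (2 ^ (4 * m)) =
          {s : List Bool | s.length = 4 * m ∧
            (r ++ s ∈ L ↔ M.Accepts (pairL (r ++ s) w))}.ncard :=
        @hO9 (4 * m) (fun s => (r ++ s ∈ L ↔ M.Accepts (pairL (r ++ s) w)))
          (fun _ => Classical.propDecidable _)
      rw [← h9]
      have h11 : numK (fun v => (r ++ lst (4 * m) v ∈ L ↔
          M.Accepts (pairL (r ++ lst (4 * m) v) w))) (2 ^ (4 * m)) =
          numK (fun v => accKN m z v ↔ T[v]? = some true) (2 ^ (4 * m)) := by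
        refine numK_congr fun v hv => ?_
        have e1 : (r ++ lst (4 * m) v).length = n := by
          rw [List.length_append, hO3]
          exact hr
        have e2 := hLT (r ++ lst (4 * m) v) e1
        have e3 : (r ++ lst (4 * m) v).drop (n - 4 * m) = lst (4 * m) v := by
          have e4 : n - 4 * m = r.length := by omega
          rw [e4, List.drop_left]
        rw [e3, hO4, Nat.mod_eq_of_lt hv] at e2
        rw [e2, ← hkey _ (hO3 _ _)]
        exact Iff.comm
      rw [h11]
      have p1 : 2 ^ (4 * m) = 2 * 2 ^ (4 * m - 1) := by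
        rw [← pow_succ']
        congr 1
        omega
      have p2 : 2 ^ (3 * m) = 2 * 2 ^ (3 * m - 1) := by
        rw [← pow_succ']
        congr 1
        omega
      omega)
  refine hcount.trans (le_of_eq ?_)
  have e1 : n - 4 * m + (4 * m - 1) = n - 1 := by omega
  have e2 : n - 4 * m + (3 * m - 1) = n - 1 - m := by omega
  rw [mul_add, ← pow_add, ← pow_add, e1, e2]

end Pool.Agent.Lib.MP_9dcf40_lc
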