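import Pool.Agent.Lib.MP_9dcf40_lc.Kn.SpecM
import Pool.Agent.Lib.MP_9dcf40_lc.Av.EDiag

/-!
# The hard language
-/

namespace Pool.Agent.Lib.MP_9dcf40_lc

open Filter

namespace KL

theorem bound {l D d₂ d₃ : ℕ} (hl : 2 ≤ l) :
    l ^ D + l ^ (D * d₂) + 2 * l ^ (D * d₃) + 3 ≤ 2 * l ^ (D * (d₂ + d₃ + 1) + 3) := by
  have h1 : l ^ D ≤ l ^ (D * (d₂ + d₃ + 1)) :=
    Nat.pow_le_pow_right (by omega) (Nat.le_mul_of_pos_right _ (by omega))
  have h2 : l ^ (D * d₂) ≤ l ^ (D * (d₂ + d₃ + 1)) :=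
    Nat.pow_le_pow_right (by omega) (Nat.mul_le_mul_left _ (by omega))
  have h3 : l ^ (D * d₃) ≤ l ^ (D * (d₂ + d₃ + 1)) :=
    Nat.pow_le_pow_right (by omega) (Nat.mul_le_mul_left _ (by omega))
  have h4 : 1 ≤ l ^ (D * (d₂ + d₃ + 1)) := Nat.one_le_pow _ _ (by omega)
  have h5 : 2 ^ 3 ≤ l ^ 3 := Nat.pow_le_pow_left hl 3
  have h6 : l ^ (D * (d₂ + d₃ + 1)) * 2 ^ 3 ≤ l ^ (D * (d₂ + d₃ + 1)) * l ^ 3 :=
    Nat.mul_le_mul_left _ h5
  rw [← pow_add] at h6
  omega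

theorem size_ge {k n : ℕ} (h : 2 ^ k ≤ n) : k + 1 ≤ Nat.size n := Nat.lt_size.2 h

end KL

open KL EDiag in
theorem kn_l (h4 : StK4L) (hU : StKUnp) (hC : StCompD) (hK : StClock) (hN : StENumD)
    (hL : StKLen) : StKL := by
  classical
  intro hyp D hD
  obtain ⟨d₂, d₃, d₄, L₄, hd₄, hL₄, hL₄'⟩ := h4 hyp
  obtain ⟨V, hdet, ⟨k, hsp⟩, hV⟩ := hyp VB L₄ hL₄
  have : Finite V.Q := V.finQ
  have : Finite V.G := V.finG
  obtain ⟨-, -, hlz, hla, -⟩ := hL
  obtain ⟨d, hd⟩ : ∃ d, d + 1 = D * d₄ := ⟨D * d₄ - 1, by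
    have : 1 * 2 ≤ D * d₄ := Nat.mul_le_mul hD hd₄
    omega⟩
  set e₁ := D * (d₂ + d₃ + 1) + 3 with he₁
  obtain ⟨e, hlarge, k', hk'⟩ := hN (Nat.card V.Q) (Nat.card V.G) k d e₁
  obtain ⟨M, hMdet, hM⟩ := hC Bool (EG V.G) EN (unpE V D (D * d₂) (D * d₃) d e)
  -- the virtual words
  have hlen : ∀ x : List Bool, (eword (zpar ((Nat.size x.length + 1) ^ D)
      ((Nat.size x.length + 1) ^ (D * d₂)) ((Nat.size x.length + 1) ^ (D * d₃))) x
      ((Nat.size x.length + 1) ^ (d + 1))).length =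
      (Nat.size x.length + 1) ^ D + (Nat.size x.length + 1) ^ (D * d₂) +
        2 * (Nat.size x.length + 1) ^ (D * d₃) + 3 + x.length +
        2 ^ (Nat.size x.length + 1) ^ (d + 1) := by
    intro x
    rw [eword_length, hla, hlz]
    ring
  have hsz : ∀ n, 1 ≤ n → 2 ≤ Nat.size n + 1 := fun n hn => by
    have := size_ge (k := 0) (n := n) (by simpa using hn)
    omega
  set sV : ℕ → ℕ := fun n => if n = 0 then Nat.log 2 9 ^ k + k else
    Nat.log 2 (n + 2 * (Nat.size n + 1) ^ e₁ + 2 ^ (Nat.size n + 1) ^ (d + 1)) ^ k + k with hsV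
  set sp : ℕ → ℕ := fun n => (Nat.size n + 1) ^ (d + 1) + (Nat.size n + 1) ^ e +
    7 * (Nat.size n + 1) ^ e₁ + Nat.size n + sV n + 8 with hspd
  obtain ⟨k₂, hk₂⟩ : ∃ k₂ : ℕ, ∀ n, sp n + 2 ≤ Nat.log 2 n ^ k₂ + k₂ := by
    refine ⟨k' + 1 + (sp 0 + 2), fun n => ?_⟩
    by_cases hn : n = 0
    · subst hn
      omega
    · have h1 := hk' n
      have h2 : sp n + 2 ≤ Nat.log 2 n ^ k' + k' := by
        simp only [hspd, hsV, if_neg hn]
        omega
      exact h2.trans (exp_mono (Nat.le_add_right _ _))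
  have hES : ∀ x : List Bool, V.SpaceLe (eword (zpar ((Nat.size x.length + 1) ^ D)
      ((Nat.size x.length + 1) ^ (D * d₂)) ((Nat.size x.length + 1) ^ (D * d₃))) x
      ((Nat.size x.length + 1) ^ (d + 1))) (sV x.length) := by
    intro x
    refine spaceLe_mono (hsp _) ?_
    by_cases hn : x.length = 0
    · simp only [hsV, if_pos hn]
      refine logpow_mono ?_
      rw [hlen, hn]
      simp
    · simp only [hsV, if_neg hn]
      refine logpow_mono ?_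
      have h2 := bound (D := D) (d₂ := d₂) (d₃ := d₃) (hsz x.length (by omega))
      rw [← he₁] at h2
      rw [hlen]
      omega
  have key : ∀ x : List Bool, ∃ b : Bool, (M.Accepts x ↔ b = true) ∧
      M.SpaceLe x (Nat.log 2 x.length ^ k₂ + k₂) ∧
      (x ≠ [] → (b = true ↔ ∃ t < 2 ^ (Nat.size x.length + 1) ^ e,
        V.out (V.run (eword (zpar ((Nat.size x.length + 1) ^ D)
          ((Nat.size x.length + 1) ^ (D * d₂)) ((Nat.size x.length + 1) ^ (D * d₃))) x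
          ((Nat.size x.length + 1) ^ (d + 1))) (fun _ => false) t).q = some true)) := by
    intro x
    have h2 : sp x.length = (Nat.size x.length + 1) ^ (d + 1) + (Nat.size x.length + 1) ^ e +
      7 * (Nat.size x.length + 1) ^ e₁ + Nat.size x.length + sV x.length + 8 := rfl
    have h3 : (zpar ((Nat.size x.length + 1) ^ D) ((Nat.size x.length + 1) ^ (D * d₂))
        ((Nat.size x.length + 1) ^ (D * d₃))).length + 1 ≤ sp x.length := by
      rw [hlz]
      by_cases hn : x.length = 0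
      · rw [h2, hn]
        simp
      · have h4 := bound (D := D) (d₂ := d₂) (d₃ := d₃) (hsz x.length (by omega))
        rw [← he₁] at h4
        omega
    obtain ⟨T, b, D', hR, hb⟩ := hU V x (sp x.length) (sV x.length) D (D * d₂) (D * d₃) d e
      h3 (by omega) (by omega) (by omega) (by omega) (hES x) (fun _ => false)
    obtain ⟨-, hacc, hspx⟩ := hM x _ T b D' (fun _ => false) hR
    exact ⟨b, hacc, spaceLe_mono hspx (hk₂ _), hb⟩
  refine ⟨{x | M.Accepts x}, ⟨M, hMdet, ⟨k₂, fun x => ?_⟩, fun x => Iff.rfl⟩, ?_⟩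
  · obtain ⟨b, -, h, -⟩ := key x
    exact h
  obtain ⟨m₀, hm₀⟩ := eventually_atTop.1 hL₄'
  obtain ⟨n₀, hn₀⟩ := ev_log k'
  filter_upwards [hlarge, eventually_ge_atTop n₀, eventually_ge_atTop (2 ^ m₀),
    eventually_ge_atTop 1] with n hn hnn hnm hn1
  have hl2 := hsz n hn1
  have h4D : 4 * (Nat.size n + 1) ^ D ≤ n := by
    have h1 := hn₀ n hnn
    have h2 := hk' n
    have h3 : (Nat.size n + 1) ^ D ≤ (Nat.size n + 1) ^ e₁ := by
      refine Nat.pow_le_pow_right (by omega) ?_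
      have := Nat.le_mul_of_pos_right D (by omega : 0 < d₂ + d₃ + 1)
      omega
    omega
  have hm : m₀ ≤ (Nat.size n + 1) ^ D := by
    have h1 := size_ge hnm
    have h2 : (Nat.size n + 1) ^ 1 ≤ (Nat.size n + 1) ^ D := Nat.pow_le_pow_right (by omega) hD
    rw [pow_one] at h2
    omega
  obtain ⟨T, hT, hB, hT'⟩ := hm₀ _ hm
  refine ⟨T, hT, hB, fun x hx => ?_⟩
  obtain ⟨b, hacc, -, hb⟩ := key x
  have hx0 : x ≠ [] := by
    rintro rfl
    simp at hx
    omega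
  have h5 := hT' x (by rw [hx]; exact h4D)
  rw [← pow_mul, ← pow_mul, ← pow_mul, ← hd] at h5
  have h6 := hb hx0
  rw [hx] at h6 h5
  show M.Accepts x ↔ _
  rw [hacc, h6, ← h5, hV]
  constructor
  · rintro ⟨t, -, ho⟩
    exact ⟨_, t, ho⟩
  · intro ha
    obtain ⟨t, ht, ho⟩ := hK VB V _ _ hdet (hsp _) ha
    refine ⟨t, lt_of_lt_of_le ht (hn _ ?_), ho⟩
    have h7 := hlen x
    rw [hx] at h7
    have h8 := bound (D := D) (d₂ := d₂) (d₃ := d₃) hl2
    rw [← he₁] at h8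
    rw [h7]
    omega

end Pool.Agent.Lib.MP_9dcf40_lc
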