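import Pool.Agent.Lib.MP_9dcf40_lc.Kn.SpecM

/-!
# The lengths of the words
-/

namespace Pool.Agent.Lib.MP_9dcf40_lc

open Filter

namespace KLen

theorem advAux_ones (κ : ℕ) : advAux (List.replicate κ .one ++ [.hash]) =
    (.b, List.replicate κ true) := by
  induction κ with
  | zero => rfl
  | succ n ih =>
    rw [List.replicate_succ, List.cons_append]
    show ((advF (advAux (List.replicate n .one ++ [.hash])).1 .one).1,
      (advF (advAux (List.replicate n .one ++ [.hash])).1 .one).2.toList ++
        (advAux (List.replicate n .one ++ [.hash])).2) = _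
    rw [ih]
    rfl

theorem advAux_c (f z : List DA) (v : List Bool) (h : advAux z = (.c, v)) :
    advAux (f ++ z) = (.c, v) := by
  induction f with
  | nil => exact h
  | cons a f ih =>
    rw [List.cons_append]
    show ((advF (advAux (f ++ z)).1 a).1,
      (advF (advAux (f ++ z)).1 a).2.toList ++ (advAux (f ++ z)).2) = (Fl.c, v)
    rw [ih]
    cases a <;> rfl

theorem adv_zpar (m κ₂ κ₃ : ℕ) : (advOf (zpar m κ₂ κ₃)).length = κ₃ := by
  have h1 : advAux (.hash :: (List.replicate κ₃ .one ++ [.hash])) =
      (.c, List.replicate κ₃ true) := by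
    show ((advF (advAux (List.replicate κ₃ .one ++ [.hash])).1 .hash).1,
      (advF (advAux (List.replicate κ₃ .one ++ [.hash])).1 .hash).2.toList ++
        (advAux (List.replicate κ₃ .one ++ [.hash])).2) = _
    rw [advAux_ones]
    rfl
  have h2 := advAux_c (List.replicate m .one ++ .hash :: List.replicate κ₂ .one) _ _ h1
  have h3 : zpar m κ₂ κ₃ = (List.replicate m .one ++ .hash :: List.replicate κ₂ .one) ++
      .hash :: (List.replicate κ₃ .one ++ [.hash]) := by
    simp [zpar]
  rw [advOf, h3, h2]
  simp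

theorem lst_len (n v : ℕ) : (lst n v).length = n := by
  induction n generalizing v with
  | zero => rfl
  | succ n ih => simp [lst, ih]

theorem hash_par (m : ℕ) : DA.hash ∉ par m := by
  simp [par]

theorem hash_bits (u : List Bool) : DA.hash ∉ u.map bitL := by
  intro h
  obtain ⟨b, _, hb⟩ := List.mem_map.1 h
  cases b <;> simp [bitL] at hb

theorem hash_fld3 (m : ℕ) (u : List Bool) : DA.hash ∉ fld3 m u := by
  rw [fld3, List.mem_append]
  rintro (h | h)
  · exact hash_bits u h
  · simp at h

theorem pow_le_ev (d : ℕ) : ∀ᶠ m : ℕ in atTop, m ^ d ≤ 2 ^ m := by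
  have h := tendsto_pow_const_div_const_pow_of_one_lt d (r := (2 : ℝ)) (by norm_num)
  have h1 := h.eventually (gt_mem_nhds (show (0 : ℝ) < 1 by norm_num))
  filter_upwards [h1] with m hm
  rw [div_lt_one (by positivity)] at hm
  have : ((m ^ d : ℕ) : ℝ) < ((2 ^ m : ℕ) : ℝ) := by
    push_cast
    exact hm
  exact (Nat.cast_lt.1 this).le

end KLen

open KLen in
theorem kn_len : StKLen := by
  refine ⟨?_, ?_, ?_, adv_zpar, ?_, ?_, ?_, ?_, ?_⟩
  · intro m κ T
    simp only [word2, par, List.length_append, List.length_cons, List.length_map,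
      List.length_replicate, List.length_nil]
    ring
  · intro m κ₂ κ₃ u hu
    simp only [word3, fld3, par, List.length_append, List.length_cons, List.length_map,
      List.length_replicate, List.length_nil]
    omega
  · intro m κ₂ κ₃
    simp only [zpar, List.length_append, List.length_cons, List.length_replicate, List.length_nil]
    omega
  · intro m n h
    have h1 : n < 2 ^ Nat.size n := Nat.lt_size_self n
    have h2 : 2 ^ (4 * m) < 2 ^ Nat.size n := lt_of_le_of_lt h h1
    have := (Nat.pow_lt_pow_iff_right (by norm_num : 1 < 2)).1 h2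
    omega
  · intro m κ T
    exact ⟨rfl, hash_bits T, hash_par m, by simp⟩
  · intro m κ₂ κ₃ u
    exact ⟨rfl, hash_fld3 m u, hash_par m, by simp⟩
  · intro m z v
    simp only [padL, List.length_append, List.length_map, List.length_replicate, lst_len]
  · intro d₂ d₃
    filter_upwards [pow_le_ev d₂, pow_le_ev d₃, eventually_ge_atTop 4] with m h2 h3 hm
    have h4 : m < 2 ^ m := Nat.lt_two_pow_self
    have h5 : 16 ≤ 2 ^ m := by
      calc 16 = 2 ^ 4 := by norm_num
        _ ≤ 2 ^ m := Nat.pow_le_pow_right (by norm_num) hm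
    set X := 2 ^ m with hX
    have e1 : 2 ^ (4 * m) = X ^ 4 := by rw [hX, ← pow_mul]; congr 1; ring
    have e2 : 2 ^ (3 * m) = X ^ 3 := by rw [hX, ← pow_mul]; congr 1; ring
    have e3 : 2 ^ (6 * m) = X ^ 6 := by rw [hX, ← pow_mul]; congr 1; ring
    rw [e1, e2, e3]
    have h6 : X ^ 6 = X ^ 4 * (X * X) := by ring
    have h7 : 256 ≤ X * X := Nat.mul_le_mul h5 h5
    have h8 : X ^ 4 * 256 ≤ X ^ 6 := by rw [h6]; exact Nat.mul_le_mul_left _ h7
    have h9 : X ≤ X ^ 4 := Nat.le_self_pow (by norm_num) X
    have h10 : X ^ 3 ≤ X ^ 4 := Nat.pow_le_pow_right (by omega) (by norm_num)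
    constructor
    · have : 4 ≤ X ^ 4 := by omega
      omega
    · omega

end Pool.Agent.Lib.MP_9dcf40_lc
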