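import Pool.Agent.Lib.MP_9dcf40_lc.Kn.SpecM

/-!
# Preparation of the simulation, level 2
-/

namespace Pool.Agent.Lib.MP_9dcf40_lc

open Rout

namespace KLoad2

variable {B G : Type}

/-- All stacks; the stacks of the simulation are given. -/
def stk (st : PN → List (PG B G)) (IL IR WL WR Q : List (PG B G)) : PN → List (PG B G)
  | .IL => IL
  | .IR => IR
  | .WL => WL
  | .WR => WR
  | .Q => Q
  | .T => st .T
  | .U => st .U
  | .S => st .S
  | .A => st .A
  | .P => st .P
  | .Th => st .Th
  | .Z => st .Z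
  | .C => st .C
  | .K => st .K
  | .H => st .H
  | .X => st .X
  | .M => st .M
  | .B => st .B
  | .F => st .F

section

variable (st : PN → List (PG B G)) (IL IR WL WR Q L : List (PG B G))

theorem stk_self : st = stk st (st .IL) (st .IR) (st .WL) (st .WR) (st .Q) := by
  funext j
  cases j <;> rfl

theorem upd_IL : Function.update (stk st IL IR WL WR Q) .IL L = stk st L IR WL WR Q := by
  funext j
  cases j <;> rfl

theorem upd_IR : Function.update (stk st IL IR WL WR Q) .IR L = stk st IL L WL WR Q := by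
  funext j
  cases j <;> rfl

theorem upd_WL : Function.update (stk st IL IR WL WR Q) .WL L = stk st IL IR L WR Q := by
  funext j
  cases j <;> rfl

theorem upd_WR : Function.update (stk st IL IR WL WR Q) .WR L = stk st IL IR WL L Q := by
  funext j
  cases j <;> rfl

theorem upd_Q : Function.update (stk st IL IR WL WR Q) .Q L = stk st IL IR WL WR L := by
  funext j
  cases j <;> rfl

end

/-- A step with known result. -/
theorem step {β γ : Type} [Finite β] {K J₁ : ℕ} {y : List VB} {s p p' : ℕ} {c : Str}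
    {st st' st'' : PN → List (PG B G)} {q : PR B G β} {f : β → PR B G γ}
    {Q : γ → Data (PG B G) PN → Str → Prop} (hJ : J₁ ≤ K)
    (h : EndsT J₁ y q s ⟨p, st⟩ c fun _ D' c' => c' = c ∧ D' = ⟨p', st'⟩) (he : st' = st'')
    (h' : ∀ b, (⟨p', st''⟩ : Data (PG B G) PN).le s → EndsT K y (f b) s ⟨p', st''⟩ c Q) :
    EndsT (K + 1) y (q.bind f) s ⟨p, st⟩ c Q := by
  subst he
  refine endsT_seq (by omega) le_rfl h ?_
  rintro b D' c' hD' ⟨rfl, rfl⟩
  exact h' b hD'

/-- Empty the stacks of the simulation. -/
theorem clear [Finite B] [Finite G] {J : ℕ} {y : List VB} {s p : ℕ} {c : Str}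
    {st : PN → List (PG B G)} {IL IR WL WR Q : List (PG B G)}
    (hE : ∀ (D : Data (PG B G) PN), D.le s → ∀ i, EndsT J y (emptyK i) s D c fun _ D' c' =>
      c' = c ∧ D' = ⟨D.pos, Function.update D.st i []⟩)
    (hD : (⟨p, stk st IL IR WL WR Q⟩ : Data (PG B G) PN).le s) :
    EndsT (J + 5) y (clearK (B := B) (G := G)) s ⟨p, stk st IL IR WL WR Q⟩ c fun _ D' c' =>
      c' = c ∧ D' = ⟨p, stk st [] [] [] [] []⟩ := by
  unfold clearK
  refine step (by omega) (hE _ hD .IL) (upd_IL _ _ _ _ _ _ _) fun _ hD => ?_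
  refine step (by omega) (hE _ hD .IR) (upd_IR _ _ _ _ _ _ _) fun _ hD => ?_
  refine step (by omega) (hE _ hD .WL) (upd_WL _ _ _ _ _ _ _) fun _ hD => ?_
  refine step (by omega) (hE _ hD .WR) (upd_WR _ _ _ _ _ _ _) fun _ hD => ?_
  refine ((hE _ hD .Q).bump (by omega)).imp ?_
  rintro _ D' c' - ⟨rfl, rfl⟩
  exact ⟨rfl, by rw [upd_Q]⟩

end KLoad2

open KLoad2 in
/-- Preparation of the simulation. -/
theorem kn_load2 (hM : StKMv) : StKLoad2 := by
  obtain ⟨J, hM⟩ := hM
  refine ⟨J + 20, ?_⟩
  rintro G _ y s ⟨p, st⟩ c z sv m q hD hH hZ hS hF hK hlen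
  dsimp only at hH hZ hS hF hK
  have hmv := fun (D : Data (PG (Option DA) G) PN) (h : D.le s) => hM (Option DA) G y s D c h
  have hKs : q ≤ s := by
    have h1 := hD .K
    dsimp only at h1
    rw [hK, List.length_replicate] at h1
    exact h1
  set n₀ : PG (Option DA) G := .inp (.letter none) with hn₀
  set L₂ : List (PG (Option DA) G) :=
    List.replicate (2 ^ m) n₀ ++ (List.replicate (2 ^ m) n₀ ++ [.inp .right]) with hL₂
  set L₄ : List (PG (Option DA) G) := (z.map fun a => .inp (.letter (some a))) ++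
    ((sv.map fun b => .inp (.letter (some (bitL b)))) ++ L₂) with hL₄
  have hfin : (PG.inp .left :: L₄ : List (PG (Option DA) G)) =
      (itapeK (padL (z ++ sv.map bitL) (2 * 2 ^ m))).map .inp := by
    rw [hL₄, hL₂, itapeK, padL, two_mul, List.replicate_add]
    simp only [List.map_cons, List.map_append, List.map_map, List.map_replicate,
      List.append_assoc, List.map_nil]
    rfl
  suffices H : EndsT (J + 20) y (load2 (G := G)) s
      ⟨p, stk st (st .IL) (st .IR) (st .WL) (st .WR) (st .Q)⟩ c fun _ D' c' =>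
        c' = c ∧ D' = ⟨p, stk st [] (.inp .left :: L₄) [] [] (List.replicate q .mark)⟩ by
    rw [← stk_self] at H
    refine H.imp ?_
    rintro _ D' c' - ⟨rfl, rfl⟩
    refine ⟨rfl, rfl, ?_, rfl, hfin, rfl, rfl, rfl⟩
    intro j hj
    cases j
    case IL => exact absurd (by simp [psSt]) hj
    case IR => exact absurd (by simp [psSt]) hj
    case WL => exact absurd (by simp [psSt]) hj
    case WR => exact absurd (by simp [psSt]) hj
    case Q => exact absurd (by simp [psSt]) hj
    all_goals rfl
  rw [stk_self st] at hD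
  unfold load2
  have hL₂len : L₂.length = 2 * 2 ^ m + 1 := by
    rw [hL₂]
    simp only [List.length_append, List.length_replicate, List.length_singleton]
    omega
  have hL₄len : L₄.length = z.length + (sv.length + (2 * 2 ^ m + 1)) := by
    rw [hL₄, List.length_append, List.length_map, List.length_append, List.length_map, hL₂len]
  have e1 : ((st .F).map fun _ => n₀) ++ [.inp .right] =
      List.replicate (2 ^ m) n₀ ++ [.inp .right] := by
    rw [hF, List.map_replicate]
  have e2 : ((st .F).map fun _ => n₀) ++ (List.replicate (2 ^ m) n₀ ++ [.inp .right]) = L₂ := by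
    rw [hF, List.map_replicate]
  have e3 : (st .S).map lsK ++ L₂ = (sv.map fun b => .inp (.letter (some (bitL b)))) ++ L₂ := by
    rw [hS, List.map_map]
    rfl
  have e4 : (st .Z).map lsK ++ ((sv.map fun b => .inp (.letter (some (bitL b)))) ++ L₂) = L₄ := by
    rw [hZ, List.map_map]
    rfl
  refine step (by omega) (clear (fun D h => (hmv D h).1) hD) rfl fun _ hD => ?_
  refine step (J₁ := J) (st'' := stk st [] [.inp .right] [] [] []) (by omega)
    (endsT_push .IR (.inp .right) hD ?_ ⟨rfl, rfl⟩) (upd_IR _ _ _ _ _ _ _) fun _ hD => ?_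
  · show 0 + 1 ≤ s
    omega
  refine step (st'' := stk st [] (List.replicate (2 ^ m) n₀ ++ [PG.inp .right]) [] [] [])
    (by omega) ((hmv _ hD).2.2.2.1 (fun _ => .inp (.letter none)) .F .IR (by decide)
    (by decide) (by decide) hH ?_)
    ((upd_IR _ _ _ _ _ _ _).trans (congrArg (fun L => stk st [] L [] [] []) e1)) fun _ hD => ?_
  · show (st .F).length + 1 ≤ s
    rw [hF, List.length_replicate]
    omega
  refine step (st'' := stk st [] L₂ [] [] [])
    (by omega) ((hmv _ hD).2.2.2.1 (fun _ => .inp (.letter none)) .F .IR (by decide)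
    (by decide) (by decide) hH ?_)
    ((upd_IR _ _ _ _ _ _ _).trans (congrArg (fun L => stk st [] L [] [] []) e2)) fun _ hD => ?_
  · show (st .F).length + (List.replicate (2 ^ m) n₀ ++ [PG.inp .right]).length ≤ s
    rw [hF, List.length_replicate, List.length_append, List.length_replicate,
      List.length_singleton]
    omega
  refine step (st'' := stk st [] ((sv.map fun b => PG.inp (.letter (some (bitL b)))) ++ L₂) [] [] [])
    (by omega) ((hmv _ hD).2.2.2.1 lsK .S .IR (by decide) (by decide) (by decide) hH ?_)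
    ((upd_IR _ _ _ _ _ _ _).trans (congrArg (fun L => stk st [] L [] [] []) e3)) fun _ hD => ?_
  · show (st .S).length + L₂.length ≤ s
    rw [hS, List.length_map, hL₂len]
    omega
  refine step (st'' := stk st [] L₄ [] [] [])
    (by omega) ((hmv _ hD).2.2.2.1 lsK .Z .IR (by decide) (by decide) (by decide) hH ?_)
    ((upd_IR _ _ _ _ _ _ _).trans (congrArg (fun L => stk st [] L [] [] []) e4)) fun _ hD => ?_
  · show (st .Z).length + ((sv.map fun b => PG.inp (.letter (some (bitL b)))) ++ L₂).length ≤ s
    rw [hZ, List.length_map, List.length_append, List.length_map, hL₂len]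
    omega
  refine step (J₁ := J) (st'' := stk st [] (.inp .left :: L₄) [] [] []) (by omega)
    (endsT_push .IR (.inp .left) hD ?_ ⟨rfl, rfl⟩) (upd_IR _ _ _ _ _ _ _) fun _ hD => ?_
  · show L₄.length + 1 ≤ s
    rw [hL₄len]
    omega
  refine (((hmv _ hD).2.2.2.1 id .K .Q (by decide) (by decide) (by decide) hH ?_).bump
    (by omega)).imp ?_
  · show (st .K).length + 0 ≤ s
    rw [hK, List.length_replicate]
    omega
  · rintro _ D' c' - ⟨rfl, rfl⟩
    refine ⟨rfl, ?_⟩
    rw [upd_Q]
    show (⟨p, stk st [] (.inp .left :: L₄) [] [] ((st .K).map id ++ [])⟩ :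
      Data (PG (Option DA) G) PN) = _
    rw [hK, List.map_id, List.append_nil]

end Pool.Agent.Lib.MP_9dcf40_lc
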