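import Pool.Agent.Lib.MP_9dcf40_lc.Kn.Tools

/-!
# The input word of level 3 (`StKLoad4`)
-/

namespace Pool.Agent.Lib.MP_9dcf40_lc

open Rout KTools

namespace KLoad4

/-- The stacks after `clearK`, with a new stack `IR`. -/
def sti {B G : Type} (st : PN → List (PG B G)) (L : List (PG B G)) : PN → List (PG B G)
  | .IL => []
  | .IR => L
  | .WL => []
  | .WR => []
  | .Q => []
  | .T => st .T
  | .U => st .U
  | .S => st .S
  | .A => st .A
  | .P => st .P
  | .Th => st .Th
  | .Z => st .Z
  | .C => st .C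
  | .K => st .K
  | .H => st .H
  | .X => st .X
  | .M => st .M
  | .B => st .B
  | .F => st .F

variable {G : Type} [Finite G] {y : List VB} {s J J₂ J' : ℕ} {p : ℕ}
  {st : PN → List (PG DA G)} {L : List (PG DA G)} {c : Str} {γ : Type}
  {Q : γ → Data (PG DA G) PN → Str → Prop}

omit [Finite G] in
theorem sti_upd (L' : List (PG DA G)) : Function.update (sti st L) .IR L' = sti st L' := by
  funext i
  cases i <;> rfl

theorem clear_seq (hM : ∀ (D : Data (PG DA G) PN) (c : Str), D.le s → ∀ i, EndsT J y (emptyK i)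
      s D c fun _ D' c' => c' = c ∧ D' = ⟨D.pos, Function.update D.st i []⟩)
    {F : Unit → PR DA G γ} (hJ : J + 6 ≤ J') (hJ' : J₂ + 1 ≤ J')
    (hD : (⟨p, st⟩ : Data (PG DA G) PN).le s)
    (h : (⟨p, sti st []⟩ : Data (PG DA G) PN).le s →
      EndsT J₂ y (F ()) s ⟨p, sti st []⟩ c Q) :
    EndsT J' y (clearK.bind F) s ⟨p, st⟩ c Q := by
  refine unit_seq (J₁ := J + 5) (J₂ := J₂) (by omega) hJ' ?_ h
  refine unit_seq (J₁ := J) (J₂ := J + 4) (by omega) (by omega) (hM _ c hD .IL) fun hD => ?_
  refine unit_seq (J₁ := J) (J₂ := J + 3) (by omega) (by omega) (hM _ c hD .IR) fun hD => ?_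
  refine unit_seq (J₁ := J) (J₂ := J + 2) (by omega) (by omega) (hM _ c hD .WL) fun hD => ?_
  refine unit_seq (J₁ := J) (J₂ := J + 1) (by omega) (by omega) (hM _ c hD .WR) fun hD => ?_
  refine ((hM _ c hD .Q).bump (by omega)).imp ?_
  rintro _ D' c' - ⟨rfl, rfl⟩
  refine ⟨rfl, data_ext rfl fun k => ?_⟩
  cases k <;> rfl

omit [Finite G] in
theorem push_ir (a : PG DA G) {F : Unit → PR DA G γ} (hJ : J₂ + 1 ≤ J')
    (hD : (⟨p, sti st L⟩ : Data (PG DA G) PN).le s) (hL : L.length + 1 ≤ s)
    (h : (⟨p, sti st (a :: L)⟩ : Data (PG DA G) PN).le s →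
      EndsT J₂ y (F ()) s ⟨p, sti st (a :: L)⟩ c Q) :
    EndsT J' y ((push PN.IR a).bind F) s ⟨p, sti st L⟩ c Q := by
  refine push_seq PN.IR a hJ hD hL ?_
  show (⟨p, Function.update (sti st L) .IR (a :: L)⟩ : Data (PG DA G) PN).le s →
    EndsT J₂ y (F ()) s ⟨p, Function.update (sti st L) .IR (a :: L)⟩ c Q
  rw [sti_upd]
  exact h

/-- The statement on copies. -/
def CpJ (G : Type) [Finite G] (y : List VB) (s J : ℕ) : Prop :=
  ∀ (D : Data (PG DA G) PN) (c : Str), D.le s →
    ∀ (φ : PG DA G → PG DA G) (i j : PN), i ≠ .H → j ≠ .H → i ≠ j → D.st .H = [] →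
    (D.st i).length + (D.st j).length ≤ s →
    EndsT J y (cpK φ i j) s D c fun _ D' c' => c' = c ∧
      D' = ⟨D.pos, Function.update D.st j ((D.st i).map φ ++ D.st j)⟩

theorem cp_ir (hM : CpJ G y s J) (φ : PG DA G → PG DA G) (i : PN) (hi : i ≠ .H) (hi' : i ≠ .IR)
    (hH : st .H = []) {l : List (PG DA G)} (hl : sti st L i = l)
    {F : Unit → PR DA G γ} (hJ : J + 1 ≤ J') (hJ' : J₂ + 1 ≤ J')
    (hD : (⟨p, sti st L⟩ : Data (PG DA G) PN).le s) (hL : l.length + L.length ≤ s)
    (h : (⟨p, sti st (l.map φ ++ L)⟩ : Data (PG DA G) PN).le s →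
      EndsT J₂ y (F ()) s ⟨p, sti st (l.map φ ++ L)⟩ c Q) :
    EndsT J' y ((cpK φ i PN.IR).bind F) s ⟨p, sti st L⟩ c Q := by
  subst hl
  have h1 := hM ⟨p, sti st L⟩ c hD φ i .IR hi (by simp) hi' hH hL
  refine unit_seq hJ hJ' h1 ?_
  show (⟨p, Function.update (sti st L) .IR ((sti st L i).map φ ++ L)⟩ : Data (PG DA G) PN).le s →
    EndsT J₂ y (F ()) s ⟨p, Function.update (sti st L) .IR ((sti st L i).map φ ++ L)⟩ c Q
  rw [sti_upd]
  exact h

end KLoad4

open KLoad4 in
theorem kn_load4 (hM : StKMv) : StKLoad4 := by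
  obtain ⟨J, hM⟩ := hM
  refine ⟨J + 40, ?_⟩
  rintro G _ y s ⟨p, st⟩ c m κ₂ κ₃ q u hD hH hX hB hTh hP hA hZ hU hK hu hs
  dsimp only at hH hX hB hTh hP hA hZ hU hK
  have hE : ∀ (D : Data (PG DA G) PN) (c : Str), D.le s → ∀ i, EndsT J y (emptyK i)
      s D c fun _ D' c' => c' = c ∧ D' = ⟨D.pos, Function.update D.st i []⟩ :=
    fun D c hD => (hM DA G y s D c hD).1
  have hC : CpJ G y s J := fun D c hD => (hM DA G y s D c hD).2.2.2.1
  have hRc := fun (D : Data (PG DA G) PN) (c : Str) hD => (hM DA G y s D c hD).2.2.2.2.1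
  have hlen : (word3 m κ₂ κ₃ (u ++ [false])).length =
      2 ^ (4 * m) + (4 * m + 2 ^ m + 2 ^ (3 * m)) + κ₂ + κ₃ + 4 := by
    simp only [word3, fld3, par, List.length_append, List.length_cons, List.length_map,
      List.length_replicate, List.length_nil]
    omega
  rw [hlen] at hs
  have p1 : 0 < 2 ^ m := by positivity
  have p3 : 0 < 2 ^ (3 * m) := by positivity
  refine clear_seq (J₂ := J + 30) hE (by omega) (by omega) hD fun hD => ?_
  refine push_ir (J₂ := J + 29) (.inp .right) (by omega) hD (by simp; omega) fun hD => ?_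
  refine cp_ir (J₂ := J + 28) hC _ .X (by simp) (by simp) hH hX (by omega) (by omega) hD
    (by simp; omega) fun hD => ?_
  refine push_ir (J₂ := J + 27) (cst .hash) (by omega) hD (by simp; omega) fun hD => ?_
  refine cp_ir (J₂ := J + 26) hC _ .B (by simp) (by simp) hH hB (by omega) (by omega) hD
    (by simp; omega) fun hD => ?_
  refine push_ir (J₂ := J + 25) (cst .hash) (by omega) hD (by simp; omega) fun hD => ?_
  refine push_ir (J₂ := J + 24) (cst .hash) (by omega) hD (by simp; omega) fun hD => ?_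
  refine cp_ir (J₂ := J + 23) hC _ .Th (by simp) (by simp) hH hTh (by omega) (by omega) hD
    (by simp; omega) fun hD => ?_
  refine cp_ir (J₂ := J + 22) hC _ .P (by simp) (by simp) hH hP (by omega) (by omega) hD
    (by simp; omega) fun hD => ?_
  refine cp_ir (J₂ := J + 21) hC _ .A (by simp) (by simp) hH hA (by omega) (by omega) hD
    (by simp; omega) fun hD => ?_
  refine push_ir (J₂ := J + 20) (cst .hash) (by omega) hD (by simp; omega) fun hD => ?_
  refine cp_ir (J₂ := J + 19) hC _ .Z (by simp) (by simp) hH hZ (by omega) (by omega) hD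
    (by simp; omega) fun hD => ?_
  refine push_ir (J₂ := J + 18) (cst .zero) (by omega) hD (by simp; omega) fun hD => ?_
  refine unit_seq (J₁ := J) (J₂ := J + 17) (by omega) (by omega)
    (hRc _ c hD lsD .U .IR (by simp) (by simp) (by simp) hH (by
      show (st .U).length + (_ : List (PG DA G)).length ≤ s
      rw [hU]
      simp only [sti, List.length_append, List.length_reverse, List.length_map, List.length_cons,
        List.length_replicate, List.length_nil]
      omega)) ?_
  dsimp only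
  rw [sti_upd]
  show (⟨p, sti st (((st .U).map lsD).reverse ++ _)⟩ : Data (PG DA G) PN).le s →
    EndsT (J + 17) y _ s ⟨p, sti st (((st .U).map lsD).reverse ++ _)⟩ c _
  rw [hU]
  intro hD
  refine push_ir (J₂ := J + 16) (.inp .left) (by omega) hD ?_ fun hD => ?_
  · simp only [sti, List.length_append, List.length_reverse, List.length_map, List.length_cons,
      List.length_replicate, List.length_nil]
    omega
  refine ((hC _ c hD id .K .Q (by simp) (by simp) (by simp) hH (by
      show (st .K).length + 0 ≤ s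
      have := hD .K
      exact this)).bump (by omega)).imp ?_
  rintro _ D' c' - ⟨rfl, rfl⟩
  refine ⟨rfl, rfl, fun i hi => ?_, rfl, ?_, rfl, rfl, ?_⟩
  · dsimp only
    cases i <;> first | rfl | (exfalso; exact hi (by simp [psSt]))
  · dsimp only
    rw [Function.update_of_ne (by simp)]
    simp only [sti, itapeK, word3, fld3, par, List.map_append, List.map_cons, List.map_nil,
      List.map_replicate, List.map_map, List.map_reverse, List.reverse_reverse, List.length_append,
      List.length_cons, List.length_nil, List.append_assoc, List.cons_append, List.nil_append,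
      bitL, Bool.false_eq_true, if_false, zero_add]
    rfl
  · show (st .K).map id ++ [] = _
    rw [hK, List.map_id, List.append_nil]

end Pool.Agent.Lib.MP_9dcf40_lc
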