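import Pool.Agent.Lib.MP_9dcf40_lc.Kn.SpecM
import Pool.Agent.Lib.MP_9dcf40_lc.Av.EMain

/-!
# Main statement
-/

namespace Pool.Agent.Lib.MP_9dcf40_lc

open Filter

open EMain in
theorem kn_main (hL : StKL) (hH : StKHard) (hN : StKNumH) : StKMain := by
  intro hyp c d
  obtain ⟨D, hD, hnum⟩ := hN c d
  obtain ⟨L, hL₁, hL₂⟩ := hL hyp D hD
  refine ⟨L, hL₁, ?_⟩
  rintro ⟨B, h, ⟨M, ⟨k, hk⟩, hacc⟩, hal, hfreq⟩
  obtain ⟨C₀, hC₀⟩ := hH M
  obtain ⟨n, hlt, ⟨T, hT, hB, hT'⟩, h1, h2, h3, h4⟩ :=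
    (hfreq.and_eventually (hL₂.and (hnum C₀ k))).exists
  obtain ⟨h5, h6⟩ := h4 (h n).length (hal n)
  have hle := hC₀ ((Nat.size n + 1) ^ D) n
    (2 ^ (k * (Nat.log 2 (n + (h n).length) + 1) ^ d)) T (h n) L h3 h2 hT hB h5 h6
    (fun x hx => by
      refine halts_mono M _ (hk _) ?_
      rw [length_pairL, hx]) hT'
  have hset : {x : List Bool | x.length = n ∧
      (x ∈ L ↔ x.map Sum.inl ++ (h x.length).map Sum.inr ∈ B)} =
      {x : List Bool | x.length = n ∧ (x ∈ L ↔ M.Accepts (pairL x (h n)))} := by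
    ext x
    simp only [Set.mem_ofPred_eq, hacc]
    constructor
    · rintro ⟨rfl, h7⟩
      exact ⟨rfl, h7⟩
    · rintro ⟨rfl, h7⟩
      exact ⟨rfl, h7⟩
  rw [hset] at hlt
  have hcard : (Nat.card Bool : ℝ) = 2 := by
    simp
  rw [hcard] at hlt
  have h7 := num n _ _ h1 (by omega)
  have h8 : (({x : List Bool | x.length = n ∧ (x ∈ L ↔ M.Accepts (pairL x (h n)))}.ncard : ℕ) : ℝ) ≤
      ((2 ^ (n - 1) + 2 ^ (n - 1 - (Nat.size n + 1) ^ D) : ℕ) : ℝ) := by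
    exact_mod_cast hle
  exact absurd (hlt.trans_le (h8.trans h7)) (lt_irrefl _)

end Pool.Agent.Lib.MP_9dcf40_lc
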