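import Pool.Agent.Lib.MP_9dcf40_lc.Kn.SpecM

/-!
# The main loop of level 2
-/

namespace Pool.Agent.Lib.MP_9dcf40_lc

open Rout

namespace KMain2

theorem numK_zero (p : ℕ → Prop) : numK p 0 = 0 := by
  simp [numK]

theorem numK_yes {p : ℕ → Prop} {v : ℕ} (h : p v) : numK p (v + 1) = numK p v + 1 := by
  unfold numK
  rw [Nat.count_succ, if_pos h]

theorem numK_no {p : ℕ → Prop} {v : ℕ} (h : ¬ p v) : numK p (v + 1) = numK p v := by
  unfold numK
  rw [Nat.count_succ, if_neg h, add_zero]

theorem numK_le (p : ℕ → Prop) (v : ℕ) : numK p v ≤ v := by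
  classical
  induction v with
  | zero => rw [numK_zero]
  | succ v ih =>
    by_cases h : p v
    · rw [numK_yes h]
      omega
    · rw [numK_no h]
      omega

theorem lst_top (hO : StEOdo) (n : ℕ) : lst n (2 ^ n) = lst n 0 := by
  obtain ⟨-, -, hO1, hO2, hO3, -⟩ := hO
  have h1 := hO3 (lst n (2 ^ n))
  rw [hO1, hO2, Nat.mod_self] at h1
  exact h1.symm

theorem step_lst (hO : StEOdo) (n v : ℕ) (hv : v < 2 ^ n) :
    (cstep true (lst n v)).1 = lst n (v + 1) := by
  have hO' := hO
  obtain ⟨-, -, -, -, -, h1, h2, -⟩ := hO'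
  by_cases h : v + 1 < 2 ^ n
  · rw [h1 n v h]
  · have h3 : v = 2 ^ n - 1 := by omega
    have h4 : v + 1 = 2 ^ n := by omega
    rw [h4, lst_top hO, h3, h2]

/-- The invariant. -/
structure Inv {G : Type} (s : ℕ) (T : List Bool) (z : List DA) (m q N₀ : ℕ) (p : ℕ → Prop)
    (v : ℕ) (D : Data (PG (Option DA) G) PN) : Prop where
  le : D.le s
  hv : v ≤ 2 ^ (4 * m)
  H : D.st .H = []
  U : D.st .U = (T.drop v).map .bit
  S : D.st .S = (lst (4 * m) v).map .bit
  Z : D.st .Z = z.map .ltr
  F : D.st .F = List.replicate (2 ^ m) .mark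
  K : D.st .K = List.replicate q .mark
  C : D.st .C = List.replicate (numK p v) .mark
  Th : D.st .Th = List.replicate (N₀ + numK (fun v => ¬ p v) v) .mark

end KMain2

open KMain2 in
theorem kn_main2 (hL : StKLoad2) (hP : StKPsim) (hC : StKCnt) (hO : StEOdo) (hV : StCount) :
    StKMain2 := by
  classical
  obtain ⟨J₁, hL⟩ := hL
  obtain ⟨J₂, hP⟩ := hP
  obtain ⟨J₃, hC⟩ := hC
  refine ⟨J₁ + J₂ + J₃ + 22, ?_⟩
  intro V _ _ y s D c T z m q N₀ hD hT hz hH hU hS hZ hF hK hCC hTh hs1 hs2 hs3
  set p : ℕ → Prop := fun v => (accV V q m z v ↔ T[v]? = some true) with hp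
  have hlst0 : lst (4 * m) 0 = List.replicate (4 * m) false := hO.2.2.2.2.2.2.2.1 _
  unfold main2
  refine endsT_iter (J := J₁ + J₂ + J₃ + 20)
    (I := fun _ D' _ => ∃ v, Inv s T z m q N₀ p v D')
    (μ := fun _ D' => (D'.st .U).length) ?_ ?_ ?_
  · rintro _ D₀ c₀ ⟨v, hI⟩
    refine endsT_seq (J₁ := 0) (J₂ := J₁ + J₂ + J₃ + 19) (by omega) (by omega)
      (P := fun o D' _ => o = (D₀.st .U).head? ∧
        D' = ⟨D₀.pos, Function.update D₀.st .U (D₀.st .U).tail⟩)
      (endsT_pop .U hI.le ⟨rfl, rfl⟩) ?_
    rintro o D₁ c₁ hD₁ ⟨rfl, rfl⟩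
    by_cases hv : v < 2 ^ (4 * m)
    swap
    · -- the end
      have hv' : v = 2 ^ (4 * m) := le_antisymm hI.hv (not_lt.1 hv)
      have hUe : D₀.st .U = [] := by
        rw [hI.U, List.drop_eq_nil_of_le (by omega), List.map_nil]
      rw [hUe]
      refine endsT_pure _ (by simpa [hUe] using hD₁) ⟨?_, ?_⟩
      · intro t' ht'
        exact absurd ht' (by simp)
      · intro b _
        subst hv'
        refine ⟨?_, ?_⟩
        · simp only [List.tail_nil, ne_eq, reduceCtorEq, not_false_eq_true,
            Function.update_of_ne, hI.C, List.length_replicate]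
        · simp only [List.tail_nil, ne_eq, reduceCtorEq, not_false_eq_true,
            Function.update_of_ne, hI.Th, List.length_replicate]
          rfl
    · have hvT : v < T.length := by omega
      have hUc : D₀.st .U = .bit T[v] :: (T.drop (v + 1)).map .bit := by
        rw [hI.U, List.drop_eq_getElem_cons hvT, List.map_cons]
      have hTv : T[v]? = some T[v] := List.getElem?_eq_getElem hvT
      rw [hUc] at hD₁ ⊢
      simp only [List.head?_cons, List.tail_cons] at hD₁ ⊢
      set D₁ : Data (PG (Option DA) V.G) PN :=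
        ⟨D₀.pos, Function.update D₀.st .U ((T.drop (v + 1)).map .bit)⟩ with hD₁def
      have hlen : (lst (4 * m) v).length = 4 * m := hO.2.2.1 _ _
      -- load
      refine endsT_seq (J₁ := J₁) (J₂ := J₁ + J₂ + J₃ + 18) (by omega) (by omega)
        (hL V.G y s D₁ c₁ z (lst (4 * m) v) m q hD₁ (by simpa [hD₁def] using hI.H)
          (by simpa [hD₁def] using hI.Z) (by simpa [hD₁def] using hI.S)
          (by simpa [hD₁def] using hI.F) (by simpa [hD₁def] using hI.K)
          (by rw [hz, hlen]; omega)) ?_
      rintro _ D₂ c₂ hD₂ ⟨rfl, hpos₂, hfr₂, hIL, hIR, hWL, hWR, hQ⟩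
      -- simulation
      have hzl : (padL (z ++ (lst (4 * m) v).map bitL) (2 * 2 ^ m)).length + 3 ≤ s := by
        rw [padL, List.length_append, List.length_map, List.length_append, List.length_map,
          List.length_replicate, hz, hlen]
        omega
      refine endsT_seq (J₁ := J₂) (J₂ := J₁ + J₂ + J₃ + 17) (by omega) (by omega)
        (hP (Option DA) V y s D₂ c₂ _ hD₂ hzl (by rw [hQ, List.length_replicate]; omega)
          hIL hIR hWL hWR) ?_
      rintro a D₃ c₃ hD₃ ⟨rfl, hpos₃, hfr₃, ha⟩
      rw [hQ, List.length_replicate] at ha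
      have ha' : a = true ↔ accV V q m z v := ha
      have hfr : ∀ i, i ∉ psSt → D₃.st i = D₁.st i := fun i hi =>
        (hfr₃ i hi).trans (hfr₂ i hi)
      have hD₃H : D₃.st .H = [] := by
        rw [hfr .H (by decide)]
        simpa [hD₁def] using hI.H
      have hD₃U : D₃.st .U = (T.drop (v + 1)).map .bit := by
        rw [hfr .U (by decide)]
        simp [hD₁def]
      have hD₃S : D₃.st .S = (lst (4 * m) v).map .bit := by
        rw [hfr .S (by decide)]
        simpa [hD₁def] using hI.S
      have hD₃Z : D₃.st .Z = z.map .ltr := by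
        rw [hfr .Z (by decide)]
        simpa [hD₁def] using hI.Z
      have hD₃F : D₃.st .F = List.replicate (2 ^ m) .mark := by
        rw [hfr .F (by decide)]
        simpa [hD₁def] using hI.F
      have hD₃K : D₃.st .K = List.replicate q .mark := by
        rw [hfr .K (by decide)]
        simpa [hD₁def] using hI.K
      have hD₃C : D₃.st .C = List.replicate (numK p v) .mark := by
        rw [hfr .C (by decide)]
        simpa [hD₁def] using hI.C
      have hD₃Th : D₃.st .Th = List.replicate (N₀ + numK (fun v => ¬ p v) v) .mark := by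
        rw [hfr .Th (by decide)]
        simpa [hD₁def] using hI.Th
      have hle1 := numK_le p v
      have hle2 := numK_le (fun v => ¬ p v) v
      have hiff : sameK (G := V.G) a (.bit T[v]) = true ↔ p v := by
        show (a == T[v]) = true ↔ (accV V q m z v ↔ T[v]? = some true)
        rw [← ha', hTv, beq_iff_eq]
        cases a <;> cases T[v] <;> simp
      have hstep := step_lst hO (4 * m) v hv
      by_cases hpv : p v
      · -- agreement
        have hsame : sameK (G := V.G) a (.bit T[v]) = true := hiff.2 hpv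
        rw [hsame, if_pos rfl]
        refine endsT_seq (J₁ := 0) (J₂ := J₁ + J₂ + J₃ + 16) (by omega) (by omega)
          (P := fun _ D' _ => D' = ⟨D₃.pos, Function.update D₃.st .C (.mark :: D₃.st .C)⟩)
          (endsT_push .C .mark hD₃ (by rw [hD₃C, List.length_replicate]; omega) rfl) ?_
        rintro _ D₄ c₄ hD₄ rfl
        refine endsT_seq (J₁ := J₃) (J₂ := J₁ + J₂ + J₃ + 15) (by omega) (by omega)
          (hC (Option DA) V.G y s _ c₄ true .S (lst (4 * m) v) hD₄ (by decide)
            (by simpa using hD₃H) (by simpa using hD₃S)) ?_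
        rintro o D₅ c₅ hD₅ ⟨rfl, -, rfl⟩
        refine endsT_pure _ hD₅ ⟨?_, ?_⟩
        · rintro _ -
          refine ⟨⟨v + 1, hD₅, hv, ?_, ?_, ?_, ?_, ?_, ?_, ?_, ?_⟩, ?_⟩
          · simpa using hD₃H
          · simpa using hD₃U
          · simp [hstep]
          · simpa using hD₃Z
          · simpa using hD₃F
          · simpa using hD₃K
          · rw [numK_yes hpv, List.replicate_succ]
            simp [hD₃C]
          · rw [numK_no (p := fun v => ¬ p v) (fun h => h hpv)]
            simpa using hD₃Th
          · simp only [ne_eq, reduceCtorEq, not_false_eq_true, Function.update_of_ne, hD₃U,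
              List.length_map, List.length_cons]
            omega
        · intro b hb
          exact absurd hb (by simp)
      · -- disagreement
        have hsame : sameK (G := V.G) a (.bit T[v]) = false := by
          by_contra hcon
          exact hpv (hiff.1 (by simpa using hcon))
        rw [hsame, if_neg (by simp)]
        refine endsT_seq (J₁ := 0) (J₂ := J₁ + J₂ + J₃ + 16) (by omega) (by omega)
          (P := fun _ D' _ => D' = ⟨D₃.pos, Function.update D₃.st .Th (.mark :: D₃.st .Th)⟩)
          (endsT_push .Th .mark hD₃ (by rw [hD₃Th, List.length_replicate]; omega) rfl) ?_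
        rintro _ D₄ c₄ hD₄ rfl
        refine endsT_seq (J₁ := J₃) (J₂ := J₁ + J₂ + J₃ + 15) (by omega) (by omega)
          (hC (Option DA) V.G y s _ c₄ true .S (lst (4 * m) v) hD₄ (by decide)
            (by simpa using hD₃H) (by simpa using hD₃S)) ?_
        rintro o D₅ c₅ hD₅ ⟨rfl, -, rfl⟩
        refine endsT_pure _ hD₅ ⟨?_, ?_⟩
        · rintro _ -
          refine ⟨⟨v + 1, hD₅, hv, ?_, ?_, ?_, ?_, ?_, ?_, ?_, ?_⟩, ?_⟩
          · simpa using hD₃H
          · simpa using hD₃U
          · simp [hstep]
          · simpa using hD₃Z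
          · simpa using hD₃F
          · simpa using hD₃K
          · rw [numK_no hpv]
            simpa using hD₃C
          · rw [numK_yes (p := fun v => ¬ p v) hpv, ← add_assoc, List.replicate_succ]
            simp [hD₃Th]
          · simp only [ne_eq, reduceCtorEq, not_false_eq_true, Function.update_of_ne, hD₃U,
              List.length_map, List.length_cons]
            omega
        · intro b hb
          exact absurd hb (by simp)
  · refine ⟨0, hD, Nat.zero_le _, hH, ?_, ?_, hZ, hF, hK, ?_, ?_⟩
    · rw [hU, List.drop_zero]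
    · rw [hS, hlst0, List.map_replicate]
    · rw [hCC, numK_zero, List.replicate_zero]
    · rw [hTh, numK_zero, add_zero]
  · show (D.st .U).length ≤ s + 5
    rw [hU, List.length_map, hT]
    omega

end Pool.Agent.Lib.MP_9dcf40_lc
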