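import Pool.Agent.Lib.MP_9dcf40_lc.Kn.SpecM

/-!
# The main loop of level 4
-/

namespace Pool.Agent.Lib.MP_9dcf40_lc

open Rout

namespace KMain4

theorem tabOf_length (p : List Bool → Prop) (n : ℕ) : (tabOf p n).length = n := by
  induction n with
  | zero => rfl
  | succ n ih =>
    rw [tabOf, List.length_append, ih]
    rfl

theorem word3_length (m κ₂ κ₃ : ℕ) (u : List Bool) (h : u.length ≤ 2 ^ (4 * m)) :
    (word3 m κ₂ κ₃ u).length = 2 ^ (4 * m) + (4 * m + 2 ^ m + 2 ^ (3 * m)) + κ₂ + κ₃ + 4 := by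
  simp only [word3, fld3, par, List.length_append, List.length_cons, List.length_map,
    List.length_replicate, List.length_nil]
  generalize 2 ^ (4 * m) = a at *
  generalize 2 ^ (3 * m) = b
  generalize 2 ^ m = d
  omega

end KMain4

open KMain4 in
theorem kn_main4 (hL : StKLoad4) (hP : StKPsim) : StKMain4 := by
  classical
  obtain ⟨J₁, h₁⟩ := hL
  obtain ⟨J₂, h₂⟩ := hP
  refine ⟨J₁ + J₂ + 8 + 2, ?_⟩
  intro U _ _ y s D c m κ₂ κ₃ q hle hH hX hB hTh hPP hA hZ hU hK hs₁ hs₂
  set p : List Bool → Prop := fun u => ∃ t ≤ q,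
    U.out (U.run (word3 m κ₂ κ₃ (u ++ [false])) (fun _ => false) t).q = some true with hp
  have hbase : 2 ^ (4 * m) + 10 ≤ s := by
    generalize 2 ^ (4 * m) = a at *
    generalize 2 ^ (3 * m) = b at *
    generalize 2 ^ m = d at *
    omega
  unfold main4
  refine endsT_iter (fun _ D' c' => D'.le s ∧ c' = c ∧ Fr (.Z :: .U :: psSt) D D' ∧
    ∃ n ≤ 2 ^ (4 * m), D'.st .Z = List.replicate (2 ^ (4 * m) - n) .mark ∧
      D'.st .U = ((tabOf p n).map .bit).reverse)
    (fun _ D' => (D'.st .Z).length) ?_ ?_ ?_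
  · rintro _ D₁ c₁ ⟨hle₁, rfl, hfr₁, n, hn, hZ₁, hU₁⟩
    rcases Nat.lt_or_ge n (2 ^ (4 * m)) with h | h
    · -- one more bit
      have hZ₂ : D₁.st .Z = .mark :: List.replicate (2 ^ (4 * m) - (n + 1)) .mark := by
        rw [hZ₁, show 2 ^ (4 * m) - n = (2 ^ (4 * m) - (n + 1)) + 1 by omega,
          List.replicate_succ]
      refine endsT_seq (J₁ := 0) (J₂ := J₁ + J₂ + 6) (P := fun o D' c' => c' = c₁ ∧
        o = some .mark ∧ D' = ⟨D₁.pos, Function.update D₁.st .Z
          (List.replicate (2 ^ (4 * m) - (n + 1)) .mark)⟩) (by omega) (by omega)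
        (endsT_pop PN.Z hle₁ (by rw [hZ₂]; exact ⟨rfl, rfl, rfl⟩)) ?_
      rintro o D₂ c₂ hle₂ ⟨rfl, rfl, rfl⟩
      have hst : ∀ j, j ∉ (.Z :: .U :: psSt : List PN) → (⟨D₁.pos, Function.update D₁.st .Z
          (List.replicate (2 ^ (4 * m) - (n + 1)) .mark)⟩ : Data (PG DA U.G) PN).st j =
          D.st j := by
        intro j hj
        dsimp only
        rw [Function.update_of_ne (by rintro rfl; simp at hj), hfr₁ j hj]
      have hstU : (⟨D₁.pos, Function.update D₁.st .Z
          (List.replicate (2 ^ (4 * m) - (n + 1)) .mark)⟩ : Data (PG DA U.G) PN).st .U =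
          ((tabOf p n).map .bit).reverse := by
        dsimp only
        rw [Function.update_of_ne (by decide), hU₁]
      have hul : (tabOf p n).length + 1 ≤ 2 ^ (4 * m) := by
        rw [tabOf_length]
        omega
      have hwl : (word3 m κ₂ κ₃ (tabOf p n ++ [false])).length + 6 ≤ s := by
        rw [word3_length _ _ _ _ (by rw [List.length_append]; exact hul)]
        generalize 2 ^ (4 * m) = a at *
        generalize 2 ^ (3 * m) = b at *
        generalize 2 ^ m = d at *
        omega
      refine endsT_seq (J₁ := J₁) (J₂ := J₁ + J₂ + 5) (by omega) (by omega)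
        (h₁ U.G y s _ c₂ m κ₂ κ₃ q (tabOf p n) hle₂ ?_ ?_ ?_ ?_ ?_ ?_ ?_ hstU ?_ hul
          (by omega)) ?_
      · rw [hst _ (by decide), hH]
      · rw [hst _ (by decide), hX]
      · rw [hst _ (by decide), hB]
      · rw [hst _ (by decide), hTh]
      · rw [hst _ (by decide), hPP]
      · rw [hst _ (by decide), hA]
      · dsimp only
        rw [Function.update_self, tabOf_length]
      · rw [hst _ (by decide), hK]
      rintro _ D₃ c₃ hle₃ ⟨rfl, -, hfr₃, hIL₃, hIR₃, hWL₃, hWR₃, hQ₃⟩
      have hQl : (D₃.st .Q).length = q := by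
        rw [hQ₃, List.length_replicate]
      refine endsT_seq (J₁ := J₂) (J₂ := J₁ + J₂ + 4) (by omega) (by omega)
        (h₂ DA U y s D₃ c₃ _ hle₃ (by omega) (by omega) hIL₃ hIR₃ hWL₃ hWR₃) ?_
      rintro a D₄ c₄ hle₄ ⟨rfl, -, hfr₄, ha⟩
      rw [hQl] at ha
      have hU₄ : D₄.st .U = ((tabOf p n).map .bit).reverse := by
        rw [hfr₄ .U (by decide), hfr₃ .U (by decide), hstU]
      have hU₄l : (D₄.st .U).length + 1 ≤ s := by
        rw [hU₄, List.length_reverse, List.length_map, tabOf_length]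
        omega
      refine endsT_seq (J₁ := 0) (J₂ := 0) (P := fun _ D' c' => c' = c₄ ∧
        D' = ⟨D₄.pos, Function.update D₄.st .U (.bit a :: D₄.st .U)⟩) (by omega) (by omega)
        (endsT_push PN.U _ hle₄ hU₄l ⟨rfl, rfl⟩) ?_
      rintro _ D₅ c₅ hle₅ ⟨rfl, rfl⟩
      refine endsT_pure _ hle₅ ⟨fun t' _ => ?_, fun b hb => absurd hb (by simp)⟩
      have hZ₅ : (Function.update D₄.st .U (.bit a :: D₄.st .U)) .Z =
          List.replicate (2 ^ (4 * m) - (n + 1)) .mark := by
        rw [Function.update_of_ne (by decide), hfr₄ .Z (by decide), hfr₃ .Z (by decide)]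
        dsimp only
        rw [Function.update_self]
      refine ⟨⟨hle₅, rfl, ?_, n + 1, h, hZ₅, ?_⟩, ?_⟩
      · intro j hj
        have hj' : j ∉ psSt := fun h => hj (List.mem_cons_of_mem _ (List.mem_cons_of_mem _ h))
        dsimp only
        rw [Function.update_of_ne (by rintro rfl; simp at hj), hfr₄ j hj', hfr₃ j hj', hst j hj]
      · dsimp only
        rw [Function.update_self, hU₄, tabOf]
        have hpa : ∀ i : Decidable (p (tabOf p n)), @decide _ i = a := by
          intro i
          have h5 : a = true ↔ p (tabOf p n) := ha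
          cases a with
          | true => exact decide_eq_true (h5.1 rfl)
          | false => exact decide_eq_false fun h6 => by simpa using h5.2 h6
        rw [List.map_append, List.reverse_append, hpa]
        rfl
      · show (Function.update D₄.st .U (.bit a :: D₄.st .U) .Z).length < (D₁.st .Z).length
        rw [hZ₅, hZ₂, List.length_cons]
        omega
    · -- the end
      obtain rfl : n = 2 ^ (4 * m) := le_antisymm hn h
      have hnil : D₁.st .Z = [] := by
        rw [hZ₁, Nat.sub_self]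
        rfl
      refine endsT_seq (J₁ := 0) (J₂ := 0) (P := fun o D' c' => c' = c₁ ∧
        o = none ∧ D' = ⟨D₁.pos, Function.update D₁.st .Z []⟩) (by omega) (by omega)
        (endsT_pop PN.Z hle₁ (by rw [hnil]; exact ⟨rfl, rfl, rfl⟩)) ?_
      rintro o D₂ c₂ hle₂ ⟨rfl, rfl, rfl⟩
      refine endsT_pure _ hle₂ ⟨fun t' ht' => absurd ht' (by simp), fun b hb => ?_⟩
      refine ⟨rfl, ?_, ?_⟩
      · dsimp only
        rw [Function.update_of_ne (by decide), hU₁]
      · intro j hj
        dsimp only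
        rw [Function.update_of_ne (by rintro rfl; simp at hj), hfr₁ j hj]
  · exact ⟨hle, rfl, Fr.refl _ _, 0, Nat.zero_le _, by rw [hZ, Nat.sub_zero], by rw [hU]; rfl⟩
  · rw [hZ, List.length_replicate]
    omega

end Pool.Agent.Lib.MP_9dcf40_lc
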