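import Pool.Agent.Lib.MP_9dcf40_lc.Kn.SpecM

/-!
# Moving and copying stacks (`StKMv`)
-/

namespace Pool.Agent.Lib.MP_9dcf40_lc

open Rout

namespace KMv

theorem data_ext {Γ ι : Type} {D D' : Data Γ ι} (h : D.pos = D'.pos)
    (h' : ∀ k, D.st k = D'.st k) : D = D' := by
  cases D
  cases D'
  simp only at h h'
  subst h
  exact congrArg _ (funext h')

variable {B G : Type} [Finite B] [Finite G] {y : List VB} {s : ℕ} {D : Data (PG B G) PN} {c : Str}

theorem empty_ok (i : PN) (hD : D.le s) :
    EndsT 3 y (emptyK i) s D c fun _ D' c' => c' = c ∧ D' = ⟨D.pos, Function.update D.st i []⟩ := by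
  refine endsT_iter (J := 1) (fun _ D' c' => D'.le s ∧ c' = c ∧ D'.pos = D.pos ∧
    ∀ k, k ≠ i → D'.st k = D.st k) (fun _ D' => (D'.st i).length) ?_
    ⟨hD, rfl, rfl, fun _ _ => rfl⟩ ((hD i).trans (by omega))
  rintro ⟨⟩ D' c' ⟨hD', rfl, hpos, hk⟩
  refine endsT_seq (J₁ := 0) (J₂ := 0) (by omega) (by omega) (P := fun o D'' c'' => c'' = c' ∧
    o = (D'.st i).head? ∧ D'' = ⟨D'.pos, Function.update D'.st i (D'.st i).tail⟩)
    (endsT_pop i hD' ⟨rfl, rfl, rfl⟩) ?_
  rintro o D'' c'' hD'' ⟨rfl, rfl, rfl⟩
  cases h : D'.st i with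
  | nil =>
    rw [h] at hD''
    refine endsT_pure _ hD'' ⟨fun t' ht => absurd ht (by simp), fun b hb => ⟨rfl, ?_⟩⟩
    refine data_ext hpos fun k => ?_
    by_cases hki : k = i
    · subst hki
      simp
    · simp only [ne_eq, hki, not_false_eq_true, Function.update_of_ne]
      exact hk k hki
  | cons a l =>
    rw [h] at hD''
    refine endsT_pure _ hD'' ⟨fun t' ht => ⟨⟨hD'', rfl, hpos, fun k hki => ?_⟩, ?_⟩,
      fun b hb => absurd hb (by simp)⟩
    · simp only [ne_eq, hki, not_false_eq_true, Function.update_of_ne]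
      exact hk k hki
    · simp

theorem mv_ok (φ : PG B G → PG B G) (i j : PN) (hij : i ≠ j) (hD : D.le s)
    (hs : (D.st i).length + (D.st j).length ≤ s) :
    EndsT 4 y (mvK φ i j) s D c fun _ D' c' => c' = c ∧ D' = ⟨D.pos, Function.update
      (Function.update D.st i []) j (((D.st i).map φ).reverse ++ D.st j)⟩ := by
  refine endsT_iter (J := 2) (fun _ D' c' => D'.le s ∧ c' = c ∧ D'.pos = D.pos ∧
    (∀ k, k ≠ i → k ≠ j → D'.st k = D.st k) ∧ ∃ l, D.st i = l ++ D'.st i ∧
      D'.st j = (l.map φ).reverse ++ D.st j) (fun _ D' => (D'.st i).length) ?_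
    ⟨hD, rfl, rfl, fun _ _ _ => rfl, [], rfl, rfl⟩ ((hD i).trans (by omega))
  rintro ⟨⟩ D' c' ⟨hD', rfl, hpos, hk, l, hl, hl'⟩
  refine endsT_seq (J₁ := 0) (J₂ := 1) (by omega) (by omega) (P := fun o D'' c'' => c'' = c' ∧
    o = (D'.st i).head? ∧ D'' = ⟨D'.pos, Function.update D'.st i (D'.st i).tail⟩)
    (endsT_pop i hD' ⟨rfl, rfl, rfl⟩) ?_
  rintro o D'' c'' hD'' ⟨rfl, rfl, rfl⟩
  cases h : D'.st i with
  | nil =>
    rw [h] at hD'' hl
    rw [List.append_nil] at hl
    refine endsT_pure _ hD'' ⟨fun t' ht => absurd ht (by simp), fun b hb => ⟨rfl, ?_⟩⟩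
    refine data_ext hpos fun k => ?_
    by_cases hkj : k = j
    · subst hkj
      simp only [Function.update_self, List.tail_nil]
      rw [Function.update_of_ne hij.symm, hl', hl]
    · by_cases hki : k = i
      · subst hki
        simp [Function.update_of_ne hkj]
      · simp only [ne_eq, hki, hkj, not_false_eq_true, Function.update_of_ne]
        exact hk k hki hkj
  | cons a l₂ =>
    rw [h] at hD'' hl
    refine endsT_seq (J₁ := 0) (J₂ := 0) (by omega) (by omega) (P := fun _ D₃ c₃ => c₃ = c'' ∧
      D₃ = ⟨D'.pos, Function.update (Function.update D'.st i l₂) j (φ a :: D'.st j)⟩)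
      (endsT_push j (φ a) hD'' ?_ ⟨rfl, ?_⟩) ?_
    · show (Function.update D'.st i l₂ j).length + 1 ≤ s
      rw [Function.update_of_ne hij.symm, hl']
      rw [hl] at hs
      simp only [List.length_append, List.length_reverse, List.length_map, List.length_cons] at hs ⊢
      omega
    · show (⟨D'.pos, Function.update (Function.update D'.st i l₂) j
        (φ a :: Function.update D'.st i l₂ j)⟩ : Data (PG B G) PN) = _
      rw [Function.update_of_ne hij.symm]
    rintro _ D₃ c₃ hD₃ ⟨rfl, rfl⟩
    refine endsT_pure _ hD₃ ⟨fun t' ht => ⟨⟨hD₃, rfl, hpos, fun k hki hkj => ?_, l ++ [a], ?_, ?_⟩,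
      ?_⟩, fun b hb => absurd hb (by simp)⟩
    · simp only [ne_eq, hki, hkj, not_false_eq_true, Function.update_of_ne]
      exact hk k hki hkj
    · dsimp only
      rw [Function.update_of_ne hij, Function.update_self, hl]
      simp
    · dsimp only
      rw [Function.update_self, hl']
      simp
    · dsimp only
      rw [Function.update_of_ne hij, Function.update_self]
      simp

theorem mv2_ok (φ : PG B G → PG B G) (i h j : PN) (hih : i ≠ h) (hij : i ≠ j) (hhj : h ≠ j)
    (hD : D.le s) (hsh : (D.st i).length + (D.st h).length ≤ s)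
    (hs : (D.st i).length + (D.st j).length ≤ s) :
    EndsT 5 y (mv2K φ i h j) s D c fun _ D' c' => c' = c ∧ D' = ⟨D.pos, Function.update
      (Function.update (Function.update D.st i []) h ((D.st i).reverse ++ D.st h)) j
      (((D.st i).map φ).reverse ++ D.st j)⟩ := by
  refine endsT_iter (J := 3) (fun _ D' c' => D'.le s ∧ c' = c ∧ D'.pos = D.pos ∧
    (∀ k, k ≠ i → k ≠ h → k ≠ j → D'.st k = D.st k) ∧ ∃ l, D.st i = l ++ D'.st i ∧
      D'.st h = l.reverse ++ D.st h ∧
      D'.st j = (l.map φ).reverse ++ D.st j) (fun _ D' => (D'.st i).length) ?_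
    ⟨hD, rfl, rfl, fun _ _ _ _ => rfl, [], rfl, rfl, rfl⟩ ((hD i).trans (by omega))
  rintro ⟨⟩ D' c' ⟨hD', rfl, hpos, hk, l, hl, hlh, hl'⟩
  refine endsT_seq (J₁ := 0) (J₂ := 2) (by omega) (by omega) (P := fun o D'' c'' => c'' = c' ∧
    o = (D'.st i).head? ∧ D'' = ⟨D'.pos, Function.update D'.st i (D'.st i).tail⟩)
    (endsT_pop i hD' ⟨rfl, rfl, rfl⟩) ?_
  rintro o D'' c'' hD'' ⟨rfl, rfl, rfl⟩
  cases hh : D'.st i with
  | nil =>
    rw [hh] at hD'' hl
    rw [List.append_nil] at hl
    refine endsT_pure _ hD'' ⟨fun t' ht => absurd ht (by simp), fun b hb => ⟨rfl, ?_⟩⟩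
    refine data_ext hpos fun k => ?_
    by_cases hkj : k = j
    · subst hkj
      simp only [Function.update_self, List.tail_nil]
      rw [Function.update_of_ne hij.symm, hl', hl]
    · by_cases hkh : k = h
      · subst hkh
        simp only [Function.update_of_ne hkj, Function.update_self, List.tail_nil]
        rw [Function.update_of_ne hih.symm, hlh, hl]
      · by_cases hki : k = i
        · subst hki
          simp [Function.update_of_ne hkj, Function.update_of_ne hkh]
        · simp only [ne_eq, hki, hkj, hkh, not_false_eq_true, Function.update_of_ne]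
          exact hk k hki hkh hkj
  | cons a l₂ =>
    rw [hh] at hD'' hl
    refine endsT_seq (J₁ := 0) (J₂ := 1) (by omega) (by omega) (P := fun _ D₃ c₃ => c₃ = c'' ∧
      D₃ = ⟨D'.pos, Function.update (Function.update D'.st i l₂) h (a :: D'.st h)⟩)
      (endsT_push h a hD'' ?_ ⟨rfl, ?_⟩) ?_
    · show (Function.update D'.st i l₂ h).length + 1 ≤ s
      rw [Function.update_of_ne hih.symm, hlh]
      rw [hl] at hsh
      simp only [List.length_append, List.length_reverse, List.length_cons] at hsh ⊢
      omega
    · show (⟨D'.pos, Function.update (Function.update D'.st i l₂) h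
        (a :: Function.update D'.st i l₂ h)⟩ : Data (PG B G) PN) = _
      rw [Function.update_of_ne hih.symm]
    rintro _ D₃ c₃ hD₃ ⟨rfl, rfl⟩
    have hj3 : Function.update (Function.update D'.st i l₂) h (a :: D'.st h) j = D'.st j := by
      rw [Function.update_of_ne hhj.symm, Function.update_of_ne hij.symm]
    refine endsT_seq (J₁ := 0) (J₂ := 0) (by omega) (by omega) (P := fun _ D₄ c₄ => c₄ = c₃ ∧
      D₄ = ⟨D'.pos, Function.update (Function.update (Function.update D'.st i l₂) h
        (a :: D'.st h)) j (φ a :: D'.st j)⟩)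
      (endsT_push j (φ a) hD₃ ?_ ⟨rfl, ?_⟩) ?_
    · show (Function.update (Function.update D'.st i l₂) h (a :: D'.st h) j).length + 1 ≤ s
      rw [hj3, hl']
      rw [hl] at hs
      simp only [List.length_append, List.length_reverse, List.length_map, List.length_cons] at hs ⊢
      omega
    · show (⟨D'.pos, Function.update (Function.update (Function.update D'.st i l₂) h
        (a :: D'.st h)) j (φ a :: Function.update (Function.update D'.st i l₂) h
        (a :: D'.st h) j)⟩ : Data (PG B G) PN) = _
      rw [hj3]
    rintro _ D₄ c₄ hD₄ ⟨rfl, rfl⟩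
    refine endsT_pure _ hD₄ ⟨fun t' ht => ⟨⟨hD₄, rfl, hpos, fun k hki hkh hkj => ?_, l ++ [a],
      ?_, ?_, ?_⟩, ?_⟩, fun b hb => absurd hb (by simp)⟩
    · simp only [ne_eq, hki, hkh, hkj, not_false_eq_true, Function.update_of_ne]
      exact hk k hki hkh hkj
    · dsimp only
      rw [Function.update_of_ne hij, Function.update_of_ne hih, Function.update_self, hl]
      simp
    · dsimp only
      rw [Function.update_of_ne hhj, Function.update_self, hlh]
      simp
    · dsimp only
      rw [Function.update_self, hl']
      simp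
    · dsimp only
      rw [Function.update_of_ne hij, Function.update_of_ne hih, Function.update_self]
      simp

theorem cp_ok (φ : PG B G → PG B G) (i j : PN) (hi : i ≠ .H) (hj : j ≠ .H) (hij : i ≠ j)
    (hH : D.st .H = []) (hD : D.le s) (hs : (D.st i).length + (D.st j).length ≤ s) :
    EndsT 6 y (cpK φ i j) s D c fun _ D' c' => c' = c ∧
      D' = ⟨D.pos, Function.update D.st j ((D.st i).map φ ++ D.st j)⟩ := by
  refine endsT_seq (J₁ := 4) (J₂ := 5) (by omega) (by omega)
    (mv_ok id i .H hi hD (by rw [hH]; simpa using hD i)) ?_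
  rintro _ D' c' hD' ⟨rfl, rfl⟩
  rw [List.map_id, hH, List.append_nil] at hD'
  rw [List.map_id, hH, List.append_nil]
  have e1 : Function.update (Function.update D.st i []) .H (D.st i).reverse i = [] := by
    rw [Function.update_of_ne hi, Function.update_self]
  have e2 : Function.update (Function.update D.st i []) .H (D.st i).reverse j = D.st j := by
    rw [Function.update_of_ne hj, Function.update_of_ne hij.symm]
  have e3 : Function.update (Function.update D.st i []) .H (D.st i).reverse .H =
      (D.st i).reverse := Function.update_self _ _ _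
  refine (mv2_ok φ .H i j hi.symm hj.symm hij hD' ?_ ?_).imp ?_
  · show (Function.update (Function.update D.st i []) .H (D.st i).reverse .H).length +
      (Function.update (Function.update D.st i []) .H (D.st i).reverse i).length ≤ s
    rw [e1, e3]
    simpa using hD i
  · show (Function.update (Function.update D.st i []) .H (D.st i).reverse .H).length +
      (Function.update (Function.update D.st i []) .H (D.st i).reverse j).length ≤ s
    rw [e2, e3]
    simpa using hs
  rintro _ D₂ c₂ - ⟨rfl, rfl⟩
  refine ⟨rfl, data_ext rfl fun k => ?_⟩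
  dsimp only
  rw [e1, e2, e3]
  by_cases hkj : k = j
  · subst hkj
    rw [Function.update_self, Function.update_self, List.map_reverse, List.reverse_reverse]
  · rw [Function.update_of_ne hkj, Function.update_of_ne hkj]
    by_cases hki : k = i
    · subst hki
      rw [Function.update_self, List.reverse_reverse, List.append_nil]
    · rw [Function.update_of_ne hki]
      by_cases hkH : k = .H
      · subst hkH
        rw [Function.update_self, hH]
      · rw [Function.update_of_ne hkH, Function.update_of_ne hkH, Function.update_of_ne hki]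

theorem rcp_ok (φ : PG B G → PG B G) (i j : PN) (hi : i ≠ .H) (hj : j ≠ .H) (hij : i ≠ j)
    (hH : D.st .H = []) (hD : D.le s) (hs : (D.st i).length + (D.st j).length ≤ s) :
    EndsT 6 y (rcpK φ i j) s D c fun _ D' c' => c' = c ∧
      D' = ⟨D.pos, Function.update D.st j (((D.st i).map φ).reverse ++ D.st j)⟩ := by
  refine endsT_seq (J₁ := 5) (J₂ := 4) (by omega) (by omega)
    (mv2_ok φ i .H j hi hij hj.symm hD (by rw [hH]; simpa using hD i) hs) ?_
  rintro _ D' c' hD' ⟨rfl, rfl⟩
  rw [hH, List.append_nil] at hD'
  rw [hH, List.append_nil]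
  have e1 : Function.update (Function.update (Function.update D.st i []) .H (D.st i).reverse) j
      (((D.st i).map φ).reverse ++ D.st j) i = [] := by
    rw [Function.update_of_ne hij, Function.update_of_ne hi, Function.update_self]
  have e3 : Function.update (Function.update (Function.update D.st i []) .H (D.st i).reverse) j
      (((D.st i).map φ).reverse ++ D.st j) .H = (D.st i).reverse := by
    rw [Function.update_of_ne hj.symm, Function.update_self]
  refine (mv_ok id .H i hi.symm hD' ?_).imp ?_
  · dsimp only
    rw [e1, e3]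
    simpa using hD i
  rintro _ D₂ c₂ - ⟨rfl, rfl⟩
  refine ⟨rfl, data_ext rfl fun k => ?_⟩
  dsimp only
  rw [e1, e3]
  by_cases hki : k = i
  · subst hki
    rw [Function.update_self, Function.update_of_ne hij]
    simp
  · rw [Function.update_of_ne hki]
    by_cases hkH : k = .H
    · subst hkH
      rw [Function.update_self, Function.update_of_ne hj.symm, hH]
    · rw [Function.update_of_ne hkH]
      by_cases hkj : k = j
      · subst hkj
        rw [Function.update_self, Function.update_self]
      · rw [Function.update_of_ne hkj, Function.update_of_ne hkH, Function.update_of_ne hki,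
          Function.update_of_ne hkj]

theorem rep_ok (i j : PN) (hi : i ≠ .H) (hj : j ≠ .H) (hij : i ≠ j) (n : ℕ) (k : ℕ) :
    ∀ (D : Data (PG B G) PN), D.le s → D.st .H = [] → D.st i = List.replicate n .mark →
    k * n + (D.st j).length ≤ s →
    EndsT (7 + k) y (repeatR (cpK id i j) k) s D c fun _ D' c' => c' = c ∧
      D' = ⟨D.pos, Function.update D.st j (List.replicate (k * n) .mark ++ D.st j)⟩ := by
  induction k with
  | zero =>
    intro D hD hH hi hs
    refine endsT_pure _ hD ⟨rfl, data_ext rfl fun k => ?_⟩
    by_cases hkj : k = j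
    · subst hkj
      simp
    · simp [Function.update_of_ne hkj]
  | succ k ih =>
    intro D hD hH hi' hs
    have hs' : (k + 1) * n = k * n + n := by ring
    refine endsT_seq (J₁ := 6) (J₂ := 7 + k) (by omega) (by omega)
      (cp_ok id i j hi hj hij hH hD (by rw [hi', List.length_replicate]; nlinarith)) ?_
    rintro _ D' c' hD' ⟨rfl, rfl⟩
    rw [List.map_id, hi'] at hD'
    rw [List.map_id, hi']
    refine (ih _ hD' ?_ ?_ ?_).imp ?_
    · show Function.update D.st j _ .H = []
      rw [Function.update_of_ne hj.symm, hH]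
    · show Function.update D.st j _ i = _
      rw [Function.update_of_ne hij, hi']
    · show k * n + (Function.update D.st j _ j).length ≤ s
      rw [Function.update_self]
      simp only [List.length_append, List.length_replicate]
      omega
    rintro _ D₂ c₂ - ⟨rfl, rfl⟩
    refine ⟨rfl, data_ext rfl fun k' => ?_⟩
    dsimp only
    by_cases hkj : k' = j
    · subst hkj
      rw [Function.update_self, Function.update_self, Function.update_self, ← List.append_assoc,
        List.replicate_append_replicate, hs']
    · rw [Function.update_of_ne hkj, Function.update_of_ne hkj, Function.update_of_ne hkj]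

end KMv

open KMv in
theorem kn_mv : StKMv := by
  refine ⟨20, fun B G _ _ y s D c hD => ⟨fun i => (empty_ok i hD).bump (by omega),
    fun φ i j hij hs => (mv_ok φ i j hij hD hs).bump (by omega),
    fun φ i h j hih hij hhj hs hs' => (mv2_ok φ i h j hih hij hhj hD hs hs').bump (by omega),
    fun φ i j hi hj hij hH hs => (cp_ok φ i j hi hj hij hH hD hs).bump (by omega),
    fun φ i j hi hj hij hH hs => (rcp_ok φ i j hi hj hij hH hD hs).bump (by omega),
    fun i j k n hk hi hj hij hH hi' hs => (rep_ok i j hi hj hij n k D hD hH hi' hs).bump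
      (by omega)⟩⟩

end Pool.Agent.Lib.MP_9dcf40_lc
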