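import Pool.Agent.Lib.MP_9dcf40_lc.Kn.SpecM
import Pool.Agent.Lib.MP_9dcf40_lc.Av.EMain

/-!
# The language of a routine with a time bound
-/

namespace Pool.Agent.Lib.MP_9dcf40_lc

open Rout

namespace KNP

theorem base (n : ℕ) : 10 * (n + 10) + 10 ≤ (n + 2) ^ 7 := by
  have h1 : 2 ^ 6 ≤ (n + 2) ^ 6 := Nat.pow_le_pow_left (by omega) 6
  rw [pow_succ]
  have h2 : 2 ^ 6 * (n + 2) ≤ (n + 2) ^ 6 * (n + 2) := Nat.mul_le_mul_right _ h1
  rcases Nat.lt_or_ge n 1 with h | h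
  · obtain rfl : n = 0 := by omega
    norm_num
  · rcases Nat.lt_or_ge n 2 with h' | h'
    · obtain rfl : n = 1 := by omega
      norm_num
    · omega

theorem num (k j : ℕ) : ∃ k' : ℕ, ∀ n : ℕ,
    (n ^ k + k + (4 * (n + 2) ^ j + 4) + 1) * (2 * (n ^ k + k + (n + 2) ^ j) + 2) ≤
      n ^ k' + k' := by
  refine ⟨2 * (k + 10) ^ 2 + 2 * (k + 2 * j) +
    (1 + k + (4 * 3 ^ j + 4) + 1) * (2 * (1 + k + 3 ^ j) + 2), fun n => ?_⟩
  rcases Nat.lt_or_ge n 2 with hn | hn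
  · have h1 : n ^ k ≤ 1 := pow_le_one₀ (Nat.zero_le n) (by omega)
    have h2 : (n + 2) ^ j ≤ 3 ^ j := Nat.pow_le_pow_left (by omega) j
    calc (n ^ k + k + (4 * (n + 2) ^ j + 4) + 1) * (2 * (n ^ k + k + (n + 2) ^ j) + 2) ≤
          (1 + k + (4 * 3 ^ j + 4) + 1) * (2 * (1 + k + 3 ^ j) + 2) :=
          Nat.mul_le_mul (by omega) (by omega)
      _ ≤ 2 * (k + 10) ^ 2 + 2 * (k + 2 * j) +
          (1 + k + (4 * 3 ^ j + 4) + 1) * (2 * (1 + k + 3 ^ j) + 2) := Nat.le_add_left _ _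
      _ ≤ _ := Nat.le_add_left _ _
  · set X := n ^ (k + 2 * j) with hX
    have hX1 : 1 ≤ X := Nat.one_le_pow _ _ (by omega)
    have h1 : n ^ k ≤ X := Nat.pow_le_pow_right (by omega) (by omega)
    have h2 : (n + 2) ^ j ≤ X := by
      calc (n + 2) ^ j ≤ (n ^ 2) ^ j := Nat.pow_le_pow_left (by nlinarith) j
        _ = n ^ (2 * j) := by rw [← pow_mul]
        _ ≤ X := Nat.pow_le_pow_right (by omega) (by omega)
    have h3 : k ≤ k * X := Nat.le_mul_of_pos_right _ hX1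
    have h4 : n ^ k + k + (4 * (n + 2) ^ j + 4) + 1 ≤ (k + 10) * X := by
      have : (k + 10) * X = k * X + 10 * X := by ring
      omega
    have h5 : 2 * (n ^ k + k + (n + 2) ^ j) + 2 ≤ 2 * (k + 10) * X := by
      have : 2 * (k + 10) * X = 2 * (k * X) + 20 * X := by ring
      omega
    have h6 : 2 * (k + 10) ^ 2 ≤ n ^ (2 * (k + 10) ^ 2) :=
      (Nat.lt_two_pow_self).le.trans (Nat.pow_le_pow_left hn _)
    calc _ ≤ ((k + 10) * X) * (2 * (k + 10) * X) := Nat.mul_le_mul h4 h5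
      _ = (2 * (k + 10) ^ 2) * (X * X) := by ring
      _ ≤ n ^ (2 * (k + 10) ^ 2) * (X * X) := Nat.mul_le_mul_right _ h6
      _ = n ^ (2 * (k + 10) ^ 2 + 2 * (k + 2 * j)) := by
          rw [hX, ← pow_add, ← pow_add]
          congr 1
          ring
      _ ≤ n ^ (2 * (k + 10) ^ 2 + 2 * (k + 2 * j) +
          (1 + k + (4 * 3 ^ j + 4) + 1) * (2 * (1 + k + 3 ^ j) + 2)) :=
          Nat.pow_le_pow_right (by omega) (Nat.le_add_right _ _)
      _ ≤ _ := Nat.le_add_right _ _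

end KNP

open KNP in
theorem kn_np (hG : StKGuard) (hF : StKFuel) (hC : StCompN) : StKNP := by
  classical
  intro A Γ ι _ _ _ _ R J
  obtain ⟨k, hk⟩ := hF A Γ ι (7 * J)
  obtain ⟨M, hM⟩ := hC A (Option Γ) (ι ⊕ Bool)
    ((fuelK (A := A) (Γ := Γ) (ι := ι) (7 * J)).bind fun _ => guardK R)
  have key : ∀ (y : List A) (c : Str), ∃ (b : Bool) (D' : Data (Option Γ) (ι ⊕ Bool)) (c' : Str),
      Runs y ((fuelK (A := A) (Γ := Γ) (ι := ι) (7 * J)).bind fun _ => guardK R)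
        (y.length ^ k + k + (y.length + 2) ^ (7 * J))
        (y.length ^ k + k + (4 * (y.length + 2) ^ (7 * J) + 4)) .init c b D' c' ∧
      ∀ (s₀ : ℕ) (b₀ : Bool) (D₁ : Data Γ ι) (c₁ : Str),
        Runs y R s₀ ((y.length + 2) ^ (7 * J)) .init c b₀ D₁ c₁ → b = b₀ := by
    intro y c
    obtain ⟨D₁, h1, hp, hs, -, hf⟩ := hk y c
    obtain ⟨b, D', c', h2, h3⟩ := hG A Γ ι R y (y.length ^ k + k) ((y.length + 2) ^ (7 * J)) D₁
      .init c h1.le_end hp (fun i => (hs i).trans rfl) hf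
    exact ⟨b, D', c', runs_bind (f := fun _ => guardK R)
      (h1.mono (Nat.le_add_right _ _) le_rfl) h2, h3⟩
  choose b' D' c' hrun hdet using key
  have hM' : ∀ y : List A, M.HaltsIn y
      ((y.length ^ k + k + (4 * (y.length + 2) ^ (7 * J) + 4) + 1) *
        (2 * (y.length ^ k + k + (y.length + 2) ^ (7 * J)) + 2)) ∧
      (M.Accepts y ↔ ∃ c, b' y c = true) := fun y =>
    hM y _ _ (b' y) fun c => ⟨D' y c, c' y c, hrun y c⟩
  obtain ⟨k', hk'⟩ := num k (7 * J)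
  refine ⟨{y | M.Accepts y}, ⟨M, ⟨k', fun y => EMain.halts_mono M y (hM' y).1 (hk' _)⟩,
    fun y => Iff.rfl⟩, fun y b hb => ?_⟩
  show M.Accepts y ↔ _
  rw [(hM' y).2]
  refine exists_congr fun c => ?_
  obtain ⟨T, r, D₁, c₁, hT, hr, hq⟩ := hb c
  have h1 : T ≤ (y.length + 2) ^ (7 * J) := by
    refine hT.trans ?_
    rw [pow_mul]
    exact Nat.pow_le_pow_left (base _) J
  rw [hdet y c _ r D₁ c₁ (hr.mono le_rfl h1)]
  exact hq

end Pool.Agent.Lib.MP_9dcf40_lc
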