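import Pool.Agent.Lib.MP_9dcf40_lc.Kn.SpecM

/-!
# The numerical bound for the clock
-/

namespace Pool.Agent.Lib.MP_9dcf40_lc

open Filter

theorem kn_num1 : StKNum1 := by
  intro a g k
  refine ⟨2 * k + 5, by omega, ?_⟩
  filter_upwards [eventually_ge_atTop (a + g + k + 20)] with m hm N hN
  have hm1 : 1 ≤ m := by omega
  have hL : Nat.log 2 N ≤ 6 * m := by
    calc Nat.log 2 N ≤ Nat.log 2 (2 ^ (6 * m)) := Nat.log_mono_right hN
      _ = 6 * m := Nat.log_pow (by norm_num) _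
  have hLk : Nat.log 2 N ^ k ≤ m ^ (2 * k) := by
    calc Nat.log 2 N ^ k ≤ (m ^ 2) ^ k := Nat.pow_le_pow_left (by nlinarith) k
      _ = m ^ (2 * k) := (pow_mul _ _ _).symm
  set s := Nat.log 2 N ^ k + k with hs
  have h1 : s ≤ m ^ (2 * k + 2) := by
    have e1 : m ^ (2 * k) ≤ m ^ (2 * k + 1) := Nat.pow_le_pow_right hm1 (by omega)
    have e2 : m ≤ m ^ (2 * k + 1) := Nat.le_self_pow (by omega) m
    have e3 : m ^ (2 * k + 2) = m * m ^ (2 * k + 1) := by ring
    rw [e3]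
    nlinarith
  set E := m ^ (2 * k + 3) with hE
  have h2 : 2 * s + 1 ≤ E := by
    have e1 : 1 ≤ m ^ (2 * k + 2) := Nat.one_le_pow _ _ hm1
    have e3 : E = m * m ^ (2 * k + 2) := by rw [hE]; ring
    rw [e3]
    nlinarith
  have hE1 : 1 ≤ E := Nat.one_le_pow _ _ hm1
  have hmE : m ≤ E := Nat.le_self_pow (by omega) m
  have b1 : a ≤ 2 ^ m := by
    have := Nat.lt_two_pow_self (n := m)
    omega
  have b2 : N + 2 ≤ 2 ^ (6 * m + 2) := by
    have e1 : 1 ≤ 2 ^ (6 * m) := Nat.one_le_two_pow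
    have e2 : 2 ^ (6 * m + 2) = 4 * 2 ^ (6 * m) := by ring
    omega
  have b3 : 2 * s + 1 ≤ 2 ^ E := h2.trans (Nat.lt_two_pow_self).le
  have b4 : g ^ (2 * s + 1) ≤ 2 ^ (m * E) := by
    calc g ^ (2 * s + 1) ≤ (2 ^ m) ^ (2 * s + 1) := by
          refine Nat.pow_le_pow_left ?_ _
          have := Nat.lt_two_pow_self (n := m)
          omega
      _ ≤ (2 ^ m) ^ E := Nat.pow_le_pow_right (by positivity) h2
      _ = 2 ^ (m * E) := (pow_mul _ _ _).symm
  calc a * (N + 2) * (2 * s + 1) * g ^ (2 * s + 1) ≤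
        2 ^ m * 2 ^ (6 * m + 2) * 2 ^ E * 2 ^ (m * E) := by gcongr
    _ = 2 ^ (m + (6 * m + 2) + E + m * E) := by
        rw [pow_add _ (m + (6 * m + 2) + E), pow_add _ (m + (6 * m + 2)), pow_add _ m]
    _ ≤ 2 ^ m ^ (2 * k + 5) := by
        refine Nat.pow_le_pow_right (by norm_num) ?_
        have e1 : m ^ (2 * k + 5) = m * m * E := by rw [hE]; ring
        rw [e1]
        have e2 : 20 * m ≤ m * m := Nat.mul_le_mul_right _ (by omega)
        have e3 : 20 * m * E ≤ m * m * E := Nat.mul_le_mul_right _ e2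
        have e4 : m ≤ m * E := Nat.le_mul_of_pos_right _ hE1
        have e5 : E ≤ m * E := Nat.le_mul_of_pos_left _ hm1
        have e6 : 20 * m * E = 20 * (m * E) := by ring
        rw [e6] at e3
        omega

end Pool.Agent.Lib.MP_9dcf40_lc
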