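import Pool.Agent.Lib.MP_9dcf40_lc.Kn.SpecM
import Pool.Agent.Lib.MP_9dcf40_lc.Av.ENumQ

/-!
# Numbers for the hardness
-/

namespace Pool.Agent.Lib.MP_9dcf40_lc

open Filter

open ENumQ in
theorem kn_numh : StKNumH := by
  intro c d
  set E := (c + 2) * d + 1 with hE
  refine ⟨(c + 2) * (d + 1) + 1, by omega, ?_⟩
  set D := (c + 2) * (d + 1) + 1 with hD
  have hED : E ≤ D := by
    rw [hE, hD]
    nlinarith
  have hcD : c + 2 + 1 ≤ D := by
    rw [hD]
    nlinarith
  intro C₀ k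
  filter_upwards [nat_poly 4 D, size_large (c + 3), size_large (k + 1), size_large (C₀ + 2)]
    with n h1 h2 h3 h4
  set s := Nat.size n + 1 with hs
  have hs1 : 1 ≤ s := by omega
  have hlt : n < 2 ^ Nat.size n := Nat.lt_size_self n
  have hlogn : Nat.log 2 n ≤ s := (log_le n).trans (Nat.le_succ _)
  have hlogn' : Nat.log 2 n ≤ Nat.size n := log_le n
  have hpD : 1 ≤ s ^ D := Nat.one_le_pow _ _ hs1
  refine ⟨?_, h1, hpD, ?_⟩
  · exact (Nat.pow_le_pow_left hlogn c).trans (Nat.pow_le_pow_right hs1 (by omega))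
  intro b hb
  set y := Nat.log 2 n ^ c + c with hy
  have hyc : y ≤ s ^ c + c := Nat.add_le_add_right (Nat.pow_le_pow_left hlogn c) c
  have hpc : 1 ≤ s ^ c := Nat.one_le_pow _ _ hs1
  -- the exponent is small
  have hys : y + s + 1 ≤ s ^ (c + 2) := by
    have e1 : s ^ (c + 2) = s ^ c * (s * s) := by ring
    have e2 : s ^ c + c + s + 1 ≤ s ^ c * (1 + c + s + 1) := by nlinarith
    have e3 : 1 + c + s + 1 ≤ s * s := by nlinarith
    rw [e1]
    calc y + s + 1 ≤ s ^ c + c + s + 1 := by omega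
      _ ≤ s ^ c * (1 + c + s + 1) := e2
      _ ≤ s ^ c * (s * s) := Nat.mul_le_mul_left _ e3
  have hlog : Nat.log 2 (n + b) + 1 ≤ s ^ (c + 2) := by
    rcases Nat.eq_zero_or_pos (n + b) with h0 | h0
    · rw [h0]
      simp
      exact Nat.one_le_pow _ _ hs1
    · have h7 : Nat.log 2 (n + b) < y + s := by
        apply Nat.log_lt_of_lt_pow h0.ne'
        have e1 : 2 ^ Nat.size n ≤ 2 ^ (y + Nat.size n) := Nat.pow_le_pow_right (by norm_num) (by omega)
        have e2 : 2 ^ y ≤ 2 ^ (y + Nat.size n) := Nat.pow_le_pow_right (by norm_num) (by omega)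
        have e3 : 2 ^ (y + s) = 2 ^ (y + Nat.size n) + 2 ^ (y + Nat.size n) := by
          rw [hs, ← add_assoc, pow_succ]
          ring
        omega
      omega
  constructor
  · -- the sum
    have e0 : C₀ ≤ 2 ^ (y + Nat.size n) := by
      have : C₀ < 2 ^ C₀ := Nat.lt_two_pow_self
      exact this.le.trans (Nat.pow_le_pow_right (by norm_num) (by omega))
    have e1 : 2 ^ Nat.size n ≤ 2 ^ (y + Nat.size n) := Nat.pow_le_pow_right (by norm_num) (by omega)
    have e2 : 2 ^ y ≤ 2 ^ (y + Nat.size n) := Nat.pow_le_pow_right (by norm_num) (by omega)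
    have e3 : 2 ^ (y + s + 1) = 4 * 2 ^ (y + Nat.size n) := by
      rw [hs, ← add_assoc, pow_succ, pow_succ]
      ring
    have e4 : 2 ^ (y + s + 1) ≤ 2 ^ s ^ D :=
      Nat.pow_le_pow_right (by norm_num) (hys.trans (Nat.pow_le_pow_right hs1 (by omega)))
    omega
  · have h8 : (Nat.log 2 (n + b) + 1) ^ d ≤ s ^ ((c + 2) * d) := by
      rw [pow_mul]
      exact Nat.pow_le_pow_left hlog d
    have hX : 1 ≤ s ^ ((c + 2) * d) := Nat.one_le_pow _ _ hs1
    have h7 : k * (Nat.log 2 (n + b) + 1) ^ d + 1 ≤ s ^ E := by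
      calc k * (Nat.log 2 (n + b) + 1) ^ d + 1 ≤ k * s ^ ((c + 2) * d) + s ^ ((c + 2) * d) :=
            Nat.add_le_add (Nat.mul_le_mul_left k h8) hX
        _ = (k + 1) * s ^ ((c + 2) * d) := by ring
        _ ≤ s * s ^ ((c + 2) * d) := Nat.mul_le_mul_right _ (by omega)
        _ = s ^ E := by rw [hE, pow_succ]; ring
    have h7' : k * (Nat.log 2 (n + b) + 1) ^ d + 1 ≤ s ^ D :=
      h7.trans (Nat.pow_le_pow_right hs1 hED)
    have hsD : s ≤ s ^ D := Nat.le_self_pow (by omega) s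
    obtain ⟨m, hm⟩ : ∃ m, s ^ D = m + 1 := ⟨s ^ D - 1, by omega⟩
    have h9 : 2 ^ (k * (Nat.log 2 (n + b) + 1) ^ d) ≤ 2 ^ m :=
      Nat.pow_le_pow_right (by norm_num) (by omega)
    have h10 : 2 ^ 1 ≤ 2 ^ m := Nat.pow_le_pow_right (by norm_num) (by omega)
    have h11 : 2 ^ (m + 1) = 2 ^ m * 2 := pow_succ 2 m
    rw [hm, h11]
    omega

end Pool.Agent.Lib.MP_9dcf40_lc
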