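import Pool.Agent.Lib.MP_9dcf40_lc.Kn.ReadT

/-!
# Reading the input of level 2 (`StKParse2`)
-/

namespace Pool.Agent.Lib.MP_9dcf40_lc

open Rout KTools KReadT

theorem kn_parse2 (hR : StKRead) : StKParse2 := by
  obtain ⟨J, hR⟩ := exists_rdJ hR
  refine ⟨J + 20, ?_⟩
  intro G _ m κ s T c hs
  have hD0 : (Data.init : Data (PG (Option DA) G) PN).le s := fun i => Nat.zero_le _
  have hy0 := vword_eq (word2 m κ T) κ
  set y := vword (word2 m κ T) κ [] with hy
  unfold word2 at hy0
  simp only [List.map_append, List.map_cons, List.append_assoc, List.cons_append] at hy0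
  refine field_seq (J₂ := J + 18) hR (by omega) (by omega) hs hD0 (fun i => le_rfl) hy0
    (hash_bits T) fun D₁ hD₁ hl₁ hy₁ hst₁ => ?_
  refine field_seq (J₂ := J + 16) hR (by omega) (by omega) hs hD₁ hl₁ hy₁
    (hash_par m) fun D₂ hD₂ hl₂ hy₂ hst₂ => ?_
  refine field_seq (J₂ := J + 14) (f := []) hR (by omega) (by omega) hs hD₂ hl₂ hy₂
    (by simp) fun D₃ hD₃ hl₃ hy₃ hst₃ => ?_
  refine field_seq (J₂ := J + 12) hR (by omega) (by omega) hs hD₃ hl₃ hy₃
    (hash_rep κ .one (by simp)) fun D₄ hD₄ hl₄ hy₄ hst₄ => ?_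
  have hp₄ : D₄.pos ≤ y.length := by
    by_contra hcon
    have h1 := congrArg List.length hy₄
    rw [List.drop_eq_nil_of_le (by omega)] at h1
    simp only [List.length_nil, List.map_nil, List.nil_append, List.append_nil,
      List.length_replicate] at h1
    have := Nat.one_le_two_pow (n := κ)
    omega
  refine ((rest_ok hR hs hD₄ hl₄ hp₄ hy₄).bump (by omega)).imp ?_
  rintro _ D' c' - ⟨rfl, hst⟩
  have hfin : ∀ i, D'.st i = (if PN.K = i then List.replicate (2 ^ κ) .mark else []) ++
      (((par m).filterMap (fput parAct i)).reverse ++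
      ((T.map bitL).filterMap (fput (fun a => some (.T, .bit (bitOf a))) i)).reverse) := by
    intro i
    rw [hst i, hst₄ i, hst₃ i, hst₂ i, hst₁ i]
    have e1 : ∀ l : List DA, l.filterMap (fput (B := Option DA) (G := G) (fun _ => none) i) = [] :=
      fun l => fm_none fun _ _ => rfl
    simp only [e1, List.reverse_nil, List.nil_append]
    rw [show (Data.init : Data (PG (Option DA) G) PN).st i = [] from rfl, List.append_nil]
  have hT : ∀ i, (T.map bitL).filterMap (fput (B := Option DA) (G := G)
      (fun a => some (.T, .bit (bitOf a))) i) = if i = .T then T.map .bit else [] := by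
    intro i
    by_cases h : i = .T
    · subst h
      rw [if_pos rfl, fm_some (g := fun a => .bit (bitOf a)) (fun a _ => by simp [fput]),
        List.map_map]
      refine List.map_congr_left fun b _ => ?_
      simp [bitOf_bitL]
    · rw [if_neg h]
      exact fm_none fun a _ => by simp [fput, Ne.symm h]
  refine ⟨rfl, ?_, ?_, ?_, ?_, ?_, fun i hi => ?_⟩
  · rw [hfin, hT, fm_par]
    simp
  · rw [hfin, hT, fm_par]
    simp
  · rw [hfin, hT, fm_par]
    simp
  · rw [hfin, hT, fm_par]
    simp
  · rw [hfin, hT, fm_par]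
    simp
  · simp only [List.mem_cons, List.not_mem_nil, or_false, not_or] at hi
    obtain ⟨h1, h2, h3, h4, h5⟩ := hi
    rw [hfin, hT, fm_par, if_neg (Ne.symm h5), if_neg h1, if_neg h2, if_neg h3, if_neg h4]
    rfl

end Pool.Agent.Lib.MP_9dcf40_lc
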