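import Pool.Agent.Lib.MP_9dcf40_lc.Kn.ReadT

/-!
# Reading the input of level 3 (`StKParse3`)
-/

namespace Pool.Agent.Lib.MP_9dcf40_lc

open Rout KTools KReadT

theorem kn_parse3 (hR : StKRead) : StKParse3 := by
  obtain ⟨J, hR⟩ := exists_rdJ hR
  refine ⟨J + 20, ?_⟩
  intro G _ m κ₂ κ₃ s u c hs
  have hD0 : (Data.init : Data (PG DA G) PN).le s := fun i => Nat.zero_le _
  have hy0 := vword_eq (word3 m κ₂ κ₃ u) κ₃
  set y := vword (word3 m κ₂ κ₃ u) κ₃ [] with hy
  unfold word3 at hy0
  rw [List.map_append, List.map_cons, List.map_append, List.map_cons, List.map_append,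
    List.map_cons, List.map_append (f := Lt) (l₁ := List.replicate κ₃ .one), List.map_cons] at hy0
  simp only [List.append_assoc, List.cons_append] at hy0
  have hfld : DA.hash ∉ fld3 m u := by
    unfold fld3
    rw [List.mem_append, not_or]
    exact ⟨hash_bits u, hash_rep _ _ (by simp)⟩
  refine field_seq (J₂ := J + 18) hR (by omega) (by omega) hs hD0 (fun i => le_rfl) hy0
    hfld fun D₁ hD₁ hl₁ hy₁ hst₁ => ?_
  refine field_seq (J₂ := J + 16) hR (by omega) (by omega) hs hD₁ hl₁ hy₁
    (hash_par m) fun D₂ hD₂ hl₂ hy₂ hst₂ => ?_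
  refine field_seq (J₂ := J + 14) (f := []) hR (by omega) (by omega) hs hD₂ hl₂ hy₂
    (by simp) fun D₃ hD₃ hl₃ hy₃ hst₃ => ?_
  refine field_seq (J₂ := J + 12) hR (by omega) (by omega) hs hD₃ hl₃ hy₃
    (hash_rep κ₃ .one (by simp)) fun D₄ hD₄ hl₄ hy₄ hst₄ => ?_
  have hp₄ : D₄.pos ≤ y.length := by
    by_contra hcon
    have h1 := congrArg List.length hy₄
    rw [List.drop_eq_nil_of_le (by omega)] at h1
    simp only [List.length_nil, List.map_nil, List.append_nil, List.length_append,
      List.length_map, List.length_replicate] at h1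
    have := Nat.one_le_two_pow (n := κ₃)
    omega
  refine ((rest_ok hR hs hD₄ hl₄ hp₄ hy₄).bump (by omega)).imp ?_
  rintro _ D' c' - ⟨rfl, hst⟩
  have e1 : ∀ (i : PN) (l : List DA),
      l.filterMap (fput (B := DA) (G := G) (fun _ => none) i) = [] :=
    fun i l => fm_none fun _ _ => rfl
  have e2 : ∀ (l : List DA) (j i : PN), l.filterMap (fput (B := DA) (G := G)
      (fun a => some (j, .ltr a)) i) = if i = j then l.map .ltr else [] := by
    intro l j i
    by_cases h : i = j
    · subst h
      rw [if_pos rfl, fm_some (g := .ltr) (fun a _ => by simp [fput])]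
    · rw [if_neg h]
      exact fm_none fun a _ => by simp [fput, Ne.symm h]
  have e3 : ∀ i, (List.replicate κ₂ DA.one).filterMap (fput (B := DA) (G := G)
      (fun _ => some (.X, .mark)) i) = if i = .X then List.replicate κ₂ .mark else [] := by
    intro i
    by_cases h : i = .X
    · subst h
      rw [if_pos rfl]
      exact List.filterMap_replicate_of_some (by simp [fput])
    · rw [if_neg h]
      exact fm_none fun a _ => by simp [fput, Ne.symm h]
  have hfin : ∀ i, D'.st i = (if PN.Q = i then List.replicate (2 ^ κ₃) .mark else []) ++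
      ((if i = .X then List.replicate κ₂ .mark else []).reverse ++
      ((if i = .B then (par m).map .ltr else []).reverse ++
      (if i = .T then (fld3 m u).map .ltr else []).reverse)) := by
    intro i
    rw [hst i, hst₄ i, hst₃ i, hst₂ i, hst₁ i]
    simp only [e1, e2, e3, List.reverse_nil, List.nil_append]
    rw [show (Data.init : Data (PG DA G) PN).st i = [] from rfl, List.append_nil]
  refine ⟨rfl, ?_, ?_, ?_, ?_, fun i hi => ?_⟩
  · rw [hfin]
    simp
  · rw [hfin]
    simp
  · rw [hfin]
    simp
  · rw [hfin]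
    simp
  · simp only [List.mem_cons, List.not_mem_nil, or_false, not_or] at hi
    obtain ⟨h1, h2, h3, h4⟩ := hi
    rw [hfin, if_neg (Ne.symm h4), if_neg h1, if_neg h2, if_neg h3]
    rfl

end Pool.Agent.Lib.MP_9dcf40_lc
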