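import Pool.Agent.Lib.MP_9dcf40_lc.Kn.ReadT

/-!
# Reading the input of level 4 (`StKParse4`)
-/

namespace Pool.Agent.Lib.MP_9dcf40_lc

open Rout KTools KReadT

theorem kn_parse4 (hR : StKRead) : StKParse4 := by
  obtain ⟨J, hR⟩ := exists_rdJ hR
  refine ⟨J + 20, ?_⟩
  intro G _ m κ₂ κ₃ m₄ s x c hs
  have hD0 : (Data.init : Data (PG DA G) PN).le s := fun i => Nat.zero_le _
  have hy0 : eword (zpar m κ₂ κ₃) x m₄ = (zpar m κ₂ κ₃ ++ x.map bitL).map Lt ++
      (List.replicate (2 ^ m₄) (Sum.inl none : VB) ++ (advOf (zpar m κ₂ κ₃)).map Sum.inr) := by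
    unfold eword pairL padL
    simp [Function.comp_def]
  set y := eword (zpar m κ₂ κ₃) x m₄ with hy
  unfold zpar at hy0
  rw [List.append_assoc, List.cons_append, List.append_assoc, List.cons_append,
    List.append_assoc, List.singleton_append,
    List.map_append, List.map_cons, List.map_append, List.map_cons,
    List.map_append (f := Lt) (l₁ := List.replicate κ₃ .one), List.map_cons] at hy0
  simp only [List.append_assoc, List.cons_append] at hy0
  refine field_seq (J₂ := J + 18) hR (by omega) (by omega) hs hD0 (fun i => le_rfl) hy0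
    (hash_rep _ .one (by simp)) fun D₁ hD₁ hl₁ hy₁ hst₁ => ?_
  refine field_seq (J₂ := J + 16) hR (by omega) (by omega) hs hD₁ hl₁ hy₁
    (hash_rep _ .one (by simp)) fun D₂ hD₂ hl₂ hy₂ hst₂ => ?_
  refine field_seq (J₂ := J + 14) hR (by omega) (by omega) hs hD₂ hl₂ hy₂
    (hash_rep _ .one (by simp)) fun D₃ hD₃ hl₃ hy₃ hst₃ => ?_
  have hp₃ : D₃.pos ≤ y.length := by
    by_contra hcon
    have h1 := congrArg List.length hy₃
    rw [List.drop_eq_nil_of_le (by omega)] at h1
    simp only [List.length_nil, List.length_append,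
      List.length_map, List.length_replicate] at h1
    have := Nat.one_le_two_pow (n := m₄)
    omega
  refine ((rest_ok hR hs hD₃ hl₃ hp₃ hy₃).bump (by omega)).imp ?_
  rintro _ D' c' - ⟨rfl, hst⟩
  have e2 : ∀ (n : ℕ) (j i : PN), (List.replicate n DA.one).filterMap (fput (B := DA) (G := G)
      (fun _ => some (j, .mark)) i) = if i = j then List.replicate n .mark else [] := by
    intro n j i
    by_cases h : i = j
    · subst h
      rw [if_pos rfl]
      exact List.filterMap_replicate_of_some (by simp [fput])
    · rw [if_neg h]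
      exact fm_none fun a _ => by simp [fput, Ne.symm h]
  have e3 : ∀ i, (x.map bitL).filterMap (fput (B := DA) (G := G)
      (fun a => some (.T, .bit (bitOf a))) i) = if i = .T then x.map .bit else [] := by
    intro i
    by_cases h : i = .T
    · subst h
      rw [if_pos rfl, fm_some (g := fun a => .bit (bitOf a)) (fun a _ => by simp [fput]),
        List.map_map]
      refine List.map_congr_left fun b _ => ?_
      simp [bitOf_bitL]
    · rw [if_neg h]
      exact fm_none fun a _ => by simp [fput, Ne.symm h]
  have hfin : ∀ i, D'.st i = (if PN.K = i then List.replicate (2 ^ m₄) .mark else []) ++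
      ((if i = .T then x.map .bit else []).reverse ++
      ((if i = .B then List.replicate κ₃ .mark else []).reverse ++
      ((if i = .X then List.replicate κ₂ .mark else []).reverse ++
      (if i = .M then List.replicate m .mark else []).reverse))) := by
    intro i
    rw [hst i, hst₃ i, hst₂ i, hst₁ i]
    simp only [e2, e3]
    rw [show (Data.init : Data (PG DA G) PN).st i = [] from rfl, List.append_nil]
  refine ⟨rfl, ?_, ?_, ?_, ?_, ?_, fun i hi => ?_⟩
  · rw [hfin]
    simp
  · rw [hfin]
    simp
  · rw [hfin]
    simp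
  · rw [hfin]
    simp
  · rw [hfin]
    simp
  · simp only [List.mem_cons, List.not_mem_nil, or_false, not_or] at hi
    obtain ⟨h1, h2, h3, h4, h5⟩ := hi
    rw [hfin, if_neg (Ne.symm h5), if_neg h1, if_neg h2, if_neg h3, if_neg h4]
    rfl

end Pool.Agent.Lib.MP_9dcf40_lc
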