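import Pool.Agent.Lib.MP_9dcf40_lc.Kn.SpecM
import Pool.Agent.Lib.MP_9dcf40_lc.CompN

/-!
# The simulation with a unary clock
-/

namespace Pool.Agent.Lib.MP_9dcf40_lc

open Rout

namespace KPsim

/-- The body of the loop. -/
def body {B : Type} [Finite B] (U : TM B) [Finite U.G] [Finite U.Q] (q : U.Q) :
    PR B U.G (U.Q ⊕ Bool) :=
  match U.out q with
  | some b => pureR (.inr b)
  | none => (pop .Q).bind fun o =>
    match o with
    | none => pureR (.inr false)
    | some _ => (pstepK U q).bind fun q' => pureR (.inl q')

theorem psimK_eq {B : Type} [Finite B] (U : TM B) [Finite U.G] [Finite U.Q] :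
    psimK U = iter (body U) U.start := rfl

end KPsim

open KPsim in
theorem kn_psim (hS : StKStep) : StKPsim := by
  obtain ⟨J, hJ⟩ := hS
  refine ⟨J + 4 + 2, ?_⟩
  intro B _ U _ _ y s D c z hle hz hq hIL hIR hWL hWR
  rw [psimK_eq]
  set q₀ := (D.st .Q).length with hq₀
  refine endsT_iter (fun q D' c' => D'.le s ∧ c' = c ∧ D'.pos = D.pos ∧ Fr psSt D D' ∧
    ∃ t ≤ q₀, q = (U.run z (fun _ => false) t).q ∧
      PRep U z (U.run z (fun _ => false) t) t D' ∧ (D'.st .Q).length = q₀ - t ∧
      ∀ t' < t, U.out (U.run z (fun _ => false) t').q = none)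
    (fun _ D' => (D'.st .Q).length) ?_ ?_ (by omega)
  · rintro q D₁ c₁ ⟨hle₁, rfl, hpos₁, hfr₁, t, ht, rfl, hrep, hQ, hnone⟩
    cases hout : U.out (U.run z (fun _ => false) t).q with
    | some b =>
      have hb : body U (U.run z (fun _ => false) t).q = pureR (.inr b) := by
        simp only [body, hout]
      rw [hb]
      refine endsT_pure _ hle₁ ⟨fun t' ht' => absurd ht' (by simp), fun b' hb' => ?_⟩
      simp only [Sum.inr.injEq] at hb'
      subst hb'
      refine ⟨rfl, hpos₁, hfr₁, ?_⟩
      constructor
      · rintro rfl
        exact ⟨t, ht, hout⟩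
      · rintro ⟨t', ht', h⟩
        rcases lt_or_ge t' t with h1 | h1
        · rw [hnone t' h1] at h
          simp at h
        · rw [CompN.run_stable U z _ (by rw [hout]; simp) h1, hout] at h
          simpa using h
    | none =>
      have hb : body U (U.run z (fun _ => false) t).q = (pop .Q).bind fun o =>
          match o with
          | none => pureR (.inr false)
          | some _ => (pstepK U (U.run z (fun _ => false) t).q).bind fun q' =>
              pureR (.inl q') := by
        simp only [body, hout]
      rw [hb]
      rcases Nat.lt_or_ge t q₀ with h1 | h1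
      · -- one step
        obtain ⟨a, l, hal⟩ : ∃ a l, D₁.st .Q = a :: l := by
          cases h : D₁.st .Q with
          | nil => rw [h] at hQ; simp at hQ; omega
          | cons a l => exact ⟨a, l, rfl⟩
        have hll : l.length = q₀ - (t + 1) := by
          rw [hal, List.length_cons] at hQ
          omega
        refine endsT_seq (J₁ := 0) (J₂ := J + 2) (P := fun o D' c' => c' = c₁ ∧ o = some a ∧
          D' = ⟨D₁.pos, Function.update D₁.st .Q l⟩) (by omega) (by omega)
          (endsT_pop PN.Q hle₁ (by rw [hal]; exact ⟨rfl, rfl, rfl⟩)) ?_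
        rintro o D₂ c₂ hle₂ ⟨rfl, rfl, rfl⟩
        have hfr₂ : ∀ j, j ≠ .Q → (⟨D₁.pos, Function.update D₁.st .Q l⟩ :
            Data (PG B U.G) PN).st j = D₁.st j := by
          intro j hj
          show Function.update D₁.st .Q l j = _
          rw [Function.update_of_ne hj]
        have hrep₂ : PRep U z (U.run z (fun _ => false) t) t
            ⟨D₁.pos, Function.update D₁.st .Q l⟩ := by
          obtain ⟨p1, p2, p3, wl, wr, p4, p5, p6, p7, p8⟩ := hrep
          exact ⟨p1, by rw [hfr₂ _ (by decide)]; exact p2, by rw [hfr₂ _ (by decide)]; exact p3,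
            wl, wr, by rw [hfr₂ _ (by decide)]; exact p4, by rw [hfr₂ _ (by decide)]; exact p5,
            p6, p7, p8⟩
        refine endsT_seq (J₁ := J) (J₂ := 0) (by omega) (by omega)
          (hJ B U y s _ c₂ z _ t hle₂ hrep₂ hz (by omega) hout) ?_
        rintro q' D₃ c₃ hle₃ ⟨rfl, hpos₃, hfr₃, rfl, hrep₃⟩
        have hQ₃ : (D₃.st .Q).length = q₀ - (t + 1) := by
          rw [hfr₃ .Q (by decide)]
          show (Function.update D₁.st .Q l .Q).length = _
          rw [Function.update_self, hll]
        have hrun : U.run z (fun _ => false) (t + 1) =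
            U.next z false (U.run z (fun _ => false) t) := rfl
        refine endsT_pure _ hle₃ ⟨fun t' ht' => ?_, fun b hb => absurd hb (by simp)⟩
        simp only [Sum.inl.injEq] at ht'
        subst ht'
        refine ⟨⟨hle₃, rfl, hpos₃.trans hpos₁, ?_, t + 1, by omega, by rw [hrun],
          by rw [hrun]; exact hrep₃, hQ₃, ?_⟩, ?_⟩
        · intro j hj
          rw [hfr₃ j (by
            intro h
            apply hj
            simp only [List.mem_cons, List.not_mem_nil, or_false] at h
            simp only [psSt, List.mem_cons, List.not_mem_nil, or_false]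
            tauto), hfr₂ j (by
            rintro rfl
            exact hj (by decide)), hfr₁ j hj]
        · intro t' ht'
          rcases Nat.lt_or_ge t' t with h2 | h2
          · exact hnone t' h2
          · obtain rfl : t' = t := by omega
            exact hout
        · rw [hQ₃, hQ]
          omega
      · -- no more time
        obtain rfl : t = q₀ := by omega
        have hnil : D₁.st .Q = [] := List.length_eq_zero_iff.1 (by rw [hQ]; omega)
        refine endsT_seq (J₁ := 0) (J₂ := 0) (P := fun o D' c' => c' = c₁ ∧ o = none ∧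
          D' = ⟨D₁.pos, Function.update D₁.st .Q []⟩) (by omega) (by omega)
          (endsT_pop PN.Q hle₁ (by rw [hnil]; exact ⟨rfl, rfl, rfl⟩)) ?_
        rintro o D₂ c₂ hle₂ ⟨rfl, rfl, rfl⟩
        refine endsT_pure _ hle₂ ⟨fun t' ht' => absurd ht' (by simp), fun b hb => ?_⟩
        simp only [Sum.inr.injEq] at hb
        subst hb
        refine ⟨rfl, hpos₁, ?_, ?_⟩
        · intro j hj
          show Function.update D₁.st .Q [] j = _
          rw [Function.update_of_ne (by
            rintro rfl
            exact hj (by decide)), hfr₁ j hj]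
        · constructor
          · intro h
            simp at h
          · rintro ⟨t', ht', h⟩
            rcases Nat.lt_or_ge t' (D.st .Q).length with h2 | h2
            · rw [hnone t' h2] at h
              simp at h
            · obtain rfl : t' = (D.st .Q).length := le_antisymm ht' h2
              rw [hout] at h
              simp at h
  · refine ⟨hle, rfl, rfl, Fr.refl _ _, 0, Nat.zero_le _, rfl, ?_, rfl, fun t' ht' => absurd ht'
      (by omega)⟩
    refine ⟨Nat.zero_le _, ?_, ?_, [], [], ?_, ?_, ?_, Nat.zero_le _, Nat.zero_le _⟩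
    · rw [hIL]
      rfl
    · rw [hIR]
      rfl
    · rw [hWL]
      rfl
    · rw [hWR]
      rfl
    · exact ⟨fun i => by simp [TM.run, TM.init], fun i => by simp [TM.run, TM.init]⟩

end Pool.Agent.Lib.MP_9dcf40_lc
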