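import Pool.Agent.Lib.MP_9dcf40_lc.Kn.Tools

/-!
# The reading loop (`StKRead`)
-/

namespace Pool.Agent.Lib.MP_9dcf40_lc

open Rout KTools

namespace KRead

/-- The symbol of a letter or of the end mark. -/
def symAt {A : Type} (o : Option A) : InSym A :=
  match o with
  | some a => .letter a
  | none => .right

theorem inSym_drop {A : Type} (y w y' : List A) (p n : ℕ) (h : y.drop p = w ++ y') :
    inSym y (p + n + 1) = symAt (w ++ y')[n]? := by
  rw [← h, List.getElem?_drop]
  rfl

end KRead

open KRead in
theorem kn_read : StKRead := by
  refine ⟨20, ?_⟩
  intro B G _ _ act y w y' s D c hD hp hw hact hy' hright hs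
  have hwl : w.length ≤ s := by
    have := hs .H
    omega
  have hyl : D.pos + w.length ≤ y.length := by
    have h1 := congrArg List.length hw
    rw [List.length_drop, List.length_append] at h1
    omega
  refine (endsT_iter (J := 5) (fun _ D' c' => D'.le s ∧ c' = c ∧ ∃ w₁ w₂, w = w₁ ++ w₂ ∧
    D'.pos = D.pos + w₁.length ∧
    ∀ i, D'.st i = (w₁.filterMap (putK act i)).reverse ++ D.st i)
    (fun _ D' => D.pos + w.length + 1 - D'.pos) ?_
    ⟨hD, rfl, [], w, rfl, rfl, fun _ => rfl⟩ (by omega)).bump (by omega)
  rintro ⟨⟩ D' c' ⟨hD', rfl, w₁, w₂, hw12, hpos, hst⟩
  have hl12 : w.length = w₁.length + w₂.length := by rw [hw12, List.length_append]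
  refine move_seq .right (J₂ := 4) (by omega) hD' ?_
  have hmp : movePos y.length .right D'.pos = D.pos + w₁.length + 1 := by
    show min (D'.pos + 1) (y.length + 1) = _
    omega
  have hD₁ : (⟨D.pos + w₁.length + 1, D'.st⟩ : Data (PG B G) PN).le s := hD'
  rw [hmp]
  refine read_seq (J₂ := 3) (by omega) hD₁ ?_
  dsimp only
  rw [inSym_drop y w y' D.pos w₁.length hw]
  have e1 : (w ++ y')[w₁.length]? = (w₂ ++ y')[0]? := by
    rw [hw12, List.append_assoc, List.getElem?_append_right le_rfl, Nat.sub_self]
  rw [e1]
  cases w₂ with
  | nil =>
    rw [List.append_nil] at hw12
    subst hw12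
    have hfin : act (symAt ([] ++ y')[0]?) = none := by
      cases y' with
      | nil => exact hright rfl
      | cons a l => exact hy' a l rfl
    rw [hfin]
    exact pure_inr () hD₁ ⟨rfl, rfl, hst⟩
  | cons a w₃ =>
    have ha := hact a (by rw [hw12]; simp)
    have hsym : symAt (a :: w₃ ++ y')[0]? = .letter a := rfl
    rw [hsym]
    have hput : ∀ i, (w₁ ++ [a]).filterMap (putK act i) =
        w₁.filterMap (putK act i) ++ (putK act i a).toList := by
      intro i
      rw [List.filterMap_append]
      cases h : putK act i a <;> simp [h]
    cases hact' : act (.letter a) with
    | none => exact absurd hact' ha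
    | some o =>
      cases o with
      | none =>
        refine pure_inl () hD₁ ⟨hD₁, rfl, w₁ ++ [a], w₃, ?_, ?_, fun i => ?_⟩ ?_
        · rw [hw12]
          simp
        · simp only [List.length_append, List.length_cons, List.length_nil]
          omega
        · have h0 : putK act i a = none := by
            unfold putK
            rw [hact']
          rw [hput, h0]
          simpa using hst i
        · simp only [List.length_cons] at hl12
          dsimp only
          omega
      | some ig =>
        obtain ⟨i, g⟩ := ig
        dsimp only
        have hlen : ∀ i, (D'.st i).length + 1 ≤ s := by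
          intro i
          rw [hst i, List.length_append, List.length_reverse]
          have h1 := List.length_filterMap_le (putK act i) w₁
          have h2 := hs i
          simp only [List.length_cons] at hl12
          omega
        refine push_seq i g (J₂ := 2) (by omega) hD₁ (hlen i) fun hD₂ => ?_
        dsimp only at hD₂ ⊢
        refine pure_inl () hD₂ ⟨hD₂, rfl, w₁ ++ [a], w₃, ?_, ?_, fun k => ?_⟩ ?_
        · rw [hw12]
          simp
        · simp only [List.length_append, List.length_cons, List.length_nil]
          omega
        · dsimp only
          rw [hput]
          by_cases hki : k = i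
          · subst hki
            have h0 : putK act k a = some g := by
              unfold putK
              rw [hact']
              simp
            rw [h0, Function.update_self, hst k]
            simp
          · have h0 : putK act k a = none := by
              unfold putK
              rw [hact']
              simp [Ne.symm hki]
            rw [h0, Function.update_of_ne hki, hst k]
            simp
        · simp only [List.length_cons] at hl12
          dsimp only
          omega

end Pool.Agent.Lib.MP_9dcf40_lc
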