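import Pool.Agent.Lib.MP_9dcf40_lc.Kn.SpecM

/-!
# One step of the simulated machine
-/

namespace Pool.Agent.Lib.MP_9dcf40_lc

open Rout

namespace KStep

variable {B : Type}

/-! ## The input tape -/

theorem inSym_left (z : List B) : inSym z 0 = .left := rfl

theorem inSym_letter (z : List B) (p : ℕ) (h : p < z.length) : inSym z (p + 1) = .letter z[p] := by
  show (match z[p]? with
    | some a => InSym.letter a
    | none => .right) = _
  rw [List.getElem?_eq_getElem h]

theorem inSym_right (z : List B) : inSym z (z.length + 1) = .right := by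
  show (match z[z.length]? with
    | some a => InSym.letter a
    | none => .right) = _
  rw [List.getElem?_eq_none le_rfl]

theorem itape_length (z : List B) : (itapeK z).length = z.length + 2 := by
  simp [itapeK]

theorem itape_get (z : List B) (p : ℕ) (h : p ≤ z.length + 1) :
    (itapeK z)[p]? = some (inSym z p) := by
  cases p with
  | zero => rfl
  | succ p =>
    show (z.map InSym.letter ++ [.right])[p]? = _
    rcases Nat.lt_or_ge p z.length with h1 | h1
    · rw [inSym_letter z p h1, List.getElem?_append_left (by simpa using h1)]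
      simp [h1]
    · obtain rfl : p = z.length := by omega
      rw [inSym_right, List.getElem?_append_right (by simp)]
      simp

theorem drop_itape (z : List B) (p : ℕ) (h : p ≤ z.length + 1) :
    (itapeK z).drop p = inSym z p :: (itapeK z).drop (p + 1) := by
  have h1 : p < (itapeK z).length := by
    rw [itape_length]
    omega
  rw [List.drop_eq_getElem_cons h1]
  congr 1
  have h2 := itape_get z p h
  rw [List.getElem?_eq_getElem h1] at h2
  exact Option.some.inj h2

theorem take_itape (z : List B) (p : ℕ) (h : p ≤ z.length + 1) :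
    (itapeK z).take (p + 1) = (itapeK z).take p ++ [inSym z p] := by
  rw [List.take_add_one, itape_get z p h]
  rfl

/-! ## The moves -/

variable [Finite B] {G : Type} [Finite G] {y : List VB} {s : ℕ}

theorem moveI (z : List B) (p : ℕ) (dir : Dir) (D : Data (PG B G) PN) (c : Str) (hle : D.le s)
    (hIL : D.st PN.IL = (((itapeK z).take p).reverse).map .inp)
    (hIR : D.st PN.IR = ((itapeK z).drop (p + 1)).map .inp) (hp : p ≤ z.length + 1)
    (hs : z.length + 3 ≤ s) :
    EndsT 2 y (moveIK (G := G) (inSym z p) dir) s D c fun _ D' c' => c' = c ∧ D'.pos = D.pos ∧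
      D'.st .IL = (((itapeK z).take (movePos z.length dir p)).reverse).map .inp ∧
      D'.st .IR = ((itapeK z).drop (movePos z.length dir p)).map .inp ∧
      Fr [.IL, .IR] D D' := by
  have hlIL : (D.st PN.IL).length ≤ z.length + 1 := by
    rw [hIL, List.length_map, List.length_reverse, List.length_take]
    omega
  have hlIR : (D.st PN.IR).length ≤ z.length + 1 := by
    rw [hIR, List.length_map, List.length_drop, itape_length]
    omega
  cases dir with
  | stay =>
    refine endsT_push PN.IR _ hle (by omega) ?_
    refine ⟨rfl, rfl, ?_, ?_, ?_⟩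
    · simp [Function.update, hIL, movePos]
    · simp [Function.update, hIR, movePos, drop_itape z p hp]
    · intro j hj
      simp only [List.mem_cons, List.not_mem_nil, or_false, not_or] at hj
      simp [Function.update, hj]
  | right =>
    rcases Nat.lt_or_ge z.length p with h1 | h1
    · obtain rfl : p = z.length + 1 := by omega
      rw [inSym_right]
      have e : movePos z.length .right (z.length + 1) = z.length + 1 := by
        simp [movePos]
      refine endsT_push PN.IR _ hle (by omega) ?_
      refine ⟨rfl, rfl, ?_, ?_, ?_⟩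
      · simp [Function.update, hIL, e]
      · rw [e, drop_itape z _ le_rfl, inSym_right]
        simp [Function.update, hIR]
      · intro j hj
        simp only [List.mem_cons, List.not_mem_nil, or_false, not_or] at hj
        simp [Function.update, hj]
    · have hne : inSym z p ≠ .right := by
        cases p with
        | zero => rw [inSym_left]; simp
        | succ p => rw [inSym_letter z p (by omega)]; simp
      have hmv : moveIK (G := G) (inSym z p) .right = push .IL (.inp (inSym z p)) := by
        unfold moveIK
        cases h : inSym z p with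
        | right => exact absurd h hne
        | left => rfl
        | letter a => rfl
      rw [hmv]
      have e : movePos z.length .right p = p + 1 := by
        simp only [movePos]
        omega
      refine endsT_push PN.IL _ hle (by omega) ?_
      refine ⟨rfl, rfl, ?_, ?_, ?_⟩
      · rw [e, take_itape z p hp, List.reverse_append]
        simp [Function.update, hIL]
      · rw [e]
        simp [Function.update, hIR]
      · intro j hj
        simp only [List.mem_cons, List.not_mem_nil, or_false, not_or] at hj
        simp [Function.update, hj]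
  | left =>
    unfold moveIK
    refine endsT_seq (J₁ := 1) (J₂ := 1) (P := fun _ D' c' => c' = c ∧
      D' = ⟨D.pos, Function.update D.st .IR (.inp (inSym z p) :: D.st .IR)⟩) (by omega) (by omega)
      (endsT_push PN.IR _ hle (by omega) ⟨rfl, rfl⟩) ?_
    rintro _ D₁ c₁ hle₁ ⟨hc₁, rfl⟩
    cases p with
    | zero =>
      refine endsT_seq (J₁ := 0) (J₂ := 0) (P := fun o D' c' => c' = c₁ ∧ o = none ∧
        D' = ⟨D.pos, Function.update D.st .IR (.inp (inSym z 0) :: D.st .IR)⟩)
        (by omega) (by omega) (endsT_pop PN.IL hle₁ ?_) ?_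
      · refine ⟨rfl, ?_, ?_⟩
        · simp [Function.update, hIL]
        · congr 1
          funext j
          by_cases hj : j = .IL
          · subst hj
            simp [Function.update, hIL]
          · simp [Function.update, hj]
      · rintro o D₂ c₂ hle₂ ⟨rfl, rfl, rfl⟩
        refine endsT_pure _ hle₂ ⟨hc₁, rfl, ?_, ?_, ?_⟩
        · simp [Function.update, hIL, movePos]
        · simp [Function.update, hIR, movePos, itapeK, inSym]
        · intro j hj
          simp only [List.mem_cons, List.not_mem_nil, or_false, not_or] at hj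
          simp [Function.update, hj]
    | succ p =>
      have e : movePos z.length .left (p + 1) = p := rfl
      refine endsT_seq (J₁ := 0) (J₂ := 0) (P := fun o D' c' => c' = c₁ ∧
        o = some (.inp (inSym z p)) ∧
        D' = ⟨D.pos, Function.update (Function.update D.st .IR (.inp (inSym z (p + 1)) :: D.st .IR))
          .IL ((((itapeK z).take p).reverse).map .inp)⟩)
        (by omega) (by omega) (endsT_pop PN.IL hle₁ ?_) ?_
      · refine ⟨rfl, ?_, ?_⟩
        · simp [Function.update, hIL, take_itape z p (by omega)]
        · congr 1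
          funext j
          by_cases hj : j = .IL
          · subst hj
            simp [Function.update, hIL, take_itape z p (by omega)]
          · simp [Function.update, hj]
      · rintro o D₂ c₂ hle₂ ⟨rfl, rfl, rfl⟩
        refine endsT_push PN.IR _ hle₂ ?_ ⟨hc₁, rfl, ?_, ?_, ?_⟩
        · simp [Function.update]
          omega
        · simp [Function.update, e]
        · rw [e, drop_itape z p (by omega), drop_itape z (p + 1) hp]
          simp [Function.update, hIR]
        · intro j hj
          simp only [List.mem_cons, List.not_mem_nil, or_false, not_or] at hj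
          simp [Function.update, hj]

/-! ## The work tape -/

/-- The new lists. -/
def zmoveK (U : TM B) (g : U.G) (dir : Dir) (wl wr : List U.G) : List U.G × List U.G :=
  match dir with
  | .stay => (wl, g :: wr.tail)
  | .right => (g :: wl, wr.tail)
  | .left => (wl.tail, wl.head?.getD U.blank :: g :: wr.tail)

theorem wsym_map (U : TM B) (l : List U.G) :
    wsymK U (l.map (PG.work (B := B))).head? = l[0]?.getD U.blank := by
  cases l <;> simp [wsymK]

theorem workM (U : TM B) [Finite U.G] (g : U.G) (dir : Dir) (wl wr : List U.G)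
    (D : Data (PG B U.G) PN) (c : Str) (hle : D.le s) (hWL : D.st .WL = wl.map .work)
    (hWR : D.st .WR = wr.tail.map .work) (hs₁ : wl.length + 1 ≤ s)
    (hs₂ : wr.tail.length + 2 ≤ s) :
    EndsT 2 y (workK U g dir) s D c fun _ D' c' => c' = c ∧ D'.pos = D.pos ∧
      D'.st .WL = (zmoveK U g dir wl wr).1.map .work ∧
      D'.st .WR = (zmoveK U g dir wl wr).2.map .work ∧ Fr [.WL, .WR] D D' := by
  cases dir with
  | stay =>
    refine endsT_push PN.WR _ hle (by rw [hWR, List.length_map]; omega) ⟨rfl, rfl, ?_, ?_, ?_⟩
    · simp [Function.update, hWL, zmoveK]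
    · simp [Function.update, hWR, zmoveK]
    · intro j hj
      simp only [List.mem_cons, List.not_mem_nil, or_false, not_or] at hj
      simp [Function.update, hj]
  | right =>
    refine endsT_push PN.WL _ hle (by rw [hWL, List.length_map]; omega) ⟨rfl, rfl, ?_, ?_, ?_⟩
    · simp [Function.update, hWL, zmoveK]
    · simp [Function.update, hWR, zmoveK]
    · intro j hj
      simp only [List.mem_cons, List.not_mem_nil, or_false, not_or] at hj
      simp [Function.update, hj]
  | left =>
    unfold workK
    refine endsT_seq (J₁ := 1) (J₂ := 1) (P := fun _ D' c' => c' = c ∧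
      D' = ⟨D.pos, Function.update D.st .WR (.work g :: D.st .WR)⟩) (by omega) (by omega)
      (endsT_push PN.WR _ hle (by rw [hWR, List.length_map]; omega) ⟨rfl, rfl⟩) ?_
    rintro _ D₁ c₁ hle₁ ⟨hc₁, rfl⟩
    refine endsT_seq (J₁ := 0) (J₂ := 0) (P := fun o D' c' => c' = c₁ ∧
      wsymK U o = wl.head?.getD U.blank ∧
      D' = ⟨D.pos, Function.update (Function.update D.st .WR (.work g :: D.st .WR))
        .WL (wl.tail.map .work)⟩)
      (by omega) (by omega) (endsT_pop PN.WL hle₁ ?_) ?_
    · refine ⟨rfl, ?_, ?_⟩
      · cases wl <;> simp [Function.update, hWL, wsymK]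
      · congr 1
        funext j
        by_cases hj : j = .WL
        · subst hj
          simp [Function.update, hWL]
        · simp [Function.update, hj]
    · rintro o D₂ c₂ hle₂ ⟨rfl, ho, rfl⟩
      refine endsT_push PN.WR _ hle₂ ?_ ⟨hc₁, rfl, ?_, ?_, ?_⟩
      · simp [Function.update, hWR]
        simp at hs₂
        omega
      · simp [Function.update, zmoveK]
      · simp [Function.update, hWR, zmoveK, ho]
      · intro j hj
        simp only [List.mem_cons, List.not_mem_nil, or_false, not_or] at hj
        simp [Function.update, hj]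

theorem getD_tail {α : Type} (l : List α) (b : α) (i : ℕ) :
    l.tail[i]?.getD b = l[i + 1]?.getD b := by
  cases l <;> simp

theorem getD_head {α : Type} (l : List α) (b : α) : l.head?.getD b = l[0]?.getD b := by
  cases l <;> simp

theorem wrep_zmove (V : TM B) (cf cf' : Cfg V.Q V.G) (wl wr : List V.G) (g : V.G) (dir : Dir)
    (hW : WRepK V cf wl wr) (hh : cf'.h = moveTape dir cf.h)
    (hT : cf'.T = Function.update cf.T cf.h g) :
    WRepK V cf' (zmoveK V g dir wl wr).1 (zmoveK V g dir wl wr).2 := by
  obtain ⟨h1, h2⟩ := hW
  have hne : ∀ z : ℤ, z ≠ cf.h → cf'.T z = cf.T z := by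
    intro z hz
    rw [hT, Function.update_of_ne hz]
  have heq : cf'.T cf.h = g := by
    rw [hT, Function.update_self]
  cases dir with
  | stay =>
    have hh' : cf'.h = cf.h := hh
    constructor
    · intro i
      rw [hh']
      cases i with
      | zero => simpa [zmoveK] using heq
      | succ k =>
        rw [hne _ (by push_cast; omega)]
        rw [h1 (k + 1)]
        simp only [zmoveK, List.getElem?_cons_succ]
        rw [getD_tail]
    · intro i
      rw [hh', hne _ (by omega)]
      exact h2 i
  | right =>
    have hh' : cf'.h = cf.h + 1 := hh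
    constructor
    · intro i
      rw [hh', hne _ (by omega)]
      have h3 : cf.h + 1 + (i : ℤ) = cf.h + ((i + 1 : ℕ) : ℤ) := by push_cast; ring
      rw [h3, h1 (i + 1)]
      simp only [zmoveK]
      rw [getD_tail]
    · intro i
      rw [hh']
      cases i with
      | zero => simpa [zmoveK] using heq
      | succ k =>
        have h3 : cf.h + 1 - 1 - ((k + 1 : ℕ) : ℤ) = cf.h - 1 - (k : ℤ) := by push_cast; ring
        rw [h3, hne _ (by omega), h2 k]
        simp [zmoveK]
  | left =>
    have hh' : cf'.h = cf.h - 1 := hh
    constructor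
    · intro i
      rw [hh']
      cases i with
      | zero =>
        have h3 : cf.h - 1 + ((0 : ℕ) : ℤ) = cf.h - 1 - ((0 : ℕ) : ℤ) := by push_cast; ring
        rw [h3, hne _ (by push_cast; omega), h2 0]
        simp only [zmoveK, List.getElem?_cons_zero, Option.getD_some]
        rw [getD_head]
      | succ k =>
        cases k with
        | zero =>
          have h3 : cf.h - 1 + ((0 + 1 : ℕ) : ℤ) = cf.h := by push_cast; ring
          rw [h3, heq]
          simp [zmoveK]
        | succ k =>
          have h3 : cf.h - 1 + ((k + 1 + 1 : ℕ) : ℤ) = cf.h + ((k + 1 : ℕ) : ℤ) := by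
            push_cast; ring
          rw [h3, hne _ (by push_cast; omega), h1 (k + 1)]
          simp only [zmoveK, List.getElem?_cons_succ]
          rw [getD_tail]
    · intro i
      have h3 : cf.h - 1 - 1 - (i : ℤ) = cf.h - 1 - ((i + 1 : ℕ) : ℤ) := by push_cast; ring
      rw [hh', h3, hne _ (by push_cast; omega), h2 (i + 1)]
      simp only [zmoveK]
      rw [getD_tail]

theorem zmove_length (U : TM B) (g : U.G) (dir : Dir) (wl wr : List U.G) (n : ℕ)
    (h1 : wl.length ≤ n) (h2 : wr.length ≤ n + 1) :
    (zmoveK U g dir wl wr).1.length ≤ n + 1 ∧ (zmoveK U g dir wl wr).2.length ≤ n + 1 + 1 := by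
  have h3 : wr.tail.length ≤ n := by
    rw [List.length_tail]
    omega
  have h4 : wl.tail.length ≤ n := by
    rw [List.length_tail]
    omega
  cases dir <;> simp only [zmoveK, List.length_cons] <;> omega

end KStep

open KStep in
theorem kn_step : StKStep := by
  refine ⟨6, ?_⟩
  intro B _ U _ _ y s D c z cf n hle hrep hz hn hout
  obtain ⟨hp, hIL, hIR, wl, wr, hWL, hWR, hW, hwl, hwr⟩ := hrep
  have hnext : U.next z false cf = ⟨(U.δ false cf.q (inSym z cf.p) (cf.T cf.h)).1,
      movePos z.length (U.δ false cf.q (inSym z cf.p) (cf.T cf.h)).2.2.1 cf.p,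
      moveTape (U.δ false cf.q (inSym z cf.p) (cf.T cf.h)).2.2.2 cf.h,
      Function.update cf.T cf.h (U.δ false cf.q (inSym z cf.p) (cf.T cf.h)).2.1⟩ := by
    unfold TM.next
    rw [hout]
  rw [drop_itape z cf.p hp] at hIR
  have hwr' : wr.tail.length ≤ n := by
    rw [List.length_tail]
    omega
  -- pop `IR`
  refine endsT_seq (J₁ := 5) (J₂ := 5) (P := fun o D' c' => c' = c ∧
    isymK o = inSym z cf.p ∧ D' = ⟨D.pos, Function.update D.st .IR
      (((itapeK z).drop (cf.p + 1)).map .inp)⟩) (by omega) (by omega) (endsT_pop PN.IR hle ?_) ?_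
  · refine ⟨rfl, ?_, ?_⟩
    · simp [hIR, isymK]
    · simp [hIR]
  rintro o D₁ c₁ hle₁ ⟨hc₁, ho, rfl⟩
  -- pop `WR`
  refine endsT_seq (J₁ := 4) (J₂ := 4) (P := fun w D' c' => c' = c ∧
    wsymK U w = cf.T cf.h ∧ D' = ⟨D.pos, Function.update (Function.update D.st .IR
      (((itapeK z).drop (cf.p + 1)).map .inp)) .WR (wr.tail.map .work)⟩) (by omega) (by omega)
      (endsT_pop PN.WR hle₁ ?_) ?_
  · refine ⟨hc₁, ?_, ?_⟩
    · have h1 : (Function.update D.st PN.IR (((itapeK z).drop (cf.p + 1)).map .inp)) .WR =
          wr.map .work := by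
        simp [Function.update, hWR]
      show wsymK U ((Function.update D.st PN.IR
        (((itapeK z).drop (cf.p + 1)).map .inp)) PN.WR).head? = cf.T cf.h
      rw [h1, wsym_map]
      have h2 := hW.1 0
      simpa using h2.symm
    · simp [Function.update, hWR]
  rintro w D₂ c₂ hle₂ ⟨hc₂, hw, rfl⟩
  rw [ho, hw]
  set r := U.δ false cf.q (inSym z cf.p) (cf.T cf.h) with hr
  -- the input head
  refine endsT_seq (J₁ := 3) (J₂ := 3) (by omega) (by omega)
    ((moveI z cf.p r.2.2.1 _ c₂ hle₂ ?_ ?_ hp hz).bump (by omega)) ?_
  · simp [Function.update, hIL]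
  · simp [Function.update]
  rintro _ D₃ c₃ hle₃ ⟨hc₃, hpos₃, hIL₃, hIR₃, hfr₃⟩
  -- the work head
  refine endsT_seq (J₁ := 2) (J₂ := 2) (by omega) (by omega)
    (workM U r.2.1 r.2.2.2 wl wr D₃ c₃ hle₃ ?_ ?_ (by omega) (by omega)) ?_
  · rw [hfr₃ .WL (by decide)]
    simp [Function.update, hWL]
  · rw [hfr₃ .WR (by decide)]
    simp [Function.update]
  rintro _ D₄ c₄ hle₄ ⟨hc₄, hpos₄, hWL₄, hWR₄, hfr₄⟩
  obtain ⟨hl1, hl2⟩ := zmove_length U r.2.1 r.2.2.2 wl wr n hwl hwr
  refine endsT_pure _ hle₄ ⟨hc₄.trans (hc₃.trans hc₂), hpos₄.trans hpos₃, ?_, ?_, ?_⟩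
  · intro j hj
    rw [hfr₄ j (by
      intro h
      apply hj
      simp only [List.mem_cons, List.not_mem_nil, or_false] at h ⊢
      tauto), hfr₃ j (by
      intro h
      apply hj
      simp only [List.mem_cons, List.not_mem_nil, or_false] at h ⊢
      tauto)]
    simp only [List.mem_cons, List.not_mem_nil, or_false, not_or] at hj
    simp [Function.update, hj]
  · rw [hnext]
  · rw [hnext]
    refine ⟨?_, ?_, ?_, _, _, hWL₄, hWR₄, wrep_zmove U cf _ wl wr r.2.1 r.2.2.2 hW rfl rfl,
      hl1, hl2⟩
    · show movePos z.length r.2.2.1 cf.p ≤ z.length + 1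
      cases r.2.2.1 <;> simp only [movePos] <;> omega
    · rw [hfr₄ .IL (by decide), hIL₃]
    · rw [hfr₄ .IR (by decide), hIR₃]

end Pool.Agent.Lib.MP_9dcf40_lc
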