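import Pool.Agent.Lib.MP_9dcf40_lc.Kn.SpecM

/-!
# The machine in polylogarithmic space: composition
-/

namespace Pool.Agent.Lib.MP_9dcf40_lc

namespace KUnp

theorem inSym_one {A : Type} {x : List A} (h : 0 < x.length) :
    inSym x 1 = .letter x[0] := by
  show (match x[0]? with
    | some a => InSym.letter a
    | none => .right) = _
  rw [List.getElem?_eq_getElem h]

end KUnp

theorem kn_unp (hU : StKUset) (hT : StETape) (hL : StELoad) (hS : StESim) : StKUnp := by
  intro V _ _ x s sV a₁ a₂ a₃ d e h1 h2 h3 h4 h5 hV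
  set m := (Nat.size x.length + 1) ^ (d + 1) with hm
  set k := (Nat.size x.length + 1) ^ e with hk
  set z := zpar ((Nat.size x.length + 1) ^ a₁) ((Nat.size x.length + 1) ^ a₂)
    ((Nat.size x.length + 1) ^ a₃) with hz
  unfold unpE
  refine ends_seq (hU V.G x s a₁ a₂ a₃ d e h1 h2 h3 h4) ?_
  rintro _ D₁ hD₁ ⟨hp, hTT, hP, hX, hK, hY, hZ⟩
  refine ends_seq ((hT V.G x s D₁ hD₁).2.1 (by omega)) ?_
  rintro _ D₂ hD₂ rfl
  refine ends_seq (P := fun _ D' => D' = ⟨movePos x.length .right 0, D₁.st⟩)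
    (ends_move .right hD₂ rfl) ?_
  rintro _ D₃ hD₃ rfl
  refine ends_seq (P := fun a D' => a = inSym x (movePos x.length .right 0) ∧
    D' = ⟨movePos x.length .right 0, D₁.st⟩) (ends_read hD₃ ⟨rfl, rfl⟩) ?_
  rintro a D₄ hD₄ ⟨rfl, rfl⟩
  have hpos : movePos x.length .right 0 = 1 := by
    show min (0 + 1) (x.length + 1) = 1
    omega
  rw [hpos] at hD₄ ⊢
  by_cases hn : x = []
  · subst hn
    exact ends_pure false hD₄ fun h => absurd rfl h
  · have hx : 0 < x.length := List.length_pos_iff.2 hn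
    rw [KUnp.inSym_one hx]
    change Ends x (evalE V) s _ _
    unfold evalE
    have hE : EInv x m (Nat.size x.length) k (⟨1, D₁.st⟩ : Data (EG V.G) EN) :=
      ⟨hTT, hP, hX, hK, by show 1 ≤ x.length + 1; omega⟩
    have hPre : EPre z [] [] (⟨1, D₁.st⟩ : Data (EG V.G) EN) := ⟨hZ, hY, rfl⟩
    refine ends_seq (hL V.G x s m (Nat.size x.length) k z [] [] _ hD₄ hE hPre hx
      (by show z.length + 0 + 1 ≤ s; omega)) ?_
    rintro _ D₅ hD₅ ⟨hR, -⟩
    refine (hS V x s sV m (Nat.size x.length) k z [] D₅ hD₅ hR hx (Nat.lt_size_self _)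
      (by show z.length + 0 + 1 ≤ s; omega) hV (by omega)).imp ?_
    rintro b D₆ - ⟨hb, -, -⟩ -
    exact hb

end Pool.Agent.Lib.MP_9dcf40_lc
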