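import Pool.Agent.Lib.MP_9dcf40_lc.Kn.SpecM

/-!
# Complement and removal of the padding
-/

namespace Pool.Agent.Lib.MP_9dcf40_lc

open Filter

theorem kn_unpad (hD : StDiag) : StKUnpad := by
  intro hyp L d hL
  obtain ⟨V, hdet, ⟨k, hsp⟩, hV⟩ := hyp VB L hL
  obtain ⟨D, hD₁, hD₂⟩ := hD V k d hdet hsp
  refine ⟨D, hD₁, ?_⟩
  filter_upwards [hD₂] with n hn x hx f₁ f₂ m rest hf hm
  rw [hn x hx f₁ f₂ [] m rest hf hm, hV]

end Pool.Agent.Lib.MP_9dcf40_lc
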