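import Pool.Agent.Lib.MP_9dcf40_lc.Kn.SpecM
import Pool.Agent.Lib.MP_9dcf40_lc.Av.ESetup

/-!
# The start phase of the machine in polylogarithmic space (`StKUset`)
-/

namespace Pool.Agent.Lib.MP_9dcf40_lc

open Rout

namespace KUset

open ESetup

variable {G : Type} [Finite G]

/-- Push `hash`, then `(N + 1) ^ a` letters `one` on `Z`. -/
theorem block (hP : StEPow) (hR : StERules) (hT : StETape) {γ : Type} {x : List Bool}
    {s p a : ℕ} {N P X K Z Y : List (EG G)} {f : Unit → ER G γ}
    {Q : γ → Data (EG G) EN → Prop} (hD : (⟨p, stk N [] P X K Z Y⟩ : Data (EG G) EN).le s)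
    (hs : (N.length + 1) ^ a + Z.length + 1 ≤ s)
    (h' : (⟨p, stk N [] P X K (List.replicate ((N.length + 1) ^ a) (.ltr .one) ++
      .ltr .hash :: Z) Y⟩ : Data (EG G) EN).le s →
      Ends x (f ()) s ⟨p, stk N [] P X K (List.replicate ((N.length + 1) ^ a) (.ltr .one) ++
      .ltr .hash :: Z) Y⟩ Q) :
    Ends x ((push .Z (.ltr .hash)).bind fun _ => (powE a).bind fun _ =>
      (cpR (fun _ => .ltr .one) .R .Z).bind fun _ => (emptyR .R).bind f) s
      ⟨p, stk N [] P X K Z Y⟩ Q := by
  refine step (ends_push .Z _ hD ?_ rfl) (upd_Z _ _ _ _ _ _ _ _) fun _ hD => ?_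
  · show Z.length + 1 ≤ s
    omega
  refine step (hP G x s a _ hD rfl rfl rfl ?_) (upd_R _ _ _ _ _ _ _ _) fun _ hD => ?_
  · show (N.length + 1) ^ a ≤ s
    omega
  refine step ((hR G x s _ hD).2.2.1 (fun _ => .ltr .one) .R .Z (by decide) (by decide)
    (by decide) rfl ?_) (upd_Z _ _ _ _ _ _ _ _) fun _ hD => ?_
  · show (List.replicate ((N.length + 1) ^ a) EG.mark).length +
      (EG.ltr .hash :: Z : List (EG G)).length ≤ s
    rw [List.length_replicate, List.length_cons]
    omega
  refine step ((hT G x s _ hD).1 .R) (st'' := stk N [] P X K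
    (List.replicate ((N.length + 1) ^ a) (.ltr .one) ++ .ltr .hash :: Z) Y) ?_ fun _ hD => h' hD
  show Function.update (stk N _ P X K (List.map (fun _ => EG.ltr .one)
    (List.replicate ((N.length + 1) ^ a) EG.mark) ++ EG.ltr .hash :: Z) Y) .R [] = _
  rw [upd_R, List.map_replicate]

/-- The last block. -/
theorem block' (hP : StEPow) (hR : StERules) (hT : StETape) {x : List Bool}
    {s p a : ℕ} {N P X K Z Y : List (EG G)}
    {Q : Unit → Data (EG G) EN → Prop} (hD : (⟨p, stk N [] P X K Z Y⟩ : Data (EG G) EN).le s)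
    (hs : (N.length + 1) ^ a + Z.length + 1 ≤ s)
    (hQ : Q () ⟨p, stk N [] P X K (List.replicate ((N.length + 1) ^ a) (.ltr .one) ++
      .ltr .hash :: Z) Y⟩) :
    Ends x ((push .Z (.ltr .hash)).bind fun _ => (powE a).bind fun _ =>
      (cpR (fun _ => .ltr .one) .R .Z).bind fun _ => (emptyR .R)) s
      ⟨p, stk N [] P X K Z Y⟩ Q := by
  refine step (ends_push .Z _ hD ?_ rfl) (upd_Z _ _ _ _ _ _ _ _) fun _ hD => ?_
  · show Z.length + 1 ≤ s
    omega
  refine step (hP G x s a _ hD rfl rfl rfl ?_) (upd_R _ _ _ _ _ _ _ _) fun _ hD => ?_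
  · show (N.length + 1) ^ a ≤ s
    omega
  refine step ((hR G x s _ hD).2.2.1 (fun _ => .ltr .one) .R .Z (by decide) (by decide)
    (by decide) rfl ?_) (upd_Z _ _ _ _ _ _ _ _) fun _ hD => ?_
  · show (List.replicate ((N.length + 1) ^ a) EG.mark).length +
      (EG.ltr .hash :: Z : List (EG G)).length ≤ s
    rw [List.length_replicate, List.length_cons]
    omega
  refine ((hT G x s _ hD).1 .R).imp ?_
  rintro ⟨⟩ D' - rfl
  have h1 : Function.update (stk N (List.replicate ((N.length + 1) ^ a) EG.mark) P X K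
      (List.map (fun _ => EG.ltr .one) (List.replicate ((N.length + 1) ^ a) (EG.mark : EG G)) ++
        EG.ltr .hash :: Z) Y) .R [] =
      stk N [] P X K (List.replicate ((N.length + 1) ^ a) (.ltr .one) ++ .ltr .hash :: Z) Y := by
    rw [upd_R, List.map_replicate]
  exact (congrArg (fun st => Q () ⟨p, st⟩) h1).mpr hQ

end KUset

open ESetup KUset in
/-- The start phase. -/
theorem kn_uset (hZ : StESize) (hP : StEPow) (hR : StERules) (hT : StETape) (hC : StCount) :
    StKUset := by
  intro G _ x s a₁ a₂ a₃ d e h0s h1 h2 h4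
  obtain ⟨N, hN⟩ : ∃ N, N = (cinc^[x.length] []).map (EG.bit (G := G)) := ⟨_, rfl⟩
  have hlen : N.length = Nat.size x.length := by
    rw [hN, List.length_map]
    exact hC.2.2.2.2.2.2.2.2.2.2 _
  rw [← hlen] at h0s h1 h2 h4 ⊢
  have hz : ∀ m κ₂ κ₃ : ℕ, (zpar m κ₂ κ₃).length = m + κ₂ + κ₃ + 3 := by
    intro m κ₂ κ₃
    simp [zpar]
    omega
  rw [hz] at h0s
  have h0 := hZ G x s (by rw [← hlen]; exact h4)
  rw [← hN] at h0
  unfold usetE
  refine step h0 (stk_init N) fun _ hD => ?_
  -- `Z`
  have hzs : Ends x (zsetE (G := G) a₁ a₂ a₃) s ⟨x.length + 1, stk N [] [] [] [] [] []⟩ fun _ D' =>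
      D' = ⟨x.length + 1, stk N [] [] [] [] (List.replicate ((N.length + 1) ^ a₁) (.ltr .one) ++
        .ltr .hash :: (List.replicate ((N.length + 1) ^ a₂) (.ltr .one) ++
        .ltr .hash :: (List.replicate ((N.length + 1) ^ a₃) (.ltr .one) ++
        .ltr .hash :: []))) []⟩ := by
    unfold zsetE
    refine block hP hR hT hD ?_ fun hD => ?_
    · simp only [List.length_nil]
      omega
    refine block hP hR hT hD ?_ fun hD => ?_
    · simp only [List.length_nil, List.length_append, List.length_replicate, List.length_cons]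
      omega
    refine block' hP hR hT hD ?_ rfl
    simp only [List.length_nil, List.length_append, List.length_replicate, List.length_cons]
    omega
  refine step hzs rfl fun _ hD => ?_
  -- `P`
  refine step (hP G x s (d + 1) _ hD rfl rfl rfl ?_) (upd_R _ _ _ _ _ _ _ _) fun _ hD => ?_
  · show (N.length + 1) ^ (d + 1) ≤ s
    exact h1
  refine step ((hR G x s _ hD).2.2.1 (fun _ => .bit true) .R .P (by decide) (by decide)
    (by decide) rfl ?_) (upd_P _ _ _ _ _ _ _ _) fun _ hD => ?_
  · show (List.replicate ((N.length + 1) ^ (d + 1)) EG.mark).length + 0 ≤ s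
    rw [List.length_replicate]
    exact h1
  refine step ((hT G x s _ hD).1 .R) (upd_R _ _ _ _ _ _ _ _) fun _ hD => ?_
  -- `K`
  refine step (hP G x s e _ hD rfl rfl rfl ?_) (upd_R _ _ _ _ _ _ _ _) fun _ hD => ?_
  · show (N.length + 1) ^ e ≤ s
    exact h2
  refine step ((hR G x s _ hD).2.2.1 (fun _ => .bit false) .R .K (by decide) (by decide)
    (by decide) rfl ?_) (upd_K _ _ _ _ _ _ _ _) fun _ hD => ?_
  · show (List.replicate ((N.length + 1) ^ e) EG.mark).length + 0 ≤ s
    rw [List.length_replicate]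
    exact h2
  refine step ((hT G x s _ hD).1 .R) (upd_R _ _ _ _ _ _ _ _) fun _ hD => ?_
  -- `X`
  refine ((hR G x s _ hD).2.2.1 (fun _ => .bit true) .N .X (by decide) (by decide)
    (by decide) rfl ?_).imp ?_
  · show N.length + 0 ≤ s
    omega
  rintro _ D' - hD'
  have h5 := hD'.trans (congrArg (Data.mk (x.length + 1)) (upd_X _ _ _ _ _ _ _ _))
  subst h5
  refine ⟨rfl, rfl, ?_, ?_, ?_, ?_, ?_⟩
  · show (List.map (fun _ => EG.bit true)
      (List.replicate ((N.length + 1) ^ (d + 1)) EG.mark) ++ []).length = _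
    rw [List.append_nil, List.length_map, List.length_replicate]
  · show (List.map (fun _ => EG.bit true) N ++ []).length = _
    rw [List.append_nil, List.length_map]
  · show (List.map (fun _ => EG.bit false)
      (List.replicate ((N.length + 1) ^ e) EG.mark) ++ []).length = _
    rw [List.append_nil, List.length_map, List.length_replicate]
  · rfl
  · show List.replicate ((N.length + 1) ^ a₁) (EG.ltr .one) ++
        .ltr .hash :: (List.replicate ((N.length + 1) ^ a₂) (.ltr .one) ++
        .ltr .hash :: (List.replicate ((N.length + 1) ^ a₃) (.ltr .one) ++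
        .ltr .hash :: [])) = _
    simp [zpar]

end Pool.Agent.Lib.MP_9dcf40_lc
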