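import Pool.Agent.Lib.MP_9dcf40_lc.Kn.SpecM

/-!
# The machine of level 2
-/

namespace Pool.Agent.Lib.MP_9dcf40_lc

open Rout

namespace KW2

theorem len_y (m κ : ℕ) (T : List Bool) : (vword (word2 m κ T) κ []).length =
    T.length + (4 * m + 2 ^ m + 2 ^ (3 * m)) + κ + 4 + 2 ^ κ := by
  simp only [vword, pairL, padL, word2, par, List.length_map, List.length_append,
    List.length_replicate, List.length_cons, List.length_nil, List.map_nil, List.append_nil]
  ring

end KW2

/-- The machine of level 2. -/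
theorem kn_w2 (hR : StKParse2) (hM : StKMv) (hG : StKGz) (hMa : StKMain2) (hMi : StKMisc) :
    StKW2 := by
  obtain ⟨J₁, hR⟩ := hR
  obtain ⟨J₂, hM⟩ := hM
  obtain ⟨hG1, -, J₃, hG⟩ := hG
  obtain ⟨J₄, hMa⟩ := hMa
  obtain ⟨J₅, hMi⟩ := hMi
  refine ⟨J₁ + J₂ + J₃ + J₄ + J₅ + 20, ?_⟩
  intro V _ _ m κ T c hT
  have hL := KW2.len_y m κ T
  rw [hT] at hL
  have q1 : 1 ≤ 2 ^ m := Nat.one_le_two_pow
  have q2 : 1 ≤ 2 ^ (3 * m) := Nat.one_le_two_pow
  have q3 : 1 ≤ 2 ^ (4 * m) := Nat.one_le_two_pow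
  have q4 : 1 ≤ 2 ^ κ := Nat.one_le_two_pow
  generalize hy : vword (word2 m κ T) κ [] = y at hL
  generalize hs : 10 * (y.length + 10) = s
  have h1 := hR V.G m κ s T c (by rw [hy]; omega)
  rw [hy] at h1
  unfold w2R
  refine endsT_seq (J₁ := J₁) (J₂ := J₂ + J₃ + J₄ + J₅ + 18) (by omega) (by omega) h1 ?_
  rintro _ D c' hD ⟨rfl, hDT, hDA, hDP, hDTh, hDK, hD0⟩
  have hU : D.st .U = [] := hD0 _ (by decide)
  have hH : D.st .H = [] := hD0 _ (by decide)
  have hS : D.st .S = [] := hD0 _ (by decide)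
  have hZ : D.st .Z = [] := hD0 _ (by decide)
  have hF : D.st .F = [] := hD0 _ (by decide)
  have hC : D.st .C = [] := hD0 _ (by decide)
  have h2 := (hM (Option DA) V.G y s D c' hD).2.1 id .T .U (by decide) (by
    rw [hDT, hU]
    simp only [List.length_reverse, List.length_map, List.length_nil, hT]
    omega)
  refine endsT_seq (J₁ := J₂) (J₂ := J₂ + J₃ + J₄ + J₅ + 14) (by omega) (by omega) h2 ?_
  rintro _ D₂ c'' hD₂ ⟨rfl, rfl⟩
  have h3 := (hM (Option DA) V.G y s _ c'' hD₂).2.2.2.1 (fun _ => .bit false) .A .S (by decide)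
    (by decide) (by decide) (by simpa using hH) (by
      simp only [ne_eq, reduceCtorEq, not_false_eq_true, Function.update_of_ne]
      rw [hDA, hS]
      simp only [List.length_replicate, List.length_nil]
      omega)
  refine endsT_seq (J₁ := J₂) (J₂ := J₃ + J₄ + J₅ + 10) (by omega) (by omega) h3 ?_
  rintro _ D₃ c₃ hD₃ ⟨rfl, rfl⟩
  have h4 := hG (Option DA) V.G y s _ c₃ (2 ^ m) hD₃ (by
      simp only [ne_eq, reduceCtorEq, not_false_eq_true, Function.update_of_ne]
      exact hDP) (by
      simp only [ne_eq, reduceCtorEq, not_false_eq_true, Function.update_of_ne]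
      exact hZ) (by
      simp only [ne_eq, reduceCtorEq, not_false_eq_true, Function.update_of_ne]
      exact hF)
  refine endsT_seq (J₁ := J₃) (J₂ := J₄ + J₅ + 6) (by omega) (by omega) h4 ?_
  rintro _ D₄ c₄ hD₄ rfl
  have h5 := hMa V y s _ c₄ T (gword (2 ^ m) c₃ []) m (2 ^ κ) (2 ^ (3 * m)) hD₄ hT (hG1 _ _)
    (by
      simp only [ne_eq, reduceCtorEq, not_false_eq_true, Function.update_of_ne]
      exact hH)
    (by
      simp only [ne_eq, reduceCtorEq, not_false_eq_true, Function.update_of_ne,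
        Function.update_self]
      rw [hDT, hU]
      simp)
    (by
      simp only [ne_eq, reduceCtorEq, not_false_eq_true, Function.update_of_ne,
        Function.update_self]
      rw [hDA, hS]
      simp)
    (by
      simp only [ne_eq, reduceCtorEq, not_false_eq_true, Function.update_of_ne,
        Function.update_self])
    (by
      simp only [ne_eq, reduceCtorEq, not_false_eq_true, Function.update_of_ne,
        Function.update_self])
    (by
      simp only [ne_eq, reduceCtorEq, not_false_eq_true, Function.update_of_ne]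
      exact hDK)
    (by
      simp only [ne_eq, reduceCtorEq, not_false_eq_true, Function.update_of_ne]
      exact hC)
    (by
      simp only [ne_eq, reduceCtorEq, not_false_eq_true, Function.update_of_ne]
      exact hDTh)
    (by omega) (by omega) (by omega)
  refine endsT_seq (J₁ := J₄) (J₂ := J₅ + 2) (by omega) (by omega) h5 ?_
  rintro _ D₅ c₅ hD₅ ⟨hC5, hT5⟩
  have h6 := (hMi (Option DA) V.G y s D₅ c₅ hD₅).1 .C .Th (by decide)
  refine (h6.bump (by omega)).imp ?_
  rintro b D₆ c₆ hD₆ ⟨-, hb⟩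
  rw [hb, hC5, hT5]

end Pool.Agent.Lib.MP_9dcf40_lc
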