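import Pool.Agent.Lib.MP_9dcf40_lc.Kn.SpecM

/-!
# The machine of level 3
-/

namespace Pool.Agent.Lib.MP_9dcf40_lc

open Rout

namespace KW3

variable {G : Type}

/-- The contents of the stacks `T`, `B`, `X`, `IR`; the other stacks are as in `D`. -/
def BSt (D : Data (PG DA G) PN) (tl bl xl il : List (PG DA G)) (D' : Data (PG DA G) PN) : Prop :=
  D'.st .T = tl ∧ D'.st .B = bl ∧ D'.st .X = xl ∧ D'.st .IR = il ∧ Fr [.T, .B, .X, .IR] D D'

variable [Finite G] {y : List VB} {s : ℕ} {D D' : Data (PG DA G) PN}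
  {tl bl xl il : List (PG DA G)} {c : Str}

theorem push_b (a : PG DA G) (hle : D'.le s) (h : BSt D tl bl xl il D') (hs : il.length + 1 ≤ s) :
    EndsT 1 y (push .IR a) s D' c fun _ D'' c' => c' = c ∧ BSt D tl bl xl (a :: il) D'' := by
  obtain ⟨h1, h2, h3, h4, h5⟩ := h
  refine endsT_push PN.IR _ hle (by rw [h4]; exact hs) ⟨rfl, ?_, ?_, ?_, ?_, ?_⟩
  · simp [Function.update, h1]
  · simp [Function.update, h2]
  · simp [Function.update, h3]
  · simp [Function.update, h4]
  · intro j hj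
    have h6 := h5 j hj
    simp only [List.mem_cons, List.not_mem_nil, or_false, not_or] at hj
    simp [Function.update, hj, h6]

theorem mv_x {J : ℕ} (hM : ∀ (D : Data (PG DA G) PN) (c : Str), D.le s →
      ∀ (φ : PG DA G → PG DA G) (i j : PN), i ≠ j → (D.st i).length + (D.st j).length ≤ s →
      EndsT J y (mvK φ i j) s D c fun _ D' c' => c' = c ∧ D' = ⟨D.pos, Function.update
        (Function.update D.st i []) j (((D.st i).map φ).reverse ++ D.st j)⟩)
    (φ : PG DA G → PG DA G) (hle : D'.le s) (h : BSt D tl bl xl il D')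
    (hs : xl.length + il.length ≤ s) :
    EndsT J y (mvK φ .X .IR) s D' c fun _ D'' c' => c' = c ∧
      BSt D tl bl [] ((xl.map φ).reverse ++ il) D'' := by
  obtain ⟨h1, h2, h3, h4, h5⟩ := h
  refine (hM D' c hle φ .X .IR (by decide) (by rw [h3, h4]; exact hs)).imp ?_
  rintro _ D₁ c₁ - ⟨hc, rfl⟩
  refine ⟨hc, ?_, ?_, ?_, ?_, ?_⟩
  · simp [Function.update, h1]
  · simp [Function.update, h2]
  · simp [Function.update]
  · simp [Function.update, h3, h4]
  · intro j hj
    have h6 := h5 j hj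
    simp only [List.mem_cons, List.not_mem_nil, or_false, not_or] at hj
    simp [Function.update, hj, h6]

theorem mv_b {J : ℕ} (hM : ∀ (D : Data (PG DA G) PN) (c : Str), D.le s →
      ∀ (φ : PG DA G → PG DA G) (i j : PN), i ≠ j → (D.st i).length + (D.st j).length ≤ s →
      EndsT J y (mvK φ i j) s D c fun _ D' c' => c' = c ∧ D' = ⟨D.pos, Function.update
        (Function.update D.st i []) j (((D.st i).map φ).reverse ++ D.st j)⟩)
    (φ : PG DA G → PG DA G) (hle : D'.le s) (h : BSt D tl bl xl il D')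
    (hs : bl.length + il.length ≤ s) :
    EndsT J y (mvK φ .B .IR) s D' c fun _ D'' c' => c' = c ∧
      BSt D tl [] xl ((bl.map φ).reverse ++ il) D'' := by
  obtain ⟨h1, h2, h3, h4, h5⟩ := h
  refine (hM D' c hle φ .B .IR (by decide) (by rw [h2, h4]; exact hs)).imp ?_
  rintro _ D₁ c₁ - ⟨hc, rfl⟩
  refine ⟨hc, ?_, ?_, ?_, ?_, ?_⟩
  · simp [Function.update, h1]
  · simp [Function.update]
  · simp [Function.update, h3]
  · simp [Function.update, h2, h4]
  · intro j hj
    have h6 := h5 j hj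
    simp only [List.mem_cons, List.not_mem_nil, or_false, not_or] at hj
    simp [Function.update, hj, h6]

theorem guess_t {J : ℕ} (hG : ∀ (D : Data (PG DA G) PN) (c : Str) (l : List DA), D.le s →
      D.st .T = l.map .ltr → l.length + (D.st .IR).length ≤ s →
      EndsT J y guessT s D c fun _ D' _ => D' = ⟨D.pos, Function.update
        (Function.update D.st .T []) .IR
        ((gtab l c []).map (fun a => .inp (.letter a)) ++ D.st .IR)⟩)
    (l : List DA) (hle : D'.le s) (h : BSt D (l.map .ltr) bl xl il D')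
    (hs : l.length + il.length ≤ s) :
    EndsT J y guessT s D' c fun _ D'' _ =>
      BSt D [] bl xl ((gtab l c []).map (fun a => .inp (.letter a)) ++ il) D'' := by
  obtain ⟨h1, h2, h3, h4, h5⟩ := h
  refine (hG D' c l hle h1 (by rw [h4]; exact hs)).imp ?_
  rintro _ D₁ c₁ - rfl
  refine ⟨?_, ?_, ?_, ?_, ?_⟩
  · simp [Function.update]
  · simp [Function.update, h2]
  · simp [Function.update, h3]
  · simp [Function.update, h4]
  · intro j hj
    have h6 := h5 j hj
    simp only [List.mem_cons, List.not_mem_nil, or_false, not_or] at hj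
    simp [Function.update, hj, h6]

theorem build {J : ℕ} (hM : ∀ (D : Data (PG DA G) PN) (c : Str), D.le s →
      ∀ (φ : PG DA G → PG DA G) (i j : PN), i ≠ j → (D.st i).length + (D.st j).length ≤ s →
      EndsT J y (mvK φ i j) s D c fun _ D' c' => c' = c ∧ D' = ⟨D.pos, Function.update
        (Function.update D.st i []) j (((D.st i).map φ).reverse ++ D.st j)⟩)
    (hG : ∀ (D : Data (PG DA G) PN) (c : Str) (l : List DA), D.le s →
      D.st .T = l.map .ltr → l.length + (D.st .IR).length ≤ s →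
      EndsT J y guessT s D c fun _ D' _ => D' = ⟨D.pos, Function.update
        (Function.update D.st .T []) .IR
        ((gtab l c []).map (fun a => .inp (.letter a)) ++ D.st .IR)⟩)
    (κ : ℕ) (l p : List DA) (hle : D.le s) (hT : D.st .T = l.map .ltr)
    (hB : D.st .B = (p.map .ltr).reverse) (hX : D.st .X = List.replicate κ .mark)
    (hIR : D.st .IR = []) (hs : l.length + p.length + κ + 6 ≤ s)
    (hgl : (gtab l c []).length = l.length) :
    EndsT (J + 10) y build3 s D c fun _ D' _ => Fr [.T, .B, .X, .IR] D D' ∧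
      D'.st .IR = (itapeK (gtab l c [] ++ .hash :: (p ++ .hash :: ([] ++ .hash ::
        (List.replicate κ .one ++ .hash :: []))))).map .inp := by
  have h0 : BSt D (l.map .ltr) (p.map .ltr).reverse (List.replicate κ .mark) [] D :=
    ⟨hT, hB, hX, hIR, Fr.refl _ _⟩
  unfold build3
  refine endsT_seq (J₁ := 1) (J₂ := J + 9) (by omega) (by omega)
    (push_b _ hle h0 (by simp; omega)) ?_
  rintro _ D₁ c₁ hle₁ ⟨rfl, h₁⟩
  refine endsT_seq (J₁ := 1) (J₂ := J + 8) (by omega) (by omega)
    (push_b _ hle₁ h₁ (by simp; omega)) ?_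
  rintro _ D₂ c₂ hle₂ ⟨rfl, h₂⟩
  refine endsT_seq (J₁ := J) (J₂ := J + 7) (by omega) (by omega)
    (mv_x hM _ hle₂ h₂ (by simp; omega)) ?_
  rintro _ D₃ c₃ hle₃ ⟨rfl, h₃⟩
  refine endsT_seq (J₁ := 1) (J₂ := J + 6) (by omega) (by omega)
    (push_b _ hle₃ h₃ (by simp; omega)) ?_
  rintro _ D₄ c₄ hle₄ ⟨rfl, h₄⟩
  refine endsT_seq (J₁ := 1) (J₂ := J + 5) (by omega) (by omega)
    (push_b _ hle₄ h₄ (by simp; omega)) ?_
  rintro _ D₅ c₅ hle₅ ⟨rfl, h₅⟩
  refine endsT_seq (J₁ := J) (J₂ := J + 4) (by omega) (by omega)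
    (mv_b hM _ hle₅ h₅ (by simp; omega)) ?_
  rintro _ D₆ c₆ hle₆ ⟨rfl, h₆⟩
  refine endsT_seq (J₁ := 1) (J₂ := J + 3) (by omega) (by omega)
    (push_b _ hle₆ h₆ (by simp; omega)) ?_
  rintro _ D₇ c₇ hle₇ ⟨rfl, h₇⟩
  refine endsT_seq (J₁ := J) (J₂ := 1) (by omega) (by omega)
    (guess_t hG l hle₇ h₇ (by simp; omega)) ?_
  rintro _ D₈ c₈ hle₈ h₈
  refine (push_b _ hle₈ h₈ (by simp; omega)).imp ?_
  rintro _ D₉ c₉ - ⟨-, -, -, -, h, hfr⟩
  refine ⟨hfr, ?_⟩
  rw [h]
  simp [itapeK, lsD, Function.comp_def]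

theorem bitL_inj : Function.Injective bitL := by
  intro a b h
  cases a <;> cases b <;> simp_all [bitL]

end KW3

open KW3 in
theorem kn_w3 (hR : StKParse3) (hM : StKMv) (hG : StKGt) (hP : StKPsim) : StKW3 := by
  obtain ⟨J₁, h₁⟩ := hR
  obtain ⟨J₂, h₂⟩ := hM
  obtain ⟨g₁, g₂, J₃, h₃⟩ := hG
  obtain ⟨J₄, h₄⟩ := hP
  refine ⟨J₁ + J₂ + J₃ + J₄ + 15, ?_⟩
  intro U _ _ m κ₂ κ₃ u hu
  choose v hv using fun c => g₁ u (2 ^ (4 * m) - u.length) c
  refine ⟨fun c => u ++ v c, fun c => ⟨?_, List.prefix_append _ _⟩, ?_, ?_⟩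
  · rw [List.length_append, (hv c).1]
    omega
  · rintro T hT ⟨v', rfl⟩
    obtain ⟨c, hc⟩ := g₂ u v'
    have hl : v'.length = 2 ^ (4 * m) - u.length := by
      rw [List.length_append] at hT
      omega
    rw [hl, (hv c).2] at hc
    exact ⟨c, List.map_injective_iff.2 bitL_inj hc⟩
  · intro c
    set y := vword (word3 m κ₂ κ₃ u) κ₃ [] with hy
    have hyl : y.length = (fld3 m u).length + (par m).length + κ₂ + κ₃ + 4 + 2 ^ κ₃ := by
      rw [hy]
      simp only [vword, pairL, padL, word3, List.length_append, List.length_cons,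
        List.length_map, List.length_replicate, List.length_nil]
      omega
    have hfl : (fld3 m u).length = 2 ^ (4 * m) := by
      rw [fld3, List.length_append, List.length_map, List.length_replicate]
      omega
    unfold w3R
    have hye : (vword (word3 m κ₂ κ₃ u) κ₃ []).length + 1 ≤ 10 * (y.length + 10) := by
      rw [← hy]
      omega
    have hq : 2 ^ κ₃ ≤ y.length := by
      rw [hyl]
      exact Nat.le_add_left _ _
    refine endsT_seq (J₁ := J₁) (J₂ := J₂ + J₃ + J₄ + 14) (by omega) (by omega)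
      (h₁ U.G m κ₂ κ₃ _ u c hye) ?_
    rintro _ D₁ c₁ hle₁ ⟨rfl, hT, hB, hX, hQ, hrest⟩
    have hT' : D₁.st .T = (fld3 m u).reverse.map .ltr := by
      rw [hT, List.map_reverse]
    have hgt : gtab (fld3 m u).reverse c₁ [] = (u ++ v c₁).map bitL := (hv c₁).2
    refine endsT_seq (J₁ := J₂ + J₃ + 10) (J₂ := J₄) (by omega) (by omega)
      (build (J := J₂ + J₃) (fun D c hle φ i j hij hs =>
        ((h₂ DA U.G y _ D c hle).2.1 φ i j hij hs).bump (by omega))
        (fun D c l hle hT hs => (h₃ U.G y _ D c l hle hT hs).bump (by omega)) κ₂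
        (fld3 m u).reverse (par m) hle₁ hT' (by rw [hB]) hX (hrest .IR (by decide)) ?_ ?_) ?_
    · have hpos := Nat.two_pow_pos κ₃
      rw [List.length_reverse, hyl]
      generalize 2 ^ κ₃ = n at *
      omega
    · rw [hgt, List.length_map, List.length_append, (hv c₁).1, List.length_reverse, hfl]
      omega
    rintro _ D₂ c₂ hle₂ ⟨hfr, hIR⟩
    have hw : gtab (fld3 m u).reverse c₁ [] ++ .hash :: (par m ++ .hash :: ([] ++ .hash ::
        (List.replicate κ₂ .one ++ .hash :: []))) = word2 m κ₂ (u ++ v c₁) := by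
      rw [hgt]
      rfl
    rw [hw] at hIR
    have hwl : (word2 m κ₂ (u ++ v c₁)).length = (fld3 m u).length + (par m).length + κ₂ + 4 := by
      rw [← hw, hfl]
      simp only [List.length_append, List.length_cons, List.length_replicate, List.length_nil,
        hgt, List.length_map, (hv c₁).1]
      omega
    have hQ₂ : D₂.st .Q = List.replicate (2 ^ κ₃) .mark := by
      rw [hfr .Q (by decide), hQ]
    have hs2 : (word2 m κ₂ (u ++ v c₁)).length + 3 ≤ 10 * (y.length + 10) := by
      have hpos := Nat.two_pow_pos κ₃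
      rw [hwl, hyl]
      generalize 2 ^ κ₃ = n at *
      omega
    refine (h₄ DA U y _ D₂ c₂ (word2 m κ₂ (u ++ v c₁)) hle₂ hs2 ?_ ?_ hIR ?_ ?_).imp ?_
    · rw [hQ₂, List.length_replicate]
      generalize y.length = n at *
      omega
    · rw [hfr .IL (by decide), hrest .IL (by decide)]
    · rw [hfr .WL (by decide), hrest .WL (by decide)]
    · rw [hfr .WR (by decide), hrest .WR (by decide)]
    · rintro r D₃ c₃ - ⟨-, -, -, hr⟩
      rw [hQ₂, List.length_replicate] at hr
      exact hr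

end Pool.Agent.Lib.MP_9dcf40_lc
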