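import Pool.Agent.Lib.MP_9dcf40_lc.Kn.SpecM

/-!
# The machine of level 4
-/

namespace Pool.Agent.Lib.MP_9dcf40_lc

open Rout

namespace KW4

theorem tabOf_len (p : List Bool → Prop) (n : ℕ) : (tabOf p n).length = n := by
  induction n with
  | zero => rfl
  | succ n ih =>
    rw [tabOf, List.length_append, ih]
    rfl

theorem eword_len (m κ₂ κ₃ m₄ : ℕ) (x : List Bool) :
    m + κ₂ + κ₃ + 3 + x.length + 2 ^ m₄ ≤ (eword (zpar m κ₂ κ₃) x m₄).length := by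
  simp only [eword, pairL, padL, zpar, List.length_append, List.length_cons, List.length_map,
    List.length_replicate, List.length_nil]
  generalize 2 ^ m₄ = a at *
  omega

theorem bounds {m m₄ κ₂ κ₃ x y : ℕ} (h : 4 * m ≤ m₄)
    (hy : m + κ₂ + κ₃ + 3 + x + 2 ^ m₄ ≤ y) :
    y + 1 ≤ 10 * (y + 10) ∧ 2 ^ (4 * m) + 4 * m + 10 ≤ 10 * (y + 10) ∧
    2 ^ (4 * m) + (4 * m + 2 ^ m + 2 ^ (3 * m)) + κ₂ + κ₃ + 10 ≤ 10 * (y + 10) ∧
    2 ^ m₄ + 10 ≤ 10 * (y + 10) ∧ 2 ^ (4 * m) ≤ 10 * (y + 10) := by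
  have h1 : 2 ^ (4 * m) ≤ 2 ^ m₄ := Nat.pow_le_pow_right (by norm_num) h
  have h2 : 2 ^ (3 * m) ≤ 2 ^ (4 * m) := Nat.pow_le_pow_right (by norm_num) (by omega)
  have h3 : 2 ^ m ≤ 2 ^ (4 * m) := Nat.pow_le_pow_right (by norm_num) (by omega)
  generalize 2 ^ m₄ = a at *
  generalize 2 ^ (4 * m) = b at *
  generalize 2 ^ (3 * m) = c at *
  generalize 2 ^ m = d at *
  omega

theorem topK_ends {G : Type} [Finite G] {y : List VB} {s : ℕ} {D : Data (PG DA G) PN} {c : Str}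
    (l : List Bool) (hle : D.le s) (h : D.st .C = l.map .bit) :
    EndsT 1 y topK s D c fun r _ _ => (r = true ↔ l.head? = some true) := by
  unfold topK
  refine endsT_seq (J₁ := 0) (J₂ := 0) (P := fun o _ _ => o = (l.map .bit).head?) (by omega)
    (by omega) (endsT_pop PN.C hle (by rw [h])) ?_
  rintro o D₁ c₁ hle₁ rfl
  refine endsT_pure _ hle₁ ?_
  cases l with
  | nil => simp
  | cons a l => simp

end KW4

open KW4 in
theorem kn_w4 (hR : StKParse4) (hS : StKSetup4) (hM : StKMain4) (hV : StKMv) (hX : StKMisc)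
    (hC : StCount) : StKW4 := by
  obtain ⟨J₁, h₁⟩ := hR
  obtain ⟨J₂, h₂⟩ := hS
  obtain ⟨J₃, h₃⟩ := hM
  obtain ⟨J₄, h₄⟩ := hV
  obtain ⟨J₅, h₅⟩ := hX
  refine ⟨J₁ + J₂ + J₃ + J₄ + J₅ + 10, ?_⟩
  intro U _ _ m κ₂ κ₃ m₄ x c hm hx
  set p : List Bool → Prop := fun u => ∃ t ≤ 2 ^ m₄,
    U.out (U.run (word3 m κ₂ κ₃ (u ++ [false])) (fun _ => false) t).q = some true with hp
  obtain ⟨b₁, b₂, b₃, b₄, b₅⟩ := bounds hm (eword_len m κ₂ κ₃ m₄ x)
  set y := eword (zpar m κ₂ κ₃) x m₄ with hy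
  set s := 10 * (y.length + 10) with hs
  unfold w4R
  refine endsT_seq (J₁ := J₁) (J₂ := J₂ + J₃ + J₄ + J₅ + 9) (by omega) (by omega)
    (h₁ U.G m κ₂ κ₃ m₄ s x c b₁) ?_
  rintro _ D₁ c₁ hle₁ ⟨rfl, hM₁, hX₁, hB₁, hT₁, hK₁, hrest⟩
  have hxl : 4 * m ≤ x.reverse.length := by
    rw [List.length_reverse]
    exact hx
  refine endsT_seq (J₁ := J₂) (J₂ := J₃ + J₄ + J₅ + 8) (by omega) (by omega)
    (h₂ U.G y s D₁ c₁ m x.reverse hle₁ hM₁ (by rw [hT₁, List.map_reverse]) hxl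
      (hrest _ (by decide)) (hrest _ (by decide)) (hrest _ (by decide)) (hrest _ (by decide))
      (hrest _ (by decide)) (hrest _ (by decide)) (hrest _ (by decide)) b₂) ?_
  rintro _ D₂ c₂ hle₂ ⟨rfl, hP₂, hTh₂, hZ₂, hA₂, hS₂, hF₂, hfr₂⟩
  refine endsT_seq (J₁ := J₃) (J₂ := J₄ + J₅ + 7) (by omega) (by omega)
    (h₃ U y s D₂ c₂ m κ₂ κ₃ (2 ^ m₄) hle₂
      (by rw [hfr₂ _ (by decide), hrest _ (by decide)])
      (by rw [hfr₂ _ (by decide), hX₁]) (by rw [hfr₂ _ (by decide), hB₁]) hTh₂ hP₂ hA₂ hZ₂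
      (by rw [hfr₂ _ (by decide), hrest _ (by decide)])
      (by rw [hfr₂ _ (by decide), hK₁]) b₃ b₄) ?_
  rintro _ D₃ c₃ hle₃ ⟨rfl, hU₃, hfr₃⟩
  have hC₃ : D₃.st .C = [] := by
    rw [hfr₃ _ (by decide), hfr₂ _ (by decide), hrest _ (by decide)]
  have hH₃ : D₃.st .H = [] := by
    rw [hfr₃ _ (by decide), hfr₂ _ (by decide), hrest _ (by decide)]
  have hS₃ : D₃.st .S = (x.drop (x.length - 4 * m)).map .bit := by
    rw [hfr₃ _ (by decide), hS₂, List.take_reverse, List.reverse_reverse]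
  have hU₃' : D₃.st .U = ((tabOf p (2 ^ (4 * m))).map .bit).reverse := hU₃
  refine endsT_seq (J₁ := J₄) (J₂ := J₅ + 6) (by omega) (by omega)
    ((h₄ DA U.G y s D₃ c₃ hle₃).2.1 id .U .C (by decide) (by
      rw [hU₃', hC₃, List.length_reverse, List.length_map, tabOf_len, List.length_nil]
      exact b₅)) ?_
  rintro _ D₄ c₄ hle₄ ⟨rfl, rfl⟩
  have hv : val (x.drop (x.length - 4 * m)) ≤ s := by
    refine ((hC.2.1 _).le).trans (le_trans (Nat.pow_le_pow_right (by norm_num) ?_) b₅)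
    rw [List.length_drop]
    omega
  refine endsT_seq (J₁ := J₅) (J₂ := 1) (by omega) (by omega)
    ((h₅ DA U.G y s _ c₄ hle₄).2.2 (x.drop (x.length - 4 * m)) ?_ ?_ hv) ?_
  · dsimp only
    rw [Function.update_of_ne (by decide), Function.update_of_ne (by decide), hS₃]
  · dsimp only
    rw [Function.update_of_ne (by decide), Function.update_of_ne (by decide), hH₃]
  rintro _ D₅ c₅ hle₅ ⟨rfl, hC₅, -⟩
  dsimp only at hC₅
  rw [Function.update_self, hU₃', hC₃, List.map_id, List.reverse_reverse, List.append_nil,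
    ← List.map_drop] at hC₅
  refine (topK_ends _ hle₅ hC₅).imp ?_
  rintro r _ _ - hr
  rw [hr, List.head?_drop]

end Pool.Agent.Lib.MP_9dcf40_lc
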