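import Pool.Agent.Lib.MP_9dcf40_lc.Av.Final
import Pool.Agent.Lib.MP_9dcf40_lc.Kn.K2D
import Pool.Agent.Lib.MP_9dcf40_lc.Kn.K3D
import Pool.Agent.Lib.MP_9dcf40_lc.Kn.K4L
import Pool.Agent.Lib.MP_9dcf40_lc.Kn.KCher
import Pool.Agent.Lib.MP_9dcf40_lc.Kn.KClk
import Pool.Agent.Lib.MP_9dcf40_lc.Kn.KCnt
import Pool.Agent.Lib.MP_9dcf40_lc.Kn.KExp
import Pool.Agent.Lib.MP_9dcf40_lc.Kn.KFirst
import Pool.Agent.Lib.MP_9dcf40_lc.Kn.KFuel
import Pool.Agent.Lib.MP_9dcf40_lc.Kn.KGt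
import Pool.Agent.Lib.MP_9dcf40_lc.Kn.KGuard
import Pool.Agent.Lib.MP_9dcf40_lc.Kn.KGz
import Pool.Agent.Lib.MP_9dcf40_lc.Kn.KHard
import Pool.Agent.Lib.MP_9dcf40_lc.Kn.KL
import Pool.Agent.Lib.MP_9dcf40_lc.Kn.KLen
import Pool.Agent.Lib.MP_9dcf40_lc.Kn.KLoad2
import Pool.Agent.Lib.MP_9dcf40_lc.Kn.KLoad4
import Pool.Agent.Lib.MP_9dcf40_lc.Kn.KMain
import Pool.Agent.Lib.MP_9dcf40_lc.Kn.KMain2
import Pool.Agent.Lib.MP_9dcf40_lc.Kn.KMain4
import Pool.Agent.Lib.MP_9dcf40_lc.Kn.KMisc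
import Pool.Agent.Lib.MP_9dcf40_lc.Kn.KMv
import Pool.Agent.Lib.MP_9dcf40_lc.Kn.KNP
import Pool.Agent.Lib.MP_9dcf40_lc.Kn.KNum1
import Pool.Agent.Lib.MP_9dcf40_lc.Kn.KNumH
import Pool.Agent.Lib.MP_9dcf40_lc.Kn.KParse2
import Pool.Agent.Lib.MP_9dcf40_lc.Kn.KParse3
import Pool.Agent.Lib.MP_9dcf40_lc.Kn.KParse4
import Pool.Agent.Lib.MP_9dcf40_lc.Kn.KPsim
import Pool.Agent.Lib.MP_9dcf40_lc.Kn.KRead
import Pool.Agent.Lib.MP_9dcf40_lc.Kn.KSetup4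
import Pool.Agent.Lib.MP_9dcf40_lc.Kn.KStep
import Pool.Agent.Lib.MP_9dcf40_lc.Kn.KUnp
import Pool.Agent.Lib.MP_9dcf40_lc.Kn.KUnpad
import Pool.Agent.Lib.MP_9dcf40_lc.Kn.KUset
import Pool.Agent.Lib.MP_9dcf40_lc.Kn.KW2
import Pool.Agent.Lib.MP_9dcf40_lc.Kn.KW3
import Pool.Agent.Lib.MP_9dcf40_lc.Kn.KW4

/-!
# Assembly of the theorem on nondeterministic quasipolynomial time
-/

namespace Pool.Agent.Lib.MP_9dcf40_lc

theorem all_knp : StKNP := kn_np kn_guard (kn_fuel u_xfer) all_comp_n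
theorem all_kcnt : StKCnt := kn_cnt kn_mv
theorem all_kexp : StKExp := kn_exp kn_mv
theorem all_kmisc : StKMisc := kn_misc kn_mv all_kcnt d_count
theorem all_kpsim : StKPsim := kn_psim kn_step
theorem all_kload2 : StKLoad2 := kn_load2 kn_mv
theorem all_kmain2 : StKMain2 := kn_main2 all_kload2 all_kpsim all_kcnt all_eodo d_count
theorem all_kw2 : StKW2 := kn_w2 (kn_parse2 kn_read) kn_mv kn_gz all_kmain2 all_kmisc
theorem all_kw3 : StKW3 := kn_w3 (kn_parse3 kn_read) kn_mv kn_gt all_kpsim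
theorem all_kmain4 : StKMain4 := kn_main4 (kn_load4 kn_mv) all_kpsim
theorem all_kw4 : StKW4 :=
  kn_w4 (kn_parse4 kn_read) (kn_setup4 kn_mv all_kexp all_kmisc) all_kmain4 kn_mv all_kmisc d_count
theorem all_kuset : StKUset := kn_uset all_esize all_epow all_erules all_etape d_count
theorem all_kunp : StKUnp := kn_unp all_kuset all_etape all_eload all_esim
theorem all_kclk : StKClk := kn_clk f_clock kn_num1
theorem all_kunpad : StKUnpad := kn_unpad all_diag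
theorem all_k2d : StK2D := kn_2d all_knp all_kw2 all_kclk all_kunpad kn_gz kn_len all_kn
theorem all_k3d : StK3D := kn_3d all_k2d all_knp all_kw3 all_kclk all_kunpad kn_len
theorem all_k4l : StK4L := kn_4l all_k3d all_knp all_kw4 all_kclk kn_cher kn_first kn_len
theorem all_kl : StKL := kn_l all_k4l all_kunp all_comp_d f_clock e_numd kn_len
theorem all_khard : StKHard := kn_hard e_sk u_norm all_ucorr all_eodo
theorem all_kmain : StKMain := kn_main all_kl all_khard kn_numh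

end Pool.Agent.Lib.MP_9dcf40_lc
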