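import Pool.Agent.Lib.MP_9dcf40_lc.Av.Rules

/-!
# Total correctness of routines with choices, in polynomial time

`EndsT J x R s D c Q`: the routine `R`, started with data `D` and choices `c`, stops after at most
`(s + 10) ^ J` steps (with all stacks of length at most `s` all the time) with a result, data and
remaining choices which satisfy `Q`.
-/

namespace Pool.Agent.Lib.MP_9dcf40_lc

variable {A Γ ι β γ τ : Type} [DecidableEq ι]

/-- Total correctness in time `(s + 10) ^ J`. -/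
def EndsT (J : ℕ) (x : List A) (R : Rout A Γ ι β) (s : ℕ) (D : Data Γ ι) (c : Str)
    (Q : β → Data Γ ι → Str → Prop) : Prop :=
  ∃ (T : ℕ) (b : β) (D' : Data Γ ι) (c' : Str),
    T ≤ (s + 10) ^ J ∧ Runs x R s T D c b D' c' ∧ Q b D' c'

variable {x : List A} {s J J' : ℕ} {D : Data Γ ι} {c : Str} {Q Q' : β → Data Γ ι → Str → Prop}

theorem EndsT.start_le {R : Rout A Γ ι β} (h : EndsT J x R s D c Q) : D.le s := by
  obtain ⟨T, b, D', c', _, h, _⟩ := h
  exact h.le_start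

theorem EndsT.imp {R : Rout A Γ ι β} (h : EndsT J x R s D c Q)
    (hQ : ∀ b D' c', D'.le s → Q b D' c' → Q' b D' c') : EndsT J x R s D c Q' := by
  obtain ⟨T, b, D', c', hT, h, hq⟩ := h
  exact ⟨T, b, D', c', hT, h, hQ b D' c' h.le_end hq⟩

/-- More time. -/
theorem EndsT.bump {R : Rout A Γ ι β} (h : EndsT J x R s D c Q) (hJ : J ≤ J') :
    EndsT J' x R s D c Q := by
  obtain ⟨T, b, D', c', hT, h, hq⟩ := h
  exact ⟨T, b, D', c', hT.trans (Nat.pow_le_pow_right (by omega) hJ), h, hq⟩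

theorem EndsT.and {R : Rout A Γ ι β} (h : EndsT J x R s D c Q) (h' : EndsT J' x R s D c Q') :
    EndsT J x R s D c fun b D' c' => Q b D' c' ∧ Q' b D' c' := by
  obtain ⟨T, b, D', c', hT, h, hq⟩ := h
  obtain ⟨T₁, b₁, D₁, c₁, _, h₁, hq₁⟩ := h'
  obtain ⟨rfl, rfl, rfl⟩ := h.det h₁
  exact ⟨T, b, D', c', hT, h, hq, hq₁⟩

theorem endsT_pure (b : β) (hD : D.le s) (hQ : Q b D c) : EndsT J x (Rout.pureR b) s D c Q :=
  ⟨0, b, D, c, Nat.zero_le _, runs_pure b hD, hQ⟩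

theorem endsT_bind [Finite β] {p : Rout A Γ ι β} {f : β → Rout A Γ ι γ}
    {Q : γ → Data Γ ι → Str → Prop}
    (h : EndsT J x p s D c fun b D' c' => EndsT J x (f b) s D' c' Q) :
    EndsT (J + 1) x (p.bind f) s D c Q := by
  obtain ⟨T, b, D', c', hT, h, T₁, b₁, D₁, c₁, hT₁, h₁, hq⟩ := h
  refine ⟨T + T₁, b₁, D₁, c₁, ?_, runs_bind h h₁, hq⟩
  calc T + T₁ ≤ (s + 10) ^ J + (s + 10) ^ J := Nat.add_le_add hT hT₁
    _ ≤ (s + 10) ^ (J + 1) := by
        rw [pow_succ]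
        nlinarith [Nat.pos_of_ne_zero (pow_ne_zero J (by omega : s + 10 ≠ 0))]

/-- Sequence rule, with different times for the two parts. -/
theorem endsT_seq [Finite β] {J₁ J₂ : ℕ} {p : Rout A Γ ι β} {f : β → Rout A Γ ι γ}
    {P : β → Data Γ ι → Str → Prop} {Q : γ → Data Γ ι → Str → Prop}
    (hJ : J₁ + 1 ≤ J) (hJ' : J₂ + 1 ≤ J) (h : EndsT J₁ x p s D c P)
    (h' : ∀ b D' c', D'.le s → P b D' c' → EndsT J₂ x (f b) s D' c' Q) :
    EndsT J x (p.bind f) s D c Q := by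
  obtain ⟨K, rfl⟩ : ∃ K, J = K + 1 := ⟨J - 1, by omega⟩
  exact endsT_bind ((h.bump (by omega)).imp fun b D' c' hle hp =>
    (h' b D' c' hle hp).bump (by omega))

theorem endsT_push (i : ι) (a : Γ) (hD : D.le s) (h : (D.st i).length + 1 ≤ s)
    {Q : Unit → Data Γ ι → Str → Prop}
    (hQ : Q () ⟨D.pos, Function.update D.st i (a :: D.st i)⟩ c) :
    EndsT J x (Rout.push i a) s D c Q :=
  ⟨1, (), _, c, Nat.one_le_pow _ _ (by omega), runs_push i a hD h, hQ⟩

theorem endsT_pop (i : ι) (hD : D.le s) {Q : Option Γ → Data Γ ι → Str → Prop}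
    (hQ : Q (D.st i).head? ⟨D.pos, Function.update D.st i (D.st i).tail⟩ c) :
    EndsT J x (Rout.pop i) s D c Q :=
  ⟨1, _, _, c, Nat.one_le_pow _ _ (by omega), runs_pop i hD, hQ⟩

theorem endsT_read (hD : D.le s) {Q : InSym A → Data Γ ι → Str → Prop}
    (hQ : Q (inSym x D.pos) D c) : EndsT J x Rout.read s D c Q :=
  ⟨1, _, _, c, Nat.one_le_pow _ _ (by omega), runs_read hD, hQ⟩

theorem endsT_move (dir : Dir) (hD : D.le s) {Q : Unit → Data Γ ι → Str → Prop}
    (hQ : Q () ⟨movePos x.length dir D.pos, D.st⟩ c) : EndsT J x (Rout.move dir) s D c Q :=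
  ⟨1, _, _, c, Nat.one_le_pow _ _ (by omega), runs_move dir hD, hQ⟩

theorem endsT_choose (hD : D.le s) {Q : Bool → Data Γ ι → Str → Prop}
    (hQ : Q (c 0) D fun n => c (n + 1)) : EndsT J x Rout.choose s D c Q :=
  ⟨1, _, _, _, Nat.one_le_pow _ _ (by omega), runs_choose hD, hQ⟩

/-- Loop rule: invariant `I`, measure `μ` (at most `s + 5` at the start). -/
theorem endsT_iter [Finite τ] {body : τ → Rout A Γ ι (τ ⊕ β)} (I : τ → Data Γ ι → Str → Prop)
    (μ : τ → Data Γ ι → ℕ)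
    (h : ∀ t D c, I t D c → EndsT J x (body t) s D c fun r D' c' =>
      (∀ t', r = .inl t' → I t' D' c' ∧ μ t' D' < μ t D) ∧ ∀ b, r = .inr b → Q b D' c')
    {t₀ : τ} (h₀ : I t₀ D c) (hμ₀ : μ t₀ D ≤ s + 5) :
    EndsT (J + 2) x (Rout.iter body t₀) s D c Q := by
  suffices H : ∀ n t D c, μ t D ≤ n → I t D c → ∃ (T : ℕ) (b : β) (D' : Data Γ ι) (c' : Str),
      T ≤ (n + 1) * ((s + 10) ^ J + 1) ∧ Runs x (Rout.iter body t) s T D c b D' c' ∧
        Q b D' c' by
    obtain ⟨T, b, D', c', hT, hr, hq⟩ := H (s + 5) t₀ D c hμ₀ h₀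
    refine ⟨T, b, D', c', hT.trans ?_, hr, hq⟩
    have h1 : 1 ≤ (s + 10) ^ J := Nat.one_le_pow _ _ (by omega)
    calc (s + 5 + 1) * ((s + 10) ^ J + 1) ≤ (s + 6) * (2 * (s + 10) ^ J) :=
          Nat.mul_le_mul (by omega) (by omega)
      _ = (2 * (s + 6)) * (s + 10) ^ J := by ring
      _ ≤ ((s + 10) ^ 2) * (s + 10) ^ J := Nat.mul_le_mul_right _ (by nlinarith)
      _ = (s + 10) ^ (J + 2) := by ring
  intro n
  induction n with
  | zero =>
    intro t D c hμ hI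
    obtain ⟨T, r, D', c', hT, hr, h1, h2⟩ := h t D c hI
    rcases r with t' | b
    · obtain ⟨_, h3⟩ := h1 t' rfl
      omega
    · exact ⟨_, b, D', c', by omega, runs_iter_done hr, h2 b rfl⟩
  | succ n ih =>
    intro t D c hμ hI
    obtain ⟨T, r, D', c', hT, hr, h1, h2⟩ := h t D c hI
    rcases r with t' | b
    · obtain ⟨hI', h3⟩ := h1 t' rfl
      obtain ⟨T', b, D'', c'', hT', hr', hq⟩ := ih t' D' c' (by omega) hI'
      refine ⟨_, b, D'', c'', ?_, runs_iter_step hr hr', hq⟩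
      have : (n + 1 + 1) * ((s + 10) ^ J + 1) =
        (n + 1) * ((s + 10) ^ J + 1) + ((s + 10) ^ J + 1) := by ring
      omega
    · refine ⟨_, b, D', c', ?_, runs_iter_done hr, h2 b rfl⟩
      have : (n + 1 + 1) * ((s + 10) ^ J + 1) =
        (n + 1) * ((s + 10) ^ J + 1) + ((s + 10) ^ J + 1) := by ring
      omega

/-- Transfer of a whole stack. -/
theorem endsT_xfer [Finite Γ] (hX : StXfer) (i j : ι) (hij : i ≠ j) (hD : D.le s)
    (h : (D.st i).length + (D.st j).length ≤ s) {Q : Unit → Data Γ ι → Str → Prop}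
    (hQ : Q () ⟨D.pos, Function.update (Function.update D.st i []) j
      ((D.st i).reverse ++ D.st j)⟩ c) (hJ : 2 ≤ J) :
    EndsT J x (xferR (fun _ => false) i j) s D c Q := by
  have h1 := hX A Γ ι (fun _ => false) i j hij x s D c hD h
  rw [xfer_all] at h1
  refine ⟨_, _, _, _, ?_, h1, hQ⟩
  have h2 : 3 * (D.st i).length + 2 ≤ (s + 10) ^ 2 := by nlinarith
  exact h2.trans (Nat.pow_le_pow_right (by omega) hJ)

end Pool.Agent.Lib.MP_9dcf40_lc
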