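import Pool.Agent.Lib.MP_9dcf40_lc.Kn.SpecM

/-!
# Guessing the rest of a table (`StKGt`)
-/

namespace Pool.Agent.Lib.MP_9dcf40_lc

open Rout

namespace KGt

theorem gtab_st (l : List DA) (c : Str) (l' : List DA) :
    gtab (.eState :: l) c l' = gtab l (fun i => c (i + 1)) (bitL (c 0) :: l') := by
  show (if DA.eState = DA.eState then _ else _) = _
  rw [if_pos rfl]

theorem gtab_ne (a : DA) (h : a ≠ .eState) (l : List DA) (c : Str) (l' : List DA) :
    gtab (a :: l) c l' = gtab l c (a :: l') := by
  show (if a = DA.eState then _ else _) = _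
  rw [if_neg h]

theorem bitL_ne (b : Bool) : bitL b ≠ .eState := by
  cases b <;> simp [bitL]

theorem gtab_rep (j : ℕ) : ∀ (c : Str) (l' : List DA), ∃ (v : List Bool) (c' : Str),
    v.length = j ∧ ∀ m, gtab (List.replicate j .eState ++ m) c l' =
      gtab m c' (v.map bitL ++ l') := by
  induction j with
  | zero => exact fun c l' => ⟨[], c, rfl, fun m => rfl⟩
  | succ j ih =>
    intro c l'
    obtain ⟨v, c', hv, h⟩ := ih (fun i => c (i + 1)) (bitL (c 0) :: l')
    refine ⟨v ++ [c 0], c', by rw [List.length_append, hv]; rfl, fun m => ?_⟩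
    rw [List.replicate_succ, List.cons_append, gtab_st, h, List.map_append, List.append_assoc]
    rfl

theorem gtab_choice (v : List Bool) : ∀ l' : List DA, ∃ c c' : Str,
    ∀ m, gtab (List.replicate v.length .eState ++ m) c l' = gtab m c' (v.map bitL ++ l') := by
  induction v using List.reverseRecOn with
  | nil => exact fun l' => ⟨fun _ => false, fun _ => false, fun m => rfl⟩
  | append_singleton v b ih =>
    intro l'
    obtain ⟨c, c', h⟩ := ih (bitL b :: l')
    refine ⟨fun i => match i with
      | 0 => b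
      | i + 1 => c i, c', fun m => ?_⟩
    rw [List.length_append, List.length_singleton, List.replicate_succ, List.cons_append,
      gtab_st, List.map_append, List.append_assoc]
    exact h m

theorem gtab_bits (u : List Bool) : ∀ (c : Str) (l' : List DA),
    gtab (u.map bitL) c l' = (u.map bitL).reverse ++ l' := by
  induction u with
  | nil => exact fun c l' => rfl
  | cons b u ih =>
    intro c l'
    rw [List.map_cons, gtab_ne _ (bitL_ne b), ih, List.reverse_cons, List.append_assoc]
    rfl

theorem rev_eq (u : List Bool) (j : ℕ) : (u.map bitL ++ List.replicate j DA.eState).reverse =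
    List.replicate j DA.eState ++ u.reverse.map bitL := by
  rw [List.reverse_append, List.reverse_replicate, List.map_reverse]

theorem fin_eq (u v : List Bool) (c : Str) :
    gtab (u.reverse.map bitL) c (v.map bitL ++ []) = (u ++ v).map bitL := by
  rw [gtab_bits, List.append_nil, List.map_append, ← List.map_reverse, List.reverse_reverse]

/-- The data during the loop. -/
def mk {Γ : Type} (D : Data Γ PN) (t r : List Γ) : Data Γ PN :=
  ⟨D.pos, Function.update (Function.update D.st .T t) .IR r⟩

variable {Γ : Type} (D : Data Γ PN) (t r l : List Γ)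

theorem upd_T : (⟨(mk D t r).pos, Function.update (mk D t r).st .T l⟩ : Data Γ PN) =
    mk D l r := by
  unfold mk
  congr 1
  funext j
  cases j <;> rfl

theorem upd_IR : (⟨(mk D t r).pos, Function.update (mk D t r).st .IR l⟩ : Data Γ PN) =
    mk D t l := by
  unfold mk
  congr 1
  funext j
  cases j <;> rfl

theorem mk_self (h1 : D.st .T = t) (h2 : D.st .IR = r) : D = mk D t r := by
  subst h1 h2
  unfold mk
  rw [Function.update_eq_self, Function.update_eq_self]

end KGt

open KGt in
/-- Guessing the rest of a table. -/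
theorem kn_gt : StKGt := by
  refine ⟨?_, ?_, 12, ?_⟩
  · intro u j c
    obtain ⟨v, c', hv, h⟩ := gtab_rep j c []
    exact ⟨v, hv, by rw [rev_eq, h, fin_eq]⟩
  · intro u v
    obtain ⟨c, c', h⟩ := gtab_choice v []
    exact ⟨c, by rw [rev_eq, h, fin_eq]⟩
  intro G _ y s D c l hD hT hs
  obtain ⟨r, hr⟩ : ∃ r, r = D.st .IR := ⟨_, rfl⟩
  rw [← hr] at hs ⊢
  let g : DA → PG DA G := fun a => .inp (.letter a)
  let I : Unit → Data (PG DA G) PN → Str → Prop := fun _ D' c' => ∃ l' l'' : List DA,
    l'.length + l''.length = l.length ∧ gtab l' c' l'' = gtab l c [] ∧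
    D' = mk D (l'.map .ltr) (l''.map g ++ r) ∧ D'.le s
  let μ : Unit → Data (PG DA G) PN → ℕ := fun _ D' => (D'.st .T).length
  unfold guessT
  refine endsT_iter (J := 10) I μ ?_ (t₀ := ()) ⟨l, [], by simp, rfl, ?_, hD⟩ ?_
  rotate_left
  · exact mk_self D _ _ hT hr.symm
  · show (D.st .T).length ≤ s + 5
    exact (hD .T).trans (by omega)
  rintro ⟨⟩ D' c' ⟨l', l'', hl, hg, rfl, hle⟩
  refine endsT_seq (J₁ := 0) (J₂ := 9) (by omega) (by omega)
    (endsT_pop (Q := fun o D'' c'' => o = (l'.map (PG.ltr : DA → PG DA G)).head? ∧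
      D'' = mk D (l'.map .ltr).tail (l''.map g ++ r) ∧
      c'' = c') .T hle ⟨rfl, upd_T _ _ _ _, rfl⟩) ?_
  rintro o D₁ c₁ hle₁ ⟨rfl, rfl, rfl⟩
  rcases l' with _ | ⟨a, l'⟩
  · refine endsT_pure _ hle₁ ⟨fun t' ht' => ?_, fun b _ => ?_⟩
    · exact absurd ht' (by simp)
    · have h1 : l'' = gtab l c [] := hg
      rw [← h1]
      rfl
  · have hlen : l'.length + 1 + l''.length = l.length := by
      rw [← hl, List.length_cons]
    have hpush : (l''.map g ++ r).length + 1 ≤ s := by
      rw [List.length_append, List.length_map]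
      omega
    show EndsT 9 y (if a = .eState then _ else _) s _ _ _
    by_cases ha : a = .eState
    · rw [if_pos ha]
      subst ha
      rw [gtab_st] at hg
      refine endsT_seq (J₁ := 0) (J₂ := 8) (by omega) (by omega)
        (endsT_choose (Q := fun b D'' c'' => b = c₁ 0 ∧ D'' = _ ∧ c'' = fun i => c₁ (i + 1)) hle₁
          ⟨rfl, rfl, rfl⟩) ?_
      rintro b₁ D₂ c₂ hle₂ ⟨rfl, rfl, rfl⟩
      refine endsT_seq (J₁ := 0) (J₂ := 7) (by omega) (by omega)
        (endsT_push (Q := fun _ D'' c'' => D'' = mk D (l'.map .ltr)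
          ((bitL (c₁ 0) :: l'').map g ++ r) ∧ c'' = fun i => c₁ (i + 1)) PN.IR _ hle₂ (by exact hpush)
          ⟨upd_IR _ _ _ _, rfl⟩) ?_
      rintro ⟨⟩ D₃ c₃ hle₃ ⟨rfl, rfl⟩
      refine endsT_pure _ hle₃ ⟨fun t' _ => ⟨⟨l', bitL (c₁ 0) :: l'', ?_, hg, rfl,
        hle₃⟩, ?_⟩, fun b hb => absurd hb (by simp)⟩
      · rw [List.length_cons]
        omega
      · show (l'.map (PG.ltr : DA → PG DA G)).length <
          ((DA.eState :: l').map (PG.ltr : DA → PG DA G)).length
        rw [List.length_map, List.length_map, List.length_cons]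
        omega
    · rw [if_neg ha]
      rw [gtab_ne a ha] at hg
      refine endsT_seq (J₁ := 0) (J₂ := 7) (by omega) (by omega)
        (endsT_push (Q := fun _ D'' c'' => D'' = mk D (l'.map .ltr)
          ((a :: l'').map g ++ r) ∧ c'' = c₁) PN.IR _ hle₁ (by exact hpush)
          ⟨upd_IR _ _ _ _, rfl⟩) ?_
      rintro ⟨⟩ D₃ c₃ hle₃ ⟨rfl, rfl⟩
      refine endsT_pure _ hle₃ ⟨fun t' _ => ⟨⟨l', a :: l'', ?_, hg, rfl,
        hle₃⟩, ?_⟩, fun b hb => absurd hb (by simp)⟩
      · rw [List.length_cons]
        omega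
      · show (l'.map (PG.ltr : DA → PG DA G)).length <
          ((a :: l').map (PG.ltr : DA → PG DA G)).length
        rw [List.length_map, List.length_map, List.length_cons]
        omega

end Pool.Agent.Lib.MP_9dcf40_lc
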