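import Pool.Agent.Lib.MP_9dcf40_lc.Kn.Tools

/-!
# Comparison, and two other loops (`StKMisc`)
-/

namespace Pool.Agent.Lib.MP_9dcf40_lc

open Rout KTools

namespace KMisc

variable {B G : Type} [Finite B] [Finite G] {y : List VB} {s : ℕ} {D : Data (PG B G) PN} {c : Str}

theorem cmp_ok (i j : PN) (hij : i ≠ j) (hD : D.le s) :
    EndsT 4 y (cmpK i j) s D c fun o _ c' => c' = c ∧
      (o = true ↔ (D.st j).length < (D.st i).length) := by
  refine endsT_iter (J := 2) (fun _ D' c' => D'.le s ∧ c' = c ∧ ∃ a, a ≤ (D.st i).length ∧
    a ≤ (D.st j).length ∧ D'.st i = (D.st i).drop a ∧ D'.st j = (D.st j).drop a)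
    (fun _ D' => (D'.st i).length) ?_
    ⟨hD, rfl, 0, Nat.zero_le _, Nat.zero_le _, rfl, rfl⟩ ((hD i).trans (by omega))
  rintro ⟨⟩ D' c' ⟨hD', rfl, a, ha, ha', hi, hj⟩
  refine pop_seq i (J₂ := 1) (by omega) hD' fun hD₁ => ?_
  refine pop_seq j (J₂ := 0) (by omega) hD₁ fun hD₂ => ?_
  have e1 : Function.update D'.st i (D'.st i).tail j = D'.st j := Function.update_of_ne hij.symm _ _
  dsimp only at hD₂ ⊢
  rw [e1] at hD₂ ⊢
  have li : (D'.st i).length = (D.st i).length - a := by rw [hi, List.length_drop]
  have lj : (D'.st j).length = (D.st j).length - a := by rw [hj, List.length_drop]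
  cases h : D'.st i with
  | nil =>
    rw [h] at hD₂ li
    refine pure_inr (τ := Unit) _ hD₂ ⟨rfl, ?_⟩
    simp only [List.length_nil] at li
    simp only [Bool.false_eq_true, false_iff]
    omega
  | cons g l =>
    rw [h] at hD₂ li
    cases h' : D'.st j with
    | nil =>
      rw [h'] at hD₂ lj
      refine pure_inr (τ := Unit) _ hD₂ ⟨rfl, ?_⟩
      simp only [List.length_nil, List.length_cons] at li lj
      simp only [true_iff]
      omega
    | cons g' l' =>
      rw [h'] at hD₂ lj
      simp only [List.length_cons] at li lj
      refine pure_inl () hD₂ ⟨hD₂, rfl, a + 1, by omega, by omega, ?_, ?_⟩ ?_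
      · dsimp only
        rw [Function.update_of_ne hij, Function.update_self, ← List.tail_drop, ← hi, h]
      · dsimp only
        rw [Function.update_self, ← List.tail_drop, ← hj, h']
      · dsimp only
        rw [Function.update_of_ne hij, Function.update_self]
        simp

theorem take_ok {J : ℕ}
    (hM : ∀ (D : Data (PG B G) PN) (c : Str), D.le s → ∀ (φ : PG B G → PG B G) (i j : PN), i ≠ j →
      (D.st i).length + (D.st j).length ≤ s →
      EndsT J y (mvK φ i j) s D c fun _ D' c' => c' = c ∧ D' = ⟨D.pos, Function.update
      (Function.update D.st i []) j (((D.st i).map φ).reverse ++ D.st j)⟩)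
    (k : ℕ) (hA : D.st .A = List.replicate k .mark) (hF : D.st .F = [])
    (hk : k ≤ (D.st .T).length) (hs : (D.st .T).length + (D.st .S).length ≤ s) (hD : D.le s) :
    EndsT (J + 10) y takeK s D c fun _ D' c' => c' = c ∧
      D' = ⟨D.pos, Function.update (Function.update D.st .T ((D.st .T).drop k)) .S
        (((D.st .T).take k).reverse ++ D.st .S)⟩ := by
  have h1 : EndsT 7 y (iter (τ := Unit) (fun _ => (pop .A).bind fun (o : Option (PG B G)) =>
      match o with
      | none => pureR (.inr ())
      | some a => (push .F a).bind fun _ => (pop .T).bind fun o' =>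
        (match o' with
          | none => pureR ()
          | some g => push .S g : PR B G Unit).bind fun _ => pureR (.inl ())) ()) s D c
      fun _ D' c' => c' = c ∧ D' = ⟨D.pos, Function.update (Function.update (Function.update
        (Function.update D.st .T ((D.st .T).drop k)) .S (((D.st .T).take k).reverse ++ D.st .S))
        .A []) .F (List.replicate k .mark)⟩ := by
    refine endsT_iter (J := 5) (fun _ D' c' => D'.le s ∧ c' = c ∧ D'.pos = D.pos ∧
      (∀ k, k ≠ .T → k ≠ .S → k ≠ .A → k ≠ .F → D'.st k = D.st k) ∧ ∃ a b, a + b = k ∧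
      D'.st .A = List.replicate a .mark ∧ D'.st .F = List.replicate b .mark ∧
      D'.st .T = (D.st .T).drop b ∧ D'.st .S = ((D.st .T).take b).reverse ++ D.st .S)
      (fun _ D' => (D'.st .A).length) ?_
      ⟨hD, rfl, rfl, fun _ _ _ _ _ => rfl, k, 0, rfl, hA, hF, rfl, rfl⟩ ((hD .A).trans (by omega))
    rintro ⟨⟩ D' c' ⟨hD', rfl, hpos, hfr, a, b, hab, ha, hb, hT, hS⟩
    refine pop_seq PN.A (J₂ := 4) (by omega) hD' fun hD₁ => ?_
    rw [ha] at hD₁ ⊢
    cases a with
    | zero =>
      have hbk : b = k := by omega
      subst hbk
      refine pure_inr _ hD₁ ⟨rfl, data_ext hpos fun k => ?_⟩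
      dsimp only
      cases k <;> simp only [Function.update_self, ne_eq, reduceCtorEq, not_false_eq_true,
        Function.update_of_ne]
      all_goals first
        | exact hT
        | exact hS
        | exact hb
        | rfl
        | exact hfr _ (by simp) (by simp) (by simp) (by simp)
    | succ a =>
      simp only [List.replicate_succ, List.head?_cons, List.tail_cons] at hD₁ ⊢
      have hbl : b < (D.st .T).length := by omega
      refine push_seq PN.F PG.mark (J₂ := 3) (by omega) hD₁ ?_ fun hD₂ => ?_
      · dsimp only
        rw [Function.update_of_ne (by simp), hb, List.length_replicate]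
        have := hD .T
        omega
      dsimp only at hD₂ ⊢
      have e1 : Function.update D'.st .A (List.replicate a .mark) .F = List.replicate b .mark := by
        rw [Function.update_of_ne (by simp), hb]
      rw [e1] at hD₂ ⊢
      refine pop_seq PN.T (J₂ := 2) (by omega) hD₂ fun hD₃ => ?_
      dsimp only at hD₃ ⊢
      have e2 : Function.update (Function.update D'.st .A (List.replicate a .mark)) .F
          (.mark :: List.replicate b .mark) .T = (D.st .T).drop b := by
        rw [Function.update_of_ne (by simp), Function.update_of_ne (by simp), hT]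
      rw [e2, List.drop_eq_getElem_cons hbl] at hD₃ ⊢
      simp only [List.head?_cons, List.tail_cons] at hD₃ ⊢
      refine unit_seq (J₁ := 1) (J₂ := 0) (by omega) (by omega)
        (endsT_push .S _ hD₃ ?_ ⟨rfl, rfl⟩) fun hD₄ => ?_
      · dsimp only
        rw [Function.update_of_ne (by simp), Function.update_of_ne (by simp),
          Function.update_of_ne (by simp), hS]
        simp only [List.length_append, List.length_reverse, List.length_take]
        omega
      dsimp only at hD₄ ⊢
      refine pure_inl () hD₄ ⟨hD₄, rfl, hpos, fun k h1 h2 h3 h4 => ?_, a, b + 1, by omega,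
        ?_, ?_, ?_, ?_⟩ ?_
      · dsimp only
        rw [Function.update_of_ne h2, Function.update_of_ne h1, Function.update_of_ne h4,
          Function.update_of_ne h3]
        exact hfr k h1 h2 h3 h4
      · simp [Function.update]
      · simp [Function.update, List.replicate_succ]
      · simp [Function.update]
      · simp only [Function.update_self, ne_eq, reduceCtorEq, not_false_eq_true,
          Function.update_of_ne]
        rw [hS, List.take_succ_eq_append_getElem hbl, List.reverse_append]
        rfl
      · simp [Function.update]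
  refine unit_seq (J₁ := 7) (J₂ := J) (by omega) (by omega) h1 fun hD₁ => ?_
  have e1 : Function.update (Function.update (Function.update
        (Function.update D.st .T ((D.st .T).drop k)) .S (((D.st .T).take k).reverse ++ D.st .S))
        .A []) .F (List.replicate k .mark) .F = List.replicate k .mark :=
    Function.update_self _ _ _
  have e2 : Function.update (Function.update (Function.update
        (Function.update D.st .T ((D.st .T).drop k)) .S (((D.st .T).take k).reverse ++ D.st .S))
        .A []) .F (List.replicate k .mark) .A = [] := by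
    rw [Function.update_of_ne (by simp), Function.update_self]
  refine (hM _ c hD₁ id .F .A (by simp) ?_).imp ?_
  · dsimp only
    rw [e1, e2, List.length_replicate]
    have := hD .T
    simp only [List.length_nil, add_zero]
    omega
  rintro _ D₂ c₂ - ⟨rfl, rfl⟩
  refine ⟨rfl, data_ext rfl fun k' => ?_⟩
  dsimp only
  rw [e1, e2, List.map_id, List.reverse_replicate, List.append_nil]
  cases k' <;> simp only [Function.update_self, ne_eq, reduceCtorEq, not_false_eq_true,
    Function.update_of_ne]
  · exact hA.symm
  · exact hF.symm

theorem drop_ok {J : ℕ}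
    (hC : ∀ (D : Data (PG B G) PN) (c : Str) (b : Bool) (i : PN) (l : List Bool), D.le s →
      i ≠ .H → D.st .H = [] → D.st i = l.map .bit →
      EndsT J y (cntK b i) s D c fun o D' c' => c' = c ∧ o = (cstep b l).2 ∧
        D' = ⟨D.pos, Function.update D.st i ((cstep b l).1.map .bit)⟩)
    (hV : StCount) (l : List Bool) (hl : D.st .S = l.map .bit) (hH : D.st .H = [])
    (hs : val l ≤ s) (hD : D.le s) :
    EndsT (J + 10) y dropK s D c fun _ D' c' => c' = c ∧ D'.st .C = (D.st .C).drop (val l) ∧
      Fr [.C, .S] D D' := by
  obtain ⟨-, -, -, hV0, -, -, hV1, hV2, -⟩ := hV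
  refine (endsT_iter (J := J + 3) (fun _ D' c' => D'.le s ∧ c' = c ∧ Fr [.C, .S] D D' ∧
    ∃ l' a, a + val l' = val l ∧ D'.st .S = l'.map .bit ∧ D'.st .C = (D.st .C).drop a)
    (fun _ D' => val ((D'.st .S).map fun g => match g with
      | .bit b => b
      | _ => false)) ?_
    ⟨hD, rfl, Fr.refl _ _, l, 0, Nat.zero_add _, hl, rfl⟩ ?_).bump (by omega)
  · rintro ⟨⟩ D' c' ⟨hD', rfl, hfr, l', a, hal, hS, hCs⟩
    have hH' : D'.st .H = [] := by rw [hfr .H (by simp), hH]
    have h1 := hC D' c' false .S l' hD' (by simp) hH' hS
    refine endsT_seq (J₁ := J) (J₂ := 2) (by omega) (by omega) h1 ?_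
    rintro o D₁ c₁ hD₁ ⟨rfl, rfl, rfl⟩
    by_cases ho : (cstep false l').2 = true
    · rw [if_pos ho]
      have h2 := (hV1 l' ho).1
      have h3 : val l' = 0 := by rw [h2, hV0]
      refine pure_inr _ hD₁ ⟨rfl, ?_, fun k hk => ?_⟩
      · dsimp only
        rw [Function.update_of_ne (by simp), hCs]
        congr 1
        omega
      · dsimp only
        have hk' : k ≠ .S := by
          rintro rfl
          simp at hk
        rw [Function.update_of_ne hk']
        exact hfr k hk
    · rw [if_neg ho]
      have h2 := hV2 l' (by simpa using ho)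
      refine pop_seq PN.C (J₂ := 0) (by omega) hD₁ fun hD₂ => ?_
      dsimp only at hD₂ ⊢
      refine pure_inl () hD₂ ⟨hD₂, rfl, fun k hk => ?_, (cstep false l').1, a + 1, by omega,
        ?_, ?_⟩ ?_
      · have hk' : k ≠ .S := by
          rintro rfl
          simp at hk
        have hk'' : k ≠ .C := by
          rintro rfl
          simp at hk
        dsimp only
        rw [Function.update_of_ne hk'', Function.update_of_ne hk']
        exact hfr k hk
      · dsimp only
        rw [Function.update_of_ne (by simp), Function.update_self]
      · dsimp only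
        rw [Function.update_self, Function.update_of_ne (by simp), hCs, List.tail_drop]
      · dsimp only
        rw [Function.update_of_ne (by simp), Function.update_self, hS, List.map_map, List.map_map]
        have e : ∀ l : List Bool, l.map ((fun g : PG B G => match g with
            | .bit b => b
            | _ => false) ∘ PG.bit) = l := by
          intro l
          induction l with
          | nil => rfl
          | cons b l ih => rw [List.map_cons, ih]; rfl
        rw [e, e]
        omega
  · show val ((D.st .S).map fun g => match g with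
      | .bit b => b
      | _ => false) ≤ s + 5
    rw [hl, List.map_map]
    have e : ∀ l : List Bool, l.map ((fun g : PG B G => match g with
        | .bit b => b
        | _ => false) ∘ PG.bit) = l := by
      intro l
      induction l with
      | nil => rfl
      | cons b l ih => rw [List.map_cons, ih]; rfl
    rw [e]
    omega

end KMisc

open KMisc in
theorem kn_misc (hM : StKMv) (hC : StKCnt) (hV : StCount) : StKMisc := by
  obtain ⟨J, hM⟩ := hM
  obtain ⟨J', hC⟩ := hC
  refine ⟨J + J' + 20, ?_⟩
  intro B G _ _ y s D c hD
  have hM' : ∀ (D : Data (PG B G) PN) (c : Str), D.le s → ∀ (φ : PG B G → PG B G) (i j : PN),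
      i ≠ j → (D.st i).length + (D.st j).length ≤ s →
      EndsT J y (mvK φ i j) s D c fun _ D' c' => c' = c ∧ D' = ⟨D.pos, Function.update
      (Function.update D.st i []) j (((D.st i).map φ).reverse ++ D.st j)⟩ :=
    fun D c hD => (hM B G y s D c hD).2.1
  exact ⟨fun i j hij => (cmp_ok i j hij hD).bump (by omega),
    fun k hA hF hk hs => (take_ok hM' k hA hF hk hs hD).bump (by omega),
    fun l hl hH hs => (drop_ok (fun D c b i l => hC B G y s D c b i l) hV l hl hH hs hD).bump
      (by omega)⟩

end Pool.Agent.Lib.MP_9dcf40_lc
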