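import Pool.Agent.Lib.MP_9dcf40_lc.Kn.Tools

/-!
# Start of level 4 (`StKSetup4`)
-/

namespace Pool.Agent.Lib.MP_9dcf40_lc

open Rout KTools

namespace KSetup4

/-- The stacks. -/
def sts {B G : Type} (st : PN → List (PG B G)) (F P Th Z A : List (PG B G)) :
    PN → List (PG B G)
  | .F => F
  | .P => P
  | .Th => Th
  | .Z => Z
  | .A => A
  | .H => []
  | .T => st .T
  | .S => []
  | .U => st .U
  | .C => st .C
  | .K => st .K
  | .Q => st .Q
  | .IL => st .IL
  | .IR => st .IR
  | .WL => st .WL
  | .WR => st .WR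
  | .X => st .X
  | .M => st .M
  | .B => st .B

section

variable {B G : Type} (st : PN → List (PG B G)) (F P Th Z A L : List (PG B G))

theorem upd_F : Function.update (sts st F P Th Z A) .F L = sts st L P Th Z A := by
  funext i
  cases i <;> rfl

theorem upd_P : Function.update (sts st F P Th Z A) .P L = sts st F L Th Z A := by
  funext i
  cases i <;> rfl

theorem upd_Th : Function.update (sts st F P Th Z A) .Th L = sts st F P L Z A := by
  funext i
  cases i <;> rfl

theorem upd_Z : Function.update (sts st F P Th Z A) .Z L = sts st F P Th L A := by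
  funext i
  cases i <;> rfl

theorem upd_A : Function.update (sts st F P Th Z A) .A L = sts st F P Th Z L := by
  funext i
  cases i <;> rfl

end

end KSetup4

open KSetup4 in
theorem kn_setup4 (hM : StKMv) (hE : StKExp) (hMi : StKMisc) : StKSetup4 := by
  obtain ⟨J₁, hM⟩ := hM
  obtain ⟨J₂, hE⟩ := hE
  obtain ⟨J₃, hMi⟩ := hMi
  refine ⟨J₁ + J₂ + J₃ + 40, ?_⟩
  rintro G _ y s ⟨p, st⟩ c m l hD hMm hT hl hH hF hP hTh hZ hA hS hs
  dsimp only at hMm hT hH hF hP hTh hZ hA hS
  have hst : st = sts st [] [] [] [] [] := by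
    funext i
    cases i <;> first | rfl | assumption
  have p1 : 2 ^ m ≤ 2 ^ (4 * m) := Nat.pow_le_pow_right (by norm_num) (by omega)
  have p3 : 2 ^ (3 * m) ≤ 2 ^ (4 * m) := Nat.pow_le_pow_right (by norm_num) (by omega)
  have p4 : m ≤ 2 ^ m := Nat.lt_two_pow_self.le
  rw [hst] at hD
  rw [hst]
  -- first copy
  refine unit_seq' (J₁ := J₁) (J₂ := J₁ + J₂ + J₃ + 38)
    ⟨p, sts st (List.replicate m .mark) [] [] [] []⟩ (by omega) (by omega)
    ((hM DA G y s _ c hD).2.2.2.1 id .M .F (by simp) (by simp) (by simp) rfl (by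
      show (st .M).length + 0 ≤ s
      rw [hMm, List.length_replicate]
      omega)) (by
      show (⟨p, Function.update _ .F ((st .M).map id ++ [])⟩ : Data (PG DA G) PN) = _
      rw [upd_F, hMm, List.map_id, List.append_nil]) fun hD => ?_
  -- first power
  refine unit_seq' (J₁ := J₂) (J₂ := J₁ + J₂ + J₃ + 36)
    ⟨p, sts st [] (List.replicate (2 ^ m) .mark) [] [] []⟩ (by omega) (by omega)
    ((hE DA G y s _ c hD rfl).2 .F .P m (by simp) (by simp) (by simp) rfl
      List.length_replicate (by omega)) (by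
      dsimp only
      rw [upd_F, upd_P]) fun hD => ?_
  -- second copy
  refine unit_seq' (J₁ := J₁) (J₂ := J₁ + J₂ + J₃ + 34)
    ⟨p, sts st (List.replicate (3 * m) .mark) (List.replicate (2 ^ m) .mark) [] [] []⟩
    (by omega) (by omega)
    ((hM DA G y s _ c hD).2.2.2.2.2 .M .F 3 m (by omega) (by simp) (by simp) (by simp) rfl hMm (by
      show 3 * m + 0 ≤ s
      omega)) (by
      show (⟨p, Function.update _ .F (List.replicate (3 * m) .mark ++ [])⟩ :
        Data (PG DA G) PN) = _
      rw [upd_F, List.append_nil]) fun hD => ?_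
  -- second power
  refine unit_seq' (J₁ := J₂) (J₂ := J₁ + J₂ + J₃ + 32)
    ⟨p, sts st [] (List.replicate (2 ^ m) .mark) (List.replicate (2 ^ (3 * m)) .mark) [] []⟩
    (by omega) (by omega)
    ((hE DA G y s _ c hD rfl).2 .F .Th (3 * m) (by simp) (by simp) (by simp) rfl
      List.length_replicate (by omega)) (by
      dsimp only
      rw [upd_F, upd_Th]) fun hD => ?_
  -- third copy
  refine unit_seq' (J₁ := J₁) (J₂ := J₁ + J₂ + J₃ + 30)
    ⟨p, sts st (List.replicate (4 * m) .mark) (List.replicate (2 ^ m) .mark)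
      (List.replicate (2 ^ (3 * m)) .mark) [] []⟩
    (by omega) (by omega)
    ((hM DA G y s _ c hD).2.2.2.2.2 .M .F 4 m (by omega) (by simp) (by simp) (by simp) rfl hMm (by
      show 4 * m + 0 ≤ s
      omega)) (by
      show (⟨p, Function.update _ .F (List.replicate (4 * m) .mark ++ [])⟩ :
        Data (PG DA G) PN) = _
      rw [upd_F, List.append_nil]) fun hD => ?_
  -- third power
  refine unit_seq' (J₁ := J₂) (J₂ := J₁ + J₂ + J₃ + 28)
    ⟨p, sts st [] (List.replicate (2 ^ m) .mark) (List.replicate (2 ^ (3 * m)) .mark)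
      (List.replicate (2 ^ (4 * m)) .mark) []⟩
    (by omega) (by omega)
    ((hE DA G y s _ c hD rfl).2 .F .Z (4 * m) (by simp) (by simp) (by simp) rfl
      List.length_replicate (by omega)) (by
      dsimp only
      rw [upd_F, upd_Z]) fun hD => ?_
  -- fourth copy
  refine unit_seq' (J₁ := J₁) (J₂ := J₁ + J₂ + J₃ + 26)
    ⟨p, sts st [] (List.replicate (2 ^ m) .mark) (List.replicate (2 ^ (3 * m)) .mark)
      (List.replicate (2 ^ (4 * m)) .mark) (List.replicate (4 * m) .mark)⟩
    (by omega) (by omega)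
    ((hM DA G y s _ c hD).2.2.2.2.2 .M .A 4 m (by omega) (by simp) (by simp) (by simp) rfl hMm (by
      show 4 * m + 0 ≤ s
      omega)) (by
      show (⟨p, Function.update _ .A (List.replicate (4 * m) .mark ++ [])⟩ :
        Data (PG DA G) PN) = _
      rw [upd_A, List.append_nil]) fun hD => ?_
  -- the last letters
  have hTl : (st .T).length = l.length := by rw [hT, List.length_map]
  refine (((hMi DA G y s _ c hD).2.1 (4 * m) rfl rfl ?_ ?_).bump (by omega)).imp ?_
  · show 4 * m ≤ (st .T).length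
    omega
  · show (st .T).length + 0 ≤ s
    exact hD .T
  rintro _ D' c' - ⟨rfl, rfl⟩
  refine ⟨rfl, rfl, rfl, rfl, rfl, ?_, rfl, fun i hi => ?_⟩
  · show ((st .T).take (4 * m)).reverse ++ [] = _
    rw [List.append_nil, hT, List.map_reverse, List.map_take]
  · cases i <;> first | rfl | (exfalso; exact hi (by simp))

end Pool.Agent.Lib.MP_9dcf40_lc
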