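import Pool.Agent.Lib.MP_9dcf40_lc.Kn.Tools

/-!
# Reading fields
-/

namespace Pool.Agent.Lib.MP_9dcf40_lc

open Rout KTools

namespace KReadT

/-- The statement `StKRead` with exponent `J`. -/
def RdJ (J : ℕ) : Prop := ∀ (B G : Type) [Finite B] [Finite G]
  (act : InSym VB → Option (Option (PN × PG B G))) (y w y' : List VB) (s : ℕ)
  (D : Data (PG B G) PN) (c : Str), D.le s → D.pos ≤ y.length → y.drop D.pos = w ++ y' →
  (∀ a ∈ w, act (.letter a) ≠ none) → (∀ a l, y' = a :: l → act (.letter a) = none) →
  (y' = [] → act .right = none) → (∀ i, (D.st i).length + w.length ≤ s) →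
  EndsT J y (readK act) s D c fun _ D' c' => c' = c ∧ D'.pos = D.pos + w.length + 1 ∧
    ∀ i, D'.st i = (w.filterMap (putK act i)).reverse ++ D.st i

theorem exists_rdJ (h : StKRead) : ∃ J, RdJ J := h

variable {B G : Type} [Finite B] [Finite G] {y : List VB} {s J J₂ J' : ℕ}
  {D : Data (PG B G) PN} {c : Str}

/-- A letter of the word. -/
abbrev Lt (a : DA) : VB := .inl (some a)

/-- The symbol put on the stack `i` for the letter `a`. -/
def fput (g : DA → Option (PN × PG B G)) (i : PN) (a : DA) : Option (PG B G) :=
  (g a).bind fun p => if p.1 = i then some p.2 else none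

omit [Finite B] [Finite G] in
theorem putK_field (g : DA → Option (PN × PG B G)) (i : PN) (a : DA) (ha : a ≠ .hash) :
    putK (fieldAct g) i (Lt a) = fput g i a := by
  unfold putK fieldAct fput
  simp only [if_neg ha]
  rcases g a with _ | ⟨j, h⟩ <;> rfl

omit [Finite B] [Finite G] in
theorem filter_field (g : DA → Option (PN × PG B G)) (i : PN) (f : List DA) (hf : .hash ∉ f) :
    (f.map Lt).filterMap (putK (fieldAct g) i) = f.filterMap (fput g i) := by
  rw [List.filterMap_map]
  refine List.filterMap_congr fun a ha => ?_
  exact putK_field g i a fun h => hf (h ▸ ha)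

/-- Read one field, and go on. -/
theorem field_seq (hR : RdJ J) {γ : Type} {Q : γ → Data (PG B G) PN → Str → Prop}
    {g : DA → Option (PN × PG B G)} {f : List DA} {rest : List VB}
    {F : Unit → PR B G γ}
    (hJ : J + 1 ≤ J') (hJ' : J₂ + 1 ≤ J')
    (hys : y.length + 1 ≤ s) (hD : D.le s) (hle : ∀ i, (D.st i).length ≤ D.pos)
    (hy : y.drop D.pos = f.map Lt ++ Lt .hash :: rest) (hf : .hash ∉ f)
    (h : ∀ D' : Data (PG B G) PN, D'.le s → (∀ i, (D'.st i).length ≤ D'.pos) →
      y.drop D'.pos = rest → (∀ i, D'.st i = (f.filterMap (fput g i)).reverse ++ D.st i) →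
      EndsT J₂ y (F ()) s D' c Q) :
    EndsT J' y ((readK (fieldAct g)).bind F) s D c Q := by
  have hlen := congrArg List.length hy
  rw [List.length_drop, List.length_append, List.length_map, List.length_cons] at hlen
  have h1 := hR B G (fieldAct g) y (f.map Lt) (Lt .hash :: rest) s D c hD (by omega) hy
    (fun a ha => by
      obtain ⟨b, hb, rfl⟩ := List.mem_map.1 ha
      have hb' : b ≠ .hash := fun h => hf (h ▸ hb)
      show (if b = .hash then none else some (g b)) ≠ none
      rw [if_neg hb']
      simp)
    (fun a l hal => by
      obtain ⟨rfl, -⟩ := List.cons.inj hal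
      rfl)
    (fun h => absurd h (by simp))
    (fun i => by
      have := hle i
      rw [List.length_map]
      omega)
  refine endsT_seq hJ hJ' h1 ?_
  rintro _ D' c' hD' ⟨rfl, hpos, hst⟩
  rw [List.length_map] at hpos
  have hst' : ∀ i, D'.st i = (f.filterMap (fput g i)).reverse ++ D.st i := by
    intro i
    rw [hst i, filter_field g i f hf]
  refine h D' hD' (fun i => ?_) ?_ hst'
  · rw [hst', List.length_append, List.length_reverse]
    have h2 := List.length_filterMap_le (fput g i) f
    have h3 := hle i
    omega
  · have h4 : y.drop D'.pos = (y.drop D.pos).drop (f.length + 1) := by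
      rw [List.drop_drop, hpos, add_assoc]
    rw [h4, hy]
    have h5 : (f.map Lt ++ Lt .hash :: rest).drop ((f.map Lt).length + 1) = rest := by
      rw [← List.drop_drop, List.drop_left]
      rfl
    rwa [List.length_map] at h5

omit [Finite B] [Finite G] in
/-- The symbols for the rest of the word. -/
theorem filter_rest (g : DA → Option (PN × PG B G)) (p : PN × PG B G) (i : PN) (x : List DA)
    (r : ℕ) (adv : List Bool) :
    (x.map Lt ++ (List.replicate r (Sum.inl none : VB) ++ adv.map Sum.inr)).filterMap
      (putK (restAct g (some p)) i) = x.filterMap (fput g i) ++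
        (if p.1 = i then List.replicate r p.2 else []) := by
  rw [List.filterMap_append, List.filterMap_append, List.filterMap_map]
  have e1 : x.filterMap (putK (restAct g (some p)) i ∘ Lt) = x.filterMap (fput g i) := by
    refine List.filterMap_congr fun a _ => ?_
    unfold Function.comp putK restAct fput
    simp only
    rcases g a with _ | ⟨j, h⟩ <;> rfl
  have e2 : (adv.map (Sum.inr : Bool → VB)).filterMap (putK (restAct g (some p)) i) = [] := by
    rw [List.filterMap_map, List.filterMap_eq_nil_iff]
    intro a _
    rfl
  have e3 : (List.replicate r (.inl none : VB)).filterMap (putK (restAct g (some p)) i) =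
      (if p.1 = i then List.replicate r p.2 else []) := by
    have e4 : putK (restAct g (some p)) i (.inl none : VB) = if p.1 = i then some p.2 else none :=
      rfl
    by_cases h : p.1 = i
    · rw [if_pos h] at e4 ⊢
      exact List.filterMap_replicate_of_some e4
    · rw [if_neg h] at e4 ⊢
      induction r with
      | zero => rfl
      | succ r ih => rw [List.replicate_succ, List.filterMap_cons_none e4, ih]
  rw [e1, e2, e3, List.append_nil]

/-- Read the rest. -/
theorem rest_ok (hR : RdJ J) {g : DA → Option (PN × PG B G)} {p : PN × PG B G} {x : List DA}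
    {r : ℕ} {adv : List Bool} (hys : y.length + 1 ≤ s) (hD : D.le s)
    (hle : ∀ i, (D.st i).length ≤ D.pos) (hpy : D.pos ≤ y.length)
    (hy : y.drop D.pos = x.map Lt ++ (List.replicate r (Sum.inl none : VB) ++ adv.map Sum.inr)) :
    EndsT J y (readK (restAct g (some p))) s D c fun _ D' c' => c' = c ∧
      ∀ i, D'.st i = (if p.1 = i then List.replicate r p.2 else []) ++
        ((x.filterMap (fput g i)).reverse ++ D.st i) := by
  have h1 := hR B G (restAct g (some p)) y _ [] s D c hD hpy
    (List.append_nil _).symm
    (fun a _ => by
      rcases a with (_ | a) | a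
      · simp [restAct]
      · simp [restAct]
      · simp [restAct])
    (fun a l hal => absurd hal (by simp)) (fun _ => rfl)
    (fun i => by
      have := hle i
      rw [List.length_drop]
      omega)
  refine h1.imp ?_
  rintro _ D' c' - ⟨rfl, -, hst⟩
  refine ⟨rfl, fun i => ?_⟩
  rw [hst i, hy, filter_rest, List.reverse_append]
  split_ifs
  · rw [List.reverse_replicate, List.append_assoc]
  · rfl

theorem vword_eq (x : List DA) (m : ℕ) :
    vword x m [] = x.map Lt ++ (List.replicate (2 ^ m) (Sum.inl none : VB) ++
      ([] : List Bool).map Sum.inr) := by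
  unfold vword pairL padL
  simp [Function.comp_def]

theorem hash_bits (T : List Bool) : DA.hash ∉ T.map bitL := by
  intro h
  obtain ⟨b, -, hb⟩ := List.mem_map.1 h
  cases b <;> simp [bitL] at hb

theorem hash_par (m : ℕ) : DA.hash ∉ par m := by
  simp [par, List.mem_replicate]

theorem hash_rep (n : ℕ) (a : DA) (ha : a ≠ .hash) : DA.hash ∉ List.replicate n a := by
  simp [List.mem_replicate, Ne.symm ha]

theorem fm_none {α β : Type} {f : α → Option β} {l : List α} (h : ∀ a ∈ l, f a = none) :
    l.filterMap f = [] := by
  rw [List.filterMap_eq_nil_iff]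
  exact h

theorem fm_some {α β : Type} {f : α → Option β} {g : α → β} {l : List α}
    (h : ∀ a ∈ l, f a = some (g a)) : l.filterMap f = l.map g := by
  rw [← List.filterMap_eq_map]
  exact List.filterMap_congr h

theorem bitOf_bitL (b : Bool) : bitOf (bitL b) = b := by
  cases b <;> rfl

omit [Finite B] [Finite G] in
theorem fm_par (m : ℕ) (i : PN) : (par m).filterMap (fput (B := B) (G := G) parAct i) =
    (if i = .A then List.replicate (4 * m) .mark else []) ++
    ((if i = .P then List.replicate (2 ^ m) .mark else []) ++
    (if i = .Th then List.replicate (2 ^ (3 * m)) .mark else [])) := by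
  unfold par
  rw [List.filterMap_append, List.filterMap_append]
  have e : ∀ (n : ℕ) (a : DA) (j : PN), parAct (B := B) (G := G) a = some (j, .mark) →
      (List.replicate n a).filterMap (fput (B := B) (G := G) parAct i) =
      if i = j then List.replicate n .mark else [] := by
    intro n a j haj
    by_cases h : i = j
    · subst h
      rw [if_pos rfl]
      refine List.filterMap_replicate_of_some ?_
      unfold fput
      rw [haj]
      simp
    · rw [if_neg h]
      refine fm_none fun b hb => ?_
      rw [List.eq_of_mem_replicate hb]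
      unfold fput
      rw [haj]
      simp [Ne.symm h]
  rw [e _ .zero .A rfl, e _ .one .P rfl, e _ .eState .Th rfl]

end KReadT

end Pool.Agent.Lib.MP_9dcf40_lc
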