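import Pool.Agent.Lib.MP_9dcf40_lc.Kn.Hoare

/-!
# Routines for nondeterministic machines in polynomial time: definitions

If `NP` is contained in `POLYLOGSPACE` then `POLYLOGSPACE` contains languages which are hard on average
for nondeterministic quasipolynomial time with quasipolynomial advice (of fixed exponents). The
proof uses three levels. Let `T` be a table of length `2 ^ (4 m)`, that is a function on the words of
length `4 m`.

* Level 2: is there a word `z` of length `2 ^ m` over `DA` such that the universal nondeterministic
  machine, started with `z` and `s`, agrees with `T` for more than `2 ^ (4 m - 1) + 2 ^ (3 m - 1)` of the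
  words `s`? (Then `T` is called bad.)
* Level 3: is there a table which is not bad and starts with a given word `u`?
* Level 4: compute the first table which is not bad, and the entry for the last `4 m` letters of
  the input.

Each level is in `NP` (for padded inputs), with a simulation of a machine for the previous level,
which has polylogarithmic space.
-/

namespace Pool.Agent.Lib.MP_9dcf40_lc

open Rout

/-! ## Words -/

/-- The parameter field. -/
def par (m : ℕ) : List DA :=
  List.replicate (4 * m) .zero ++ (List.replicate (2 ^ m) .one ++ List.replicate (2 ^ (3 * m)) .eState)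

/-- The input word of level 2 (without padding). -/
def word2 (m κ : ℕ) (T : List Bool) : List DA :=
  T.map bitL ++ .hash :: (par m ++ .hash :: ([] ++ .hash :: (List.replicate κ .one ++ .hash :: [])))

/-- The first field of the input word of level 3. -/
def fld3 (m : ℕ) (u : List Bool) : List DA :=
  u.map bitL ++ List.replicate (2 ^ (4 * m) - u.length) .eState

/-- The input word of level 3 (without padding). -/
def word3 (m κ₂ κ₃ : ℕ) (u : List Bool) : List DA :=
  fld3 m u ++ .hash :: (par m ++ .hash :: ([] ++ .hash ::
    (List.replicate κ₃ .one ++ .hash :: List.replicate κ₂ .one)))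

/-- The first part of the input word of level 4. -/
def zpar (m κ₂ κ₃ : ℕ) : List DA :=
  List.replicate m .one ++ .hash :: (List.replicate κ₂ .one ++ .hash ::
    (List.replicate κ₃ .one ++ [.hash]))

/-- The input tape of the word `z` with end marks. -/
def itapeK {B : Type} (z : List B) : List (InSym B) := .left :: (z.map .letter ++ [.right])

open Classical in
/-- The number of the `v < N` with property `p`. -/
noncomputable def numK (p : ℕ → Prop) (N : ℕ) : ℕ := Nat.count p N

open Classical in
/-- The first `n` bits of the table which is determined bit by bit: the next bit after `u` is `1` iff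
`q u`. -/
noncomputable def tabOf (q : List Bool → Prop) : ℕ → List Bool
  | 0 => []
  | n + 1 => tabOf q n ++ [decide (q (tabOf q n))]

/-- The table `T` is bad for `acc`: for some `z` of length `2 ^ m` the number of agreements of `acc z`
and `T` is larger than the number of disagreements plus `2 ^ (3 m)`. -/
def BadOf (acc : List DA → ℕ → Prop) (m : ℕ) (T : List Bool) : Prop :=
  ∃ z : List DA, z.length = 2 ^ m ∧
    2 ^ (3 * m) + numK (fun v => ¬ (acc z v ↔ T[v]? = some true)) (2 ^ (4 * m)) <
      numK (fun v => acc z v ↔ T[v]? = some true) (2 ^ (4 * m))

/-- The universal machine accepts the start `z`, the word of length `4 m` with number `v`, and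
padding. -/
def accKN (m : ℕ) (z : List DA) (v : ℕ) : Prop :=
  padL (z ++ (lst (4 * m) v).map bitL) (2 * 2 ^ m) ∈ KN

/-- The machine `V` accepts the same word in at most `q` steps. -/
def accV (V : TM (Option DA)) (q m : ℕ) (z : List DA) (v : ℕ) : Prop :=
  ∃ t ≤ q, V.out (V.run (padL (z ++ (lst (4 * m) v).map bitL) (2 * 2 ^ m)) (fun _ => false) t).q =
    some true

/-- The table `T` is bad. -/
def BadK (m : ℕ) (T : List Bool) : Prop := BadOf (accKN m) m T

/-- The word `u` is the start of a table of length `2 ^ (4 m)` which is not bad. -/
def ExtK (m : ℕ) (u : List Bool) : Prop :=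
  ∃ T : List Bool, T.length = 2 ^ (4 * m) ∧ u <+: T ∧ ¬ BadK m T

/-! ## Stacks -/

/-- Names of the stacks. `H` is auxiliary. `IL`, `IR`, `WL`, `WR`: input tape and work tape of the
simulated machine, `Q`: the clock of the simulation. -/
inductive PN : Type
  | T | U | S | A | P | Th | Z | C | K | Q | IL | IR | WL | WR | H | X | M | B | F
  deriving DecidableEq, Fintype

/-- Stack alphabet. `B` is the input alphabet and `G` the work alphabet of the simulated machine. -/
inductive PG (B G : Type) : Type
  | bit (b : Bool)
  | mark
  | ltr (a : DA)
  | inp (a : InSym B)
  | work (g : G)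

instance finite_PG (B G : Type) [Finite B] [Finite G] : Finite (PG B G) := by
  have h : Function.Injective
      (fun q : PG B G => (match q with
        | .bit b => .inl (.inl b)
        | .ltr a => .inl (.inr a)
        | .mark => .inr (.inl none)
        | .inp g => .inr (.inl (some g))
        | .work g => .inr (.inr g) : (Bool ⊕ DA) ⊕ (Option (InSym B) ⊕ G))) := by
    intro a b hab
    cases a <;> cases b <;> simp_all
  exact Finite.of_injective _ h

section Routines

variable {B G : Type} [Finite B] [Finite G]

/-- Routines of the nondeterministic machines. -/
abbrev PR (B G β : Type) : Type 1 := Rout VB (PG B G) PN β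

/-! ## Reading the input -/

/-- Read to the right until `act` gives `none`, and put symbols on stacks. -/
def readK (act : InSym VB → Option (Option (PN × PG B G))) : PR B G Unit :=
  iter (τ := Unit) (fun _ => (move .right).bind fun _ => Rout.read.bind fun a =>
    match act a with
    | none => pureR (.inr ())
    | some none => pureR (.inl ())
    | some (some (i, g)) => (push i g).bind fun _ => pureR (.inl ())) ()

/-- The symbol which is put on the stack `i` for the letter `a`. -/
def putK (act : InSym VB → Option (Option (PN × PG B G))) (i : PN) (a : VB) : Option (PG B G) :=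
  match act (.letter a) with
  | some (some (j, g)) => if j = i then some g else none
  | _ => none

/-- Read a field up to the next `hash`. -/
def fieldAct (g : DA → Option (PN × PG B G)) : InSym VB → Option (Option (PN × PG B G))
  | .letter (.inl (some a)) => if a = .hash then none else some (g a)
  | _ => none

/-- Read the rest of the input. -/
def restAct (g : DA → Option (PN × PG B G)) (p : Option (PN × PG B G)) :
    InSym VB → Option (Option (PN × PG B G))
  | .letter (.inl (some a)) => some (g a)
  | .letter (.inl none) => some p
  | .letter (.inr _) => some none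
  | _ => none

/-- The letters of the parameter field. -/
def parAct : DA → Option (PN × PG B G)
  | .zero => some (.A, .mark)
  | .one => some (.P, .mark)
  | .eState => some (.Th, .mark)
  | _ => none

/-! ## Basic routines -/

/-- Empty a stack. -/
def emptyK (i : PN) : PR B G Unit :=
  iter (τ := Unit) (fun _ => (pop i).bind fun o =>
    match o with
    | none => pureR (.inr ())
    | some _ => pureR (.inl ())) ()

/-- Move the stack `i` to the stack `j`, with changed symbols. -/
def mvK (φ : PG B G → PG B G) (i j : PN) : PR B G Unit :=
  iter (τ := Unit) (fun _ => (pop i).bind fun o =>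
    match o with
    | none => pureR (.inr ())
    | some a => (push j (φ a)).bind fun _ => pureR (.inl ())) ()

/-- Move the stack `i` to the stack `h`, and also, with changed symbols, to the stack `j`. -/
def mv2K (φ : PG B G → PG B G) (i h j : PN) : PR B G Unit :=
  iter (τ := Unit) (fun _ => (pop i).bind fun o =>
    match o with
    | none => pureR (.inr ())
    | some a => (push h a).bind fun _ => (push j (φ a)).bind fun _ => pureR (.inl ())) ()

/-- Copy the stack `i` to the stack `j`, with changed symbols, in the same order. -/
def cpK (φ : PG B G → PG B G) (i j : PN) : PR B G Unit :=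
  (mvK id i .H).bind fun _ => mv2K φ .H i j

/-- Copy the stack `i` to the stack `j`, with changed symbols, in the opposite order. -/
def rcpK (φ : PG B G → PG B G) (i j : PN) : PR B G Unit :=
  (mv2K φ i .H j).bind fun _ => mvK id .H i

/-- A counter step. The result is the overflow flag. -/
def cntK (b : Bool) (i : PN) : PR B G Bool :=
  (iter (τ := Unit) (fun _ => (pop i).bind fun (o : Option (PG B G)) =>
    match o with
    | none => pureR (.inr true)
    | some (.bit a) => if a = b then (push .H (.bit (!b))).bind fun _ => pureR (.inl ())
        else (push i (.bit b)).bind fun _ => pureR (.inr false)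
    | some g => (push i g).bind fun _ => pureR (.inr false)) ()).bind fun f =>
  (mvK id .H i).bind fun _ => pureR f

/-- Double the length of the stack `j`. -/
def dblK (j : PN) : PR B G Unit := (mv2K id j .H .H).bind fun _ => mvK id .H j

/-- Empty the stack `i`, and put `2 ^ k` marks on the stack `j` (which was empty), where `k` is the
length of `i`. -/
def expK (i j : PN) : PR B G Unit :=
  (push j .mark).bind fun _ =>
  iter (τ := Unit) (fun _ => (pop i).bind fun o =>
    match o with
    | none => pureR (.inr ())
    | some _ => (dblK j).bind fun _ => pureR (.inl ())) ()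

/-- Is the stack `i` longer than the stack `j`? (Both are destroyed.) -/
def cmpK (i j : PN) : PR B G Bool :=
  iter (τ := Unit) (fun _ => (pop i).bind fun o => (pop j).bind fun o' => pureR
    (match o, o' with
      | none, _ => .inr false
      | some _, none => .inr true
      | some _, some _ => .inl ())) ()

/-- Move as many symbols from `T` to `S` as the length of `A` tells. -/
def takeK : PR B G Unit :=
  (iter (τ := Unit) (fun _ => (pop .A).bind fun o =>
    match o with
    | none => pureR (.inr ())
    | some a => (push .F a).bind fun _ => (pop .T).bind fun o' =>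
      (match o' with
        | none => pureR ()
        | some g => push .S g : PR B G Unit).bind fun _ => pureR (.inl ())) ()).bind fun _ =>
  mvK id .F .A

/-- Remove as many symbols from `C` as the value of the counter `S` tells. -/
def dropK : PR B G Unit :=
  iter (τ := Unit) (fun _ => (cntK false .S).bind fun o =>
    if o then pureR (.inr ()) else (pop .C).bind fun _ => pureR (.inl ())) ()

/-! ## Guesses -/

/-- A letter from three bits. -/
def d3 : Bool → Bool → Bool → DA
  | false, false, false => .zero
  | true, false, false => .one
  | false, true, false => .hash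
  | true, true, false => .eState
  | false, false, true => .eIn
  | true, false, true => .eSym
  | false, true, true => .dl
  | true, true, true => .dr

/-- The word of length `n` which is guessed with the choices `c`, on top of `l`. -/
def gword : ℕ → Str → List DA → List DA
  | 0, _, l => l
  | n + 1, c, l => gword n (fun i => c (i + 3)) (d3 (c 0) (c 1) (c 2) :: l)

/-- Guess a word `z` on the stack `Z`, of the length of the stack `P`, which is moved to `F`. -/
def guessZ : PR B G Unit :=
  iter (τ := Unit) (fun _ => (pop .P).bind fun o =>
    match o with
    | none => pureR (.inr ())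
    | some a => (push .F a).bind fun _ => choose.bind fun b₁ => choose.bind fun b₂ =>
        choose.bind fun b₃ => (push .Z (.ltr (d3 b₁ b₂ b₃))).bind fun _ => pureR (.inl ())) ()

/-- The word `l`, reversed, where the letters `eState` are replaced by guessed bits, on top of
`l'`. -/
def gtab : List DA → Str → List DA → List DA
  | [], _, l' => l'
  | a :: l, c, l' =>
    if a = .eState then gtab l (fun i => c (i + 1)) (bitL (c 0) :: l') else gtab l c (a :: l')

/-- Move the letters on the stack `T` to `IR`; the letters `eState` are replaced by guessed bits. -/
def guessT {G : Type} [Finite G] : PR DA G Unit :=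
  iter (τ := Unit) (fun _ => (pop .T).bind fun (o : Option (PG DA G)) =>
    match o with
    | none => pureR (.inr ())
    | some (.ltr a) =>
      if a = .eState then choose.bind fun b => (push .IR (.inp (.letter (bitL b)))).bind fun _ =>
        pureR (.inl ())
      else (push .IR (.inp (.letter a))).bind fun _ => pureR (.inl ())
    | some _ => pureR (.inl ())) ()

/-! ## Simulation of a machine -/

/-- The input symbol of the simulated machine. -/
def isymK : Option (PG B G) → InSym B
  | some (.inp a) => a
  | _ => .right

/-- The work symbol of the simulated machine. -/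
def wsymK (U : TM B) : Option (PG B U.G) → U.G
  | some (.work g) => g
  | _ => U.blank

/-- Put back the input symbol `a`, and move the input head. -/
def moveIK (a : InSym B) (dir : Dir) : PR B G Unit :=
  match dir with
  | .stay => push .IR (.inp a)
  | .right =>
    match a with
    | .right => push .IR (.inp .right)
    | a => push .IL (.inp a)
  | .left => (push .IR (.inp a)).bind fun _ => (pop .IL).bind fun o =>
      match o with
      | none => pureR ()
      | some g => push .IR g

/-- Write the work symbol `g`, and move the work head. -/
def workK (U : TM B) [Finite U.G] (g : U.G) (dir : Dir) : PR B U.G Unit :=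
  match dir with
  | .stay => push .WR (.work g)
  | .right => push .WL (.work g)
  | .left => (push .WR (.work g)).bind fun _ => (pop .WL).bind fun o =>
      push .WR (.work (wsymK U o))

/-- One step of the machine `U` in the state `q`. -/
def pstepK (U : TM B) [Finite U.G] (q : U.Q) : PR B U.G U.Q :=
  (pop .IR).bind fun o => (pop .WR).bind fun w =>
    (moveIK (isymK o) (U.δ false q (isymK o) (wsymK U w)).2.2.1).bind fun _ =>
    (workK U (U.δ false q (isymK o) (wsymK U w)).2.1
      (U.δ false q (isymK o) (wsymK U w)).2.2.2).bind fun _ =>
    pureR (U.δ false q (isymK o) (wsymK U w)).1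

/-- The simulation, with at most as many steps as the length of the stack `Q`. The result is `true`
iff the machine accepts. -/
def psimK (U : TM B) [Finite U.G] [Finite U.Q] : PR B U.G Bool :=
  iter (τ := U.Q) (fun q =>
    match U.out q with
    | some b => pureR (.inr b)
    | none => (pop .Q).bind fun o =>
      match o with
      | none => pureR (.inr false)
      | some _ => (pstepK U q).bind fun q' => pureR (.inl q')) U.start

/-- Empty the stacks of the simulation. -/
def clearK : PR B G Unit :=
  (emptyK .IL).bind fun _ => (emptyK .IR).bind fun _ => (emptyK .WL).bind fun _ =>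
  (emptyK .WR).bind fun _ => emptyK .Q

end Routines

/-! ## Level 2 -/

section Level2

variable {G : Type} [Finite G]

/-- Read the input of level 2. -/
def parse2 : PR (Option DA) G Unit :=
  (readK (fieldAct fun a => some (.T, .bit (bitOf a)))).bind fun _ =>
  (readK (fieldAct parAct)).bind fun _ =>
  (readK (fieldAct fun _ => none)).bind fun _ =>
  (readK (fieldAct fun _ => none)).bind fun _ =>
  readK (restAct (fun _ => none) (some (.K, .mark)))

/-- Bits and letters as input symbols. -/
def lsK : PG (Option DA) G → PG (Option DA) G
  | .bit b => .inp (.letter (some (bitL b)))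
  | .ltr a => .inp (.letter (some a))
  | g => g

/-- Prepare the simulation for the words on `Z` and `S`. -/
def load2 : PR (Option DA) G Unit :=
  clearK.bind fun _ => (push .IR (.inp .right)).bind fun _ =>
  (cpK (fun _ => .inp (.letter none)) .F .IR).bind fun _ =>
  (cpK (fun _ => .inp (.letter none)) .F .IR).bind fun _ =>
  (cpK lsK .S .IR).bind fun _ => (cpK lsK .Z .IR).bind fun _ =>
  (push .IR (.inp .left)).bind fun _ => cpK id .K .Q

/-- Is `g` the bit `a`? -/
def sameK (a : Bool) : PG (Option DA) G → Bool
  | .bit b => a == b
  | _ => false

/-- For all entries of the table on `U`: simulate `V`, and count the agreements on `C` and the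
disagreements on `Th`. -/
def main2 (V : TM (Option DA)) [Finite V.G] [Finite V.Q] : PR (Option DA) V.G Unit :=
  iter (τ := Unit) (fun _ => (pop .U).bind fun o =>
    match o with
    | none => pureR (.inr ())
    | some g => load2.bind fun _ => (psimK V).bind fun a =>
      (push (if sameK a g then PN.C else PN.Th) .mark).bind fun _ =>
      (cntK true .S).bind fun _ => pureR (.inl ())) ()

/-- The machine of level 2. -/
def w2R (V : TM (Option DA)) [Finite V.G] [Finite V.Q] : PR (Option DA) V.G Bool :=
  parse2.bind fun _ => (mvK id .T .U).bind fun _ => (cpK (fun _ => .bit false) .A .S).bind fun _ =>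
  guessZ.bind fun _ => (main2 V).bind fun _ => cmpK .C .Th

end Level2

/-! ## Level 3 -/

section Level3

variable {G : Type} [Finite G]

/-- Read the input of level 3. -/
def parse3 : PR DA G Unit :=
  (readK (fieldAct fun a => some (.T, .ltr a))).bind fun _ =>
  (readK (fieldAct fun a => some (.B, .ltr a))).bind fun _ =>
  (readK (fieldAct fun _ => none)).bind fun _ =>
  (readK (fieldAct fun _ => none)).bind fun _ =>
  readK (restAct (fun _ => some (.X, .mark)) (some (.Q, .mark)))

/-- The letter `a` as an input symbol. -/
abbrev cst (a : DA) : PG DA G := .inp (.letter a)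

/-- Letters and bits as input symbols. -/
def lsD : PG DA G → PG DA G
  | .bit b => .inp (.letter (bitL b))
  | .ltr a => .inp (.letter a)
  | g => g

/-- Build the input word of level 2, with a guessed table. -/
def build3 : PR DA G Unit :=
  (push .IR (.inp .right)).bind fun _ => (push .IR (cst .hash)).bind fun _ =>
  (mvK (fun _ => cst .one) .X .IR).bind fun _ => (push .IR (cst .hash)).bind fun _ =>
  (push .IR (cst .hash)).bind fun _ => (mvK lsD .B .IR).bind fun _ =>
  (push .IR (cst .hash)).bind fun _ => guessT.bind fun _ => push .IR (.inp .left)

/-- The machine of level 3. -/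
def w3R (U : TM DA) [Finite U.G] [Finite U.Q] : PR DA U.G Bool :=
  parse3.bind fun _ => build3.bind fun _ => psimK U

end Level3

/-! ## Level 4 -/

section Level4

variable {G : Type} [Finite G]

/-- Read the input of level 4. -/
def parse4 : PR DA G Unit :=
  (readK (fieldAct fun _ => some (.M, .mark))).bind fun _ =>
  (readK (fieldAct fun _ => some (.X, .mark))).bind fun _ =>
  (readK (fieldAct fun _ => some (.B, .mark))).bind fun _ =>
  readK (restAct (fun a => some (.T, .bit (bitOf a))) (some (.K, .mark)))

/-- Put `2 ^ m` marks on `P`, `2 ^ (3 m)` marks on `Th`, `2 ^ (4 m)` marks on `Z`, `4 m` marks on `A`,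
and the last `4 m` letters on `S`. -/
def setup4 : PR DA G Unit :=
  (cpK id .M .F).bind fun _ => (expK .F .P).bind fun _ =>
  (repeatR (cpK id .M .F) 3).bind fun _ => (expK .F .Th).bind fun _ =>
  (repeatR (cpK id .M .F) 4).bind fun _ => (expK .F .Z).bind fun _ =>
  (repeatR (cpK id .M .A) 4).bind fun _ => takeK

/-- Build the input word of level 3 for the bits on `U` (the last one on top) and one more bit
`0`. -/
def load4 : PR DA G Unit :=
  clearK.bind fun _ => (push .IR (.inp .right)).bind fun _ =>
  (cpK (fun _ => cst .one) .X .IR).bind fun _ => (push .IR (cst .hash)).bind fun _ =>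
  (cpK (fun _ => cst .one) .B .IR).bind fun _ => (push .IR (cst .hash)).bind fun _ =>
  (push .IR (cst .hash)).bind fun _ => (cpK (fun _ => cst .eState) .Th .IR).bind fun _ =>
  (cpK (fun _ => cst .one) .P .IR).bind fun _ => (cpK (fun _ => cst .zero) .A .IR).bind fun _ =>
  (push .IR (cst .hash)).bind fun _ => (cpK (fun _ => cst .eState) .Z .IR).bind fun _ =>
  (push .IR (cst .zero)).bind fun _ => (rcpK lsD .U .IR).bind fun _ =>
  (push .IR (.inp .left)).bind fun _ => cpK id .K .Q

/-- Compute the table on `U`. -/
def main4 (U : TM DA) [Finite U.G] [Finite U.Q] : PR DA U.G Unit :=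
  iter (τ := Unit) (fun _ => (pop .Z).bind fun o =>
    match o with
    | none => pureR (.inr ())
    | some _ => load4.bind fun _ => (psimK U).bind fun a => (push .U (.bit a)).bind fun _ =>
      pureR (.inl ())) ()

/-- The bit on the top of the stack `C`. -/
def topK : PR DA G Bool :=
  (pop .C).bind fun (o : Option (PG DA G)) => pureR
    (match o with
      | some (.bit b) => b
      | _ => false)

/-- The machine of level 4. -/
def w4R (U : TM DA) [Finite U.G] [Finite U.Q] : PR DA U.G Bool :=
  parse4.bind fun _ => setup4.bind fun _ => (main4 U).bind fun _ => (mvK id .U .C).bind fun _ =>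
  dropK.bind fun _ => topK

end Level4

/-! ## The machine in polylogarithmic space -/

section Unp

variable {G : Type} [Finite G]

/-- Put `zpar` on the stack `Z`. -/
def zsetE (a₁ a₂ a₃ : ℕ) : ER G Unit :=
  (push .Z (.ltr .hash)).bind fun _ => (powE a₃).bind fun _ =>
  (cpR (fun _ => .ltr .one) .R .Z).bind fun _ => (emptyR .R).bind fun _ =>
  (push .Z (.ltr .hash)).bind fun _ => (powE a₂).bind fun _ =>
  (cpR (fun _ => .ltr .one) .R .Z).bind fun _ => (emptyR .R).bind fun _ =>
  (push .Z (.ltr .hash)).bind fun _ => (powE a₁).bind fun _ =>
  (cpR (fun _ => .ltr .one) .R .Z).bind fun _ => emptyR .R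

/-- The start phase: `zpar` on `Z`, the counter of the padding on `P`, the clock on `K`, and the
counter of the position on `X`. -/
def usetE (a₁ a₂ a₃ d e : ℕ) : ER G Unit :=
  sizeE.bind fun _ => (zsetE a₁ a₂ a₃).bind fun _ =>
  (powE (d + 1)).bind fun _ => (cpR (fun _ => .bit true) .R .P).bind fun _ =>
  (emptyR .R).bind fun _ =>
  (powE e).bind fun _ => (cpR (fun _ => .bit false) .R .K).bind fun _ =>
  (emptyR .R).bind fun _ => cpR (fun _ => .bit true) .N .X

/-- The machine in polylogarithmic space: simulate `V` on the virtual word `eword zpar x m`. -/
def unpE (V : TM VB) [Finite V.G] [Finite V.Q] (a₁ a₂ a₃ d e : ℕ) : ER V.G Bool :=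
  (usetE a₁ a₂ a₃ d e).bind fun _ => leftE.bind fun _ => (move .right).bind fun _ =>
  Rout.read.bind fun a =>
    match a with
    | .right => pureR false
    | _ => evalE V

end Unp

/-! ## Programs with fuel -/

section Fuel

variable {A Γ ι X : Type}

/-- The same instruction with larger stack alphabet and more stacks. -/
def liftIns : Ins A Γ ι X → Ins A (Option Γ) (ι ⊕ Bool) X
  | .push i a t => .push (.inl i) (some a) t
  | .pop i f => .pop (.inl i) fun o => f (o.bind id)
  | .read f => .read f
  | .move d t => .move d t
  | .choose f => .choose f
  | .nop t => .nop t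

/-- The routine `R`, where each instruction removes one symbol from the stack `inr false` first; if
this stack is empty, the result is `false`. -/
def guardK [Finite Γ] (R : Rout A Γ ι Bool) : Rout A (Option Γ) (ι ⊕ Bool) Bool :=
  match R.start with
  | .inr b => pureR b
  | .inl σ₀ =>
    have := R.fin
    iter (τ := R.S) (fun σ => (pop (.inr false)).bind fun o =>
      match o with
      | none => pureR (.inr false)
      | some _ => prim (liftIns (R.prog σ))) σ₀

/-- Put one symbol on the stack `inr true` for every move on the way to the right end mark. -/
def fscanK [Finite A] : Rout A (Option Γ) (ι ⊕ Bool) Unit :=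
  iter (τ := Unit) (fun _ => (move .right).bind fun _ => (push (.inr true) none).bind fun _ =>
    Rout.read.bind fun a =>
    match a with
    | .right => pureR (.inr ())
    | _ => pureR (.inl ())) ()

/-- Go to the left end mark. -/
def fleftK [Finite A] : Rout A (Option Γ) (ι ⊕ Bool) Unit :=
  iter (τ := Unit) (fun _ => (move .left).bind fun _ => Rout.read.bind fun a =>
    match a with
    | .left => pureR (.inr ())
    | _ => pureR (.inl ())) ()

/-- Multiply the length of the stack `inr false` with the length of the input plus two. -/
def fmulK [Finite A] [Finite Γ] : Rout A (Option Γ) (ι ⊕ Bool) Unit :=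
  (iter (τ := Unit) (fun _ => (pop (.inr false)).bind fun o =>
    match o with
    | none => pureR (.inr ())
    | some _ => (push (.inr true) none).bind fun _ => fscanK.bind fun _ => fleftK.bind fun _ =>
        pureR (.inl ())) ()).bind fun _ =>
  xferR (fun _ => false) (.inr true) (.inr false)

/-- Put `(n + 2) ^ k` symbols on the stack `inr false`. -/
def fuelK [Finite A] [Finite Γ] (k : ℕ) : Rout A (Option Γ) (ι ⊕ Bool) Unit :=
  (push (.inr false) none).bind fun _ => repeatR fmulK k

end Fuel

end Pool.Agent.Lib.MP_9dcf40_lc
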