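import Pool.Agent.Lib.MP_9dcf40_lc.Kn.SpecS
import Pool.Agent.Lib.MP_9dcf40_lc.Kn.Defs3
import Pool.Agent.Lib.MP_9dcf40_lc.Av.SpecM

/-!
# The end of the proof: statements
-/

namespace Pool.Agent.Lib.MP_9dcf40_lc

open Filter

/-! ## Tables -/

/-- There is a table which is not bad.

Proof. Let `N = 2 ^ (4 m)`. For a fixed `z` and a table `T` let `X T` be the number of agreements minus the number
of disagreements, the sum over `v < N` of `± 1`. With `t = 2 ^ (-m)` the sum of `exp (t * X T)` over all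
`2 ^ N` tables is `(exp t + exp (-t)) ^ N = 2 ^ N (cosh t) ^ N ≤ 2 ^ N exp (N t ^ 2 / 2)`
(`Real.cosh_le_exp_half_sq`; the sum over the tables `Fin N → Bool` of a product is the product of the sums,
`Finset.prod_univ_sum` or `Fintype.prod_sum`; or induction on the length of the list, where the agreement of the
`v`-th entry depends only on the entry). Now `N t ^ 2 / 2 = 2 ^ (2 m - 1)`, and `X T > 2 ^ (3 m)` gives
`t * X T > 2 ^ (2 m)`. So at most `2 ^ N exp (- 2 ^ (2 m - 1))` tables are bad for `z`. There are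
`8 ^ (2 ^ m) = exp (2 ^ m log 8)` words `z`, and `2 ^ m log 8 < 2 ^ (2 m - 1)` for `m ≥ 3` because
`log 8 < 2.08 < 4 ≤ 2 ^ (m - 1)`. So some table is not bad for any `z`. (The agreement counts of the statement are
`Nat.count p N = card of the filter of Finset.range N`, `Nat.count_eq_card_filter_range`.) -/
def StKCher : Prop := ∀ (acc : List DA → ℕ → Prop) (m : ℕ), 3 ≤ m →
  ∃ T : List Bool, T.length = 2 ^ (4 * m) ∧ ¬ BadOf acc m T

/-- The first table.

Proof. By induction on `n ≤ N`: `(tabOf q n).length = n`, and some `T` of length `N` with `G T` starts with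
`tabOf q n`. Step: let `u = tabOf q n`, `T = u ++ a :: T'`. If `q u` then no good table starts with `u ++ [false]`, so
`a = true`, and the next bit of `tabOf` is `true`. If `¬ q u` then there is a good table which starts with
`u ++ [false]`. For `n = N` the table is `tabOf q N` itself. -/
def StKFirst : Prop := ∀ (G : List Bool → Prop) (q : List Bool → Prop) (N : ℕ),
  (∃ T : List Bool, T.length = N ∧ G T) →
  (∀ u : List Bool, u.length < N →
    (q u ↔ ¬ ∃ T : List Bool, T.length = N ∧ (u ++ [false]) <+: T ∧ G T)) →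
  (tabOf q N).length = N ∧ G (tabOf q N)

/-! ## Numbers -/

/-- The clock.

Proof. `log N ≤ 6 m`, so the left side is at most `a (2 ^ (6 m) + 2) (2 s + 1) g ^ (2 s + 1)` with
`s = (6 m) ^ k + k`, whose logarithm is at most a constant times `(m + 1) ^ (k + 1)`, which is at most `m ^ (k + 3)` for
large `m`. Compare `FNumD.lean`. -/
def StKNum1 : Prop := ∀ a g k : ℕ, ∃ d : ℕ, 2 ≤ d ∧ ∀ᶠ m : ℕ in atTop, ∀ N ≤ 2 ^ (6 * m),
  a * (N + 2) * (2 * (Nat.log 2 N ^ k + k) + 1) * g ^ (2 * (Nat.log 2 N ^ k + k) + 1) ≤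
    2 ^ m ^ d

/-- The lengths of the words.

Proof. `|word2 m κ T| = |T| + (4 m + 2 ^ m + 2 ^ (3 m)) + κ + 4`, `|fld3 m u| = 2 ^ (4 m)`,
`|word3 …| = 2 ^ (4 m) + (4 m + 2 ^ m + 2 ^ (3 m)) + κ₂ + κ₃ + 4`; `m ^ d ≤ 2 ^ m` for large `m`, so everything is
at most `2 ^ (6 m)` for large `m`. `Nat.size n ≥ k` if `n ≥ 2 ^ (k - 1)` (`Nat.lt_size`). -/
def StKLen : Prop :=
  (∀ m κ T, (word2 m κ T).length = T.length + (4 * m + 2 ^ m + 2 ^ (3 * m)) + κ + 4) ∧
  (∀ m κ₂ κ₃ u, u.length ≤ 2 ^ (4 * m) →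
    (word3 m κ₂ κ₃ u).length = 2 ^ (4 * m) + (4 * m + 2 ^ m + 2 ^ (3 * m)) + κ₂ + κ₃ + 4) ∧
  (∀ m κ₂ κ₃, (zpar m κ₂ κ₃).length = m + κ₂ + κ₃ + 3) ∧
  (∀ m κ₂ κ₃, (advOf (zpar m κ₂ κ₃)).length = κ₃) ∧
  (∀ m n : ℕ, 2 ^ (4 * m) ≤ n → m ≤ Nat.size n + 1) ∧
  (∀ m κ T, DForm (word2 m κ T) (T.map bitL) (par m) [] κ []) ∧
  (∀ m κ₂ κ₃ u, DForm (word3 m κ₂ κ₃ u) (fld3 m u) (par m) [] κ₃ (List.replicate κ₂ .one)) ∧
  (∀ m z v, (padL (z ++ (lst (4 * m) v).map bitL) (2 * 2 ^ m)).length =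
    z.length + 4 * m + 2 * 2 ^ m) ∧
  ∀ d₂ d₃ : ℕ, ∀ᶠ m : ℕ in atTop,
    2 ^ (4 * m) + (4 * m + 2 ^ m + 2 ^ (3 * m)) + m ^ d₂ + m ^ d₃ + 4 ≤ 2 ^ (6 * m) ∧
    2 ^ m + 4 * m + 2 * 2 ^ m ≤ 2 ^ (6 * m)

/-- Numbers for the hardness.

Proof. Let `λ = size n`, `m = (λ + 1) ^ D`. For large `n`: `log n ≤ λ`, `n < 2 ^ λ`, and with
`b ≤ 2 ^ ((log n) ^ c + c)` we have `log (n + b) + 1 ≤ (log n) ^ c + c + λ + 2 ≤ (λ + 1) ^ (c + 2)`, so
`k (log (n + b) + 1) ^ d ≤ (λ + 1) ^ ((c + 2) d + 1) ≤ m - 1` for `D = (c + 2) (d + 1) + 1`; `C₀ + b + n ≤ 2 ^ m`. Finally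
`4 m ≤ n` for large `n`, since `λ ≤ log n + 1`. See `ENumQ.lean` for similar estimates. -/
def StKNumH : Prop := ∀ c d : ℕ, ∃ D : ℕ, 1 ≤ D ∧ ∀ C₀ k : ℕ, ∀ᶠ n : ℕ in atTop,
  Nat.log 2 n ^ c ≤ (Nat.size n + 1) ^ D ∧ 4 * (Nat.size n + 1) ^ D ≤ n ∧
  1 ≤ (Nat.size n + 1) ^ D ∧
  ∀ b ≤ 2 ^ (Nat.log 2 n ^ c + c), C₀ + b + n ≤ 2 ^ (Nat.size n + 1) ^ D ∧
    2 ^ (k * (Nat.log 2 (n + b) + 1) ^ d) + 2 ≤ 2 ^ (Nat.size n + 1) ^ D

/-! ## Languages -/

/-- Acceptance within the clock (from `StClock`, `StKNum1`).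

Proof. `d` from `StKNum1` with `a = card V.Q`, `g = card V.G`. If `V` accepts `z`, `|z| ≤ 2 ^ (6 m)`, then by `StClock` (with
`s = (log |z|) ^ k + k`) it does so at a time `t < 2 ^ (m ^ d)`. If `out (run t) = some true` then `V` accepts: the run
with the choices `false` is a computation. -/
def StKClk : Prop := ∀ (B : Type) (V : TM B) (k : ℕ), V.IsDet →
  (∀ z, V.SpaceLe z (Nat.log 2 z.length ^ k + k)) → ∃ d : ℕ, 2 ≤ d ∧ ∀ᶠ m : ℕ in atTop,
    ∀ z : List B, z.length ≤ 2 ^ (6 * m) →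
      (V.Accepts z ↔ ∃ t ≤ 2 ^ m ^ d, V.out (V.run z (fun _ => false) t).q = some true)

/-- Complement and removal of the padding (from `StDiag`).

Proof. By the hypothesis `L` is accepted by a deterministic machine `V` with space `(log n) ^ k + k`. `StDiag`, with
`f₃ = []`. -/
def StKUnpad : Prop := Incl InNP InPolyL → ∀ (L : Set (List VB)) (d : ℕ), InNP VB L →
  ∃ D : Set (List DA), InPolyL DA D ∧ ∀ᶠ n : ℕ in atTop, ∀ x : List DA, x.length = n →
    ∀ f₁ f₂ m rest, DForm x f₁ f₂ [] m rest → m ≤ (Nat.size n + 1) ^ d →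
      (x ∈ D ↔ vword x m [] ∉ L)

/-- Level 2 (from `StKNP`, `StKW2`, `StKClk`, `StKUnpad`, `StKGz`, `StKLen`, `StKN`).

Proof. `KN` is in `NP` (`StKN`), so it is accepted by a deterministic machine `V` with space `(log n) ^ k + k`; `d₂` from
`StKClk`. `StKW2` gives `J`, and `StKNP` for the routine `w2R V` and `J` gives the language `L₂`; `D₂` from `StKUnpad` with
`d = d₂`. Let `m` be large and `|T| = 2 ^ (4 m)`, `κ = m ^ d₂`. `vword (word2 m κ T) κ [] ∈ L₂` iff for some `c` the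
inequality of `StKW2` holds for `z = gword (2 ^ m) c []`, iff (`StKGz`) it holds for some `z` of length `2 ^ m`, where
`accV V (2 ^ κ) m z v` is the same as `accKN m z v` (`StKClk`, the length of the word is at most `2 ^ (6 m)`); so iff
`BadK m T`. The length of `word2 m κ T` tends to infinity with `m` (it is at least `m`), and
`κ ≤ (size |word2| + 1) ^ d₂`. -/
def StK2D : Prop := Incl InNP InPolyL → ∃ (d₂ : ℕ) (D₂ : Set (List DA)), InPolyL DA D₂ ∧
  ∀ᶠ m : ℕ in atTop, ∀ T : List Bool, T.length = 2 ^ (4 * m) →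
    (word2 m (m ^ d₂) T ∈ D₂ ↔ ¬ BadK m T)

/-- Level 3 (from `StK2D`, `StKNP`, `StKW3`, `StKClk`, `StKUnpad`, `StKLen`).

Proof. Let `U` be the deterministic machine for `D₂` (`StK2D`), `d₃` from `StKClk`. `StKNP` for the routine `w3R U` gives `L₃`;
`D₃` from `StKUnpad` with `d = d₃`. For large `m`: `vword (word3 m κ₂ κ₃ u) κ₃ [] ∈ L₃` iff for some `c` the machine `U`
accepts `word2 m κ₂ (f c)` within `2 ^ κ₃` steps, iff for some `T` of length `2 ^ (4 m)` with `u <+: T` the word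
`word2 m κ₂ T` is in `D₂` (`StKClk`; its length is at most `2 ^ (6 m)`), iff `ExtK m u`. -/
def StK3D : Prop := Incl InNP InPolyL → ∃ (d₂ d₃ : ℕ) (D₃ : Set (List DA)), InPolyL DA D₃ ∧
  ∀ᶠ m : ℕ in atTop, ∀ u : List Bool, u.length ≤ 2 ^ (4 * m) →
    (word3 m (m ^ d₂) (m ^ d₃) u ∈ D₃ ↔ ¬ ExtK m u)

/-- Level 4 (from `StK3D`, `StKNP`, `StKW4`, `StKClk`, `StKCher`, `StKFirst`, `StKLen`).

Proof. Let `U` be the deterministic machine for `D₃`, `d₄ ≥ 2` from `StKClk`; `StKNP` for the routine `w4R U` gives `L₄` (the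
property `b c` does not depend on `c`). Let `m` be large (so `4 m ≤ m ^ d₄`), `m₄ = m ^ d₄`, and
`q u` the property `∃ t ≤ 2 ^ m₄, U.out (U.run (word3 m κ₂ κ₃ (u ++ [false])) _ t).q = some true`, which for `|u| < 2 ^ (4 m)` is
equivalent to `word3 m κ₂ κ₃ (u ++ [false]) ∈ D₃` (`StKClk`), so to `¬ ExtK m (u ++ [false])`. By `StKCher` there is a
table which is not bad, so by `StKFirst` (with `G T = ¬ BadK m T`) the table `T = tabOf q (2 ^ (4 m))` is not bad. -/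
def StK4L : Prop := Incl InNP InPolyL → ∃ (d₂ d₃ d₄ : ℕ) (L₄ : Set (List VB)), 2 ≤ d₄ ∧
  InNP VB L₄ ∧ ∀ᶠ m : ℕ in atTop, ∃ T : List Bool, T.length = 2 ^ (4 * m) ∧ ¬ BadK m T ∧
    ∀ x : List Bool, 4 * m ≤ x.length →
      (eword (zpar m (m ^ d₂) (m ^ d₃)) x (m ^ d₄) ∈ L₄ ↔
        T[val (x.drop (x.length - 4 * m))]? = some true)

/-- The hard language (from `StK4L`, `StKUnp`, `StCompD`, `StClock`, `StENumD`, `StKLen`).

Proof. Compare `EDiag.lean`. `V` is the deterministic machine for `L₄`, with space `(log n) ^ k + k`. Let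
`a₁ = D`, `a₂ = D d₂`, `a₃ = D d₃`, `d + 1 = D d₄`, `e₁ = D (d₂ + d₃ + 1) + 3`, and `e` from `StENumD` for
`card V.Q`, `card V.G`, `k`, `d`, `e₁`. With `m = (size n + 1) ^ D` the machine which `StCompD` gives for
`unpE V a₁ a₂ a₃ d e` works on the word `eword (zpar m (m ^ d₂) (m ^ d₃)) x (m ^ d₄)`, whose length is at most
`n + 2 (size n + 1) ^ e₁ + 2 ^ ((size n + 1) ^ (d + 1))` for `n ≥ 1` (`size n + 1 ≥ 2`, so `(size n + 1) ^ 3 ≥ 8`). For `n = 0` the length is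
`6 + 2 + 1 = 9`: increase the space bound by a constant. `V` accepts iff it accepts within `2 ^ ((size n + 1) ^ e)` steps
(`StClock`, for large `n`). `m` tends to infinity with `n`, and `4 m ≤ n` for large `n`. -/
def StKL : Prop := Incl InNP InPolyL → ∀ D : ℕ, 1 ≤ D → ∃ L : Set (List Bool), InPolyL Bool L ∧
  ∀ᶠ n : ℕ in atTop, ∃ T : List Bool, T.length = 2 ^ (4 * (Nat.size n + 1) ^ D) ∧
    ¬ BadK ((Nat.size n + 1) ^ D) T ∧ ∀ x : List Bool, x.length = n →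
      (x ∈ L ↔ T[val (x.drop (n - 4 * (Nat.size n + 1) ^ D))]? = some true)

/-- The number of agreements (from `StESk`, `StNorm`, `StUCorr`, `StEOdo`).

Proof. `S` from `StESk` for `M`, `F` from `StNorm` for `S`, `C₀ = (code F).length + 3`. For a word `r` of length `n - 4 m` let
`z = code F # w # eState^j # r` (bits via `bitL`) with `j` such that `|z| = 2 ^ m`. For `s = lst (4 m) v`, `v < 2 ^ (4 m)`, we have
`padL (z ++ s.map bitL) (2 * 2 ^ m) ∈ KN` iff (`StUCorr`, `z ++ s.map bitL = instX F w (eState^j # r s)`) some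
computation of `F` on `pairL (z ++ s.map bitL) w` accepts within `2 * 2 ^ m` steps, iff `M` accepts `pairL (r ++ s) w`
(`StESk`: the start of `M` needs `|code F| + |w| + j + 4 ≤ 2 ^ m + 1` steps, and `M` halts within `t` steps with `t + 2 ≤ 2 ^ m`; see
`EContr.lean` for the same argument). As `T` is not bad for `z`, the numbers `a`, `a'` of agreements and disagreements
satisfy `a ≤ 2 ^ (3 m) + a'`, `a + a' = 2 ^ (4 m)`, so `a ≤ 2 ^ (4 m - 1) + 2 ^ (3 m - 1)` (`m ≥ 1`). The entry number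
`v = val s` of `T` is the value of `L` at `r ++ s`. Sum over the `2 ^ (n - 4 m)` words `r`
(`StEOdo`: `v ↦ lst (4 m) v`, counting; `x ↦ (x.take (n - 4 m), x.drop (n - 4 m))`). -/
def StKHard : Prop := ∀ M : TM (Bool ⊕ Bool), ∃ C₀ : ℕ, ∀ (m n t : ℕ) (T w : List Bool)
  (L : Set (List Bool)), 1 ≤ m → 4 * m ≤ n → T.length = 2 ^ (4 * m) → ¬ BadK m T →
  C₀ + w.length + n ≤ 2 ^ m → t + 2 ≤ 2 ^ m →
  (∀ x : List Bool, x.length = n → M.HaltsIn (pairL x w) t) →
  (∀ x : List Bool, x.length = n → (x ∈ L ↔ T[val (x.drop (n - 4 * m))]? = some true)) →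
  {x : List Bool | x.length = n ∧ (x ∈ L ↔ M.Accepts (pairL x w))}.ncard ≤
    2 ^ (n - 1) + 2 ^ (n - 1 - m)

/-- Main statement (from `StKL`, `StKHard`, `StKNumH`).

Proof. `D` from `StKNumH` for `c`, `d`; `L` from `StKL`. If `L` is in `IoHeurQ (InNQTime d) c` by `B` (machine `M`, time
`2 ^ (k (log + 1) ^ d)`) and `h`, use `StKHard` with `w = h n`, `m = (size n + 1) ^ D`, `t = 2 ^ (k (log (n + |h n|) + 1) ^ d)`: for all
large `n` the number of agreements is at most `2 ^ (n - 1) + 2 ^ (n - 1 - m) ≤ (1 / 2 + (1 / 2) ^ ((log n) ^ c)) 2 ^ n`. See `EMain.lean`. -/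
def StKMain : Prop := Incl InNP InPolyL → ∀ c d : ℕ, ∃ L : Set (List Bool), InPolyL Bool L ∧
  ¬ IoHeurQ (InNQTime d) c Bool L

end Pool.Agent.Lib.MP_9dcf40_lc
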