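import Pool.Agent.Lib.MP_9dcf40_lc.Kn.Spec

/-!
# Statements about the routines

`EndsT J y R s D c Q` (`Kn/Hoare.lean`): the routine `R`, started with the data `D` and the choices `c`
on the input `y`, stops after at most `(s + 10) ^ J` steps, with all stacks of length at most `s` all
the time, and result, data and remaining choices satisfy `Q`. Use `endsT_seq` (with
`J₁ + 1 ≤ J`, `J₂ + 1 ≤ J`), `endsT_iter` (the exponent grows by two, the measure must be at most
`s + 5` at the start), `EndsT.bump` (larger exponent). The exponent `J` of a statement is chosen as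
the sum of the exponents of the parts plus a sufficiently large number.
-/

namespace Pool.Agent.Lib.MP_9dcf40_lc

open Rout

/-! ## Programs with fuel -/

/-- The routine with fuel.

Proof. If `R.start = inr b` both are `pureR b`. Otherwise: claim for all `σ`, `D`, `D₀`, `c` with
`f` fuel symbols, by induction on `f`: the loop started in the state `σ` stops within `3 f + 2` steps
(one `nop`, one `pop` of fuel, one instruction per round), and if
`Exec y R.prog s₀ (inl σ) D₀ c n b₀ D₁ c₁` with `n ≤ f` then the result is `b₀`. One instruction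
(`stepIns` of `liftIns`) keeps the relation `D.st (inl i) = (D₀.st i).map some` and gives the same target
(`head?` of a mapped list; `(o.map some).bind id = o`), and every stack grows by at most one symbol, while the
fuel gets shorter. If the target is `inr b` the loop stops. -/
def StKGuard : Prop := ∀ (A Γ ι : Type) [Finite Γ] [DecidableEq ι] (R : Rout A Γ ι Bool)
  (y : List A) (s f : ℕ) (D : Data (Option Γ) (ι ⊕ Bool)) (D₀ : Data Γ ι) (c : Str), D.le s →
  D.pos = D₀.pos → (∀ i, D.st (.inl i) = (D₀.st i).map some) → (D.st (.inr false)).length = f →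
  ∃ (b : Bool) (D' : Data (Option Γ) (ι ⊕ Bool)) (c' : Str),
    Runs y (guardK R) (s + f) (4 * f + 4) D c b D' c' ∧
    ∀ (s₀ : ℕ) (b₀ : Bool) (D₁ : Data Γ ι) (c₁ : Str), Runs y R s₀ f D₀ c b₀ D₁ c₁ → b = b₀

/-- The generator of fuel (from `StXfer`).

Proof. `fscanK` from position `0`: after `j` rounds the position is `j`, and `j` symbols have been
pushed; it stops after `n + 1` rounds at position `n + 1` (`inSym y (n + 1) = right`). `fleftK` goes to
position `0`. So `fmulK` multiplies the length with `n + 2`; `repeatR`: induction on `J`. All stacks have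
length at most `(n + 2) ^ (J + 1)`, and the time is at most `10 (J + 1) (n + 2) ^ (J + 2)` or so, which is
at most `n ^ k + k` for large `k` (see the end of `UTotal.lean` or `UK.lean` for such a bound). -/
def StKFuel : Prop := ∀ (A Γ ι : Type) [Finite A] [Finite Γ] [DecidableEq ι] (J : ℕ), ∃ k : ℕ,
  ∀ (y : List A) (c : Str), ∃ D' : Data (Option Γ) (ι ⊕ Bool),
    Runs y (fuelK (A := A) (Γ := Γ) (ι := ι) J) (y.length ^ k + k) (y.length ^ k + k) .init c () D' c ∧
    D'.pos = 0 ∧ (∀ i, D'.st (.inl i) = []) ∧ D'.st (.inr true) = [] ∧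
    (D'.st (.inr false)).length = (y.length + 2) ^ J

/-- The language of a routine with time bound on some inputs (from `StKGuard`, `StKFuel`, `StCompN`).

Proof. The routine `R' = (fuelK (7 * J)).bind fun _ => guardK R` stops on every input, for all
choices, within polynomial time (`StKFuel`, `StKGuard` with `D₀ = .init`); let `b' c` be its result. `StCompN`
gives a machine, and `L` is the set of the words accepted by it; `(T + 1) (2 s + 2) ≤ n ^ k' + k'` for
large `k'`. If `EndsT J y R (10 (n + 10)) .init c _` then `R` stops with a result `r` within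
`(10 (n + 10) + 10) ^ J ≤ (n + 2) ^ (7 J)` steps (`10 n + 110 ≤ (n + 2) ^ 7`), so `b' c = r`. -/
def StKNP : Prop := ∀ (A Γ ι : Type) [Finite A] [Finite Γ] [Finite ι] [DecidableEq ι]
  (R : Rout A Γ ι Bool) (J : ℕ), ∃ L : Set (List A), InNP A L ∧
  ∀ (y : List A) (b : Str → Prop),
    (∀ c, EndsT J y R (10 * (y.length + 10)) .init c fun r _ _ => (r = true ↔ b c)) →
    (y ∈ L ↔ ∃ c, b c)

/-! ## Reading -/

/-- Reading.

Proof. `endsT_iter`; invariant: the position is `D.pos + j` with `j ≤ |w|`, the stack `i` is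
`((w.take j).filterMap (putK act i)).reverse ++ D.st i`, and the choices are `c`; measure
`|w| + 1 - j`. After the move the symbol is `inSym y (D.pos + j + 1)`, which is the letter number `j` of
`w ++ y'` (`y.drop D.pos = w ++ y'`), or `right`. -/
def StKRead : Prop := ∃ J : ℕ, ∀ (B G : Type) [Finite B] [Finite G]
  (act : InSym VB → Option (Option (PN × PG B G))) (y w y' : List VB) (s : ℕ)
  (D : Data (PG B G) PN) (c : Str), D.le s → D.pos ≤ y.length → y.drop D.pos = w ++ y' →
  (∀ a ∈ w, act (.letter a) ≠ none) → (∀ a l, y' = a :: l → act (.letter a) = none) →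
  (y' = [] → act .right = none) → (∀ i, (D.st i).length + w.length ≤ s) →
  EndsT J y (readK act) s D c fun _ D' c' => c' = c ∧ D'.pos = D.pos + w.length + 1 ∧
    ∀ i, D'.st i = (w.filterMap (putK act i)).reverse ++ D.st i

/-- Reading the input of level 2 (from `StKRead`).

Proof. Five times `StKRead`, with `w` the letters of the field (`map (inl ∘ some)`), and in the last one
`w` the `2 ^ κ` letters `inl none`, `y' = []`. `vword x m [] = (x.map some ++ replicate (2 ^ m) none).map inl ++ []`. The
position after a field is the position of its `hash`, so `y.drop D.pos` starts behind it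
(`List.drop_append`). `filterMap` of `replicate`, `map` and `++` by `simp`
(`List.filterMap_append`, `List.filterMap_map`, `List.filterMap_replicate`); `bitOf (bitL b) = b`, and `bitL b` is
not `hash`. -/
def StKParse2 : Prop := ∃ J : ℕ, ∀ (G : Type) [Finite G] (m κ s : ℕ) (T : List Bool) (c : Str),
  (vword (word2 m κ T) κ []).length + 1 ≤ s →
  EndsT J (vword (word2 m κ T) κ []) (parse2 (G := G)) s .init c fun _ D' c' => c' = c ∧
    D'.st .T = (T.map .bit).reverse ∧ D'.st .A = List.replicate (4 * m) .mark ∧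
    D'.st .P = List.replicate (2 ^ m) .mark ∧ D'.st .Th = List.replicate (2 ^ (3 * m)) .mark ∧
    D'.st .K = List.replicate (2 ^ κ) .mark ∧
    ∀ i, i ∉ ([.T, .A, .P, .Th, .K] : List PN) → D'.st i = []

/-- Reading the input of level 3 (from `StKRead`). As `StKParse2`. In the last part `w` consists of the
`κ₂` letters `inl (some one)` and the `2 ^ κ₃` letters `inl none`. -/
def StKParse3 : Prop := ∃ J : ℕ, ∀ (G : Type) [Finite G] (m κ₂ κ₃ s : ℕ) (u : List Bool) (c : Str),
  (vword (word3 m κ₂ κ₃ u) κ₃ []).length + 1 ≤ s →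
  EndsT J (vword (word3 m κ₂ κ₃ u) κ₃ []) (parse3 (G := G)) s .init c fun _ D' c' => c' = c ∧
    D'.st .T = ((fld3 m u).map .ltr).reverse ∧ D'.st .B = ((par m).map .ltr).reverse ∧
    D'.st .X = List.replicate κ₂ .mark ∧ D'.st .Q = List.replicate (2 ^ κ₃) .mark ∧
    ∀ i, i ∉ ([.T, .B, .X, .Q] : List PN) → D'.st i = []

/-- Reading the input of level 4 (from `StKRead`). As `StKParse2`. In the last part `w` consists of the
letters of `x`, the `2 ^ m₄` letters `inl none` and the letters `inr _` (they are ignored). -/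
def StKParse4 : Prop := ∃ J : ℕ, ∀ (G : Type) [Finite G] (m κ₂ κ₃ m₄ s : ℕ) (x : List Bool)
  (c : Str), (eword (zpar m κ₂ κ₃) x m₄).length + 1 ≤ s →
  EndsT J (eword (zpar m κ₂ κ₃) x m₄) (parse4 (G := G)) s .init c fun _ D' c' => c' = c ∧
    D'.st .M = List.replicate m .mark ∧ D'.st .X = List.replicate κ₂ .mark ∧
    D'.st .B = List.replicate κ₃ .mark ∧ D'.st .T = (x.map .bit).reverse ∧
    D'.st .K = List.replicate (2 ^ m₄) .mark ∧
    ∀ i, i ∉ ([.M, .X, .B, .T, .K] : List PN) → D'.st i = []

/-! ## Basic routines -/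

/-- Moving and copying stacks.

Proof. `endsT_iter`. `mvK`: invariant: the stack `i` is `l`, `j` is `(l'.map φ).reverse ++ D.st j` with
`D.st i = l' ++ l`, all others are unchanged; measure `|l|`. `mv2K` the same. `cpK`: after `mvK id i H` the
stack `H` is `(D.st i).reverse`, and `mv2K φ H i j` restores `i`. `rcpK` similar. The last part: unfold
`repeatR` for `k = 0, …, 4`. -/
def StKMv : Prop := ∃ J : ℕ, ∀ (B G : Type) [Finite B] [Finite G] (y : List VB) (s : ℕ)
  (D : Data (PG B G) PN) (c : Str), D.le s →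
  (∀ i, EndsT J y (emptyK i) s D c fun _ D' c' => c' = c ∧
    D' = ⟨D.pos, Function.update D.st i []⟩) ∧
  (∀ (φ : PG B G → PG B G) (i j : PN), i ≠ j → (D.st i).length + (D.st j).length ≤ s →
    EndsT J y (mvK φ i j) s D c fun _ D' c' => c' = c ∧ D' = ⟨D.pos, Function.update
      (Function.update D.st i []) j (((D.st i).map φ).reverse ++ D.st j)⟩) ∧
  (∀ (φ : PG B G → PG B G) (i h j : PN), i ≠ h → i ≠ j → h ≠ j →
    (D.st i).length + (D.st h).length ≤ s → (D.st i).length + (D.st j).length ≤ s →
    EndsT J y (mv2K φ i h j) s D c fun _ D' c' => c' = c ∧ D' = ⟨D.pos, Function.update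
      (Function.update (Function.update D.st i []) h ((D.st i).reverse ++ D.st h)) j
      (((D.st i).map φ).reverse ++ D.st j)⟩) ∧
  (∀ (φ : PG B G → PG B G) (i j : PN), i ≠ .H → j ≠ .H → i ≠ j → D.st .H = [] →
    (D.st i).length + (D.st j).length ≤ s →
    EndsT J y (cpK φ i j) s D c fun _ D' c' => c' = c ∧
      D' = ⟨D.pos, Function.update D.st j ((D.st i).map φ ++ D.st j)⟩) ∧
  (∀ (φ : PG B G → PG B G) (i j : PN), i ≠ .H → j ≠ .H → i ≠ j → D.st .H = [] →
    (D.st i).length + (D.st j).length ≤ s →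
    EndsT J y (rcpK φ i j) s D c fun _ D' c' => c' = c ∧
      D' = ⟨D.pos, Function.update D.st j (((D.st i).map φ).reverse ++ D.st j)⟩) ∧
  (∀ (i j : PN) (k n : ℕ), k ≤ 4 → i ≠ .H → j ≠ .H → i ≠ j → D.st .H = [] →
    D.st i = List.replicate n .mark → k * n + (D.st j).length ≤ s →
    EndsT J y (repeatR (cpK id i j) k) s D c fun _ D' c' => c' = c ∧
      D' = ⟨D.pos, Function.update D.st j (List.replicate (k * n) .mark ++ D.st j)⟩)

/-- Counters (from `StKMv`).

Proof. Loop: `D.st i = l.map bit`; invariant: the stack `i` is `l'.map bit`, `H` is `(u.map bit).reverse`, and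
`cstep b l = (u ++ (cstep b l').1, (cstep b l').2)`; measure `|l'|`. Or induction on `l`. Then `mvK id H i`. -/
def StKCnt : Prop := ∃ J : ℕ, ∀ (B G : Type) [Finite B] [Finite G] (y : List VB) (s : ℕ)
  (D : Data (PG B G) PN) (c : Str) (b : Bool) (i : PN) (l : List Bool), D.le s → i ≠ .H →
  D.st .H = [] → D.st i = l.map .bit →
  EndsT J y (cntK b i) s D c fun o D' c' => c' = c ∧ o = (cstep b l).2 ∧
    D' = ⟨D.pos, Function.update D.st i ((cstep b l).1.map .bit)⟩

/-- Doubling and powers (from `StKMv`).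

Proof. `dblK`: the loop `mv2K id j H H` pushes every symbol twice on `H`; invariant: `j` is
`replicate a mark`, `H` is `replicate (2 (n - a)) mark`. `expK`: invariant: `i` has length `k - a`, `j` is
`replicate (2 ^ a) mark`; measure: the length of `i`. -/
def StKExp : Prop := ∃ J : ℕ, ∀ (B G : Type) [Finite B] [Finite G] (y : List VB) (s : ℕ)
  (D : Data (PG B G) PN) (c : Str), D.le s → D.st .H = [] →
  (∀ (j : PN) (n : ℕ), j ≠ .H → D.st j = List.replicate n .mark → 2 * n ≤ s →
    EndsT J y (dblK j) s D c fun _ D' c' => c' = c ∧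
      D' = ⟨D.pos, Function.update D.st j (List.replicate (2 * n) .mark)⟩) ∧
  (∀ (i j : PN) (k : ℕ), i ≠ .H → j ≠ .H → i ≠ j → D.st j = [] → (D.st i).length = k →
    2 ^ k ≤ s → EndsT J y (expK i j) s D c fun _ D' c' => c' = c ∧
      D' = ⟨D.pos, Function.update (Function.update D.st i []) j
        (List.replicate (2 ^ k) .mark)⟩)

/-- Comparison, and two other loops (from `StKMv`, `StKCnt`, `StCount`).

Proof. `endsT_iter`. `cmpK`: invariant: for some `a` the stacks are `(D.st i).drop a`, `(D.st j).drop a`, where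
`a ≤ |D.st i|` and `a ≤ |D.st j|`; measure: the length of the stack `i`. `takeK`: after `a` rounds `T` is
`(D.st T).drop a`, `S` is `((D.st T).take a).reverse ++ D.st S`. `dropK`: invariant: `S` is `l'.map bit`, `C` is
`(D.st C).drop a` with `a + val l' = val l`; underflow iff `val l' = 0`; measure `val l'`. -/
def StKMisc : Prop := ∃ J : ℕ, ∀ (B G : Type) [Finite B] [Finite G] (y : List VB) (s : ℕ)
  (D : Data (PG B G) PN) (c : Str), D.le s →
  (∀ i j, i ≠ j → EndsT J y (cmpK i j) s D c fun o _ c' => c' = c ∧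
    (o = true ↔ (D.st j).length < (D.st i).length)) ∧
  (∀ k, D.st .A = List.replicate k .mark → D.st .F = [] → k ≤ (D.st .T).length →
    (D.st .T).length + (D.st .S).length ≤ s → EndsT J y takeK s D c fun _ D' c' => c' = c ∧
      D' = ⟨D.pos, Function.update (Function.update D.st .T ((D.st .T).drop k)) .S
        (((D.st .T).take k).reverse ++ D.st .S)⟩) ∧
  (∀ l : List Bool, D.st .S = l.map .bit → D.st .H = [] → val l ≤ s →
    EndsT J y dropK s D c fun _ D' c' => c' = c ∧ D'.st .C = (D.st .C).drop (val l) ∧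
      Fr [.C, .S] D D')

/-! ## Guesses -/

/-- Guessing a word.

Proof. `gword n c l = gword n c [] ++ l`, and the first guessed letter is the last one of the word; `d3` is
surjective. For a given `z` of length `n + 1` write `z = z' ++ [a]`, `a = d3 b₁ b₂ b₃`, and prolong the choices for `z'`
by `b₁, b₂, b₃` at the start. The loop: invariant with the present choices `c'`: `P` is
`replicate k mark`, `F` is `replicate (n - k) mark`, `Z` is `l.map ltr` with `gword k c' l = gword n c []`; measure
`k`. -/
def StKGz : Prop := (∀ n c, (gword n c []).length = n) ∧ (∀ z, ∃ c, gword z.length c [] = z) ∧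
  ∃ J : ℕ, ∀ (B G : Type) [Finite B] [Finite G] (y : List VB) (s : ℕ) (D : Data (PG B G) PN)
    (c : Str) (n : ℕ), D.le s → D.st .P = List.replicate n .mark → D.st .Z = [] → D.st .F = [] →
    EndsT J y guessZ s D c fun _ D' _ => D' = ⟨D.pos, Function.update (Function.update
      (Function.update D.st .P []) .F (List.replicate n .mark)) .Z ((gword n c []).map .ltr)⟩

/-- Guessing the rest of a table.

Proof. `gtab (l₁ ++ l₂) c l' = gtab l₂ c' (gtab l₁ c l')` where `c'` are the remaining choices; the reversed word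
starts with `j` letters `eState`, which are replaced by `bitL (c (j - 1)) … bitL (c 0)` (in this order, before `l'`), and
the letters `bitL b` are not changed. So `v = [c (j - 1), …, c 0]`. The loop: invariant with the present
choices `c'`: `T` is `l'.map ltr`, `IR` is `l''.map _ ++ D.st IR` with `gtab l' c' l'' = gtab l c []`; measure
`|l'|`. -/
def StKGt : Prop :=
  (∀ (u : List Bool) (j : ℕ) (c : Str), ∃ v : List Bool, v.length = j ∧
    gtab (u.map bitL ++ List.replicate j DA.eState).reverse c [] = (u ++ v).map bitL) ∧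
  (∀ u v : List Bool, ∃ c : Str,
    gtab (u.map bitL ++ List.replicate v.length DA.eState).reverse c [] = (u ++ v).map bitL) ∧
  ∃ J : ℕ, ∀ (G : Type) [Finite G] (y : List VB) (s : ℕ) (D : Data (PG DA G) PN)
    (c : Str) (l : List DA), D.le s → D.st .T = l.map .ltr → l.length + (D.st .IR).length ≤ s →
    EndsT J y guessT s D c fun _ D' _ => D' = ⟨D.pos, Function.update
      (Function.update D.st .T []) .IR ((gtab l c []).map (fun a => .inp (.letter a)) ++ D.st .IR)⟩

/-! ## Simulation -/

/-- The lists `wl`, `wr` represent the work tape of the configuration. -/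
def WRepK {B : Type} (U : TM B) (cf : Cfg U.Q U.G) (wl wr : List U.G) : Prop :=
  (∀ i : ℕ, cf.T (cf.h + i) = wr[i]?.getD U.blank) ∧
    ∀ i : ℕ, cf.T (cf.h - 1 - i) = wl[i]?.getD U.blank

/-- The stacks represent the configuration; `n` bounds the lengths of the lists for the work
tape. -/
def PRep {B : Type} (U : TM B) (z : List B) (cf : Cfg U.Q U.G) (n : ℕ)
    (D : Data (PG B U.G) PN) : Prop :=
  cf.p ≤ z.length + 1 ∧ D.st .IL = (((itapeK z).take cf.p).reverse).map .inp ∧
  D.st .IR = ((itapeK z).drop cf.p).map .inp ∧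
  ∃ wl wr : List U.G, D.st .WL = wl.map .work ∧ D.st .WR = wr.map .work ∧ WRepK U cf wl wr ∧
    wl.length ≤ n ∧ wr.length ≤ n + 1

/-- The stacks of the simulation. -/
def psSt : List PN := [.IL, .IR, .WL, .WR, .Q]

/-- One step.

Proof. The symbol popped from `IR` is `inp (inSym z cf.p)` (`(itapeK z)[p]? = some (inSym z p)` for
`p ≤ |z| + 1`), the symbol from `WR` is `cf.T cf.h` (blank if the list is empty). Input head: it is
on the right end mark iff `p = |z| + 1`; `IL` is empty iff `p = 0`. Work tape: the new lists are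
`(wl, g :: wr.tail)`, `(g :: wl, wr.tail)`, `(wl.tail, wl.head?.getD blank :: g :: wr.tail)` for `stay`, `right`, `left`;
check `WRepK` (`Function.update`, shifts in `ℤ`) as in `DVStep.wrep_zmove` (`DVStep.lean`). -/
def StKStep : Prop := ∃ J : ℕ, ∀ (B : Type) [Finite B] (U : TM B) [Finite U.G] [Finite U.Q]
  (y : List VB) (s : ℕ) (D : Data (PG B U.G) PN) (c : Str) (z : List B) (cf : Cfg U.Q U.G)
  (n : ℕ), D.le s → PRep U z cf n D → z.length + 3 ≤ s → n + 3 ≤ s → U.out cf.q = none →
  EndsT J y (pstepK U cf.q) s D c fun q D' c' => c' = c ∧ D'.pos = D.pos ∧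
    Fr [.IL, .IR, .WL, .WR] D D' ∧ q = (U.next z false cf).q ∧
    PRep U z (U.next z false cf) (n + 1) D'

/-- The simulation (from `StKStep`).

Proof. `endsT_iter`: invariant after `t` rounds: the state is `(U.run z _ t).q`, `PRep` for `U.run z _ t` with `n = t`, the
length of `Q` is `q₀ - t` with `t ≤ q₀`, no output before time `t`, frame condition; measure: the length of
`Q`. If the machine has stopped at time `t ≤ q₀`, the output does not change later
(`FContr.run_stop` for `TM VB`; the same proof). If `Q` is empty then `t = q₀`, and there was no output up to this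
time. -/
def StKPsim : Prop := ∃ J : ℕ, ∀ (B : Type) [Finite B] (U : TM B) [Finite U.G] [Finite U.Q]
  (y : List VB) (s : ℕ) (D : Data (PG B U.G) PN) (c : Str) (z : List B), D.le s →
  z.length + 3 ≤ s → (D.st .Q).length + 3 ≤ s → D.st .IL = [] →
  D.st .IR = (itapeK z).map .inp → D.st .WL = [] → D.st .WR = [] →
  EndsT J y (psimK U) s D c fun b D' c' => c' = c ∧ D'.pos = D.pos ∧ Fr psSt D D' ∧
    (b = true ↔ ∃ t ≤ (D.st .Q).length, U.out (U.run z (fun _ => false) t).q = some true)

/-! ## Level 2 -/

/-- Preparation of the simulation (from `StKMv`).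

Proof. Composition of `emptyK` (five times), `push`, `cpK`. At the end `IR` is
`left :: (z, letters of sv, 2 ^ m + 2 ^ m letters none, right)`; `padL w r = w.map some ++ replicate r none`. All lengths
are at most the length of the last list. -/
def StKLoad2 : Prop := ∃ J : ℕ, ∀ (G : Type) [Finite G] (y : List VB) (s : ℕ)
  (D : Data (PG (Option DA) G) PN) (c : Str) (z : List DA) (sv : List Bool) (m q : ℕ), D.le s →
  D.st .H = [] → D.st .Z = z.map .ltr → D.st .S = sv.map .bit →
  D.st .F = List.replicate (2 ^ m) .mark → D.st .K = List.replicate q .mark →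
  z.length + sv.length + 2 * 2 ^ m + 2 ≤ s →
  EndsT J y (load2 (G := G)) s D c fun _ D' c' => c' = c ∧ D'.pos = D.pos ∧ Fr psSt D D' ∧
    D'.st .IL = [] ∧ D'.st .IR = (itapeK (padL (z ++ sv.map bitL) (2 * 2 ^ m))).map .inp ∧
    D'.st .WL = [] ∧ D'.st .WR = [] ∧ D'.st .Q = List.replicate q .mark

/-- The main loop of level 2 (from `StKLoad2`, `StKPsim`, `StKCnt`, `StEOdo`, `StCount`).

Proof. `endsT_iter`: invariant for `v ≤ 2 ^ (4 m)`: `U` is `(T.drop v).map bit`, `S` is `(lst (4 m) v).map bit`, `C` is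
`replicate (numK p v) mark`, `Th` is `replicate (N₀ + numK (¬ p) v) mark` with
`p v = (accV V q m z v ↔ T[v]? = some true)`, `H` is empty, `Z`, `F`, `K` as at the start, position and choices unchanged;
measure `|T| - v`. The bit `T[v]` is popped from `U`, the simulation gives `a` with `a = true ↔ accV V q m z v`,
`sameK a (bit T[v])` iff `p v`; `numK p (v + 1) = numK p v + (if p v then 1 else 0)` (`Nat.count_succ`); and
`(cstep true (lst n v)).1 = lst n (v + 1)` for all `v < 2 ^ n` (by `StEOdo`, `StCount`; for `v = 2 ^ n - 1` the new list is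
`lst n 0`, which is `lst n (2 ^ n)`). -/
def StKMain2 : Prop := ∃ J : ℕ, ∀ (V : TM (Option DA)) [Finite V.G] [Finite V.Q] (y : List VB)
  (s : ℕ) (D : Data (PG (Option DA) V.G) PN) (c : Str) (T : List Bool) (z : List DA)
  (m q N₀ : ℕ), D.le s → T.length = 2 ^ (4 * m) → z.length = 2 ^ m → D.st .H = [] →
  D.st .U = T.map .bit → D.st .S = List.replicate (4 * m) (.bit false) → D.st .Z = z.map .ltr →
  D.st .F = List.replicate (2 ^ m) .mark → D.st .K = List.replicate q .mark → D.st .C = [] →
  D.st .Th = List.replicate N₀ .mark → N₀ + 2 ^ (4 * m) + 10 ≤ s →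
  3 * 2 ^ m + 4 * m + 10 ≤ s → q + 10 ≤ s →
  EndsT J y (main2 V) s D c fun _ D' _ =>
    (D'.st .C).length = numK (fun v => accV V q m z v ↔ T[v]? = some true) (2 ^ (4 * m)) ∧
    (D'.st .Th).length =
      N₀ + numK (fun v => ¬ (accV V q m z v ↔ T[v]? = some true)) (2 ^ (4 * m))

/-- The machine of level 2 (from `StKParse2`, `StKMv`, `StKGz`, `StKMain2`, `StKMisc`).

Proof. Composition. The length of the input is `2 ^ (4 m) + (4 m + 2 ^ m + 2 ^ (3 m)) + κ + 4 + 2 ^ κ`. After
`mvK id T U` the stack `U` is `T.map bit`; `S` is `4 m` bits `false`. The first parts do not use choices, so the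
guessed word is `gword (2 ^ m) c []`. -/
def StKW2 : Prop := ∃ J : ℕ, ∀ (V : TM (Option DA)) [Finite V.G] [Finite V.Q] (m κ : ℕ)
  (T : List Bool) (c : Str), T.length = 2 ^ (4 * m) →
  EndsT J (vword (word2 m κ T) κ []) (w2R V)
    (10 * ((vword (word2 m κ T) κ []).length + 10)) .init c fun r _ _ =>
    (r = true ↔ 2 ^ (3 * m) + numK (fun v => ¬ (accV V (2 ^ κ) m (gword (2 ^ m) c []) v ↔
          T[v]? = some true)) (2 ^ (4 * m)) <
      numK (fun v => accV V (2 ^ κ) m (gword (2 ^ m) c []) v ↔ T[v]? = some true) (2 ^ (4 * m)))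

/-! ## Level 3 -/

/-- The machine of level 3 (from `StKParse3`, `StKMv`, `StKGt`, `StKPsim`).

Proof. Composition. `T = ((fld3 m u).map ltr).reverse = ((fld3 m u).reverse).map ltr`, so `guessT` puts
`gtab (fld3 m u).reverse c []` on `IR`, which is `(u ++ v).map bitL` with `|v| = 2 ^ (4 m) - |u|`; let `f c = u ++ v`
(`Classical.choose`, or for all `c` some `v`). `build3` builds `(itapeK (word2 m κ₂ (f c))).map inp` on `IR`, from the end:
`right`, `hash`, `κ₂` times `one`, `hash`, `hash`, the field `par m` (`mvK lsD B IR` reverses `B`), `hash`, the table, `left`. If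
`u <+: T` and `|T| = 2 ^ (4 m)` then `T = u ++ v`, and the second part of `StKGt` gives the choices. -/
def StKW3 : Prop := ∃ J : ℕ, ∀ (U : TM DA) [Finite U.G] [Finite U.Q] (m κ₂ κ₃ : ℕ)
  (u : List Bool), u.length ≤ 2 ^ (4 * m) → ∃ f : Str → List Bool,
  (∀ c, (f c).length = 2 ^ (4 * m) ∧ u <+: f c) ∧
  (∀ T : List Bool, T.length = 2 ^ (4 * m) → u <+: T → ∃ c, f c = T) ∧
  ∀ c : Str, EndsT J (vword (word3 m κ₂ κ₃ u) κ₃ []) (w3R U)
    (10 * ((vword (word3 m κ₂ κ₃ u) κ₃ []).length + 10)) .init c fun r _ _ =>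
    (r = true ↔ ∃ t ≤ 2 ^ κ₃,
      U.out (U.run (word2 m κ₂ (f c)) (fun _ => false) t).q = some true)

/-! ## Level 4 -/

/-- Start of level 4 (from `StKMv`, `StKExp`, `StKMisc`).

Proof. Composition. -/
def StKSetup4 : Prop := ∃ J : ℕ, ∀ (G : Type) [Finite G] (y : List VB) (s : ℕ)
  (D : Data (PG DA G) PN) (c : Str) (m : ℕ) (l : List Bool), D.le s →
  D.st .M = List.replicate m .mark → D.st .T = l.map .bit → 4 * m ≤ l.length →
  D.st .H = [] → D.st .F = [] → D.st .P = [] → D.st .Th = [] → D.st .Z = [] → D.st .A = [] →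
  D.st .S = [] → 2 ^ (4 * m) + 4 * m + 10 ≤ s →
  EndsT J y (setup4 (G := G)) s D c fun _ D' c' => c' = c ∧
    D'.st .P = List.replicate (2 ^ m) .mark ∧ D'.st .Th = List.replicate (2 ^ (3 * m)) .mark ∧
    D'.st .Z = List.replicate (2 ^ (4 * m)) .mark ∧ D'.st .A = List.replicate (4 * m) .mark ∧
    D'.st .S = (l.take (4 * m)).reverse.map .bit ∧ D'.st .F = [] ∧
    Fr [.T, .S, .P, .Th, .Z, .A, .F] D D'

/-- The input word of level 3 (from `StKMv`).

Proof. Composition, compare `StKLoad2`. The word is built from its end. For the first field: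
`replicate (2 ^ (4 m) - (|u| + 1)) eState` (from `Z`), `zero`, and the bits of `u` (`U` has the last bit on top, `rcpK` reverses the
order); this is `fld3 m (u ++ [false])`. -/
def StKLoad4 : Prop := ∃ J : ℕ, ∀ (G : Type) [Finite G] (y : List VB) (s : ℕ)
  (D : Data (PG DA G) PN) (c : Str) (m κ₂ κ₃ q : ℕ) (u : List Bool), D.le s → D.st .H = [] →
  D.st .X = List.replicate κ₂ .mark → D.st .B = List.replicate κ₃ .mark →
  D.st .Th = List.replicate (2 ^ (3 * m)) .mark → D.st .P = List.replicate (2 ^ m) .mark →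
  D.st .A = List.replicate (4 * m) .mark →
  D.st .Z = List.replicate (2 ^ (4 * m) - (u.length + 1)) .mark →
  D.st .U = (u.map .bit).reverse → D.st .K = List.replicate q .mark →
  u.length + 1 ≤ 2 ^ (4 * m) → (word3 m κ₂ κ₃ (u ++ [false])).length + 2 ≤ s →
  EndsT J y (load4 (G := G)) s D c fun _ D' c' => c' = c ∧ D'.pos = D.pos ∧ Fr psSt D D' ∧
    D'.st .IL = [] ∧ D'.st .IR = (itapeK (word3 m κ₂ κ₃ (u ++ [false]))).map .inp ∧
    D'.st .WL = [] ∧ D'.st .WR = [] ∧ D'.st .Q = List.replicate q .mark

/-- The main loop of level 4 (from `StKLoad4`, `StKPsim`).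

Proof. `endsT_iter`: invariant for `n ≤ 2 ^ (4 m)`: `Z` is `replicate (2 ^ (4 m) - n) mark`, `U` is
`((tabOf p n).map bit).reverse`, where `p` is the property in the statement, the other stacks are as at the start except those in `psSt`
(frame condition); measure: the length of `Z`. `(tabOf p n).length = n`. -/
def StKMain4 : Prop := ∃ J : ℕ, ∀ (U : TM DA) [Finite U.G] [Finite U.Q] (y : List VB) (s : ℕ)
  (D : Data (PG DA U.G) PN) (c : Str) (m κ₂ κ₃ q : ℕ), D.le s → D.st .H = [] →
  D.st .X = List.replicate κ₂ .mark → D.st .B = List.replicate κ₃ .mark →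
  D.st .Th = List.replicate (2 ^ (3 * m)) .mark → D.st .P = List.replicate (2 ^ m) .mark →
  D.st .A = List.replicate (4 * m) .mark → D.st .Z = List.replicate (2 ^ (4 * m)) .mark →
  D.st .U = [] → D.st .K = List.replicate q .mark →
  2 ^ (4 * m) + (4 * m + 2 ^ m + 2 ^ (3 * m)) + κ₂ + κ₃ + 10 ≤ s → q + 10 ≤ s →
  EndsT J y (main4 U) s D c fun _ D' c' => c' = c ∧
    D'.st .U = ((tabOf (fun u => ∃ t ≤ q,
      U.out (U.run (word3 m κ₂ κ₃ (u ++ [false])) (fun _ => false) t).q = some true)
      (2 ^ (4 * m))).map .bit).reverse ∧ Fr (.Z :: .U :: psSt) D D'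

/-- The machine of level 4 (from `StKParse4`, `StKSetup4`, `StKMain4`, `StKMv`, `StKMisc`, `StCount`).

Proof. Composition. `T = (x.map bit).reverse = x.reverse.map bit`, `((x.reverse).take (4 m)).reverse = x.drop (|x| - 4 m)`. After
`mvK id U C` the stack `C` is the table; `dropK` removes `v = val (x.drop _)` entries (`v < 2 ^ (4 m)`), and
the top of `C` is the entry number `v`. As `4 m ≤ m₄`, all lengths are at most
`10 (|eword _ _ _| + 10)`. -/
def StKW4 : Prop := ∃ J : ℕ, ∀ (U : TM DA) [Finite U.G] [Finite U.Q] (m κ₂ κ₃ m₄ : ℕ)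
  (x : List Bool) (c : Str), 4 * m ≤ m₄ → 4 * m ≤ x.length →
  EndsT J (eword (zpar m κ₂ κ₃) x m₄) (w4R U)
    (10 * ((eword (zpar m κ₂ κ₃) x m₄).length + 10)) .init c fun r _ _ =>
    (r = true ↔ (tabOf (fun u => ∃ t ≤ 2 ^ m₄,
      U.out (U.run (word3 m κ₂ κ₃ (u ++ [false])) (fun _ => false) t).q = some true)
      (2 ^ (4 * m)))[val (x.drop (x.length - 4 * m))]? = some true)

/-! ## The machine in polylogarithmic space -/

/-- Start phase (from `StESize`, `StEPow`, `StERules`, `StETape`, `StCount`). Composition, compare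
`ESetup.lean`. -/
def StKUset : Prop := ∀ (G : Type) [Finite G] (x : List Bool) (s a₁ a₂ a₃ d e : ℕ),
  (zpar ((Nat.size x.length + 1) ^ a₁) ((Nat.size x.length + 1) ^ a₂)
    ((Nat.size x.length + 1) ^ a₃)).length + 1 ≤ s →
  (Nat.size x.length + 1) ^ (d + 1) ≤ s → (Nat.size x.length + 1) ^ e ≤ s →
  Nat.size x.length + 1 ≤ s →
  Ends x (usetE (G := G) a₁ a₂ a₃ d e) s .init fun _ D' => D'.pos = x.length + 1 ∧
    D'.st .T = [] ∧ (D'.st .P).length = (Nat.size x.length + 1) ^ (d + 1) ∧
    (D'.st .X).length = Nat.size x.length ∧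
    (D'.st .K).length = (Nat.size x.length + 1) ^ e ∧ D'.st .Y = [] ∧
    D'.st .Z = (zpar ((Nat.size x.length + 1) ^ a₁) ((Nat.size x.length + 1) ^ a₂)
      ((Nat.size x.length + 1) ^ a₃)).map .ltr

/-- The machine (from `StKUset`, `StETape`, `StELoad`, `StESim`).

Proof. Composition. After `leftE` and one move the position is `1`, and the symbol is `right` iff `x = []`.
Otherwise `evalE V`, with `z = zpar …`, `h = s = []` in `EPre`, `StELoad`, `StESim` (`[] ++ x.drop 0 = x`; `0 < x.length`;
`x.length < 2 ^ size x.length`). `EAcc V x m k z []` is the right side. -/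
def StKUnp : Prop := ∀ (V : TM VB) [Finite V.G] [Finite V.Q] (x : List Bool)
  (s sV a₁ a₂ a₃ d e : ℕ),
  (zpar ((Nat.size x.length + 1) ^ a₁) ((Nat.size x.length + 1) ^ a₂)
    ((Nat.size x.length + 1) ^ a₃)).length + 1 ≤ s →
  (Nat.size x.length + 1) ^ (d + 1) ≤ s → (Nat.size x.length + 1) ^ e ≤ s →
  Nat.size x.length + 1 ≤ s → sV + 2 ≤ s →
  V.SpaceLe (eword (zpar ((Nat.size x.length + 1) ^ a₁) ((Nat.size x.length + 1) ^ a₂)
    ((Nat.size x.length + 1) ^ a₃)) x ((Nat.size x.length + 1) ^ (d + 1))) sV →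
  Ends x (unpE V a₁ a₂ a₃ d e) s .init fun b _ => x ≠ [] →
    (b = true ↔ ∃ t < 2 ^ (Nat.size x.length + 1) ^ e,
      V.out (V.run (eword (zpar ((Nat.size x.length + 1) ^ a₁) ((Nat.size x.length + 1) ^ a₂)
        ((Nat.size x.length + 1) ^ a₃)) x ((Nat.size x.length + 1) ^ (d + 1)))
        (fun _ => false) t).q = some true)

end Pool.Agent.Lib.MP_9dcf40_lc
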