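import Pool.Agent.Lib.MP_9dcf40_lc.Kn.SpecM

/-!
# Short forms of the rules for `EndsT`
-/

namespace Pool.Agent.Lib.MP_9dcf40_lc

open Rout

namespace KTools

theorem data_ext {Γ ι : Type} {D D' : Data Γ ι} (h : D.pos = D'.pos)
    (h' : ∀ k, D.st k = D'.st k) : D = D' := by
  cases D
  cases D'
  simp only at h h'
  subst h
  exact congrArg _ (funext h')

section

variable {A Γ ι β γ : Type} [DecidableEq ι] {x : List A} {s J J₂ : ℕ} {D : Data Γ ι} {c : Str}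
  {Q : γ → Data Γ ι → Str → Prop}

/-- First `pop`. -/
theorem pop_seq [Finite Γ] (i : ι) {f : Option Γ → Rout A Γ ι γ} (hJ : J₂ + 1 ≤ J) (hD : D.le s)
    (h : (⟨D.pos, Function.update D.st i (D.st i).tail⟩ : Data Γ ι).le s →
      EndsT J₂ x (f (D.st i).head?) s ⟨D.pos, Function.update D.st i (D.st i).tail⟩ c Q) :
    EndsT J x ((pop i).bind f) s D c Q := by
  refine endsT_seq (J₁ := 0) (J₂ := J₂) (by omega) hJ (P := fun o D' c' => c' = c ∧
    o = (D.st i).head? ∧ D' = ⟨D.pos, Function.update D.st i (D.st i).tail⟩)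
    (endsT_pop i hD ⟨rfl, rfl, rfl⟩) ?_
  rintro o D' c' hD' ⟨rfl, rfl, rfl⟩
  exact h hD'

/-- First `push`. -/
theorem push_seq (i : ι) (a : Γ) {f : Unit → Rout A Γ ι γ} (hJ : J₂ + 1 ≤ J) (hD : D.le s)
    (hs : (D.st i).length + 1 ≤ s)
    (h : (⟨D.pos, Function.update D.st i (a :: D.st i)⟩ : Data Γ ι).le s →
      EndsT J₂ x (f ()) s ⟨D.pos, Function.update D.st i (a :: D.st i)⟩ c Q) :
    EndsT J x ((push i a).bind f) s D c Q := by
  refine endsT_seq (J₁ := 0) (J₂ := J₂) (by omega) hJ (P := fun _ D' c' => c' = c ∧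
    D' = ⟨D.pos, Function.update D.st i (a :: D.st i)⟩)
    (endsT_push i a hD hs ⟨rfl, rfl⟩) ?_
  rintro o D' c' hD' ⟨rfl, rfl⟩
  exact h hD'

/-- First `choose`. -/
theorem choose_seq {f : Bool → Rout A Γ ι γ} (hJ : J₂ + 1 ≤ J) (hD : D.le s)
    (h : EndsT J₂ x (f (c 0)) s D (fun n => c (n + 1)) Q) :
    EndsT J x (choose.bind f) s D c Q := by
  refine endsT_seq (J₁ := 0) (J₂ := J₂) (by omega) hJ (P := fun b D' c' => b = c 0 ∧ D' = D ∧
    c' = fun n => c (n + 1))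
    (endsT_choose hD ⟨rfl, rfl, rfl⟩) ?_
  rintro o D' c' hD' ⟨rfl, rfl, rfl⟩
  exact h

/-- First `move`. -/
theorem move_seq (dir : Dir) {f : Unit → Rout A Γ ι γ} (hJ : J₂ + 1 ≤ J) (hD : D.le s)
    (h : EndsT J₂ x (f ()) s ⟨movePos x.length dir D.pos, D.st⟩ c Q) :
    EndsT J x ((move dir).bind f) s D c Q := by
  refine endsT_seq (J₁ := 0) (J₂ := J₂) (by omega) hJ (P := fun _ D' c' => c' = c ∧
    D' = ⟨movePos x.length dir D.pos, D.st⟩)
    (endsT_move dir hD ⟨rfl, rfl⟩) ?_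
  rintro o D' c' hD' ⟨rfl, rfl⟩
  exact h

/-- First `read`. -/
theorem read_seq [Finite A] {f : InSym A → Rout A Γ ι γ} (hJ : J₂ + 1 ≤ J) (hD : D.le s)
    (h : EndsT J₂ x (f (inSym x D.pos)) s D c Q) :
    EndsT J x (Rout.read.bind f) s D c Q := by
  refine endsT_seq (J₁ := 0) (J₂ := J₂) (by omega) hJ (P := fun b D' c' => c' = c ∧
    b = inSym x D.pos ∧ D' = D) (endsT_read hD ⟨rfl, rfl, rfl⟩) ?_
  rintro o D' c' hD' ⟨rfl, rfl, rfl⟩
  exact h

/-- First a routine whose result data are known. -/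
theorem step_seq [Finite β] {J₁ : ℕ} {p : Rout A Γ ι β} {f : β → Rout A Γ ι γ}
    {b : β} {D₁ : Data Γ ι} (hJ : J₁ + 1 ≤ J) (hJ' : J₂ + 1 ≤ J)
    (hp : EndsT J₁ x p s D c fun b' D' c' => c' = c ∧ b' = b ∧ D' = D₁)
    (h : D₁.le s → EndsT J₂ x (f b) s D₁ c Q) : EndsT J x (p.bind f) s D c Q := by
  refine endsT_seq hJ hJ' hp ?_
  rintro b' D' c' hD' ⟨rfl, rfl, rfl⟩
  exact h hD'

/-- First a routine with result in `Unit` whose result data are known. -/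
theorem unit_seq {J₁ : ℕ} {p : Rout A Γ ι Unit} {f : Unit → Rout A Γ ι γ}
    {D₁ : Data Γ ι} (hJ : J₁ + 1 ≤ J) (hJ' : J₂ + 1 ≤ J)
    (hp : EndsT J₁ x p s D c fun _ D' c' => c' = c ∧ D' = D₁)
    (h : D₁.le s → EndsT J₂ x (f ()) s D₁ c Q) : EndsT J x (p.bind f) s D c Q := by
  refine endsT_seq hJ hJ' hp ?_
  rintro b' D' c' hD' ⟨rfl, rfl⟩
  exact h hD'

/-- First a routine with result in `Unit` whose result data are known, in another form. -/
theorem unit_seq' {J₁ : ℕ} {p : Rout A Γ ι Unit} {f : Unit → Rout A Γ ι γ}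
    {D₁ : Data Γ ι} (D₂ : Data Γ ι) (hJ : J₁ + 1 ≤ J) (hJ' : J₂ + 1 ≤ J)
    (hp : EndsT J₁ x p s D c fun _ D' c' => c' = c ∧ D' = D₁) (he : D₁ = D₂)
    (h : D₂.le s → EndsT J₂ x (f ()) s D₂ c Q) : EndsT J x (p.bind f) s D c Q := by
  subst he
  exact unit_seq hJ hJ' hp h

/-- Go on with the loop. -/
theorem pure_inl {τ : Type} {I : τ → Data Γ ι → Str → Prop} {μ : ℕ} {μ' : τ → Data Γ ι → ℕ}
    {Q : γ → Data Γ ι → Str → Prop} (t : τ)
    (hD : D.le s) (hI : I t D c) (hμ : μ' t D < μ) :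
    EndsT J x (pureR (.inl t) : Rout A Γ ι (τ ⊕ γ)) s D c fun r D' c' =>
      (∀ t', r = .inl t' → I t' D' c' ∧ μ' t' D' < μ) ∧ ∀ b, r = .inr b → Q b D' c' := by
  refine endsT_pure _ hD ⟨fun t' ht => ?_, fun b hb => absurd hb (by simp)⟩
  simp only [Sum.inl.injEq] at ht
  subst ht
  exact ⟨hI, hμ⟩

/-- Stop the loop. -/
theorem pure_inr {τ : Type} {I : τ → Data Γ ι → Str → Prop} {μ : ℕ} {μ' : τ → Data Γ ι → ℕ}
    {Q : γ → Data Γ ι → Str → Prop} (b : γ) (hD : D.le s) (hQ : Q b D c) :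
    EndsT J x (pureR (.inr b) : Rout A Γ ι (τ ⊕ γ)) s D c fun r D' c' =>
      (∀ t', r = .inl t' → I t' D' c' ∧ μ' t' D' < μ) ∧ ∀ b, r = .inr b → Q b D' c' := by
  refine endsT_pure _ hD ⟨fun t' ht => absurd ht (by simp), fun b' hb => ?_⟩
  simp only [Sum.inr.injEq] at hb
  subst hb
  exact hQ

end

end KTools

end Pool.Agent.Lib.MP_9dcf40_lc
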